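import Pool.Agent.Lib.MP_0b721b_ag.Poly

/-!
Cyclic modules `P / I`: line bundles act, base change of line bundles, the exact sequences
`0 → P/(I : a) (-δ) → P/I → P/(I + a) → 0`.
-/

namespace Pool.Agent.Lib.MP_0b721b_ag

open MvPolynomial

section gmod

variable {A : Type*} [CommRing A] {σ : Type*} {w : σ → ℤ}
  {M : Type*} [AddCommGroup M] [Module (MvPolynomial σ A) M]

/-- homogeneous polynomials act as operators of their degree -/
def GMod (w : σ → ℤ) (g : Gr M) : Prop :=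
  ∀ (e : ℤ) (f : MvPolynomial σ A), (polyGr A w).Hom e f → g.Op f e

theorem polyGr_gmod (w : σ → ℤ) : GMod (A := A) w (polyGr A w) := fun _ _ h => polyGr_op h

theorem GMod.quot {g : Gr M} (h : GMod (A := A) w g) (W : Submodule (MvPolynomial σ A) M)
    (hW : g.Sub W) : GMod (A := A) w (g.quot W hW) := fun e f hf => g.quot_op W hW (h e f hf)

variable {α : Type*} [LinearOrder α] {D : Dat (MvPolynomial σ A) α} {I : Ideal (MvPolynomial σ A)}

omit [LinearOrder α] in
theorem Dat.Lb.ok (h : D.Lb w I) {g : Gr M} (hg : GMod (A := A) w g)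
    (hI : ∀ a ∈ I, ∀ m : M, a • m = 0) : D.Ok g where
  opf a := hg _ _ (h.hf a)
  opv a b := hg _ _ (h.hv a b)
  self a m := by
    obtain ⟨e, he⟩ := h.self a
    refine ⟨e, ?_⟩
    have := hI _ he m
    rw [mul_smul, sub_smul, smul_sub, sub_eq_zero] at this
    exact this
  cocy a b c m := by
    obtain ⟨e, he⟩ := h.cocy a b c
    refine ⟨e, ?_⟩
    have := hI _ he m
    rw [mul_smul, sub_smul, smul_sub, sub_eq_zero] at this
    exact this

end gmod

section cyc

variable {A : Type*} [CommRing A] {σ : Type*} {w : σ → ℤ} {α : Type*} [LinearOrder α]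
  {D : Dat (MvPolynomial σ A) α} {I I' : Ideal (MvPolynomial σ A)}

/-- the grading of `P / I` -/
noncomputable def cyc (w : σ → ℤ) (I : Ideal (MvPolynomial σ A)) (hI : (polyGr A w).Sub I) :
    Gr (MvPolynomial σ A ⧸ I) :=
  (polyGr A w).quot I hI

theorem cyc_gmod (hI : (polyGr A w).Sub I) : GMod (A := A) w (cyc w I hI) :=
  (polyGr_gmod w).quot I hI

omit [LinearOrder α] in
theorem Dat.Lb.okc (h : D.Lb w I) (hI : (polyGr A w).Sub I) : D.Ok (cyc w I hI) :=
  h.ok (cyc_gmod hI) (fun a ha m => by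
    obtain ⟨m, rfl⟩ := Submodule.Quotient.mk_surjective I m
    rw [← Submodule.Quotient.mk_smul, Submodule.Quotient.mk_eq_zero, smul_eq_mul]
    exact Ideal.mul_mem_right _ _ ha)

omit [LinearOrder α] in
theorem Dat.Lb.mono (h : D.Lb w I) (hII : I ≤ I') : D.Lb w I' where
  pos := h.pos
  hf := h.hf
  hv := h.hv
  self a := by
    obtain ⟨e, he⟩ := h.self a
    exact ⟨e, hII he⟩
  cocy a b c := by
    obtain ⟨e, he⟩ := h.cocy a b c
    exact ⟨e, hII he⟩
  cov i := by
    obtain ⟨e, he⟩ := h.cov i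
    exact ⟨e, sup_le_sup_right hII _ he⟩

omit [LinearOrder α] in
theorem Dat.GG.mono {u : ℤ} (h : D.GG w I u) (hII : I ≤ I') : D.GG w I' u := by
  obtain ⟨T, r, ε, h1, h2, h3⟩ := h
  refine ⟨T, r, ε, h1, fun j a b => ?_, fun a => ?_⟩
  · obtain ⟨e, he⟩ := h2 j a b
    exact ⟨e, hII he⟩
  · obtain ⟨e, he⟩ := h3 a
    exact ⟨e, sup_le_sup_left hII _ he⟩

omit [LinearOrder α] in
theorem Dat.Amp.mono {n : ℤ} (h : D.Amp w I n) (hII : I ≤ I') : D.Amp w I' n := by
  obtain ⟨n₀, u, h1, h2, h3⟩ := h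
  exact ⟨n₀, u, h1, h2, h3.mono hII⟩

omit [LinearOrder α] in
theorem Dat.Amp.le {n n' : ℤ} (h : D.Amp w I n) (hn : n ≤ n') : D.Amp w I n' := by
  obtain ⟨n₀, u, h1, h2, h3⟩ := h
  refine ⟨n₀, u, h1, h2.trans_le ?_, h3⟩
  exact mul_le_mul_of_nonneg_left hn (by positivity)

omit [LinearOrder α] in
theorem Dat.Lb.pw (h : D.Lb w I) (b : ℕ) : (D.pw b).Lb w I where
  pos := h.pos
  hf := h.hf
  hv x y := by
    have := polyGr_pow (h.hv x y) b
    change (polyGr A w).Hom (((b * D.t : ℕ) : ℤ) * (D.d x + D.d y)) (D.v x y ^ b)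
    convert this using 1
    push_cast
    ring
  self a := by
    obtain ⟨e, he⟩ := h.self a
    refine ⟨e, ?_⟩
    change D.f a ^ e * (D.v a a ^ b - D.f a ^ (2 * (b * D.t))) ∈ I
    have h1 : D.f a ^ (2 * (b * D.t)) = (D.f a ^ (2 * D.t)) ^ b := by
      rw [← pow_mul]
      congr 1
      ring
    rw [h1]
    obtain ⟨c, hc⟩ := sub_dvd_pow_sub_pow (D.v a a) (D.f a ^ (2 * D.t)) b
    rw [hc, ← mul_assoc]
    exact Ideal.mul_mem_right _ _ he
  cocy x y z := by
    obtain ⟨e, he⟩ := h.cocy x y z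
    refine ⟨e, ?_⟩
    change (D.f x * D.f y * D.f z) ^ e *
      (D.v x y ^ b * D.v y z ^ b - D.v x z ^ b * D.f y ^ (2 * (b * D.t))) ∈ I
    have h1 : D.v x y ^ b * D.v y z ^ b - D.v x z ^ b * D.f y ^ (2 * (b * D.t)) =
        (D.v x y * D.v y z) ^ b - (D.v x z * D.f y ^ (2 * D.t)) ^ b := by
      rw [mul_pow, mul_pow, ← pow_mul]
      congr 3
      ring
    rw [h1]
    obtain ⟨c, hc⟩ := sub_dvd_pow_sub_pow (D.v x y * D.v y z) (D.v x z * D.f y ^ (2 * D.t)) b
    rw [hc, ← mul_assoc]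
    exact Ideal.mul_mem_right _ _ he
  cov := h.cov

/-- base change of the data along a ring map -/
def Dat.map {S S' : Type*} [CommRing S] [CommRing S'] {α : Type*} (D : Dat S α) (j : S →+* S') :
    Dat S' α where
  f a := j (D.f a)
  d := D.d
  t := D.t
  v a b := j (D.v a b)

/-- base change of the data along a map of the coefficients -/
noncomputable abbrev Dat.bc {A A' : Type*} [CommRing A] [CommRing A'] {σ α : Type*}
    (D : Dat (MvPolynomial σ A) α) (φ : A →+* A') : Dat (MvPolynomial σ A') α :=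
  D.map (MvPolynomial.map φ)

variable {A' : Type*} [CommRing A'] (φ : A →+* A')

omit [LinearOrder α] in
theorem Dat.map_pw {S S' : Type*} [CommRing S] [CommRing S'] (D : Dat S α) (j : S →+* S') (b : ℕ) :
    (D.map j).pw b = (D.pw b).map j := by
  unfold Dat.map Dat.pw
  simp only [map_pow]

omit [LinearOrder α] in
theorem Dat.Lb.map (h : D.Lb w I) : (D.map (MvPolynomial.map φ)).Lb w
    (I.map (MvPolynomial.map φ)) where
  pos := h.pos
  hf a := polyGr_map_hom φ (h.hf a)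
  hv a b := polyGr_map_hom φ (h.hv a b)
  self a := by
    obtain ⟨e, he⟩ := h.self a
    refine ⟨e, ?_⟩
    have := Ideal.mem_map_of_mem (MvPolynomial.map φ) he
    simp only [map_mul, map_sub, map_pow] at this
    exact this
  cocy a b c := by
    obtain ⟨e, he⟩ := h.cocy a b c
    refine ⟨e, ?_⟩
    have := Ideal.mem_map_of_mem (MvPolynomial.map φ) he
    simp only [map_mul, map_sub, map_pow] at this
    exact this
  cov i := by
    obtain ⟨e, he⟩ := h.cov i
    refine ⟨e, ?_⟩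
    have := Ideal.mem_map_of_mem (MvPolynomial.map φ) he
    rw [Ideal.map_sup, Ideal.map_span, ← Set.range_comp] at this
    simp only [map_pow, map_X] at this
    exact this

omit [LinearOrder α] in
theorem Dat.GG.map {u : ℤ} (h : D.GG w I u) :
    (D.map (MvPolynomial.map φ)).GG w (I.map (MvPolynomial.map φ)) u := by
  obtain ⟨T, r, ε, h1, h2, h3⟩ := h
  refine ⟨T, r, fun j a => MvPolynomial.map φ (ε j a), fun j a => polyGr_map_hom φ (h1 j a),
    fun j a b => ?_, fun a => ?_⟩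
  · obtain ⟨e, he⟩ := h2 j a b
    refine ⟨e, ?_⟩
    have := Ideal.mem_map_of_mem (MvPolynomial.map φ) he
    simp only [map_mul, map_sub, map_pow] at this
    exact this
  · obtain ⟨e, he⟩ := h3 a
    refine ⟨e, ?_⟩
    have := Ideal.mem_map_of_mem (MvPolynomial.map φ) he
    rw [Ideal.map_sup, Ideal.map_span, ← Set.range_comp] at this
    simp only [map_pow] at this
    exact this

omit [LinearOrder α] in
theorem Dat.Amp.map {n : ℤ} (h : D.Amp w I n) :
    (D.map (MvPolynomial.map φ)).Amp w (I.map (MvPolynomial.map φ)) n := by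
  obtain ⟨n₀, u, h1, h2, h3⟩ := h
  refine ⟨n₀, u, h1, h2, ?_⟩
  rw [Dat.map_pw]
  exact h3.map φ

/-- the ideal quotient `I : a` -/
def qi {S : Type*} [CommRing S] (I : Ideal S) (a : S) : Ideal S :=
  Submodule.comap (LinearMap.lsmul S S a) I

theorem mem_qi {S : Type*} [CommRing S] {I : Ideal S} {a f : S} : f ∈ qi I a ↔ a * f ∈ I := Iff.rfl

theorem le_qi {S : Type*} [CommRing S] (I : Ideal S) (a : S) : I ≤ qi I a := fun _ hf =>
  mem_qi.2 (Ideal.mul_mem_left _ _ hf)

theorem qi_sub (hI : (polyGr A w).Sub I) {a : MvPolynomial σ A} {δ : ℤ}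
    (ha : (polyGr A w).Hom δ a) : (polyGr A w).Sub (qi I a) := by
  intro n m hm
  rw [mem_qi] at *
  have h1 := polyGr_op ha n m
  rw [smul_eq_mul, smul_eq_mul] at h1
  rw [← h1]
  exact hI _ _ hm

theorem sup_span_sub (hI : (polyGr A w).Sub I) {a : MvPolynomial σ A} {δ : ℤ}
    (ha : (polyGr A w).Hom δ a) : (polyGr A w).Sub (I ⊔ Ideal.span {a} : Ideal _) :=
  Gr.sub_sup hI (polyGr_sub_span (by
    intro x hx
    rw [Set.mem_singleton_iff] at hx
    subst hx
    exact ⟨δ, ha⟩))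

/-- the exact sequence `0 → P/I₁ (-δ) → P/I → P/I₂ → 0` when `I₁ = (I : a)`, `I₂ = I + (a)` -/
theorem gses_of (hI : (polyGr A w).Sub I) {I₁ I₂ : Ideal (MvPolynomial σ A)}
    (hI₁ : (polyGr A w).Sub I₁) (hI₂ : (polyGr A w).Sub I₂) {a : MvPolynomial σ A} {δ : ℤ}
    (ha : (polyGr A w).Hom δ a) (h₁ : ∀ f, a * f ∈ I ↔ f ∈ I₁) (h₂ : I₂ = I ⊔ Ideal.span {a}) :
    ∃ (φ : (MvPolynomial σ A ⧸ I₁) →ₗ[MvPolynomial σ A] (MvPolynomial σ A ⧸ I))
      (ψ : (MvPolynomial σ A ⧸ I) →ₗ[MvPolynomial σ A] (MvPolynomial σ A ⧸ I₂)),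
      GSES (cyc w I₁ hI₁) (cyc w I hI) (cyc w I₂ hI₂) δ φ ψ ∧
      ∀ f, φ (Submodule.Quotient.mk f) = Submodule.Quotient.mk (a * f) := by
  have hle : I ≤ I₂ := h₂ ▸ le_sup_left
  refine ⟨Submodule.mapQ I₁ I (LinearMap.lsmul _ _ a) (fun f hf => (h₁ f).2 hf),
    Submodule.mapQ I I₂ LinearMap.id (fun f hf => hle hf), ⟨?_, ?_, ?_, ?_, ?_⟩, fun f => rfl⟩
  · rw [injective_iff_map_eq_zero]
    intro z hz
    obtain ⟨f, rfl⟩ := Submodule.Quotient.mk_surjective I₁ z
    rw [Submodule.mapQ_apply, Submodule.Quotient.mk_eq_zero] at hz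
    rw [Submodule.Quotient.mk_eq_zero]
    exact (h₁ f).1 hz
  · intro z
    obtain ⟨f, rfl⟩ := Submodule.Quotient.mk_surjective I z
    rw [Submodule.mapQ_apply, Submodule.Quotient.mk_eq_zero, LinearMap.id_apply, h₂]
    constructor
    · intro h
      obtain ⟨x, hx, y, hy, hxy⟩ := Submodule.mem_sup.1 h
      obtain ⟨c, rfl⟩ := Ideal.mem_span_singleton'.1 hy
      refine ⟨Submodule.Quotient.mk c, ?_⟩
      rw [Submodule.mapQ_apply]
      apply (Submodule.Quotient.eq I).2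
      rw [← hxy]
      change a * c - (x + c * a) ∈ I
      have : a * c - (x + c * a) = -x := by ring
      rw [this]
      exact neg_mem hx
    · rintro ⟨y, hy⟩
      obtain ⟨c, rfl⟩ := Submodule.Quotient.mk_surjective I₁ y
      rw [Submodule.mapQ_apply] at hy
      have h := (Submodule.Quotient.eq I).1 hy
      have e : f = -(a * c - f) + c * a := by ring
      rw [e]
      exact Submodule.add_mem_sup (neg_mem h) (Ideal.mem_span_singleton'.2 ⟨c, rfl⟩)
  · intro z
    obtain ⟨f, rfl⟩ := Submodule.Quotient.mk_surjective I₂ z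
    exact ⟨Submodule.Quotient.mk f, rfl⟩
  · intro n m
    obtain ⟨f, rfl⟩ := Submodule.Quotient.mk_surjective I₁ m
    have h := polyGr_op ha n f
    exact (congrArg (Submodule.Quotient.mk (p := I)) h).symm
  · intro n m
    obtain ⟨f, rfl⟩ := Submodule.Quotient.mk_surjective I m
    rfl

/-- the module zero -/
theorem HV.top (hI : (polyGr A w).Sub I) (ht : I = ⊤) (n : ℤ) (p : ℕ) (D : Dat (MvPolynomial σ A) α) :
    HV D (cyc w I hI) n p := by
  intro z hz hz'
  have hs : Subsingleton (MvPolynomial σ A ⧸ I) := Submodule.Quotient.subsingleton_iff.2 ht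
  have h0 : ∀ (J : Finset α) (x y : Loc (D.fJ J) (MvPolynomial σ A ⧸ I)), x = y := by
    intro J x y
    obtain ⟨m, m', k, rfl, rfl⟩ := fr_surj₂ x y
    rw [Subsingleton.elim m m']
  exact ⟨z, hz, fun J _ => h0 J _ _⟩

end cyc

end Pool.Agent.Lib.MP_0b721b_ag
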