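import Pool.Agent.Lib.MP_0b721b_ag.Tw

/-!
The grading of the fractions; vanishing of the twisted Cech cohomology in one degree; maps between
twisted Cech complexes; exact sequences.
-/

namespace Pool.Agent.Lib.MP_0b721b_ag

open Finset

section locgr

variable {S : Type*} [CommRing S] {M : Type*} [AddCommGroup M] [Module S M]

/-- the grading of the fractions -/
def locGr (g : Gr M) {s : S} {d : ℤ} (hs : g.Op s d) : Gr (Loc s M) where
  pr n := AddMonoidHom.mk' (locLift (s := s) (M := M)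
    (fun m k => fr s (g.pr (n + k * d) m) k) (by
      intro m m' k k' j h
      have e1 := (hs.pow (j + k')) (n + k * d) m
      have e2 := (hs.pow (j + k)) (n + k' * d) m'
      refine fr_eq_of j ?_
      rw [← e1, ← e2, h]
      congr 2
      push_cast
      ring)) (by
    intro z z'
    obtain ⟨a, b, k, rfl, rfl⟩ := fr_surj₂ z z'
    rw [fr_add, locLift_fr, locLift_fr, locLift_fr, fr_add, map_add])
  pr_same n z := by
    obtain ⟨m, k, rfl⟩ := fr_surj z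
    change fr s (g.pr (n + k * d) (g.pr (n + k * d) m)) k = fr s (g.pr (n + k * d) m) k
    rw [g.pr_same]
  pr_ne i j h z := by
    obtain ⟨m, k, rfl⟩ := fr_surj z
    change fr s (g.pr (i + k * d) (g.pr (j + k * d) m)) k = 0
    rw [g.pr_ne _ _ (by omega), fr_zero]
  fin z := by
    obtain ⟨m, k, rfl⟩ := fr_surj z
    refine ((g.shift (k * d)).fin m).subset ?_
    intro n hn h
    apply hn
    change fr s (g.pr (n + k * d) m) k = 0
    change g.pr (n + k * d) m = 0 at h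
    rw [h, fr_zero]
  sum z := by
    obtain ⟨m, k, rfl⟩ := fr_surj z
    let F : M →+ Loc s M := AddMonoidHom.mk' (fun m => fr s m k) (fun a b => (fr_add a b k).symm)
    have h1 := (g.shift (k * d)).sum m
    have h2 := AddMonoidHom.map_finsum F (f := fun n => (g.shift (k * d)).pr n m)
      ((g.shift (k * d)).fin m)
    rw [h1] at h2
    exact h2.symm

theorem locGr_pr (g : Gr M) {s : S} {d : ℤ} (hs : g.Op s d) (n : ℤ) (m : M) (k : ℕ) :
    (locGr g hs).pr n (fr s m k) = fr s (g.pr (n + k * d) m) k := rfl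

theorem locGr_hom_iff {g : Gr M} {s : S} {d : ℤ} (hs : g.Op s d) {n : ℤ} {z : Loc s M} :
    (locGr g hs).Hom n z ↔ LDeg g s d n z := by
  constructor
  · intro h
    obtain ⟨m, k, rfl⟩ := fr_surj z
    refine ⟨k, g.pr (n + k * d) m, g.hom_pr _ _, ?_⟩
    unfold Gr.Hom at h
    rw [locGr_pr] at h
    exact h.symm
  · rintro ⟨k, m, hm, rfl⟩
    unfold Gr.Hom at hm ⊢
    rw [locGr_pr, hm]

end locgr

section hv

variable {S : Type*} [CommRing S] {α : Type*} [LinearOrder α]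
  {M : Type*} [AddCommGroup M] [Module S M]

/-- `H^p (F ⊗ N (n)) = 0`, where `F` is given by the graded module `M` and `N` by `D` -/
def HV (D : Dat S α) (g : Gr M) (n : ℤ) (p : ℕ) : Prop :=
  ∀ z : ∀ J : Finset α, Loc (D.fJ J) M, (∀ J, LDeg g (D.fJ J) (D.dJ J) n (z J)) →
    (∀ J, J.card = p + 2 → dC (D.tw M) z J = 0) →
    ∃ w : ∀ J : Finset α, Loc (D.fJ J) M, (∀ J, LDeg g (D.fJ J) (D.dJ J) n (w J)) ∧
      ∀ J, J.card = p + 1 → dC (D.tw M) w J = z J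

variable {D : Dat S α} {g : Gr M}

/-- the cochain of degree `n` as an element of the subfamily -/
theorem Dat.Ok.dC_coe (h : D.Ok g) (n : ℤ) (z : ∀ J, h.G D n J) (J : Finset α) :
    ((dC (h.ρ D n) z J : h.G D n J) : Loc (D.fJ J) M) = dC (D.tw M) (fun J => (z J).1) J := by
  exact (dC_map (ρ₁ := h.ρ D n) (ρ₂ := D.tw M) (φ := fun J => AddSubgroup.subtype _)
    (fun J J' h0 hs z => rfl) z J).symm

theorem Dat.Ok.hv_iff (h : D.Ok g) (n : ℤ) (p : ℕ) : HV D g n p ↔ Van (h.ρ D n) p := by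
  constructor
  · intro H z hz
    obtain ⟨w, hw, hw'⟩ := H (fun J => (z J).1) (fun J => (z J).2) (fun J hJ => by
      rw [← h.dC_coe, hz J hJ]
      rfl)
    refine ⟨fun J => ⟨w J, hw J⟩, fun J hJ => Subtype.ext ?_⟩
    rw [h.dC_coe]
    exact hw' J hJ
  · intro H z hz hz'
    obtain ⟨w, hw⟩ := H (fun J => ⟨z J, hz J⟩) (fun J hJ => Subtype.ext (by
      rw [h.dC_coe]
      exact hz' J hJ))
    refine ⟨fun J => (w J).1, fun J => (w J).2, fun J hJ => ?_⟩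
    rw [← h.dC_coe, hw J hJ]

/-- the Cech differential of a cochain of degree `n` has degree `n` -/
theorem Dat.Ok.lDeg_dC (h : D.Ok g) {n : ℤ} {z : ∀ J : Finset α, Loc (D.fJ J) M}
    (hz : ∀ J, LDeg g (D.fJ J) (D.dJ J) n (z J)) (J : Finset α) :
    LDeg g (D.fJ J) (D.dJ J) n (dC (D.tw M) z J) := by
  have := (dC (h.ρ D n) (fun J => ⟨z J, hz J⟩) J).2
  rw [h.dC_coe] at this
  exact this

/-- the twisted restrictions commute with the projections to the parts of degree `n` -/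
theorem Dat.Ok.pr_tw (h : D.Ok g) (n : ℤ) (J J' : Finset α) (h0 : J.Nonempty) (hs : J ⊆ J')
    (z : Loc (D.fJ J) M) :
    D.tw M J J' h0 hs ((locGr g (h.opJ J)).pr n z) =
      (locGr g (h.opJ J')).pr n (D.tw M J J' h0 hs z) := by
  have key : ∀ m n, (locGr g (h.opJ J')).pr n (D.tw M J J' h0 hs ((locGr g (h.opJ J)).pr m z)) =
      if m = n then D.tw M J J' h0 hs ((locGr g (h.opJ J)).pr m z) else 0 := by
    intro m n
    have h1 : (locGr g (h.opJ J')).Hom m (D.tw M J J' h0 hs ((locGr g (h.opJ J)).pr m z)) :=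
      (locGr_hom_iff _).2 (h.lDeg_tw D h0 hs ((locGr_hom_iff _).1 (Gr.hom_pr _ _ _)))
    split_ifs with hmn
    · subst hmn
      exact h1
    · unfold Gr.Hom at h1
      rw [← h1, Gr.pr_ne _ _ _ (Ne.symm hmn)]
  conv_rhs => rw [← (locGr g (h.opJ J)).sum z]
  rw [AddMonoidHom.map_finsum _ ((locGr g (h.opJ J)).fin z),
    AddMonoidHom.map_finsum _ (((locGr g (h.opJ J)).fin z).subset (by
      intro m hm h'
      exact hm (by simp only [h', map_zero])))]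
  simp only [key]
  rw [finsum_eq_single _ n (fun m hm => by rw [if_neg hm]), if_pos rfl]

/-- the Cech differential commutes with the projections to the parts of degree `n` -/
theorem Dat.Ok.pr_dC (h : D.Ok g) (n : ℤ) (z : ∀ J : Finset α, Loc (D.fJ J) M) (J : Finset α) :
    dC (D.tw M) (fun J => (locGr g (h.opJ J)).pr n (z J)) J =
      (locGr g (h.opJ J)).pr n (dC (D.tw M) z J) :=
  dC_map (ρ₁ := D.tw M) (ρ₂ := D.tw M) (φ := fun J => (locGr g (h.opJ J)).pr n)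
    (fun J J' h0 hs z => (h.pr_tw n J J' h0 hs z).symm) z J

/-- the homogeneity of the primitive is automatic -/
theorem Dat.Ok.hv_of (h : D.Ok g) {n : ℤ} {p : ℕ}
    (H : ∀ z : ∀ J : Finset α, Loc (D.fJ J) M, (∀ J, LDeg g (D.fJ J) (D.dJ J) n (z J)) →
      (∀ J, J.card = p + 2 → dC (D.tw M) z J = 0) →
      ∃ w : ∀ J : Finset α, Loc (D.fJ J) M, ∀ J, J.card = p + 1 → dC (D.tw M) w J = z J) :
    HV D g n p := by
  intro z hz hz'
  obtain ⟨w, hw⟩ := H z hz hz'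
  refine ⟨fun J => (locGr g (h.opJ J)).pr n (w J),
    fun J => (locGr_hom_iff _).1 (Gr.hom_pr _ _ _), fun J hJ => ?_⟩
  rw [h.pr_dC, hw J hJ]
  exact (locGr_hom_iff (h.opJ J)).2 (hz J)

end hv

section cmp

variable {α : Type*} [LinearOrder α]
  {S : Type*} [CommRing S] {M : Type*} [AddCommGroup M] [Module S M]
  {S' : Type*} [CommRing S'] {M' : Type*} [AddCommGroup M'] [Module S' M']

/-- an additive map compatible with the action of two sets of data -/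
structure Cmp (D : Dat S α) (D' : Dat S' α) (φ : M →+ M') : Prop where
  f : ∀ a m, φ (D.f a • m) = D'.f a • φ m
  v : ∀ a b m, φ (D.v a b • m) = D'.v a b • φ m
  t : D.t = D'.t
  d : D.d = D'.d

variable {D : Dat S α} {D' : Dat S' α} {φ : M →+ M'}

omit [LinearOrder α] in
theorem Cmp.prod (h : Cmp D D' φ) (J : Finset α) (m : M) : φ (D.fJ J • m) = D'.fJ J • φ m := by
  classical
  unfold Dat.fJ
  induction J using Finset.induction_on generalizing m with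
  | empty => simp
  | insert a J ha ih =>
    rw [Finset.prod_insert ha, Finset.prod_insert ha, mul_smul, h.f, ih, mul_smul]

omit [LinearOrder α] in
theorem Cmp.dJ (h : Cmp D D' φ) (J : Finset α) : D.dJ J = D'.dJ J := by
  unfold Dat.dJ
  rw [h.d]

/-- the induced map on fractions -/
def Cmp.lm (h : Cmp D D' φ) (J : Finset α) : Loc (D.fJ J) M →+ Loc (D'.fJ J) M' :=
  smap φ (h.prod J)

omit [LinearOrder α] in
theorem Cmp.lm_fr (h : Cmp D D' φ) (J : Finset α) (m : M) (k : ℕ) :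
    h.lm J (fr (D.fJ J) m k) = fr (D'.fJ J) (φ m) k := rfl

theorem pow_smul_map {s : S} {s' : S'} (h : ∀ m, φ (s • m) = s' • φ m) (k : ℕ) (m : M) :
    φ (s ^ k • m) = s' ^ k • φ m := by
  induction k generalizing m with
  | zero => simp
  | succ k ih => rw [pow_succ, mul_smul, ih, h, pow_succ, mul_smul]

theorem Cmp.nat (h : Cmp D D' φ) : Nat' (D.tw M) (D'.tw M') (fun J => h.lm J) := by
  intro J J' h0 hs z
  obtain ⟨m, k, rfl⟩ := fr_surj z
  unfold Dat.tw Dat.U Dat.res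
  simp only [AddMonoidHom.comp_apply, locRes_fr, opm_fr, Cmp.lm_fr]
  have e : ∀ m, φ ((D.fJ (J'.erase (J'.min' (h0.mono hs))) * D.fJ (J'.erase (J.min' h0))) • m) =
      (D'.fJ (J'.erase (J'.min' (h0.mono hs))) * D'.fJ (J'.erase (J.min' h0))) • φ m := fun m => by
    rw [mul_smul, mul_smul, h.prod, h.prod]
  rw [mul_smul, h.v, h.t, pow_smul_map e, pow_smul_map (h.prod _), mul_smul]

omit [LinearOrder α] in
/-- degrees: `φ` sends degree `n` to degree `n + δ` -/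
theorem Cmp.lDeg (h : Cmp D D' φ) {g : Gr M} {g' : Gr M'} {δ : ℤ}
    (hδ : ∀ n m, g.Hom n m → g'.Hom (n + δ) (φ m)) {n : ℤ} {J : Finset α} {z : Loc (D.fJ J) M}
    (hz : LDeg g (D.fJ J) (D.dJ J) n z) : LDeg g' (D'.fJ J) (D'.dJ J) (n + δ) (h.lm J z) := by
  obtain ⟨k, m, hm, rfl⟩ := hz
  refine ⟨k, φ m, ?_, h.lm_fr J m k⟩
  have := hδ _ _ hm
  rw [← h.dJ]
  convert this using 1
  ring

/-- vanishing goes down to a retract -/
theorem HV.retract {g : Gr M} {g' : Gr M'} (h : Cmp D D' φ) {π : M' →+ M} (hπ : Cmp D' D π)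
    (hr : ∀ m, π (φ m) = m) {δ : ℤ} (hδ : ∀ n m, g.Hom n m → g'.Hom (n + δ) (φ m))
    (hδ' : ∀ n m, g'.Hom (n + δ) m → g.Hom n (π m)) {n : ℤ} {p : ℕ} (H : HV D' g' (n + δ) p) :
    HV D g n p := by
  intro z hz hz'
  obtain ⟨w, hw, hw'⟩ := H (fun J => h.lm J (z J)) (fun J => h.lDeg hδ (hz J)) (fun J hJ => by
    rw [dC_map h.nat, hz' J hJ, map_zero])
  refine ⟨fun J => hπ.lm J (w J), fun J => ?_, fun J hJ => ?_⟩
  · have := hπ.lDeg (δ := -δ) (g := g') (g' := g) (fun n m hm => by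
      have h1 : g'.Hom (n + -δ + δ) m := by
        rw [neg_add_cancel_right]
        exact hm
      exact hδ' _ _ h1) (hw J)
    rw [add_neg_cancel_right] at this
    exact this
  · rw [dC_map hπ.nat, hw' J hJ]
    obtain ⟨m, k, hm⟩ := fr_surj (z J)
    rw [hm, h.lm_fr, hπ.lm_fr, hr]

end cmp

section ses

variable {α : Type*} [LinearOrder α] {S : Type*} [CommRing S]
  {M₁ : Type*} [AddCommGroup M₁] [Module S M₁]
  {M₂ : Type*} [AddCommGroup M₂] [Module S M₂]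
  {M₃ : Type*} [AddCommGroup M₃] [Module S M₃]

omit [LinearOrder α] in
theorem cmp_linear (D : Dat S α) (φ : M₁ →ₗ[S] M₂) : Cmp D D φ.toAddMonoidHom :=
  ⟨fun _ _ => map_smul φ _ _, fun _ _ _ => map_smul φ _ _, rfl, rfl⟩

/-- the exact sequence of the parts of degree `n - δ`, `n`, `n` -/
structure GSES (g₁ : Gr M₁) (g₂ : Gr M₂) (g₃ : Gr M₃) (δ : ℤ) (φ : M₁ →ₗ[S] M₂)
    (ψ : M₂ →ₗ[S] M₃) : Prop where
  inj : Function.Injective φ
  exact : Function.Exact φ ψ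
  surj : Function.Surjective ψ
  degφ : ∀ n m, φ (g₁.pr n m) = g₂.pr (n + δ) (φ m)
  degψ : ∀ n m, ψ (g₂.pr n m) = g₃.pr n (ψ m)

variable {g₁ : Gr M₁} {g₂ : Gr M₂} {g₃ : Gr M₃} {δ : ℤ} {φ : M₁ →ₗ[S] M₂} {ψ : M₂ →ₗ[S] M₃}

theorem GSES.homφ (h : GSES g₁ g₂ g₃ δ φ ψ) {n : ℤ} {m : M₁} (hm : g₁.Hom n m) :
    g₂.Hom (n + δ) (φ m) := by
  unfold Gr.Hom at *
  rw [← h.degφ, hm]

theorem GSES.homψ (h : GSES g₁ g₂ g₃ δ φ ψ) {n : ℤ} {m : M₂} (hm : g₂.Hom n m) :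
    g₃.Hom n (ψ m) := by
  unfold Gr.Hom at *
  rw [← h.degψ, hm]

/-- the short exact sequence of the functors of sections of degree `n` -/
theorem GSES.ses (h : GSES g₁ g₂ g₃ δ φ ψ) {D : Dat S α} (h₁ : D.Ok g₁) (h₂ : D.Ok g₂)
    (h₃ : D.Ok g₃) (n : ℤ) :
    ∃ (Φ : ∀ J, h₁.G D (n - δ) J →+ h₂.G D n J) (Ψ : ∀ J, h₂.G D n J →+ h₃.G D n J),
      SES (ρ₁ := h₁.ρ D (n - δ)) (ρ₂ := h₂.ρ D n) (ρ₃ := h₃.ρ D n) Φ Ψ ∧
      (∀ J z, (Φ J z).1 = (cmp_linear D φ).lm J z.1) ∧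
      (∀ J z, (Ψ J z).1 = (cmp_linear D ψ).lm J z.1) := by
  have hΦ : ∀ J (z : h₁.G D (n - δ) J), (cmp_linear D φ).lm J z.1 ∈ locDeg g₂ (h₂.opJ J) n := fun J z => by
    have := (cmp_linear D φ).lDeg (g := g₁) (g' := g₂) (δ := δ) (fun n m hm => h.homφ hm) z.2
    rw [sub_add_cancel] at this
    exact this
  have hΨ : ∀ J (z : h₂.G D n J), (cmp_linear D ψ).lm J z.1 ∈ locDeg g₃ (h₃.opJ J) n := fun J z => by
    have := (cmp_linear D ψ).lDeg (g := g₂) (g' := g₃) (δ := 0) (fun n m hm => by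
      rw [add_zero]
      exact h.homψ hm) z.2
    rw [add_zero] at this
    exact this
  refine ⟨fun J => (((cmp_linear D φ).lm J).comp (AddSubgroup.subtype _)).codRestrict _ (hΦ J),
    fun J => (((cmp_linear D ψ).lm J).comp (AddSubgroup.subtype _)).codRestrict _ (hΨ J),
    ⟨?_, ?_, ?_, ?_, ?_⟩, fun J z => rfl, fun J z => rfl⟩
  · intro J J' h0 hs z
    exact Subtype.ext ((cmp_linear D φ).nat J J' h0 hs z.1)
  · intro J J' h0 hs z
    exact Subtype.ext ((cmp_linear D ψ).nat J J' h0 hs z.1)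
  · intro J _
    rw [injective_iff_map_eq_zero]
    rintro ⟨z, hz⟩ h0
    apply Subtype.ext
    have h0' : (cmp_linear D φ).lm J z = 0 := congrArg Subtype.val h0
    obtain ⟨m, k, rfl⟩ := fr_surj z
    rw [Cmp.lm_fr, fr_eq_zero] at h0'
    obtain ⟨j, hj⟩ := h0'
    change fr _ m k = 0
    rw [fr_eq_zero]
    refine ⟨j, h.inj ?_⟩
    rw [map_smul, map_zero]
    exact hj
  · rintro J _ ⟨z, hz⟩
    constructor
    · intro h0
      have h0' : (cmp_linear D ψ).lm J z = 0 := congrArg Subtype.val h0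
      obtain ⟨k, m, hm, rfl⟩ := hz
      rw [Cmp.lm_fr, fr_eq_zero] at h0'
      obtain ⟨j, hj⟩ := h0'
      have h1 : ψ (D.fJ J ^ j • m) = 0 := by
        rw [map_smul]
        exact hj
      obtain ⟨x, hx⟩ := (h.exact _).1 h1
      have hdeg : g₂.Hom (n + ((k + j : ℕ) : ℤ) * D.dJ J) (D.fJ J ^ j • m) := by
        have := ((h₂.opJ J).pow j).hom hm
        convert this using 1
        push_cast
        ring
      refine ⟨⟨fr _ (g₁.pr (n - δ + ((k + j : ℕ) : ℤ) * D.dJ J) x) (k + j),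
        ⟨k + j, _, g₁.hom_pr _ _, rfl⟩⟩, Subtype.ext ?_⟩
      change (cmp_linear D φ).lm J (fr _ (g₁.pr (n - δ + ((k + j : ℕ) : ℤ) * D.dJ J) x) (k + j)) = _
      rw [Cmp.lm_fr]
      have h2 : φ.toAddMonoidHom (g₁.pr (n - δ + ((k + j : ℕ) : ℤ) * D.dJ J) x) =
          D.fJ J ^ j • m := by
        change φ _ = _
        rw [h.degφ, hx]
        unfold Gr.Hom at hdeg
        rw [show n - δ + ((k + j : ℕ) : ℤ) * D.dJ J + δ = n + ((k + j : ℕ) : ℤ) * D.dJ J by ring]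
        exact hdeg
      rw [h2, fr_raise]
    · rintro ⟨⟨y, hy⟩, hyz⟩
      apply Subtype.ext
      have h1 : (cmp_linear D φ).lm J y = z := congrArg Subtype.val hyz
      change (cmp_linear D ψ).lm J z = 0
      rw [← h1]
      obtain ⟨m, k, rfl⟩ := fr_surj y
      rw [Cmp.lm_fr, Cmp.lm_fr, fr_eq_zero]
      refine ⟨0, ?_⟩
      change D.fJ J ^ 0 • ψ (φ m) = 0
      rw [h.exact.apply_apply_eq_zero, smul_zero]
  · rintro J _ ⟨z, k, m, hm, rfl⟩
    obtain ⟨x, hx⟩ := h.surj m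
    refine ⟨⟨fr _ (g₂.pr (n + k * D.dJ J) x) k, ⟨k, _, g₂.hom_pr _ _, rfl⟩⟩, Subtype.ext ?_⟩
    change (cmp_linear D ψ).lm J (fr _ (g₂.pr (n + k * D.dJ J) x) k) = _
    rw [Cmp.lm_fr]
    have : ψ.toAddMonoidHom (g₂.pr (n + k * D.dJ J) x) = m := by
      change ψ _ = _
      rw [h.degψ, hx]
      exact hm
    rw [this]

/-- `H^p(F' (n - δ)) = 0` and `H^p(F'' (n)) = 0` give `H^p(F (n)) = 0` -/
theorem GSES.hv_mid (h : GSES g₁ g₂ g₃ δ φ ψ) {D : Dat S α} (h₁ : D.Ok g₁) (h₂ : D.Ok g₂)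
    (h₃ : D.Ok g₃) {n : ℤ} {p : ℕ} (H₁ : HV D g₁ (n - δ) p) (H₃ : HV D g₃ n p) :
    HV D g₂ n p := by
  obtain ⟨Φ, Ψ, hS, -, -⟩ := h.ses h₁ h₂ h₃ n
  exact (h₂.hv_iff n p).2 (hS.van_mid (h₂.fctn D n) ((h₁.hv_iff _ p).1 H₁) ((h₃.hv_iff _ p).1 H₃))

/-- `H^p(F (n)) = 0` and `H^(p+1)(F' (n - δ)) = 0` give `H^p(F'' (n)) = 0` -/
theorem GSES.hv_right (h : GSES g₁ g₂ g₃ δ φ ψ) {D : Dat S α} (h₁ : D.Ok g₁) (h₂ : D.Ok g₂)
    (h₃ : D.Ok g₃) {n : ℤ} {p : ℕ} (H₂ : HV D g₂ n p) (H₁ : HV D g₁ (n - δ) (p + 1)) :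
    HV D g₃ n p := by
  obtain ⟨Φ, Ψ, hS, -, -⟩ := h.ses h₁ h₂ h₃ n
  exact (h₃.hv_iff n p).2
    (hS.van_right (h₂.fctn D n) ((h₂.hv_iff _ p).1 H₂) ((h₁.hv_iff _ _).1 H₁))

/-- if `H^p(F'' (n)) = 0` and `φ` is zero on `H^p(F' (n - δ))`, then `H^p(F (n)) = 0` -/
theorem GSES.hv_of_zero (h : GSES g₁ g₂ g₃ δ φ ψ) {D : Dat S α} (h₁ : D.Ok g₁) (h₂ : D.Ok g₂)
    (h₃ : D.Ok g₃) {n : ℤ} {p : ℕ} (hp : 1 ≤ p)
    (H₁ : ∀ z : ∀ J : Finset α, Loc (D.fJ J) M₁, (∀ J, LDeg g₁ (D.fJ J) (D.dJ J) (n - δ) (z J)) →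
      (∀ J, J.card = p + 2 → dC (D.tw M₁) z J = 0) →
      ∃ w : ∀ J : Finset α, Loc (D.fJ J) M₂,
        ∀ J, J.card = p + 1 → dC (D.tw M₂) w J = (cmp_linear D φ).lm J (z J))
    (H₃ : HV D g₃ n p) : HV D g₂ n p := by
  obtain ⟨Φ, Ψ, hS, hΦ, -⟩ := h.ses h₁ h₂ h₃ n
  refine (h₂.hv_iff n p).2 (hS.van_of_zero (h₂.fctn D n) hp (fun z hz => ?_)
    ((h₃.hv_iff _ p).1 H₃))
  obtain ⟨w, hw⟩ := H₁ (fun J => (z J).1) (fun J => (z J).2) (fun J hJ => by
    rw [← h₁.dC_coe, hz J hJ]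
    rfl)
  refine ⟨fun J => ⟨(locGr g₂ (h₂.opJ J)).pr n (w J), (locGr_hom_iff _).1 (Gr.hom_pr _ _ _)⟩,
    fun J hJ => Subtype.ext ?_⟩
  rw [h₂.dC_coe, hΦ]
  change dC (D.tw M₂) (fun J => (locGr g₂ (h₂.opJ J)).pr n (w J)) J = _
  rw [h₂.pr_dC, hw J hJ, ← hΦ]
  exact (locGr_hom_iff (h₂.opJ J)).2 (Φ J (z J)).2

end ses

end Pool.Agent.Lib.MP_0b721b_ag
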