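import Pool.Agent.Lib.MP_0b721b_ag.Cyc

/-!
Spreading out: an ideal `I` of `K[x]`, `K` a field; for a subring `B` of `K` and a ring map
`φ : B → k`, the ideal `fib I φ` of `k[x]` generated by the image of `I ∩ B[x]`.
The properties hold as soon as `B` contains a suitable finite subset of `K`.
-/

namespace Pool.Agent.Lib.MP_0b721b_ag

open MvPolynomial

universe u

variable {K : Type u} [Field K] {N : ℕ}

/-- `I ∩ B[x]` -/
noncomputable def IB (I : Ideal (MvPolynomial (Fin N) K)) (B : Subring K) : Ideal (MvPolynomial (Fin N) B) :=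
  I.comap (MvPolynomial.map B.subtype)

/-- the ideal of the fibre -/
noncomputable def fib (I : Ideal (MvPolynomial (Fin N) K)) {B : Subring K} {k : Type u} [CommRing k]
    (φ : B →+* k) : Ideal (MvPolynomial (Fin N) k) :=
  (IB I B).map (MvPolynomial.map φ)

theorem IB_sub {I : Ideal (MvPolynomial (Fin N) K)} {w : Fin N → ℤ} (hI : (polyGr K w).Sub I)
    (B : Subring K) : (polyGr B w).Sub (IB I B) := by
  intro n m hm
  change MvPolynomial.map B.subtype ((polyGr B w).pr n m) ∈ I
  rw [polyGr_map]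
  exact hI n _ hm

/-- the image of a homogeneous ideal under a base change is homogeneous -/
theorem map_sub {A A' : Type*} [CommRing A] [CommRing A'] {σ : Type*} {w : σ → ℤ}
    {I : Ideal (MvPolynomial σ A)} (hI : (polyGr A w).Sub I) (φ : A →+* A') :
    (polyGr A' w).Sub (I.map (MvPolynomial.map φ)) := by
  have h1 : I.map (MvPolynomial.map φ) = Ideal.span
      {y | ∃ (n : ℤ) (x : MvPolynomial σ A), x ∈ I ∧ y =
        MvPolynomial.map φ ((polyGr A w).pr n x)} := by
    apply le_antisymm
    · rw [Ideal.map_le_iff_le_comap]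
      intro x hx
      rw [Ideal.mem_comap]
      have h2 : MvPolynomial.map φ x = ∑ᶠ n, MvPolynomial.map φ ((polyGr A w).pr n x) := by
        conv_lhs => rw [← (polyGr A w).sum x]
        exact AddMonoidHom.map_finsum (MvPolynomial.map φ : MvPolynomial σ A →+* _).toAddMonoidHom
          ((polyGr A w).fin x)
      rw [h2]
      exact finsum_induction (fun y => y ∈ Ideal.span _) (Submodule.zero_mem _)
        (fun _ _ h h' => Submodule.add_mem _ h h')
        (fun n => Ideal.subset_span ⟨n, x, hx, rfl⟩)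
    · rw [Ideal.span_le]
      rintro y ⟨n, x, hx, rfl⟩
      exact Ideal.mem_map_of_mem _ (hI n x hx)
  rw [h1]
  apply polyGr_sub_span
  rintro y ⟨n, x, -, rfl⟩
  exact ⟨n, polyGr_map_hom φ ((polyGr A w).hom_pr n x)⟩

theorem fib_sub {I : Ideal (MvPolynomial (Fin N) K)} {w : Fin N → ℤ} (hI : (polyGr K w).Sub I)
    {B : Subring K} {k : Type u} [CommRing k] (φ : B →+* k) : (polyGr k w).Sub (fib I φ) :=
  map_sub (IB_sub hI B) φ

theorem fib_mono {I I' : Ideal (MvPolynomial (Fin N) K)} (h : I ≤ I')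
    {B : Subring K} {k : Type u} [CommRing k] (φ : B →+* k) : fib I φ ≤ fib I' φ :=
  Ideal.map_mono (Ideal.comap_mono h)

/-- the claim: uniform vanishing on the fibres over all fields of a class -/
def Claim (fin : Bool) (w : Fin N → ℤ) (I : Ideal (MvPolynomial (Fin N) K)) : Prop :=
  ∃ (s : Finset K) (m₀ : ℤ), ∀ B : Subring K, (s : Set K) ⊆ B → ∀ (k : Type u) [Field k],
    (fin = true → Finite k) → ∀ (φ : B →+* k) (α : Type) [LinearOrder α] [Fintype α]
    (D : Dat (MvPolynomial (Fin N) k) α), D.Lb w (fib I φ) →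
    ∀ n, D.Amp w (fib I φ) (n - m₀) → ∀ p, 1 ≤ p → ∀ hI : (polyGr k w).Sub (fib I φ),
    HV D (cyc w (fib I φ) hI) n p

end Pool.Agent.Lib.MP_0b721b_ag
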