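import Mathlib

/-!
Cech complexes of functors on the nonempty subsets of a finite linearly ordered set.
A cochain is a family `z` of elements of all `G J`; its part of degree `p` is the part at the
`J` with `p + 1` elements.
-/

namespace Pool.Agent.Lib.MP_0b721b_ag

open Finset

/-- the sign of the element `a` of `J` : `(-1)` to the number of smaller elements -/
def sgn {α : Type*} [LinearOrder α] (a : α) (J : Finset α) : ℤ :=
  (-1) ^ (J.filter (· < a)).card

section cech

variable {α : Type*} [LinearOrder α] {G : Finset α → Type*} [∀ J, AddCommGroup (G J)]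
  (ρ : ∀ J J' : Finset α, J.Nonempty → J ⊆ J' → G J →+ G J')

/-- the restriction to `J` of the component of `z` at `K` (zero unless `K` is a nonempty subset
of `J`) -/
def rs (z : ∀ J, G J) (K J : Finset α) : G J :=
  if h : K.Nonempty ∧ K ⊆ J then ρ K J h.1 h.2 (z K) else 0

/-- the Cech differential -/
def dC (z : ∀ J, G J) : ∀ J, G J :=
  fun J => ∑ a ∈ J, sgn a J • rs ρ z (J.erase a) J

/-- vanishing of the cohomology in degree `p` -/
def Van (p : ℕ) : Prop :=
  ∀ z : ∀ J, G J, (∀ J, J.card = p + 2 → dC ρ z J = 0) →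
    ∃ w : ∀ J, G J, ∀ J, J.card = p + 1 → dC ρ w J = z J

/-- functoriality of the restriction maps -/
def Fct : Prop :=
  ∀ (J J' J'' : Finset α) (h0 : J.Nonempty) (h0' : J'.Nonempty) (h : J ⊆ J') (h' : J' ⊆ J'')
    (z : G J), ρ J' J'' h0' h' (ρ J J' h0 h z) = ρ J J'' h0 (h.trans h') z

variable {ρ}

theorem rs_add (z z' : ∀ J, G J) (K J : Finset α) :
    rs ρ (z + z') K J = rs ρ z K J + rs ρ z' K J := by
  unfold rs
  split_ifs with h
  · rw [Pi.add_apply, map_add]
  · rw [add_zero]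

theorem rs_sub (z z' : ∀ J, G J) (K J : Finset α) :
    rs ρ (z - z') K J = rs ρ z K J - rs ρ z' K J := by
  unfold rs
  split_ifs with h
  · rw [Pi.sub_apply, map_sub]
  · rw [sub_zero]

theorem dC_add (z z' : ∀ J, G J) (J : Finset α) :
    dC ρ (z + z') J = dC ρ z J + dC ρ z' J := by
  unfold dC
  rw [← Finset.sum_add_distrib]
  refine Finset.sum_congr rfl fun a _ => ?_
  rw [rs_add, smul_add]

theorem dC_sub (z z' : ∀ J, G J) (J : Finset α) :
    dC ρ (z - z') J = dC ρ z J - dC ρ z' J := by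
  unfold dC
  rw [← Finset.sum_sub_distrib]
  refine Finset.sum_congr rfl fun a _ => ?_
  rw [rs_sub, smul_sub]

theorem rs_congr {z z' : ∀ J, G J} {K J : Finset α} (h : z K = z' K) :
    rs ρ z K J = rs ρ z' K J := by
  unfold rs
  rw [h]

theorem dC_congr {z z' : ∀ J, G J} {J : Finset α} (h : ∀ K, K.card + 1 = J.card → z K = z' K) :
    dC ρ z J = dC ρ z' J := by
  unfold dC
  refine Finset.sum_congr rfl fun a ha => ?_
  rw [rs_congr (h _ (Finset.card_erase_add_one ha))]

theorem dC_eq_zero_of {z : ∀ J, G J} {J : Finset α} (h : ∀ K, K.card + 1 = J.card → z K = 0) :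
    dC ρ z J = 0 := by
  have h0 : dC ρ z J = dC ρ (z - z) J := dC_congr fun K hK => by
    rw [Pi.sub_apply, h K hK, sub_zero]
  rw [h0, dC_sub, sub_self]

theorem sgn_erase_lt {a b : α} {J : Finset α} (hb : b ∈ J) (h : b < a) :
    sgn a J = - sgn a (J.erase b) := by
  unfold sgn
  rw [Finset.filter_erase]
  have hm : b ∈ J.filter (· < a) := Finset.mem_filter.2 ⟨hb, h⟩
  rw [← Finset.card_erase_add_one hm, pow_succ]
  ring

theorem sgn_erase_gt {a b : α} {J : Finset α} (h : a < b) :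
    sgn a J = sgn a (J.erase b) := by
  unfold sgn
  rw [Finset.filter_erase, Finset.erase_eq_of_notMem]
  intro hb
  exact absurd (Finset.mem_filter.1 hb).2 (not_lt.2 h.le)

theorem sgn_mul {a b : α} {J : Finset α} (ha : a ∈ J) (hb : b ∈ J) (hab : a ≠ b) :
    sgn a J * sgn b (J.erase a) = - (sgn b J * sgn a (J.erase b)) := by
  rcases lt_or_gt_of_ne hab with h | h
  · have e1 := sgn_erase_lt ha h
    have e2 := sgn_erase_gt (J := J) h
    rw [e1, ← e2]
    ring
  · have e1 := sgn_erase_lt hb h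
    have e2 := sgn_erase_gt (J := J) h
    rw [e1, ← e2]
    ring

theorem sgn_sq (a : α) (J : Finset α) : sgn a J * sgn a J = 1 := by
  unfold sgn
  rw [← pow_add, ← two_mul, pow_mul]
  norm_num

theorem map_rs {X : Type*} [AddCommGroup X] {z : ∀ J, G J} {K J : Finset α} (f : G J →+ X) :
    f (rs ρ z K J) = if h : K.Nonempty ∧ K ⊆ J then f (ρ K J h.1 h.2 (z K)) else 0 := by
  unfold rs
  split_ifs with h
  · rfl
  · exact map_zero _

theorem rs_dC (hρ : Fct ρ) (z : ∀ J, G J) {K J : Finset α} (hKJ : K ⊆ J) :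
    rs ρ (dC ρ z) K J = ∑ b ∈ K, sgn b K • rs ρ z (K.erase b) J := by
  by_cases hK : K.Nonempty
  · unfold rs
    rw [dif_pos ⟨hK, hKJ⟩]
    unfold dC
    rw [map_sum]
    refine Finset.sum_congr rfl fun b hb => ?_
    rw [map_zsmul, map_rs]
    by_cases hb' : (K.erase b).Nonempty
    · rw [dif_pos ⟨hb', Finset.erase_subset _ _⟩,
        dif_pos ⟨hb', (Finset.erase_subset _ _).trans hKJ⟩, hρ]
    · rw [dif_neg (fun h => hb' h.1), dif_neg (fun h => hb' h.1)]
  · rw [Finset.not_nonempty_iff_eq_empty] at hK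
    subst hK
    unfold rs
    rw [dif_neg (fun h => Finset.not_nonempty_empty h.1), Finset.sum_empty]

theorem dC_dC (hρ : Fct ρ) (z : ∀ J, G J) (J : Finset α) : dC ρ (dC ρ z) J = 0 := by
  have h1 : dC ρ (dC ρ z) J = ∑ a ∈ J, ∑ b ∈ J.erase a,
      (sgn a J * sgn b (J.erase a)) • rs ρ z ((J.erase a).erase b) J := by
    change ∑ a ∈ J, sgn a J • rs ρ (dC ρ z) (J.erase a) J = _
    refine Finset.sum_congr rfl fun a _ => ?_
    rw [rs_dC hρ z (Finset.erase_subset _ _), Finset.smul_sum]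
    refine Finset.sum_congr rfl fun b _ => ?_
    rw [smul_smul]
  rw [h1, Finset.sum_sigma']
  refine Finset.sum_involution (fun x _ => ⟨x.2, x.1⟩) ?_ ?_ ?_ ?_
  · rintro ⟨a, b⟩ hx
    simp only [Finset.mem_sigma, Finset.mem_erase] at hx
    dsimp only
    rw [sgn_mul hx.1 hx.2.2 (Ne.symm hx.2.1), Finset.erase_right_comm, neg_smul, neg_add_cancel]
  · rintro ⟨a, b⟩ hx _ h
    simp only [Finset.mem_sigma, Finset.mem_erase] at hx
    simp only [Sigma.mk.injEq] at h
    exact hx.2.1 h.1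
  · rintro ⟨a, b⟩ hx
    simp only [Finset.mem_sigma, Finset.mem_erase] at hx ⊢
    exact ⟨hx.2.2, Ne.symm hx.2.1, hx.1⟩
  · rintro ⟨a, b⟩ hx
    rfl

/-- above the number of elements of `α` there is no cohomology -/
theorem van_top [Fintype α] {p : ℕ} (hp : Fintype.card α ≤ p) : Van ρ p := by
  intro z _
  refine ⟨z, fun J hJ => ?_⟩
  have := Finset.card_le_univ J
  omega

theorem van_of_subsingleton (h : ∀ J : Finset α, J.Nonempty → Subsingleton (G J)) (p : ℕ) :
    Van ρ p := by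
  intro z _
  refine ⟨z, fun J hJ => ?_⟩
  have hJ' : J.Nonempty := by
    rw [← Finset.card_pos]
    omega
  exact (h J hJ').elim _ _

/-- contraction: if all restrictions `G J → G (insert c J)` are bijective, the cohomology vanishes
in degrees `p ≥ 1` -/
theorem van_contract (hρ : Fct ρ) (c : α)
    (hc : ∀ (J : Finset α) (h : J.Nonempty),
      Function.Bijective (ρ J (insert c J) h (Finset.subset_insert _ _))) {p : ℕ} (hp : 1 ≤ p) :
    Van ρ p := by
  classical
  intro z hz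
  have inv : ∀ (J : Finset α) (h : J.Nonempty), ∃ g : G (insert c J) → G J,
      (∀ y, g (ρ J (insert c J) h (Finset.subset_insert _ _) y) = y) ∧
      (∀ y, ρ J (insert c J) h (Finset.subset_insert _ _) (g y) = y) := fun J h =>
    ⟨(Equiv.ofBijective _ (hc J h)).symm, fun y => (Equiv.ofBijective _ (hc J h)).symm_apply_apply y,
      fun y => (Equiv.ofBijective _ (hc J h)).apply_symm_apply y⟩
  choose g hg hg' using inv
  -- the contraction
  let w : ∀ J, G J := fun J => if h : J.Nonempty ∧ c ∉ J then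
    sgn c (insert c J) • g J h.1 (z (insert c J)) else 0
  refine ⟨w, fun J hJ => ?_⟩
  have hJne : J.Nonempty := by
    rw [← Finset.card_pos]
    omega
  by_cases hcJ : c ∈ J
  · -- only the term `a = c` contributes
    unfold dC
    rw [Finset.sum_eq_single c]
    · have h1 : (J.erase c).Nonempty := by
        rw [← Finset.card_pos, Finset.card_erase_of_mem hcJ]
        omega
      have h2 : w (J.erase c) = sgn c (insert c (J.erase c)) •
          g (J.erase c) h1 (z (insert c (J.erase c))) := by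
        change dite _ _ _ = _
        rw [dif_pos ⟨h1, Finset.notMem_erase _ _⟩]
      have h3 : ∀ (K : Finset α) (hK : insert c (J.erase c) = K) (hK' : J.erase c ⊆ K),
          ρ (J.erase c) K h1 hK' (w (J.erase c)) = sgn c K • z K := by
        rintro K rfl hK'
        rw [h2, map_zsmul, hg']
      unfold rs
      rw [dif_pos ⟨h1, Finset.erase_subset _ _⟩, h3 J (Finset.insert_erase hcJ), smul_smul, sgn_sq,
        one_smul]
    · intro a ha hac
      have h0 : w (J.erase a) = 0 := by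
        change dite _ _ _ = _
        rw [dif_neg]
        rintro ⟨_, h⟩
        exact h (Finset.mem_erase.2 ⟨Ne.symm hac, hcJ⟩)
      have h1 : rs ρ w (J.erase a) J = 0 := by
        unfold rs
        split_ifs
        · rw [h0, map_zero]
        · rfl
      rw [h1, smul_zero]
    · intro h
      exact absurd hcJ h
  · -- apply the cocycle condition at `insert c J`
    apply (hc J hJne).1
    have hz' := hz (insert c J) (by rw [Finset.card_insert_of_notMem hcJ, hJ])
    unfold dC at hz'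
    rw [Finset.sum_insert hcJ, Finset.erase_insert hcJ] at hz'
    have e0 : rs ρ z J (insert c J) = ρ J (insert c J) hJne (Finset.subset_insert _ _) (z J) := by
      unfold rs
      rw [dif_pos ⟨hJne, Finset.subset_insert _ _⟩]
    rw [e0] at hz'
    have e1 : ρ J (insert c J) hJne (Finset.subset_insert _ _) (z J) = -(sgn c (insert c J) •
        ∑ a ∈ J, sgn a (insert c J) • rs ρ z ((insert c J).erase a) (insert c J)) := by
      have := congrArg (fun y => sgn c (insert c J) • y) hz'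
      simp only [smul_add, smul_smul, sgn_sq, one_smul, smul_zero] at this
      exact eq_neg_of_add_eq_zero_left this
    rw [e1]
    unfold dC
    rw [map_sum, Finset.smul_sum, ← Finset.sum_neg_distrib]
    refine Finset.sum_congr rfl fun a ha => ?_
    have hac : a ≠ c := fun h => hcJ (h ▸ ha)
    rw [map_zsmul, smul_smul, ← neg_smul]
    -- both sides are restrictions of `z` at `insert c (J.erase a)`
    have hset : (insert c J).erase a = insert c (J.erase a) := Finset.erase_insert_of_ne (Ne.symm hac)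
    have hsgn : -(sgn c (insert c J) * sgn a (insert c J)) =
        sgn a J * sgn c (insert c (J.erase a)) := by
      have h1 := sgn_mul (J := insert c J) (Finset.mem_insert_of_mem ha)
        (Finset.mem_insert_self c J) hac
      rw [Finset.erase_insert hcJ, hset] at h1
      have h2 := sgn_sq c (insert c J)
      have h3 := sgn_sq a (insert c J)
      have h4 := sgn_sq c (insert c (J.erase a))
      have h5 := sgn_sq a J
      calc -(sgn c (insert c J) * sgn a (insert c J))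
          = -(sgn c (insert c J) * sgn a (insert c J)) *
            (sgn c (insert c (J.erase a)) * sgn c (insert c (J.erase a))) := by rw [h4, mul_one]
        _ = -(sgn c (insert c J) * sgn c (insert c (J.erase a))) *
            (sgn a (insert c J) * sgn c (insert c (J.erase a))) := by ring
        _ = (sgn c (insert c J) * sgn c (insert c J)) *
            (sgn c (insert c (J.erase a)) * sgn a J) := by rw [h1]; ring
        _ = sgn a J * sgn c (insert c (J.erase a)) := by rw [h2]; ring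
    rw [hsgn]
    by_cases hJa : (J.erase a).Nonempty
    · have hwa : w (J.erase a) = sgn c (insert c (J.erase a)) •
          g (J.erase a) hJa (z (insert c (J.erase a))) := by
        change dite _ _ _ = _
        rw [dif_pos ⟨hJa, fun h => hcJ (Finset.mem_of_mem_erase h)⟩]
      have e2 : ρ J (insert c J) hJne (Finset.subset_insert _ _) (rs ρ w (J.erase a) J) =
          sgn c (insert c (J.erase a)) • rs ρ z (insert c (J.erase a)) (insert c J) := by
        have hsub : insert c (J.erase a) ⊆ insert c J :=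
          Finset.insert_subset_insert _ (Finset.erase_subset _ _)
        unfold rs
        rw [dif_pos ⟨hJa, Finset.erase_subset _ _⟩, dif_pos ⟨Finset.insert_nonempty _ _, hsub⟩,
          hwa, map_zsmul, map_zsmul]
        congr 1
        have h6 : z (insert c (J.erase a)) = ρ (J.erase a) (insert c (J.erase a)) hJa
            (Finset.subset_insert _ _) (g (J.erase a) hJa (z (insert c (J.erase a)))) :=
          (hg' _ _ _).symm
        conv_rhs => rw [h6]
        rw [hρ, hρ]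
      rw [e2, smul_smul]
      congr 1
      rw [hset]
    · exfalso
      rw [Finset.not_nonempty_iff_eq_empty] at hJa
      have h7 : J = {a} := by
        have h8 := Finset.insert_erase ha
        rw [hJa] at h8
        exact h8.symm
      rw [h7, Finset.card_singleton] at hJ
      omega

end cech

section maps

variable {α : Type*} [LinearOrder α]
  {G₁ : Finset α → Type*} [∀ J, AddCommGroup (G₁ J)]
  {G₂ : Finset α → Type*} [∀ J, AddCommGroup (G₂ J)]
  {G₃ : Finset α → Type*} [∀ J, AddCommGroup (G₃ J)]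
  {ρ₁ : ∀ J J' : Finset α, J.Nonempty → J ⊆ J' → G₁ J →+ G₁ J'}
  {ρ₂ : ∀ J J' : Finset α, J.Nonempty → J ⊆ J' → G₂ J →+ G₂ J'}
  {ρ₃ : ∀ J J' : Finset α, J.Nonempty → J ⊆ J' → G₃ J →+ G₃ J'}

variable (ρ₁ ρ₂) in
/-- naturality of a family of maps -/
def Nat' (φ : ∀ J, G₁ J →+ G₂ J) : Prop :=
  ∀ (J J' : Finset α) (h0 : J.Nonempty) (h : J ⊆ J') (z : G₁ J),
    φ J' (ρ₁ J J' h0 h z) = ρ₂ J J' h0 h (φ J z)

theorem rs_map {φ : ∀ J, G₁ J →+ G₂ J} (hφ : Nat' ρ₁ ρ₂ φ) (z : ∀ J, G₁ J) (K J : Finset α) :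
    rs ρ₂ (fun J => φ J (z J)) K J = φ J (rs ρ₁ z K J) := by
  rw [map_rs]
  unfold rs
  split_ifs with h
  · exact (hφ _ _ _ _ _).symm
  · rfl

theorem dC_map {φ : ∀ J, G₁ J →+ G₂ J} (hφ : Nat' ρ₁ ρ₂ φ) (z : ∀ J, G₁ J) (J : Finset α) :
    dC ρ₂ (fun J => φ J (z J)) J = φ J (dC ρ₁ z J) := by
  unfold dC
  rw [map_sum]
  refine Finset.sum_congr rfl fun a _ => ?_
  rw [map_zsmul, rs_map hφ]

/-- a short exact sequence of functors -/
structure SES (φ : ∀ J, G₁ J →+ G₂ J) (ψ : ∀ J, G₂ J →+ G₃ J) : Prop where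
  natφ : Nat' ρ₁ ρ₂ φ
  natψ : Nat' ρ₂ ρ₃ ψ
  inj : ∀ J : Finset α, J.Nonempty → Function.Injective (φ J)
  exact : ∀ J : Finset α, J.Nonempty → ∀ z, ψ J z = 0 ↔ ∃ y, φ J y = z
  surj : ∀ J : Finset α, J.Nonempty → Function.Surjective (ψ J)

/-- lifting a cochain through `ψ` on the sets with `k` elements -/
theorem SES.lift {φ : ∀ J, G₁ J →+ G₂ J} {ψ : ∀ J, G₂ J →+ G₃ J}
    (h : SES (ρ₁ := ρ₁) (ρ₂ := ρ₂) (ρ₃ := ρ₃) φ ψ) (z : ∀ J, G₃ J) :
    ∃ y : ∀ J, G₂ J, ∀ J : Finset α, J.Nonempty → ψ J (y J) = z J := by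
  classical
  refine ⟨fun J => if hJ : J.Nonempty then (h.surj J hJ (z J)).choose else 0, fun J hJ => ?_⟩
  dsimp only
  rw [dif_pos hJ]
  exact (h.surj J hJ (z J)).choose_spec

/-- pulling a cochain with `ψ z = 0` back through `φ` -/
theorem SES.pull {φ : ∀ J, G₁ J →+ G₂ J} {ψ : ∀ J, G₂ J →+ G₃ J}
    (h : SES (ρ₁ := ρ₁) (ρ₂ := ρ₂) (ρ₃ := ρ₃) φ ψ) (z : ∀ J, G₂ J) {k : ℕ}
    (hz : ∀ J : Finset α, J.card = k + 1 → ψ J (z J) = 0) :
    ∃ y : ∀ J, G₁ J, ∀ J : Finset α, J.card = k + 1 → φ J (y J) = z J := by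
  classical
  have hne : ∀ J : Finset α, J.card = k + 1 → J.Nonempty := fun J hJ => by
    rw [← Finset.card_pos]
    omega
  refine ⟨fun J => if hJ : J.card = k + 1 then
    (((h.exact J (hne J hJ) (z J)).1 (hz J hJ))).choose else 0, fun J hJ => ?_⟩
  dsimp only
  rw [dif_pos hJ]
  exact (((h.exact J (hne J hJ) (z J)).1 (hz J hJ))).choose_spec

theorem nonempty_of_card {J : Finset α} {k : ℕ} (h : J.card = k + 1) : J.Nonempty := by
  rw [← Finset.card_pos]
  omega

/-- `H^p(G₁) = 0` and `H^p(G₃) = 0` give `H^p(G₂) = 0` -/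
theorem SES.van_mid {φ : ∀ J, G₁ J →+ G₂ J} {ψ : ∀ J, G₂ J →+ G₃ J}
    (h : SES (ρ₁ := ρ₁) (ρ₂ := ρ₂) (ρ₃ := ρ₃) φ ψ) (hρ₂ : Fct ρ₂) {p : ℕ}
    (h1 : Van ρ₁ p) (h3 : Van ρ₃ p) : Van ρ₂ p := by
  intro z hz
  obtain ⟨w3, hw3⟩ := h3 (fun J => ψ J (z J)) (fun J hJ => by
    rw [dC_map h.natψ, hz J hJ, map_zero])
  obtain ⟨w, hw⟩ := h.lift w3
  have hpull : ∀ J : Finset α, J.card = p + 1 → ψ J ((z - dC ρ₂ w) J) = 0 := by
    intro J hJ
    rw [Pi.sub_apply, map_sub, ← dC_map h.natψ, ← hw3 J hJ, sub_eq_zero]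
    by_cases hp : p = 0
    · subst hp
      unfold dC
      refine Finset.sum_congr rfl fun a ha => ?_
      have he : J.erase a = ∅ := by
        rw [← Finset.card_eq_zero, Finset.card_erase_of_mem ha]
        omega
      have h0 : ∀ u : ∀ J, G₃ J, rs ρ₃ u (J.erase a) J = 0 := fun u => by
        unfold rs
        rw [dif_neg]
        rw [he]
        exact fun h => Finset.not_nonempty_empty h.1
      rw [h0, h0]
    · refine dC_congr fun K hK => ?_
      exact (hw K (nonempty_of_card (k := p - 1) (by omega))).symm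
  obtain ⟨y, hy⟩ := h.pull _ hpull
  obtain ⟨v, hv⟩ := h1 y (fun J hJ => by
    apply h.inj J (nonempty_of_card (k := p + 1) hJ)
    rw [map_zero, ← dC_map h.natφ]
    have : dC ρ₂ (fun J => φ J (y J)) J = dC ρ₂ (z - dC ρ₂ w) J :=
      dC_congr fun K hK => hy K (by omega)
    rw [this, dC_sub, hz J hJ, dC_dC hρ₂, sub_zero])
  refine ⟨w + fun J => φ J (v J), fun J hJ => ?_⟩
  rw [dC_add, dC_map h.natφ, hv J hJ, hy J hJ, Pi.sub_apply, add_sub_cancel]

/-- `H^p(G₂) = 0` and `H^(p+1)(G₁) = 0` give `H^p(G₃) = 0` -/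
theorem SES.van_right {φ : ∀ J, G₁ J →+ G₂ J} {ψ : ∀ J, G₂ J →+ G₃ J}
    (h : SES (ρ₁ := ρ₁) (ρ₂ := ρ₂) (ρ₃ := ρ₃) φ ψ) (hρ₂ : Fct ρ₂) {p : ℕ}
    (h2 : Van ρ₂ p) (h1 : Van ρ₁ (p + 1)) : Van ρ₃ p := by
  intro z hz
  obtain ⟨y, hy⟩ := h.lift z
  obtain ⟨x, hx⟩ := h.pull (k := p + 1) (dC ρ₂ y) (fun J hJ => by
    rw [← dC_map h.natψ]
    have : dC ρ₃ (fun J => ψ J (y J)) J = dC ρ₃ z J :=
      dC_congr fun K hK => hy K (nonempty_of_card (k := p) (by omega))
    rw [this, hz J hJ])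
  obtain ⟨v, hv⟩ := h1 x (fun J hJ => by
    apply h.inj J (nonempty_of_card (k := p + 2) hJ)
    rw [map_zero, ← dC_map h.natφ]
    have : dC ρ₂ (fun J => φ J (x J)) J = dC ρ₂ (dC ρ₂ y) J :=
      dC_congr fun K hK => hx K (by omega)
    rw [this, dC_dC hρ₂])
  obtain ⟨w, hw⟩ := h2 (y - fun J => φ J (v J)) (fun J hJ => by
    rw [dC_sub, dC_map h.natφ, hv J hJ, hx J hJ, sub_self])
  refine ⟨fun J => ψ J (w J), fun J hJ => ?_⟩
  have hJ' := nonempty_of_card hJ
  rw [dC_map h.natψ, hw J hJ, Pi.sub_apply, map_sub, hy J hJ',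
    (h.exact J hJ' _).2 ⟨v J, rfl⟩, sub_zero]

/-- if `H^p(G₃) = 0` and `φ` is zero on `H^p(G₁)`, then `H^p(G₂) = 0` -/
theorem SES.van_of_zero {φ : ∀ J, G₁ J →+ G₂ J} {ψ : ∀ J, G₂ J →+ G₃ J}
    (h : SES (ρ₁ := ρ₁) (ρ₂ := ρ₂) (ρ₃ := ρ₃) φ ψ) (hρ₂ : Fct ρ₂) {p : ℕ} (hp : 1 ≤ p)
    (h1 : ∀ z : ∀ J, G₁ J, (∀ J, J.card = p + 2 → dC ρ₁ z J = 0) →
      ∃ w : ∀ J, G₂ J, ∀ J, J.card = p + 1 → dC ρ₂ w J = φ J (z J))
    (h3 : Van ρ₃ p) : Van ρ₂ p := by
  intro z hz
  obtain ⟨w3, hw3⟩ := h3 (fun J => ψ J (z J)) (fun J hJ => by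
    rw [dC_map h.natψ, hz J hJ, map_zero])
  obtain ⟨w, hw⟩ := h.lift w3
  obtain ⟨y, hy⟩ := h.pull (k := p) (z - dC ρ₂ w) (fun J hJ => by
    rw [Pi.sub_apply, map_sub, ← dC_map h.natψ, ← hw3 J hJ, sub_eq_zero]
    refine dC_congr fun K hK => ?_
    exact (hw K (nonempty_of_card (k := p - 1) (by omega))).symm)
  obtain ⟨v, hv⟩ := h1 y (fun J hJ => by
    apply h.inj J (nonempty_of_card (k := p + 1) hJ)
    rw [map_zero, ← dC_map h.natφ]
    have : dC ρ₂ (fun J => φ J (y J)) J = dC ρ₂ (z - dC ρ₂ w) J :=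
      dC_congr fun K hK => hy K (by omega)
    rw [this, dC_sub, hz J hJ, dC_dC hρ₂, sub_zero])
  refine ⟨w + v, fun J hJ => ?_⟩
  rw [dC_add, hv J hJ, hy J hJ, Pi.sub_apply, add_sub_cancel]

/-- a natural isomorphism preserves vanishing -/
theorem van_of_bij {φ : ∀ J, G₁ J →+ G₂ J} (hφ : Nat' ρ₁ ρ₂ φ)
    (hb : ∀ J : Finset α, J.Nonempty → Function.Bijective (φ J)) {p : ℕ} (h1 : Van ρ₁ p) :
    Van ρ₂ p := by
  classical
  intro z hz
  let y : ∀ J, G₁ J := fun J => if hJ : J.Nonempty then ((hb J hJ).2 (z J)).choose else 0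
  have hy : ∀ J : Finset α, J.Nonempty → φ J (y J) = z J := fun J hJ => by
    have : y J = ((hb J hJ).2 (z J)).choose := dif_pos hJ
    rw [this]
    exact ((hb J hJ).2 (z J)).choose_spec
  obtain ⟨w, hw⟩ := h1 y (fun J hJ => by
    apply (hb J (nonempty_of_card (k := p + 1) hJ)).1
    rw [map_zero, ← dC_map hφ]
    have : dC ρ₂ (fun J => φ J (y J)) J = dC ρ₂ z J :=
      dC_congr fun K hK => hy K (nonempty_of_card (k := p) (by omega))
    rw [this, hz J hJ])
  refine ⟨fun J => φ J (w J), fun J hJ => ?_⟩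
  rw [dC_map hφ, hw J hJ, hy J (nonempty_of_card hJ)]

/-- vanishing goes down to a retract -/
theorem van_of_retract {φ : ∀ J, G₁ J →+ G₂ J} {π : ∀ J, G₂ J →+ G₁ J} (hφ : Nat' ρ₁ ρ₂ φ)
    (hπ : Nat' ρ₂ ρ₁ π) (h : ∀ J : Finset α, J.Nonempty → ∀ z, π J (φ J z) = z) {p : ℕ}
    (h2 : Van ρ₂ p) : Van ρ₁ p := by
  intro z hz
  obtain ⟨w, hw⟩ := h2 (fun J => φ J (z J)) (fun J hJ => by rw [dC_map hφ, hz J hJ, map_zero])
  refine ⟨fun J => π J (w J), fun J hJ => ?_⟩
  rw [dC_map hπ, hw J hJ, h J (nonempty_of_card hJ)]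

end maps

end Pool.Agent.Lib.MP_0b721b_ag
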