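import Pool.Agent.Lib.MP_0b721b_ag.Loc

/-!
Gradings by projectors, and the part of degree `n` of a localisation at a homogeneous element.
-/

namespace Pool.Agent.Lib.MP_0b721b_ag

/-- a grading of an additive group by the integers, given by its projectors -/
structure Gr (M : Type*) [AddCommGroup M] where
  /-- the component of degree `n` -/
  pr : ℤ → M →+ M
  pr_same : ∀ n m, pr n (pr n m) = pr n m
  pr_ne : ∀ i j, i ≠ j → ∀ m, pr i (pr j m) = 0
  fin : ∀ m, {n | pr n m ≠ 0}.Finite
  sum : ∀ m, ∑ᶠ n, pr n m = m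

namespace Gr

variable {M : Type*} [AddCommGroup M]

/-- the shifted grading: degree `n` of `g.shift a` is degree `n + a` of `g` -/
def shift (g : Gr M) (a : ℤ) : Gr M where
  pr n := g.pr (n + a)
  pr_same n m := g.pr_same _ m
  pr_ne i j h m := g.pr_ne _ _ (fun h' => h (by omega)) m
  fin m := by
    have := (g.fin m).preimage (f := fun n : ℤ => n + a) (by
      intro x _ y _ h
      dsimp only at h
      omega)
    exact this
  sum m := by
    conv_rhs => rw [← g.sum m]
    exact finsum_eq_of_bijective (fun n : ℤ => n + a) ⟨fun x y h => by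
      dsimp only at h
      omega, fun y => ⟨y - a, by dsimp only; omega⟩⟩ (fun n => rfl)

/-- `m` is homogeneous of degree `n` -/
def Hom (g : Gr M) (n : ℤ) (m : M) : Prop := g.pr n m = m

theorem hom_pr (g : Gr M) (n : ℤ) (m : M) : g.Hom n (g.pr n m) := g.pr_same n m

theorem Hom.add {g : Gr M} {n : ℤ} {m m' : M} (h : g.Hom n m) (h' : g.Hom n m') :
    g.Hom n (m + m') := by
  unfold Hom at *
  rw [map_add, h, h']

theorem Hom.neg {g : Gr M} {n : ℤ} {m : M} (h : g.Hom n m) : g.Hom n (-m) := by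
  unfold Hom at *
  rw [map_neg, h]

theorem Hom.zero (g : Gr M) (n : ℤ) : g.Hom n 0 := map_zero _

theorem Hom.sum {g : Gr M} {n : ℤ} {ι : Type*} {s : Finset ι} {m : ι → M}
    (h : ∀ i ∈ s, g.Hom n (m i)) : g.Hom n (∑ i ∈ s, m i) := by
  unfold Hom at *
  rw [map_sum]
  exact Finset.sum_congr rfl h

/-- an element all of whose components vanish is zero -/
theorem eq_zero_of_pr (g : Gr M) {m : M} (h : ∀ n, g.pr n m = 0) : m = 0 := by
  rw [← g.sum m]
  simp [h]

variable {S : Type*} [CommRing S] [Module S M]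

/-- `s` acts on `M` as an operator of degree `e` -/
def Op (g : Gr M) (s : S) (e : ℤ) : Prop := ∀ n m, g.pr (n + e) (s • m) = s • g.pr n m

theorem Op.hom {g : Gr M} {s : S} {e : ℤ} (h : g.Op s e) {n : ℤ} {m : M} (hm : g.Hom n m) :
    g.Hom (n + e) (s • m) := by
  unfold Hom at *
  rw [h, hm]

theorem Op.one (g : Gr M) : g.Op (1 : S) 0 := fun n m => by
  rw [add_zero, one_smul, one_smul]

theorem Op.mul {g : Gr M} {s s' : S} {e e' : ℤ} (h : g.Op s e) (h' : g.Op s' e') :
    g.Op (s * s') (e + e') := fun n m => by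
  rw [mul_smul, mul_smul, ← h' n m, ← h (n + e')]
  congr 2
  ring

theorem Op.pow {g : Gr M} {s : S} {e : ℤ} (h : g.Op s e) (k : ℕ) : g.Op (s ^ k) (k * e) := by
  induction k with
  | zero => simpa using Op.one (S := S) g
  | succ k ih =>
    have := ih.mul h
    rw [pow_succ]
    convert this using 1
    push_cast
    ring

theorem Op.prod {g : Gr M} {ι : Type*} {t : Finset ι} {f : ι → S} {d : ι → ℤ}
    (h : ∀ i ∈ t, g.Op (f i) (d i)) : g.Op (∏ i ∈ t, f i) (∑ i ∈ t, d i) := by
  classical
  induction t using Finset.induction_on with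
  | empty => simpa using Op.one (S := S) g
  | insert a t ha ih =>
    rw [Finset.prod_insert ha, Finset.sum_insert ha]
    exact (h a (Finset.mem_insert_self _ _)).mul
      (ih fun i hi => h i (Finset.mem_insert_of_mem hi))

theorem Op.add {g : Gr M} {s s' : S} {e : ℤ} (h : g.Op s e) (h' : g.Op s' e) :
    g.Op (s + s') e := fun n m => by
  rw [add_smul, add_smul, map_add, h, h']

theorem Op.shift {g : Gr M} {s : S} {e : ℤ} (h : g.Op s e) (a : ℤ) : (g.shift a).Op s e :=
  fun n m => by
    change g.pr (n + e + a) (s • m) = s • g.pr (n + a) m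
    rw [← h]
    congr 1
    ring_nf

end Gr

section locdeg

variable {S : Type*} [CommRing S] {M : Type*} [AddCommGroup M] [Module S M]

/-- the fraction `z` has degree `n`: it can be written `m / s ^ k` with `m` homogeneous of degree
`n + k d`, where `d` is the degree of `s` -/
def LDeg (g : Gr M) (s : S) (d n : ℤ) (z : Loc s M) : Prop :=
  ∃ (k : ℕ) (m : M), g.Hom (n + k * d) m ∧ z = fr s m k

/-- the fractions of degree `n` -/
def locDeg (g : Gr M) {s : S} {d : ℤ} (hs : g.Op s d) (n : ℤ) : AddSubgroup (Loc s M) where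
  carrier := {z | LDeg g s d n z}
  zero_mem' := ⟨0, 0, Gr.Hom.zero _ _, (fr_zero 0).symm⟩
  add_mem' := by
    rintro _ _ ⟨k, m, hm, rfl⟩ ⟨l, m', hm', rfl⟩
    refine ⟨k + l, s ^ l • m + s ^ k • m', ?_, ?_⟩
    · refine Gr.Hom.add ?_ ?_
      · have := (hs.pow l).hom hm
        convert this using 1
        push_cast
        ring
      · have := (hs.pow k).hom hm'
        convert this using 1
        push_cast
        ring
    · rw [← fr_add, fr_raise, add_comm k l, fr_raise]
  neg_mem' := by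
    rintro _ ⟨k, m, hm, rfl⟩
    exact ⟨k, -m, hm.neg, fr_neg m k⟩

/-- if a fraction of degree `n` is `m / s ^ k`, one may replace `m` by its component -/
theorem LDeg.fr_pr {g : Gr M} {s : S} {d : ℤ} (hs : g.Op s d) {n : ℤ} {m : M} {k : ℕ}
    (h : LDeg g s d n (fr s m k)) : fr s m k = fr s (g.pr (n + k * d) m) k := by
  obtain ⟨l, m', hm', h'⟩ := h
  obtain ⟨j, hj⟩ := fr_eq.1 h'
  have e1 := congrArg (g.pr (n + (j + k + l) * d)) hj
  have e2 := (hs.pow (j + l)) (n + k * d) m
  have e3 := (hs.pow (j + k)).hom hm'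
  rw [show n + (k : ℤ) * d + ((j + l : ℕ) : ℤ) * d = n + (j + k + l) * d by push_cast; ring] at e2
  have e4 : g.pr (n + (j + k + l) * d) (s ^ (j + k) • m') = s ^ (j + k) • m' := by
    unfold Gr.Hom at e3
    rw [show n + (l : ℤ) * d + ((j + k : ℕ) : ℤ) * d = n + (j + k + l) * d by push_cast; ring] at e3
    exact e3
  rw [e2, e4, ← hj] at e1
  exact fr_eq_of (j + l) (pow_smul_eq e1.symm k _ _ (by omega) (by omega))

theorem LDeg.opm {g : Gr M} {s : S} {d n : ℤ} (hs : g.Op s d) {w : S} {e : ℤ} (hw : g.Op w e)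
    {j : ℕ} {z : Loc s M} (hz : LDeg g s d n z) : LDeg g s d (n + (e - j * d)) (opm s w j z) := by
  obtain ⟨k, m, hm, rfl⟩ := hz
  refine ⟨k + j, w • m, ?_, opm_fr _ _ _ _⟩
  have := hw.hom hm
  convert this using 1
  push_cast
  ring

theorem LDeg.locRes {g : Gr M} {s r t : S} (ht : s * r = t) {d e n : ℤ} (hr : g.Op r e)
    {z : Loc s M} (hz : LDeg g s d n z) : LDeg g t (d + e) n (locRes s r t ht z) := by
  obtain ⟨k, m, hm, rfl⟩ := hz
  refine ⟨k, r ^ k • m, ?_, locRes_fr _ _ _ _ _⟩
  have := (hr.pow k).hom hm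
  convert this using 1
  ring

end locdeg

end Pool.Agent.Lib.MP_0b721b_ag
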