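import Pool.Agent.Lib.MP_0b721b_ag.Sh

/-!
Finite generation of the twisted Cech cohomology in one degree.
-/

namespace Pool.Agent.Lib.MP_0b721b_ag

universe u

/-- `H^p (F ⊗ N (n))` is finitely generated over `A` -/
def HF (A : Type*) [CommRing A] {S : Type*} [CommRing S] {α : Type*} [LinearOrder α]
    {M : Type*} [AddCommGroup M] [Module S M] [Module A M] [SMulCommClass A S M]
    (D : Dat S α) (g : Gr M) (n : ℤ) (p : ℕ) : Prop :=
  ∃ (r : ℕ) (Z : Fin r → ∀ J : Finset α, Loc (D.fJ J) M),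
    (∀ i J, LDeg g (D.fJ J) (D.dJ J) n (Z i J)) ∧
    (∀ i J, J.card = p + 2 → dC (D.tw M) (Z i) J = 0) ∧
    ∀ z : ∀ J : Finset α, Loc (D.fJ J) M, (∀ J, LDeg g (D.fJ J) (D.dJ J) n (z J)) →
      (∀ J, J.card = p + 2 → dC (D.tw M) z J = 0) →
      ∃ (b : Fin r → A) (w : ∀ J : Finset α, Loc (D.fJ J) M),
        (∀ J, LDeg g (D.fJ J) (D.dJ J) n (w J)) ∧
        ∀ J, J.card = p + 1 → z J = ∑ i, b i • Z i J + dC (D.tw M) w J

end Pool.Agent.Lib.MP_0b721b_ag
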