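import Pool.Agent.Lib.MP_0b721b_ag.Cyc

/-!
Part P2: coherent graded sheaves, as functors on the nonempty subsets of the index set `α` of the
cover with values in graded modules over `T = B[y_a]`.
-/

namespace Pool.Agent.Lib.MP_0b721b_ag

open MvPolynomial

universe u

/-- a coherent graded sheaf over the base ring `B` -/
structure Sh {α : Type} [LinearOrder α] {B : Type u} [CommRing B] (d : α → ℤ)
    {G : Finset α → Type u} [∀ J, AddCommGroup (G J)] [∀ J, Module (MvPolynomial α B) (G J)]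
    (g : ∀ J, Gr (G J)) (ρ : ∀ J J' : Finset α, J.Nonempty → J ⊆ J' → G J →+ G J') : Prop where
  fct : Fct ρ
  lin : ∀ J J' h0 h (t : MvPolynomial α B) z, ρ J J' h0 h (t • z) = t • ρ J J' h0 h z
  gmod : ∀ J, GMod (A := B) d (g J)
  gρ : ∀ J J' h0 h n z, ρ J J' h0 h ((g J).pr n z) = (g J').pr n (ρ J J' h0 h z)
  inj : ∀ J, ∀ a ∈ J, ∀ z : G J, (X a : MvPolynomial α B) • z = 0 → z = 0
  div : ∀ J, ∀ a ∈ J, ∀ z : G J, ∃ z', (X a : MvPolynomial α B) • z' = z
  linj : ∀ J J' h0 h (z : G J), ρ J J' h0 h z = 0 →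
    ∃ k : ℕ, (∏ a ∈ J' \ J, (X a : MvPolynomial α B)) ^ k • z = 0
  lsurj : ∀ J J' h0 h (z : G J'),
    ∃ (k : ℕ) (z' : G J), ρ J J' h0 h z' = (∏ a ∈ J' \ J, (X a : MvPolynomial α B)) ^ k • z
  fin : ∀ a, ∃ s : Finset (G {a}), ∀ z : G {a},
    ∃ k : ℕ, (X a : MvPolynomial α B) ^ k • z ∈ Submodule.span (MvPolynomial α B) (s : Set (G {a}))

/-- `H^p = 0` in degree `n` -/
def VanD {α : Type} [LinearOrder α] {G : Finset α → Type u} [∀ J, AddCommGroup (G J)]
    (g : ∀ J, Gr (G J)) (ρ : ∀ J J' : Finset α, J.Nonempty → J ⊆ J' → G J →+ G J') (n : ℤ)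
    (p : ℕ) : Prop :=
  ∀ z : ∀ J, G J, (∀ J, (g J).Hom n (z J)) → (∀ J, J.card = p + 2 → dC ρ z J = 0) →
    ∃ w : ∀ J, G J, (∀ J, (g J).Hom n (w J)) ∧ ∀ J, J.card = p + 1 → dC ρ w J = z J

/-- `H^p` in degree `n` is finitely generated over `B` -/
def FinD {α : Type} [LinearOrder α] (B : Type u) [CommRing B] {G : Finset α → Type u}
    [∀ J, AddCommGroup (G J)] [∀ J, Module (MvPolynomial α B) (G J)]
    (g : ∀ J, Gr (G J)) (ρ : ∀ J J' : Finset α, J.Nonempty → J ⊆ J' → G J →+ G J') (n : ℤ)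
    (p : ℕ) : Prop :=
  ∃ (r : ℕ) (Z : Fin r → ∀ J, G J), (∀ i J, (g J).Hom n (Z i J)) ∧
    (∀ i J, J.card = p + 2 → dC ρ (Z i) J = 0) ∧
    ∀ z : ∀ J, G J, (∀ J, (g J).Hom n (z J)) → (∀ J, J.card = p + 2 → dC ρ z J = 0) →
      ∃ (b : Fin r → B) (w : ∀ J, G J), (∀ J, (g J).Hom n (w J)) ∧
        ∀ J, J.card = p + 1 → z J = ∑ i, (C (b i) : MvPolynomial α B) • Z i J + dC ρ w J

/-- the data of the structure sheaf on the cover by the coordinates -/
noncomputable def datO {α : Type} (B : Type u) [CommRing B] (d : α → ℤ) :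
    Dat (MvPolynomial α B) α where
  f := X
  d := d
  t := 0
  v _ _ := 1

/-- the grading of `T ^ r` with generators of degrees `e j` -/
noncomputable def freeGr {σ : Type*} (A : Type*) [CommRing A] (w : σ → ℤ) {r : ℕ} (e : Fin r → ℤ) :
    Gr (Fin r → MvPolynomial σ A) where
  pr n := AddMonoidHom.mk' (fun v j => (polyGr A w).pr (n - e j) (v j)) (fun a b => by
    funext j
    exact map_add _ _ _)
  pr_same n v := by
    funext j
    exact (polyGr A w).pr_same _ _
  pr_ne i j h v := by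
    funext l
    exact (polyGr A w).pr_ne _ _ (by omega) _
  fin v := by
    refine (Set.finite_iUnion fun j => (((polyGr A w).shift (-e j)).fin (v j))).subset ?_
    intro n hn
    rw [Set.mem_iUnion]
    by_contra hc
    push Not at hc
    apply hn
    funext j
    have := hc j
    by_contra h
    exact this h
  sum v := by
    funext j
    have hf : {n | (AddMonoidHom.mk' (fun (v : Fin r → MvPolynomial σ A) j =>
        (polyGr A w).pr (n - e j) (v j)) (fun a b => by
          funext j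
          exact map_add _ _ _)) v ≠ 0}.Finite := by
      refine (Set.finite_iUnion fun j => (((polyGr A w).shift (-e j)).fin (v j))).subset ?_
      intro n hn
      rw [Set.mem_iUnion]
      by_contra hc
      push Not at hc
      apply hn
      funext j
      have := hc j
      by_contra h
      exact this h
    have h1 := AddMonoidHom.map_finsum
      (Pi.evalAddMonoidHom (fun _ : Fin r => MvPolynomial σ A) j) hf
    have h2 := ((polyGr A w).shift (-e j)).sum (v j)
    exact h1.trans h2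

end Pool.Agent.Lib.MP_0b721b_ag
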