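import Pool.Agent.Lib.MP_0b721b_ag.Fib
import Pool.Agent.Lib.MP_0b721b_ag.Sh

/-!
Part P10c: base change of graded modules `P ^ r / W`; descent along field extensions.
-/

namespace Pool.Agent.Lib.MP_0b721b_ag

open MvPolynomial

universe u

/-- the submodule of `k[x] ^ r` generated by the image of a submodule of `A[x] ^ r` -/
noncomputable def bcS {A : Type*} {k : Type*} [CommRing A] [CommRing k] {σ : Type*} {r : ℕ}
    (ψ : A →+* k) (W : Submodule (MvPolynomial σ A) (Fin r → MvPolynomial σ A)) :
    Submodule (MvPolynomial σ k) (Fin r → MvPolynomial σ k) :=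
  Submodule.span _ ((fun v j => MvPolynomial.map ψ (v j)) '' (W : Set (Fin r → MvPolynomial σ A)))

/-- components of a product in a graded module -/
theorem p10c_pr_smul {A : Type*} [CommRing A] {σ : Type*} {w : σ → ℤ} {M : Type*} [AddCommGroup M]
    [Module (MvPolynomial σ A) M] {g : Gr M} (h : GMod (A := A) w g) (n : ℤ)
    (a : MvPolynomial σ A) (x : M) :
    g.pr n (a • x) = ∑ᶠ j, (polyGr A w).pr j a • g.pr (n - j) x := by
  have h1 : ∀ j, (polyGr A w).pr j a • g.pr (n - j) x = g.pr n ((polyGr A w).pr j a • x) := by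
    intro j
    have := h j _ ((polyGr A w).hom_pr j a) (n - j) x
    rw [sub_add_cancel] at this
    exact this.symm
  simp only [h1]
  have h2 : a • x = ∑ᶠ j, (polyGr A w).pr j a • x := by
    conv_lhs => rw [← (polyGr A w).sum a]
    exact AddMonoidHom.map_finsum (AddMonoidHom.mk' (fun f : MvPolynomial σ A => f • x)
      (fun f f' => add_smul f f' x)) ((polyGr A w).fin a)
  conv_lhs => rw [h2]
  exact AddMonoidHom.map_finsum _ (((polyGr A w).fin a).subset (by
      intro j hj h'
      exact hj (by simp only [h', zero_smul])))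

/-- homogeneous polynomials act on `P ^ r` -/
theorem p10c_gmod {A : Type*} [CommRing A] {σ : Type*} {r : ℕ} {w : σ → ℤ} {e : Fin r → ℤ} :
    GMod (A := A) w (freeGr A w e) := by
  intro d f hf n m
  funext j
  have := polyGr_op hf (n - e j) (m j)
  rw [show n - e j + d = n + d - e j by ring] at this
  exact this

/-- the image of a homogeneous submodule is homogeneous -/
theorem bcS_sub {A : Type u} {k : Type u} [CommRing A] [CommRing k] {σ : Type} {r : ℕ}
    (ψ : A →+* k) {w : σ → ℤ} {e : Fin r → ℤ}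
    {W : Submodule (MvPolynomial σ A) (Fin r → MvPolynomial σ A)}
    (hW : (freeGr A w e).Sub W) : (freeGr k w e).Sub (bcS ψ W) := by
  intro n m hm
  unfold bcS at hm
  induction hm using Submodule.span_induction generalizing n with
  | mem x hx =>
    obtain ⟨v, hv, rfl⟩ := hx
    have h1 : (freeGr k w e).pr n (fun j => MvPolynomial.map ψ (v j)) =
        fun j => MvPolynomial.map ψ ((freeGr A w e).pr n v j) := by
      funext j
      exact (polyGr_map ψ w (n - e j) (v j)).symm
    rw [h1]
    exact Submodule.subset_span ⟨_, hW n v hv, rfl⟩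
  | zero =>
    rw [map_zero]
    exact Submodule.zero_mem _
  | add x y _ _ hx hy =>
    rw [map_add]
    exact Submodule.add_mem _ (hx n) (hy n)
  | smul a x _ hx =>
    rw [p10c_pr_smul p10c_gmod]
    exact finsum_induction (fun y => y ∈ bcS ψ W) (Submodule.zero_mem _)
      (fun _ _ h h' => Submodule.add_mem _ h h')
      (fun j => Submodule.smul_mem _ _ (hx (n - j)))

/-- homogeneous polynomials act on `P ^ r` -/
theorem freeGr_gmod {A : Type u} [CommRing A] {σ : Type} {r : ℕ} {w : σ → ℤ} {e : Fin r → ℤ} :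
    GMod (A := A) w (freeGr A w e) := p10c_gmod

/-- an additive map on the coefficients -/
noncomputable def p10c_co {k k' : Type*} [CommRing k] [CommRing k'] {σ : Type*} (r : k' →+ k) :
    MvPolynomial σ k' →+ MvPolynomial σ k :=
  AddMonoidHom.mk' (fun f => .ofCoeff (Finsupp.mapRange r (map_zero r)
    (AddMonoidAlgebra.coeff f))) (fun a b => by
      apply MvPolynomial.ext
      intro d
      exact map_add r (a.coeff d) (b.coeff d))

theorem p10c_coeff {k k' : Type*} [CommRing k] [CommRing k'] {σ : Type*} (r : k' →+ k)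
    (f : MvPolynomial σ k') (d : σ →₀ ℕ) : (p10c_co r f).coeff d = r (f.coeff d) := rfl

theorem p10c_mul {k k' : Type*} [CommRing k] [CommRing k'] {σ : Type*} {r : k' →+ k}
    {ι : k →+* k'} (hr : ∀ c y, r (ι c * y) = c * r y) (f : MvPolynomial σ k)
    (g : MvPolynomial σ k') : p10c_co r (MvPolynomial.map ι f * g) = f * p10c_co r g := by
  classical
  apply MvPolynomial.ext
  intro d
  rw [p10c_coeff, MvPolynomial.coeff_mul, MvPolynomial.coeff_mul, map_sum]
  refine Finset.sum_congr rfl fun x _ => ?_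
  rw [MvPolynomial.coeff_map, hr, p10c_coeff]

theorem p10c_pr {k k' : Type*} [CommRing k] [CommRing k'] {σ : Type*} {r : k' →+ k}
    (w : σ → ℤ) (n : ℤ) (f : MvPolynomial σ k') :
    p10c_co r ((polyGr k' w).pr n f) = (polyGr k w).pr n (p10c_co r f) := by
  classical
  apply MvPolynomial.ext
  intro d
  rw [p10c_coeff, polyGr_pr, polyGr_pr, coeff_weightedHomogeneousComponent,
    coeff_weightedHomogeneousComponent, p10c_coeff]
  split_ifs
  · rfl
  · exact map_zero r

theorem p10c_mem {k k' : Type*} [CommRing k] [CommRing k'] {σ : Type*} {r : k' →+ k}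
    {ι : k →+* k'} (hr : ∀ c y, r (ι c * y) = c * r y) {I : Ideal (MvPolynomial σ k)}
    {y : MvPolynomial σ k'} (hy : y ∈ I.map (MvPolynomial.map ι)) : p10c_co r y ∈ I := by
  have h1 : ∀ p, p10c_co r (p * y) ∈ I := by
    induction hy using Submodule.span_induction with
    | mem x hx =>
      obtain ⟨g, hg, rfl⟩ := hx
      intro p
      rw [mul_comm]
      refine (congrArg (· ∈ I) (p10c_mul hr g p)).mpr ?_
      exact Ideal.mul_mem_right _ _ hg
    | zero =>
      intro p
      rw [mul_zero, map_zero]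
      exact Ideal.zero_mem _
    | add x y _ _ hx hy =>
      intro p
      rw [mul_add, map_add]
      exact Ideal.add_mem _ (hx p) (hy p)
    | smul c x _ hx =>
      intro p
      rw [smul_eq_mul, ← mul_assoc]
      exact hx (p * c)
  have h2 := h1 1
  rwa [one_mul] at h2

/-- a retraction of a field extension -/
theorem p10c_retr {k k' : Type*} [Field k] [Field k'] (ι : k →+* k') :
    ∃ r : k' →+ k, (∀ c y, r (ι c * y) = c * r y) ∧ ∀ c, r (ι c) = c := by
  let _ := ι.toAlgebra
  obtain ⟨r, hr⟩ := LinearMap.exists_leftInverse_of_injective (Algebra.linearMap k k')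
    (LinearMap.ker_eq_bot.2 ι.injective)
  refine ⟨r.toAddMonoidHom, fun c y => ?_, fun c => ?_⟩
  · exact r.map_smul c y
  · exact LinearMap.congr_fun hr c

/-- vanishing descends from an extension field -/
theorem hv_descent {k k' : Type u} [Field k] [Field k'] (ι : k →+* k') {N : ℕ} {w : Fin N → ℤ}
    {I : Ideal (MvPolynomial (Fin N) k)} (hI : (polyGr k w).Sub I)
    (hI' : (polyGr k' w).Sub (I.map (MvPolynomial.map ι)))
    {α : Type} [LinearOrder α] [Fintype α] {D : Dat (MvPolynomial (Fin N) k) α} {n : ℤ} {p : ℕ}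
    (H : HV (D.bc ι) (cyc w (I.map (MvPolynomial.map ι)) hI') n p) : HV D (cyc w I hI) n p := by
  obtain ⟨r, hr, hr1⟩ := p10c_retr ι
  let φ : (MvPolynomial (Fin N) k ⧸ I) →+ (MvPolynomial (Fin N) k' ⧸ I.map (MvPolynomial.map ι)) :=
    (Ideal.quotientMap (I.map (MvPolynomial.map ι)) (MvPolynomial.map ι)
      Ideal.le_comap_map).toAddMonoidHom
  let π : (MvPolynomial (Fin N) k' ⧸ I.map (MvPolynomial.map ι)) →+ (MvPolynomial (Fin N) k ⧸ I) :=
    QuotientAddGroup.map (I.map (MvPolynomial.map ι)).toAddSubgroup I.toAddSubgroup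
      (p10c_co r) (fun y hy => p10c_mem hr hy)
  have hφm : ∀ x : MvPolynomial (Fin N) k, φ (Submodule.Quotient.mk x) =
      Submodule.Quotient.mk (MvPolynomial.map ι x) := fun x => rfl
  have hπm : ∀ x : MvPolynomial (Fin N) k', π (Submodule.Quotient.mk x) =
      Submodule.Quotient.mk (p10c_co r x) := fun x => rfl
  have hφs : ∀ (s : MvPolynomial (Fin N) k) m, φ (s • m) = MvPolynomial.map ι s • φ m := by
    intro s m
    obtain ⟨m, rfl⟩ := Submodule.Quotient.mk_surjective _ m
    rw [← Submodule.Quotient.mk_smul, hφm, hφm, ← Submodule.Quotient.mk_smul, smul_eq_mul,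
      smul_eq_mul, map_mul]
  have hπs : ∀ (s : MvPolynomial (Fin N) k) m, π (MvPolynomial.map ι s • m) = s • π m := by
    intro s m
    obtain ⟨m, rfl⟩ := Submodule.Quotient.mk_surjective _ m
    rw [← Submodule.Quotient.mk_smul, hπm, hπm, ← Submodule.Quotient.mk_smul, smul_eq_mul,
      smul_eq_mul, p10c_mul hr]
  have h1 : Cmp D (D.bc ι) φ := ⟨fun a m => hφs _ m, fun a b m => hφs _ m, rfl, rfl⟩
  have h2 : Cmp (D.bc ι) D π := ⟨fun a m => hπs _ m, fun a b m => hπs _ m, rfl, rfl⟩
  refine HV.retract (g' := cyc w (I.map (MvPolynomial.map ι)) hI') h1 h2 (δ := 0)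
    (fun m => ?_) (fun n m hm => ?_) (fun n m hm => ?_) (by rw [add_zero]; exact H)
  · obtain ⟨m, rfl⟩ := Submodule.Quotient.mk_surjective _ m
    rw [hφm, hπm]
    congr 1
    apply MvPolynomial.ext
    intro d
    rw [p10c_coeff, MvPolynomial.coeff_map, hr1]
  · rw [add_zero]
    unfold Gr.Hom at *
    rw [← congrArg φ hm]
    obtain ⟨m, rfl⟩ := Submodule.Quotient.mk_surjective _ m
    change Submodule.Quotient.mk ((polyGr k' w).pr n (MvPolynomial.map ι
      ((polyGr k w).pr n m))) = Submodule.Quotient.mk (MvPolynomial.map ι ((polyGr k w).pr n m))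
    rw [polyGr_map, Gr.pr_same]
  · rw [add_zero] at hm
    unfold Gr.Hom at *
    rw [← congrArg π hm]
    obtain ⟨m, rfl⟩ := Submodule.Quotient.mk_surjective _ m
    change Submodule.Quotient.mk ((polyGr k w).pr n (p10c_co r
      ((polyGr k' w).pr n m))) = Submodule.Quotient.mk (p10c_co r ((polyGr k' w).pr n m))
    rw [p10c_pr, Gr.pr_same]

end Pool.Agent.Lib.MP_0b721b_ag
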