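import Mathlib

/-!
Part P10e: extension of ring maps to the algebraic closure, over a nonempty open subset.
-/

namespace Pool.Agent.Lib.MP_0b721b_ag

universe u

/-- a map from `A₁` to a field extends to an integral extension of `A₁` modulo its kernel -/
theorem ext_int {A₁ B₁ : Type u} [CommRing A₁] [CommRing B₁] [Algebra A₁ B₁]
    [Algebra.IsIntegral A₁ B₁] {k : Type u} [Field k] (ψ₁ : A₁ →+* k)
    (hker : RingHom.ker (algebraMap A₁ B₁) ≤ RingHom.ker ψ₁) :
    ∃ φ : B₁ →+* AlgebraicClosure k,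
      ∀ a, φ (algebraMap A₁ B₁ a) = algebraMap k (AlgebraicClosure k) (ψ₁ a) := by
  haveI : (RingHom.ker ψ₁).IsPrime := RingHom.ker_isPrime ψ₁
  obtain ⟨Q, -, hQ, hQP⟩ := Ideal.exists_ideal_over_prime_of_isIntegral (S := B₁)
    (RingHom.ker ψ₁) ⊥ (by
      rw [← RingHom.ker_eq_comap_bot]
      exact hker)
  haveI : Q.LiesOver (RingHom.ker ψ₁) := ⟨hQP.symm⟩
  let θ : (A₁ ⧸ RingHom.ker ψ₁) →+* AlgebraicClosure k :=
    (algebraMap k (AlgebraicClosure k)).comp (RingHom.kerLift ψ₁)
  letI : Algebra (A₁ ⧸ RingHom.ker ψ₁) (AlgebraicClosure k) := θ.toAlgebra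
  have hθ : Function.Injective θ := (algebraMap k (AlgebraicClosure k)).injective.comp
    (RingHom.kerLift_injective ψ₁)
  haveI : FaithfulSMul (A₁ ⧸ RingHom.ker ψ₁) (AlgebraicClosure k) :=
    (faithfulSMul_iff_algebraMap_injective _ _).2 hθ
  let L : (B₁ ⧸ Q) →ₐ[A₁ ⧸ RingHom.ker ψ₁] AlgebraicClosure k := IsAlgClosed.lift
  refine ⟨(L : (B₁ ⧸ Q) →+* AlgebraicClosure k).comp (Ideal.Quotient.mk Q), fun a => ?_⟩
  have h1 := L.commutes (Ideal.Quotient.mk _ a)
  exact h1

/-- `K` algebraic over `A / 𝔭`, `B` the subring of `K` generated by `A` and a finite set: outside a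
proper closed subset of `V(𝔭)` the maps from `A` to a field `k` extend to maps from `B` to the
algebraic closure of `k` -/
theorem ext_hom {A : Type u} [CommRing A] {𝔭 : Ideal A} (h𝔭 : 𝔭.IsPrime) {K : Type u} [Field K]
    (j : A →+* K) (hj : RingHom.ker j = 𝔭)
    (halg : ∀ x : K, ∃ f : Polynomial A, f.map j ≠ 0 ∧ f.eval₂ j x = 0) (s : Finset K) :
    ∃ b : A, b ∉ 𝔭 ∧ ∀ (k : Type u) [Field k] (ψ : A →+* k), (∀ a ∈ 𝔭, ψ a = 0) → ψ b ≠ 0 →
      ∃ φ : Subring.closure (Set.range j ∪ (s : Set K)) →+* AlgebraicClosure k,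
        ∀ (a : A) (h : j a ∈ Subring.closure (Set.range j ∪ (s : Set K))),
          φ ⟨j a, h⟩ = algebraMap k (AlgebraicClosure k) (ψ a) := by
  have halg' : ∀ x : K, ∃ f : Polynomial A, j f.leadingCoeff ≠ 0 ∧ f.eval₂ j x = 0 := by
    intro x
    obtain ⟨f, hf, hfx⟩ := halg x
    obtain ⟨g, hg, hg'⟩ := Polynomial.exists_natDegree_eq_of_mem_lifts
      (f := j) (p := f.map j) ⟨f, rfl⟩
    refine ⟨g, ?_, ?_⟩
    · have h1 : (g.map j).coeff g.natDegree = j g.leadingCoeff := by
        rw [Polynomial.coeff_map]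
        rfl
      rw [← h1, hg, hg']
      exact Polynomial.leadingCoeff_ne_zero.2 hf
    · rw [Polynomial.eval₂_eq_eval_map, hg, ← Polynomial.eval₂_eq_eval_map]
      exact hfx
  choose f hf hfx using halg'
  have hbj : j (∏ x ∈ s, (f x).leadingCoeff) ≠ 0 := by
    rw [map_prod]
    exact Finset.prod_ne_zero_iff.2 fun x _ => hf x
  refine ⟨∏ x ∈ s, (f x).leadingCoeff, fun h => hbj ?_, ?_⟩
  · rw [← hj] at h
    exact h
  intro k _ ψ hψ hψb
  set b : A := ∏ x ∈ s, (f x).leadingCoeff with hb
  let j₁ : Localization.Away b →+* K := IsLocalization.Away.lift b (isUnit_iff_ne_zero.2 hbj)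
  have hj₁ : ∀ a, j₁ (algebraMap A (Localization.Away b) a) = j a := fun a =>
    IsLocalization.Away.lift_eq b _ a
  let ψ₁ : Localization.Away b →+* k := IsLocalization.Away.lift b (isUnit_iff_ne_zero.2 hψb)
  have hψ₁ : ∀ a, ψ₁ (algebraMap A (Localization.Away b) a) = ψ a := fun a =>
    IsLocalization.Away.lift_eq b _ a
  letI : Algebra (Localization.Away b) K := j₁.toAlgebra
  have hint : ∀ x ∈ (s : Set K), IsIntegral (Localization.Away b) x := by
    intro x hx
    have h1 : IsUnit (algebraMap A (Localization.Away b) (f x).leadingCoeff) :=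
      isUnit_of_dvd_unit (map_dvd _ (Finset.dvd_prod_of_mem (fun x => (f x).leadingCoeff) hx))
        (IsLocalization.Away.algebraMap_isUnit b)
    have h0 : algebraMap A (Localization.Away b) (f x).leadingCoeff ≠ 0 := by
      intro h0
      have := hj₁ (f x).leadingCoeff
      rw [h0, map_zero] at this
      exact hf x this.symm
    have h2 : Polynomial.aeval x ((f x).map (algebraMap A (Localization.Away b))) = 0 := by
      rw [Polynomial.aeval_def, Polynomial.eval₂_map]
      have h3 : (algebraMap (Localization.Away b) K).comp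
          (algebraMap A (Localization.Away b)) = j := RingHom.ext hj₁
      rw [h3]
      exact hfx x
    have h4 := isIntegral_leadingCoeff_smul _ x h2
    rw [Polynomial.leadingCoeff_map_of_leadingCoeff_ne_zero _ h0] at h4
    obtain ⟨u, hu⟩ := h1
    rw [← hu] at h4
    have h5 := h4.smul ((u⁻¹ : (Localization.Away b)ˣ) : Localization.Away b)
    rw [smul_smul, Units.inv_mul, one_smul] at h5
    exact h5
  haveI : Algebra.IsIntegral (Localization.Away b)
      (Algebra.adjoin (Localization.Away b) (s : Set K)) := Algebra.IsIntegral.adjoin hint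
  obtain ⟨φ, hφ⟩ := ext_int (B₁ := Algebra.adjoin (Localization.Away b) (s : Set K)) ψ₁ (by
    intro c hc
    have hc' : j₁ c = 0 := congrArg Subtype.val (RingHom.mem_ker.1 hc)
    obtain ⟨⟨a, m⟩, hm⟩ := IsLocalization.surj (Submonoid.powers b) c
    have h1 : j a = 0 := by
      rw [← hj₁ a]
      dsimp only at hm
      rw [← hm, map_mul, hc', zero_mul]
    have h2 : ψ a = 0 := hψ a (by
      rw [← hj]
      exact h1)
    have h3 : ψ₁ c * ψ₁ (algebraMap A (Localization.Away b) m) = 0 := by
      dsimp only at hm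
      rw [← map_mul, hm, hψ₁, h2]
    refine RingHom.mem_ker.2 ((mul_eq_zero.1 h3).resolve_right ?_)
    exact ((IsLocalization.map_units (Localization.Away b) m).map ψ₁).ne_zero)
  have hle : Subring.closure (Set.range j ∪ (s : Set K)) ≤
      (Algebra.adjoin (Localization.Away b) (s : Set K)).toSubring := by
    rw [Subring.closure_le]
    rintro y (⟨a, rfl⟩ | hy)
    · rw [← hj₁ a]
      exact (Algebra.adjoin (Localization.Away b) (s : Set K)).algebraMap_mem
        (algebraMap A (Localization.Away b) a)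
    · exact Algebra.subset_adjoin hy
  refine ⟨(φ : (Algebra.adjoin (Localization.Away b) (s : Set K)) →+* AlgebraicClosure k).comp
    (Subring.inclusion hle), fun a h => ?_⟩
  have h1 := hφ (algebraMap A (Localization.Away b) a)
  rw [hψ₁] at h1
  rw [← h1]
  refine congrArg φ (Subtype.ext ?_)
  exact (hj₁ a).symm

end Pool.Agent.Lib.MP_0b721b_ag
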