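import Mathlib

/-!
Part P9c: finite residue fields.
-/

namespace Pool.Agent.Lib.MP_0b721b_ag

open MvPolynomial

universe u

theorem p9c_jacobson_int : IsJacobsonRing ℤ := by
  rw [isJacobsonRing_iff_prime_eq]
  intro P hP
  by_cases h0 : P = ⊥
  · subst h0
    refine le_antisymm ?_ Ideal.le_jacobson
    intro x hx
    rw [Ideal.mem_jacobson_bot] at hx
    have h1 := hx x
    rw [Int.isUnit_iff] at h1
    rw [Ideal.mem_bot]
    rcases h1 with h1 | h1
    · have : x * x = 0 := by linarith
      exact mul_self_eq_zero.mp this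
    · nlinarith [mul_self_nonneg x]
  · have hm : P.IsMaximal := IsPrime.to_maximal_ideal h0
    exact Ideal.jacobson_eq_self_of_isMaximal

theorem p9c_ft {k : Type u} [Field k] (s : Finset k) :
    Algebra.FiniteType ℤ (Subring.closure (s : Set k)) := by
  have h1 : Algebra.FiniteType ℤ (Algebra.adjoin ℤ (s : Set k)) :=
    .adjoin_of_finite s.finite_toSet
  have h2 : ∀ x : k, x ∈ Algebra.adjoin ℤ (s : Set k) ↔ x ∈ Subring.closure (s : Set k) := by
    intro x
    rw [Algebra.adjoin_int]
    rfl
  let f : Algebra.adjoin ℤ (s : Set k) →+* Subring.closure (s : Set k) :=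
    { toFun := fun x => ⟨x.1, (h2 x.1).mp x.2⟩
      map_one' := rfl
      map_mul' := fun _ _ => rfl
      map_zero' := rfl
      map_add' := fun _ _ => rfl }
  exact Algebra.FiniteType.of_surjective f.toIntAlgHom
    (fun y => ⟨⟨y.1, (h2 y.1).mpr y.2⟩, rfl⟩)

/-- residue fields of finitely generated subrings of a field are finite (P9c) -/
theorem finite_residue {k : Type u} [Field k] (s : Finset k)
    (m : Ideal (Subring.closure (s : Set k))) [m.IsMaximal] :
    Finite (Subring.closure (s : Set k) ⧸ m) := by
  have := p9c_jacobson_int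
  let : Field (Subring.closure (s : Set k) ⧸ m) := Ideal.Quotient.field m
  have hft0 := p9c_ft s
  have hft : Algebra.FiniteType ℤ (Subring.closure (s : Set k) ⧸ m) :=
    Algebra.FiniteType.of_surjective (Ideal.Quotient.mk m).toIntAlgHom
      Ideal.Quotient.mk_surjective
  have hfin : Module.Finite ℤ (Subring.closure (s : Set k) ⧸ m) :=
    finite_of_finite_type_of_isJacobsonRing ℤ _
  obtain ⟨p, hp⟩ := CharP.exists (Subring.closure (s : Set k) ⧸ m)
  by_cases hp0 : p = 0
  · subst hp0
    exfalso
    have hinj : Function.Injective (algebraMap ℤ (Subring.closure (s : Set k) ⧸ m)) := by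
      have := CharP.charP_to_charZero (Subring.closure (s : Set k) ⧸ m)
      exact Int.cast_injective
    have hint : Algebra.IsIntegral ℤ (Subring.closure (s : Set k) ⧸ m) := inferInstance
    have hF : IsField ℤ := isField_of_isIntegral_of_isField hinj
      (Field.toIsField (Subring.closure (s : Set k) ⧸ m))
    obtain ⟨b, hb⟩ := hF.mul_inv_cancel (show (2 : ℤ) ≠ 0 by norm_num)
    omega
  · refine Module.finite_of_fg_torsion _ ?_
    intro x
    refine ⟨⟨(p : ℤ), ?_⟩, ?_⟩
    · rw [mem_nonZeroDivisors_iff_ne_zero]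
      exact_mod_cast hp0
    · show (p : ℤ) • x = 0
      rw [zsmul_eq_mul, Int.cast_natCast, CharP.cast_eq_zero, zero_mul]

end Pool.Agent.Lib.MP_0b721b_ag
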