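import Pool.Agent.Lib.MP_0b721b_ag.P9d0

/-!
Part P9d: from a subring `R` of a field `k` to `k`.
-/

namespace Pool.Agent.Lib.MP_0b721b_ag

open MvPolynomial

universe u

variable {k : Type u} [Field k] {N : ℕ} {w : Fin N → ℤ} {R : Subring k}
  {I : Ideal (MvPolynomial (Fin N) R)} {E : Set (Fin N →₀ ℕ)}

/-- the images over a linearly independent family are independent -/
theorem qmc_indep
    (hR : ∀ f : MvPolynomial (Fin N) R, ∃ r : MvPolynomial (Fin N) R,
        (∀ d ∈ r.support, d ∈ E) ∧ f - r ∈ I)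
    (hk : ∀ r ∈ I.map (MvPolynomial.map R.subtype), (∀ d ∈ r.support, d ∈ E) → r = 0)
    {r : ℕ} (κ : Fin r → k)
    (hκ : ∀ x : Fin r → R, ∑ l, κ l * (x l : k) = 0 → ∀ l, x l = 0)
    (m : Fin r → MvPolynomial (Fin N) R ⧸ I)
    (h : ∑ l, qmc R.subtype I (κ l) (m l) = 0) (l : Fin r) : m l = 0 := by
  classical
  have h1 : ∀ l, ∃ q : MvPolynomial (Fin N) R, (∀ d ∈ q.support, d ∈ E) ∧
      m l = Submodule.Quotient.mk q := by
    intro l
    obtain ⟨f, hf⟩ := Submodule.Quotient.mk_surjective I (m l)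
    obtain ⟨q, hq, hq'⟩ := hR f
    exact ⟨q, hq, by rw [← hf]; exact (Submodule.Quotient.eq I).2 hq'⟩
  choose q hq hq' using h1
  have h2 : (∑ l, C (κ l) * MvPolynomial.map R.subtype (q l)) ∈
      I.map (MvPolynomial.map R.subtype) := by
    rw [← Submodule.Quotient.mk_eq_zero, ← h]
    have : ∀ t : Finset (Fin r), (Submodule.Quotient.mk
        (∑ l ∈ t, C (κ l) * MvPolynomial.map R.subtype (q l)) :
          MvPolynomial (Fin N) k ⧸ I.map (MvPolynomial.map R.subtype)) =
        ∑ l ∈ t, qmc R.subtype I (κ l) (m l) := by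
      intro t
      induction t using Finset.induction_on with
      | empty => simp only [Finset.sum_empty]; rfl
      | insert a t ha ih =>
        rw [Finset.sum_insert ha, Finset.sum_insert ha, ← ih, hq' a, qmc_mk]
        rfl
    exact this _
  have h3 := hk _ h2 (by
    intro d hd
    by_contra hc
    rw [mem_support_iff] at hd
    apply hd
    rw [coeff_sum]
    refine Finset.sum_eq_zero fun l _ => ?_
    rw [coeff_C_mul, coeff_map]
    have : coeff d (q l) = 0 := by
      by_contra h4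
      exact hc (hq l d (mem_support_iff.2 h4))
    rw [this, map_zero, mul_zero])
  have h4 : ∀ d, coeff d (q l) = 0 := by
    intro d
    refine hκ (fun l => coeff d (q l)) ?_ l
    have h5 := congrArg (coeff d) h3
    rw [coeff_sum, coeff_zero] at h5
    rw [← h5]
    refine Finset.sum_congr rfl fun l _ => ?_
    rw [coeff_C_mul, coeff_map]
    rfl
  rw [hq' l]
  have : q l = 0 := MvPolynomial.ext _ _ fun d => by rw [h4, coeff_zero]
  rw [this]
  rfl

/-- a common denominator and coefficients over `R` for finitely many polynomials -/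
theorem poly_kappa {ι : Type*} [Finite ι] (P : ι → MvPolynomial (Fin N) k) :
    ∃ (r : ℕ) (κ : Fin r → k) (b : k) (Q : Fin r → ι → MvPolynomial (Fin N) R), b ≠ 0 ∧
      (∀ x : Fin r → R, ∑ l, κ l * (x l : k) = 0 → ∀ l, x l = 0) ∧
      ∀ i, C b * P i = ∑ l, C (κ l) * MvPolynomial.map R.subtype (Q l i) := by
  classical
  cases nonempty_fintype ι
  let T : Finset k := Finset.univ.biUnion fun i => (P i).support.image fun d => coeff d (P i)
  obtain ⟨r, κ, b, a, hb, hκ, ha⟩ := exists_kappa R T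
  refine ⟨r, κ, b, fun l i => ∑ d ∈ (P i).support, monomial d (a (coeff d (P i)) l),
    fun h => hb (Subtype.ext h), hκ, fun i => ?_⟩
  apply MvPolynomial.ext
  intro d
  rw [coeff_C_mul, coeff_sum]
  have h1 : ∀ l, coeff d (C (κ l) * MvPolynomial.map R.subtype
      (∑ d ∈ (P i).support, monomial d (a (coeff d (P i)) l))) =
      if d ∈ (P i).support then κ l * (a (coeff d (P i)) l : k) else 0 := by
    intro l
    rw [coeff_C_mul, coeff_map, coeff_sum]
    simp only [coeff_monomial]
    rw [Finset.sum_ite_eq']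
    split_ifs with h
    · rfl
    · rw [map_zero, mul_zero]
  simp only [h1]
  by_cases h : d ∈ (P i).support
  · simp only [h, if_true]
    exact ha _ (Finset.mem_biUnion.2 ⟨i, Finset.mem_univ _, Finset.mem_image.2 ⟨d, h, rfl⟩⟩)
  · simp only [h, if_false]
    rw [notMem_support_iff.1 h, mul_zero, Finset.sum_const_zero]

variable {α : Type} [LinearOrder α] [Fintype α] {D : Dat (MvPolynomial (Fin N) R) α}

/-- vanishing over the subring `R` gives vanishing over the field -/
theorem hv_field (hI : (polyGr R w).Sub I) (hD : D.Lb w I)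
    (hR : ∀ f : MvPolynomial (Fin N) R, ∃ r : MvPolynomial (Fin N) R,
        (∀ d ∈ r.support, d ∈ E) ∧ f - r ∈ I)
    (hk : ∀ r ∈ I.map (MvPolynomial.map R.subtype), (∀ d ∈ r.support, d ∈ E) → r = 0)
    {n : ℤ} {p : ℕ} (H : HV D (cyc w I hI) n p)
    (hI' : (polyGr k w).Sub (I.map (MvPolynomial.map R.subtype))) :
    HV (D.bc R.subtype) (cyc w _ hI') n p := by
  classical
  have hD' : (D.bc R.subtype).Lb w (I.map (MvPolynomial.map R.subtype)) := hD.map R.subtype
  have hOk := hD.okc hI
  have hOk' := hD'.okc hI'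
  intro z hz hzc
  choose K m hm hzm using hz
  choose P hP using fun J => Submodule.Quotient.mk_surjective
    (I.map (MvPolynomial.map R.subtype)) (m J)
  obtain ⟨r, κ, b, Q, hb, hκ, hQ⟩ := poly_kappa (R := R) P
  -- the components over `R`
  let y : Fin r → ∀ J : Finset α, MvPolynomial (Fin N) R ⧸ I := fun l J =>
    (cyc w I hI).pr (n + K J * D.dJ J) (Submodule.Quotient.mk (Q l J))
  let zl : Fin r → ∀ J : Finset α, Loc (D.fJ J) (MvPolynomial (Fin N) R ⧸ I) := fun l J =>
    fr (D.fJ J) (y l J) (K J)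
  have hzl : ∀ l J, LDeg (cyc w I hI) (D.fJ J) (D.dJ J) n (zl l J) := fun l J =>
    ⟨K J, y l J, Gr.hom_pr _ _ _, rfl⟩
  have hcmp := fun l => qmc_cmp R.subtype I (κ l) D
  have hdJ : ∀ J, (D.bc R.subtype).dJ J = D.dJ J := fun J => rfl
  have hsum : ∀ J, ∑ l, qmc R.subtype I (κ l) (y l J) = sc _ b (m J) := by
    intro J
    have e1 : ∀ l, qmc R.subtype I (κ l) (y l J) = (cyc w _ hI').pr (n + K J * D.dJ J)
        (Submodule.Quotient.mk (C (κ l) * MvPolynomial.map R.subtype (Q l J))) := fun l =>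
      qmc_pr R.subtype (κ l) hI hI' _ _
    simp only [e1]
    rw [← map_sum]
    have e2 : ∑ l, (Submodule.Quotient.mk (C (κ l) * MvPolynomial.map R.subtype (Q l J)) :
        MvPolynomial (Fin N) k ⧸ I.map (MvPolynomial.map R.subtype)) =
        Submodule.Quotient.mk (C b * P J) := by
      rw [hQ J]
      exact (map_sum (Submodule.mkQ (I.map (MvPolynomial.map R.subtype))) _ _).symm
    rw [e2]
    have e3 : (Submodule.Quotient.mk (C b * P J) :
        MvPolynomial (Fin N) k ⧸ I.map (MvPolynomial.map R.subtype)) = sc _ b (m J) := by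
      rw [← hP J]
      rfl
    rw [e3]
    have e4 := sc_hom b hI' _ _ (hm J)
    rw [add_zero] at e4
    exact e4
  have hlm : ∀ J, ∑ l, (hcmp l).lm J (zl l J) =
      (cmp_linear (D.bc R.subtype) (sc _ b)).lm J (z J) := by
    intro J
    rw [hzm J, Cmp.lm_fr]
    have e1 : ∀ t : Finset (Fin r), ∑ l ∈ t, (hcmp l).lm J (zl l J) =
        fr ((D.bc R.subtype).fJ J) (∑ l ∈ t, qmc R.subtype I (κ l) (y l J)) (K J) := by
      intro t
      induction t using Finset.induction_on with
      | empty => rw [Finset.sum_empty, Finset.sum_empty, fr_zero]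
      | insert a t ha ih =>
        rw [Finset.sum_insert ha, Finset.sum_insert ha, ih, ← fr_add]
        rfl
    rw [e1, hsum J]
    rfl
  -- independence in the fractions
  have hind : ∀ (J : Finset α) (x : Fin r → Loc (D.fJ J) (MvPolynomial (Fin N) R ⧸ I)),
      ∑ l, (hcmp l).lm J (x l) = 0 → ∀ l, x l = 0 := by
    intro J x hx l
    obtain ⟨e, -, he⟩ := fr_surj_fin x 0
    choose x' hx' using he
    have e1 : ∀ t : Finset (Fin r), ∑ l ∈ t, (hcmp l).lm J (x l) =
        fr ((D.bc R.subtype).fJ J) (∑ l ∈ t, qmc R.subtype I (κ l) (x' l)) e := by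
      intro t
      induction t using Finset.induction_on with
      | empty => rw [Finset.sum_empty, Finset.sum_empty, fr_zero]
      | insert a t ha ih =>
        rw [Finset.sum_insert ha, Finset.sum_insert ha, ih, ← fr_add, hx' a]
        rfl
    rw [e1, fr_eq_zero] at hx
    obtain ⟨j, hj⟩ := hx
    have e2 : ∑ l, qmc R.subtype I (κ l) (D.fJ J ^ j • x' l) = 0 := by
      rw [← hj, Finset.smul_sum]
      refine Finset.sum_congr rfl fun l _ => ?_
      exact pow_smul_map ((hcmp l).prod J) j (x' l)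
    have e3 := qmc_indep hR hk κ hκ _ e2 l
    rw [hx' l, fr_eq_zero]
    exact ⟨j, e3⟩
  -- the components are cocycles
  have hcoc : ∀ l J, J.card = p + 2 → dC (D.tw (MvPolynomial (Fin N) R ⧸ I)) (zl l) J = 0 := by
    intro l J hJ
    refine hind J (fun l => dC (D.tw (MvPolynomial (Fin N) R ⧸ I)) (zl l) J) ?_ l
    have e1 : ∀ l, (hcmp l).lm J (dC (D.tw (MvPolynomial (Fin N) R ⧸ I)) (zl l) J) =
        dC ((D.bc R.subtype).tw _) (fun J => (hcmp l).lm J (zl l J)) J := fun l =>
      (dC_map (hcmp l).nat (zl l) J).symm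
    simp only [e1]
    rw [← dC_sum]
    simp only [hlm]
    rw [dC_map (cmp_linear (D.bc R.subtype) (sc _ b)).nat, hzc J hJ, map_zero]
  choose wl hwl hwl' using fun l => H (zl l) (hzl l) (hcoc l)
  refine ⟨fun J => (cmp_linear (D.bc R.subtype) (sc _ b⁻¹)).lm J (∑ l, (hcmp l).lm J (wl l J)),
    fun J => ?_, fun J hJ => ?_⟩
  · have h1 : LDeg (cyc w _ hI') ((D.bc R.subtype).fJ J) ((D.bc R.subtype).dJ J) n
        (∑ l, (hcmp l).lm J (wl l J)) := by
      refine hOk'.lDeg_sum _ _ fun l _ => ?_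
      have := (hcmp l).lDeg (g := cyc w I hI) (g' := cyc w _ hI') (δ := 0)
        (fun n m hm => qmc_hom R.subtype (κ l) hI hI' n m hm) (hwl l J)
      rw [add_zero] at this
      exact this
    have := (cmp_linear (D.bc R.subtype) (sc _ b⁻¹)).lDeg (g := cyc w _ hI') (g' := cyc w _ hI')
      (δ := 0) (fun n m hm => sc_hom b⁻¹ hI' n m hm) h1
    rw [add_zero] at this
    exact this
  · rw [dC_map (cmp_linear (D.bc R.subtype) (sc _ b⁻¹)).nat, dC_sum]
    have e1 : ∀ l, dC ((D.bc R.subtype).tw _) (fun J => (hcmp l).lm J (wl l J)) J =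
        (hcmp l).lm J (zl l J) := fun l => by
      rw [dC_map (hcmp l).nat, hwl' l J hJ]
    simp only [e1]
    rw [hlm J, hzm J, Cmp.lm_fr, Cmp.lm_fr]
    congr 1
    change sc _ b⁻¹ (sc _ b (m J)) = m J
    rw [sc_sc, inv_mul_cancel₀ hb, sc_one]

end Pool.Agent.Lib.MP_0b721b_ag
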