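import Pool.Agent.Lib.MP_0b721b_ag.Fin

/-!
Part P9a: a Cech complex of flat modules with finitely generated cohomology in positive degrees
which is exact in positive degrees modulo every maximal ideal is exact in positive degrees.
-/

namespace Pool.Agent.Lib.MP_0b721b_ag

universe u

open TensorProduct in
/-- the kernel of a surjection of flat modules is flat -/
theorem p9a_flat_ker {R : Type u} [CommRing R] {N P : Type u} [AddCommGroup N] [Module R N]
    [AddCommGroup P] [Module R P] [Module.Flat R N] [Module.Flat R P] (f : N →ₗ[R] P)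
    (hf : Function.Surjective f) : Module.Flat R (LinearMap.ker f) := by
  rw [Module.Flat.iff_rTensor_preserves_injective_linearMap]
  intro A B _ _ _ _ g hg
  have h1 := LinearMap.lTensor_injective_of_exact_of_flat f hf (LinearMap.ker f).subtype
    (LinearMap.ker f).subtype_injective (LinearMap.exact_subtype_ker_map f) A
  have h2 : Function.Injective (g.rTensor N) :=
    Module.Flat.rTensor_preserves_injective_linearMap g hg
  have h3 : (LinearMap.lTensor B (LinearMap.ker f).subtype) ∘ₗ (g.rTensor (LinearMap.ker f)) =
      (g.rTensor N) ∘ₗ (LinearMap.lTensor A (LinearMap.ker f).subtype) := by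
    rw [LinearMap.lTensor_comp_rTensor, LinearMap.rTensor_comp_lTensor]
  have h4 : Function.Injective ((LinearMap.lTensor B (LinearMap.ker f).subtype) ∘ₗ
      (g.rTensor (LinearMap.ker f))) := by
    rw [h3, LinearMap.coe_comp]
    exact h2.comp h1
  rw [LinearMap.coe_comp] at h4
  exact h4.of_comp

open TensorProduct in
/-- `I N ∩ ker f = I ker f` if the target of the surjection `f` is flat -/
theorem p9a_ker_smul {R : Type u} [CommRing R] {N P : Type u} [AddCommGroup N] [Module R N]
    [AddCommGroup P] [Module R P] [Module.Flat R P] (f : N →ₗ[R] P)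
    (hf : Function.Surjective f) (I : Ideal R) {z : N} (hz : f z = 0)
    (hI : z ∈ I • (⊤ : Submodule R N)) : z ∈ I • LinearMap.ker f := by
  have h1 := LinearMap.lTensor_injective_of_exact_of_flat f hf (LinearMap.ker f).subtype
    (LinearMap.ker f).subtype_injective (LinearMap.exact_subtype_ker_map f) (R ⧸ I)
  let z' : LinearMap.ker f := ⟨z, hz⟩
  have h2 : (Ideal.Quotient.mk I 1) ⊗ₜ[R] z = 0 := by
    apply (TensorProduct.quotTensorEquivQuotSMul N I).injective
    rw [map_zero, TensorProduct.quotTensorEquivQuotSMul_mk_tmul, one_smul]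
    exact (Submodule.Quotient.mk_eq_zero _).2 hI
  have h3 : (Ideal.Quotient.mk I 1) ⊗ₜ[R] z' = 0 := by
    apply h1
    rw [map_zero, LinearMap.lTensor_tmul]
    exact h2
  have h4 : z' ∈ I • (⊤ : Submodule R (LinearMap.ker f)) := by
    have h5 := congrArg (TensorProduct.quotTensorEquivQuotSMul (LinearMap.ker f) I) h3
    rw [map_zero, TensorProduct.quotTensorEquivQuotSMul_mk_tmul, one_smul] at h5
    exact (Submodule.Quotient.mk_eq_zero _).1 h5
  have h6 : z ∈ (I • (⊤ : Submodule R (LinearMap.ker f))).map (LinearMap.ker f).subtype :=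
    ⟨z', h4, rfl⟩
  rw [Submodule.map_smul'', Submodule.map_top, Submodule.range_subtype] at h6
  exact h6

section complex

variable {R : Type u} [CommRing R] {α : Type} [LinearOrder α]
    {G : Finset α → Type u} [∀ J, AddCommGroup (G J)] [∀ J, Module R (G J)]

/-- extension of a cochain by zero -/
def p9aExt {q : ℕ} (z : ∀ J : {J : Finset α // J.card = q}, G J.1) (J : Finset α) : G J :=
  if h : J.card = q then z ⟨J, h⟩ else 0

theorem p9aExt_apply {q : ℕ} (z : ∀ J : {J : Finset α // J.card = q}, G J.1) {J : Finset α}
    (h : J.card = q) : p9aExt z J = z ⟨J, h⟩ := by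
  unfold p9aExt
  rw [dif_pos h]

theorem p9aExt_add {q : ℕ} (z z' : ∀ J : {J : Finset α // J.card = q}, G J.1) :
    p9aExt (z + z') = p9aExt z + p9aExt z' := by
  funext J
  rw [Pi.add_apply]
  unfold p9aExt
  split_ifs
  · rfl
  · rw [add_zero]

variable (ρ : ∀ J J' : Finset α, J.Nonempty → J ⊆ J' → G J →+ G J')

theorem p9a_dC_smul (hlin : ∀ J J' h0 h (r : R) z, ρ J J' h0 h (r • z) = r • ρ J J' h0 h z)
    (r : R) (z : ∀ J, G J) (J : Finset α) : dC ρ (r • z) J = r • dC ρ z J := by
  unfold dC
  rw [Finset.smul_sum]
  refine Finset.sum_congr rfl fun a _ => ?_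
  rw [smul_comm]
  congr 1
  unfold rs
  split_ifs with h
  · rw [Pi.smul_apply, hlin]
  · rw [smul_zero]

/-- the differential from degree `q` to degree `q + 1` -/
def p9aD (hlin : ∀ J J' h0 h (r : R) z, ρ J J' h0 h (r • z) = r • ρ J J' h0 h z) (q : ℕ) :
    (∀ J : {J : Finset α // J.card = q}, G J.1) →ₗ[R]
      (∀ J : {J : Finset α // J.card = q + 1}, G J.1) where
  toFun z := fun J => dC ρ (p9aExt z) J.1
  map_add' z z' := by
    funext J
    rw [p9aExt_add, dC_add]
    rfl
  map_smul' r z := by
    funext J
    have h : dC ρ (p9aExt (r • z)) J.1 = dC ρ (r • p9aExt z) J.1 := by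
      refine dC_congr fun K hK => ?_
      rw [Pi.smul_apply]
      unfold p9aExt
      split_ifs
      · rfl
      · rw [smul_zero]
    rw [h, p9a_dC_smul ρ hlin]
    rfl

theorem p9aD_apply (hlin : ∀ J J' h0 h (r : R) z, ρ J J' h0 h (r • z) = r • ρ J J' h0 h z)
    {q : ℕ} (z : ∀ J, G J) (J : {J : Finset α // J.card = q + 1}) :
    p9aD ρ hlin q (fun J => z J.1) J = dC ρ z J.1 := by
  change dC ρ (p9aExt _) J.1 = _
  refine dC_congr fun K hK => ?_
  have hK' : K.card = q := by
    have := J.2
    omega
  rw [p9aExt_apply _ hK']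

theorem p9aD_comp (hρ : Fct ρ)
    (hlin : ∀ J J' h0 h (r : R) z, ρ J J' h0 h (r • z) = r • ρ J J' h0 h z)
    {q : ℕ} (z : ∀ J : {J : Finset α // J.card = q}, G J.1) :
    p9aD ρ hlin (q + 1) (p9aD ρ hlin q z) = 0 := by
  funext J
  have h := p9aD_apply ρ hlin (dC ρ (p9aExt z)) J
  rw [dC_dC hρ] at h
  exact h

theorem p9a_van_of (hlin : ∀ J J' h0 h (r : R) z, ρ J J' h0 h (r • z) = r • ρ J J' h0 h z)
    {p : ℕ} (h : LinearMap.ker (p9aD ρ hlin (p + 1)) ≤ LinearMap.range (p9aD ρ hlin p)) :
    Van ρ p := by
  intro z hz
  have h1 : (fun J : {J : Finset α // J.card = p + 1} => z J.1) ∈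
      LinearMap.ker (p9aD ρ hlin (p + 1)) := by
    rw [LinearMap.mem_ker]
    funext J
    rw [p9aD_apply]
    exact hz J.1 J.2
  obtain ⟨w, hw⟩ := h h1
  refine ⟨p9aExt w, fun J hJ => ?_⟩
  exact congrFun hw ⟨J, hJ⟩

theorem p9a_of_van (hlin : ∀ J J' h0 h (r : R) z, ρ J J' h0 h (r • z) = r • ρ J J' h0 h z)
    {p : ℕ} (h : Van ρ p) :
    LinearMap.ker (p9aD ρ hlin (p + 1)) ≤ LinearMap.range (p9aD ρ hlin p) := by
  intro z hz
  obtain ⟨w, hw⟩ := h (p9aExt z) (fun J hJ => congrFun (LinearMap.mem_ker.1 hz) ⟨J, hJ⟩)
  refine ⟨fun J => w J.1, ?_⟩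
  funext J
  rw [p9aD_apply, hw J.1 J.2, p9aExt_apply _ J.2]

end complex

theorem flat_nakayama {R : Type u} [CommRing R] [IsNoetherianRing R] {α : Type} [LinearOrder α]
    [Fintype α] {G : Finset α → Type u} [∀ J, AddCommGroup (G J)] [∀ J, Module R (G J)]
    (ρ : ∀ J J' : Finset α, J.Nonempty → J ⊆ J' → G J →+ G J') (hρ : Fct ρ)
    (hlin : ∀ J J' h0 h (r : R) z, ρ J J' h0 h (r • z) = r • ρ J J' h0 h z)
    (hflat : ∀ J : Finset α, J.Nonempty → Module.Flat R (G J))
    (hfin : ∀ p, 1 ≤ p → ∃ (r : ℕ) (Z : Fin r → ∀ J, G J),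
      (∀ i J, J.card = p + 2 → dC ρ (Z i) J = 0) ∧
      ∀ z : ∀ J, G J, (∀ J, J.card = p + 2 → dC ρ z J = 0) →
        ∃ (b : Fin r → R) (w : ∀ J, G J), ∀ J, J.card = p + 1 →
          z J = ∑ i, b i • Z i J + dC ρ w J)
    (hm : ∀ m : Ideal R, m.IsMaximal → ∀ p, 1 ≤ p → ∀ z : ∀ J, G J,
      (∀ J, J.card = p + 2 → dC ρ z J = 0) → ∃ w y : ∀ J, G J,
        (∀ J, J.card = p + 1 → y J ∈ m • (⊤ : Submodule R (G J))) ∧
        ∀ J, J.card = p + 1 → z J = dC ρ w J + y J) :
    ∀ p, 1 ≤ p → Van ρ p := by
  classical
  have hC : ∀ q, Module.Flat R (∀ J : {J : Finset α // J.card = q + 1}, G J.1) := by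
    intro q
    haveI : ∀ J : {J : Finset α // J.card = q + 1}, Module.Flat R (G J.1) := fun J =>
      hflat J.1 (nonempty_of_card J.2)
    exact Module.Flat.of_linearEquiv
      (DirectSum.linearEquivFunOnFintype R {J : Finset α // J.card = q + 1}
        (fun J => G J.1)).symm
  have key : ∀ k p : ℕ, 1 ≤ p → Fintype.card α ≤ p + k →
      Van ρ p ∧ Module.Flat R (LinearMap.ker (p9aD ρ hlin (p + 1))) := by
    intro k
    induction k with
    | zero =>
      intro p _ hcard
      refine ⟨van_top hcard, ?_⟩
      haveI : IsEmpty {J : Finset α // J.card = p + 1} := ⟨fun J => by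
        have h1 := Finset.card_le_univ J.1
        have h2 := J.2
        omega⟩
      haveI : Subsingleton (LinearMap.ker (p9aD ρ hlin (p + 1))) :=
        ⟨fun x y => Subtype.ext (funext fun J => isEmptyElim J)⟩
      infer_instance
    | succ k ih =>
      intro p hp hcard
      obtain ⟨hv, hfl⟩ := ih (p + 1) (by omega) (by omega)
      haveI := hfl
      haveI := hC p
      -- the surjection onto the cocycles of the next degree
      let f : (∀ J : {J : Finset α // J.card = p + 1}, G J.1) →ₗ[R]
          LinearMap.ker (p9aD ρ hlin (p + 1 + 1)) :=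
        (p9aD ρ hlin (p + 1)).codRestrict _ fun z => p9aD_comp ρ hρ hlin z
      have hf : Function.Surjective f := by
        rintro ⟨z, hz⟩
        obtain ⟨w, hw⟩ := p9a_of_van ρ hlin hv hz
        exact ⟨w, Subtype.ext hw⟩
      have hker : LinearMap.ker f = LinearMap.ker (p9aD ρ hlin (p + 1)) :=
        LinearMap.ker_codRestrict _ _ _
      refine ⟨?_, ?_⟩
      · -- Nakayama
        apply p9a_van_of ρ hlin
        obtain ⟨r, Z, hZ, hgen⟩ := hfin p hp
        set K := LinearMap.ker (p9aD ρ hlin (p + 1)) with hK
        set B := LinearMap.range (p9aD ρ hlin p) with hB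
        let Zr : Fin r → (∀ J : {J : Finset α // J.card = p + 1}, G J.1) := fun i J => Z i J.1
        have hZr : ∀ i, Zr i ∈ K := by
          intro i
          rw [hK, LinearMap.mem_ker]
          funext J
          rw [p9aD_apply]
          exact hZ i J.1 J.2
        have hext : ∀ z ∈ K, ∀ J : Finset α, J.card = p + 2 → dC ρ (p9aExt z) J = 0 :=
          fun z hz J hJ => congrFun (LinearMap.mem_ker.1 hz) ⟨J, hJ⟩
        -- the cohomology module
        let M := K.map B.mkQ
        have hMfg : M.FG := by
          have hM : M = Submodule.span R (Set.range fun i => B.mkQ (Zr i)) := by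
            apply le_antisymm
            · rintro _ ⟨z, hz, rfl⟩
              obtain ⟨b, w, hw⟩ := hgen (p9aExt z) (hext z hz)
              have e : z = ∑ i, b i • Zr i + p9aD ρ hlin p (fun J => w J.1) := by
                funext J
                have h1 := hw J.1 J.2
                rw [p9aExt_apply _ J.2] at h1
                rw [h1, Pi.add_apply, p9aD_apply, Finset.sum_apply]
                rfl
              rw [e, map_add, map_sum]
              have h0 : B.mkQ (p9aD ρ hlin p (fun J => w J.1)) = 0 := by
                rw [Submodule.mkQ_apply, Submodule.Quotient.mk_eq_zero]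
                exact ⟨_, rfl⟩
              rw [h0, add_zero]
              refine Submodule.sum_mem _ fun i _ => ?_
              rw [map_smul]
              exact Submodule.smul_mem _ _ (Submodule.subset_span ⟨i, rfl⟩)
            · rw [Submodule.span_le]
              rintro _ ⟨i, rfl⟩
              exact ⟨Zr i, hZr i, rfl⟩
          rw [hM]
          exact Submodule.fg_span (Set.finite_range _)
        have hstep : ∀ m : Ideal R, m.IsMaximal → M ≤ m • M := by
          intro m hmm
          rintro _ ⟨z, hz, rfl⟩
          obtain ⟨w, y, hy, hwy⟩ := hm m hmm p hp (p9aExt z) (hext z hz)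
          let y' : (∀ J : {J : Finset α // J.card = p + 1}, G J.1) := fun J => y J.1
          have e : z = p9aD ρ hlin p (fun J => w J.1) + y' := by
            funext J
            have h1 := hwy J.1 J.2
            rw [p9aExt_apply _ J.2] at h1
            rw [h1, Pi.add_apply, p9aD_apply]
          have hy'K : f y' = 0 := by
            have h1 : y' = z - p9aD ρ hlin p (fun J => w J.1) := by
              rw [e]
              abel
            apply Subtype.ext
            change p9aD ρ hlin (p + 1) y' = 0
            rw [h1, map_sub, p9aD_comp ρ hρ hlin, sub_zero]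
            exact hz
          have hy'm : y' ∈ m • (⊤ : Submodule R
              (∀ J : {J : Finset α // J.card = p + 1}, G J.1)) := by
            have h1 : y' = ∑ J : {J : Finset α // J.card = p + 1},
                LinearMap.single R (fun J : {J : Finset α // J.card = p + 1} => G J.1) J (y' J) := by
              funext J
              rw [Finset.sum_apply, Finset.sum_eq_single J]
              · simp
              · intro K _ hK'
                simp [Pi.single_eq_of_ne (Ne.symm hK')]
              · intro h
                exact absurd (Finset.mem_univ _) h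
            rw [h1]
            refine Submodule.sum_mem _ fun J _ => ?_
            have h2 : LinearMap.single R (fun J : {J : Finset α // J.card = p + 1} => G J.1) J (y' J) ∈
                (m • (⊤ : Submodule R (G J.1))).map
                  (LinearMap.single R (fun J : {J : Finset α // J.card = p + 1} => G J.1) J) :=
              ⟨_, hy J.1 J.2, rfl⟩
            rw [Submodule.map_smul''] at h2
            exact Submodule.smul_mono le_rfl le_top h2
          have h3 := p9a_ker_smul f hf m hy'K hy'm
          rw [hker] at h3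
          have h4 : B.mkQ z = B.mkQ y' := by
            rw [e, map_add]
            have h0 : B.mkQ (p9aD ρ hlin p (fun J => w J.1)) = 0 := by
              rw [Submodule.mkQ_apply, Submodule.Quotient.mk_eq_zero]
              exact ⟨_, rfl⟩
            rw [h0, zero_add]
          rw [h4]
          have h5 : B.mkQ y' ∈ (m • K).map B.mkQ := ⟨_, h3, rfl⟩
          rw [Submodule.map_smul''] at h5
          exact h5
        -- the annihilator is everything
        have hann : M.annihilator = ⊤ := by
          by_contra hne
          obtain ⟨m, hmm, hle⟩ := Ideal.exists_le_maximal _ hne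
          obtain ⟨s, hs, hs'⟩ := Submodule.exists_sub_one_mem_and_smul_eq_zero_of_fg_of_le_smul m M
            hMfg (hstep m hmm)
          have h1 : s ∈ m := hle (Submodule.mem_annihilator.2 hs')
          have h2 : (1 : R) ∈ m := by
            have := m.sub_mem h1 hs
            rwa [sub_sub_cancel] at this
          exact hmm.ne_top ((Ideal.eq_top_iff_one _).2 h2)
        intro z hz
        have h1 : (1 : R) ∈ M.annihilator := by
          rw [hann]
          trivial
        have h2 := Submodule.mem_annihilator.1 h1 (B.mkQ z) ⟨z, hz, rfl⟩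
        rw [one_smul, Submodule.mkQ_apply, Submodule.Quotient.mk_eq_zero] at h2
        exact h2
      · rw [← hker]
        exact p9a_flat_ker f hf
  intro p hp
  exact (key (Fintype.card α) p hp (by omega)).1

end Pool.Agent.Lib.MP_0b721b_ag
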