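import Pool.Agent.Lib.MP_0b721b_ag.Cyc

/-!
Part P9b: flatness of the fractions of one degree.
-/

namespace Pool.Agent.Lib.MP_0b721b_ag

open MvPolynomial

universe u

/-- the additive map `m ↦ m / s ^ k` -/
private def pnb_fr {S : Type*} [CommRing S] (s : S) {M : Type*} [AddCommGroup M] [Module S M]
    (k : ℕ) : M →+ Loc s M :=
  AddMonoidHom.mk' (fun m => fr s m k) fun a b => (fr_add a b k).symm

private theorem pnb_sum {S : Type*} [CommRing S] (s : S) {M : Type*} [AddCommGroup M] [Module S M]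
    (k : ℕ) {ι : Type*} (t : Finset ι) (m : ι → M) :
    fr s (∑ i ∈ t, m i) k = ∑ i ∈ t, fr s (m i) k :=
  map_sum (pnb_fr s k) m t

/-- fractions of a flat module are flat, also in one degree (P9b) -/
theorem flat_locDeg {A : Type u} [CommRing A] {S : Type u} [CommRing S] [Algebra A S]
    {M : Type u} [AddCommGroup M] [Module S M] [Module A M] [IsScalarTower A S M]
    [Module.Flat A M] {g : Gr M} {s : S} {d : ℤ} (hs : g.Op s d) (n : ℤ)
    (V : Submodule A (Loc s M)) (hV : ∀ z, z ∈ V ↔ LDeg g s d n z)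
    (hA : ∀ (a : A) n m, g.pr n (a • m) = a • g.pr n m) : Module.Flat A V := by
  rw [Module.Flat.iff_forall_isTrivialRelation]
  intro l0 f x hx
  obtain ⟨k, -, hk⟩ := fr_surj_fin (fun i => (x i).1) 0
  choose m0 hm0 using hk
  have hm : ∀ i, (x i).1 = fr s (g.pr (n + k * d) (m0 i)) k := by
    intro i
    have h1 := (hV _).1 (x i).2
    have h2 : (x i).1 = fr s (m0 i) k := hm0 i
    rw [h2] at h1
    rw [h2]
    exact h1.fr_pr hs
  set m : Fin l0 → M := fun i => g.pr (n + k * d) (m0 i) with hmdef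
  have hhom : ∀ i, g.Hom (n + k * d) (m i) := fun i => g.hom_pr _ _
  have h0 : fr s (∑ i, f i • m i) k = 0 := by
    rw [pnb_sum]
    have h1 := congrArg Subtype.val hx
    rw [AddSubmonoidClass.coe_finsetSum] at h1
    rw [← show ((0 : V) : Loc s M) = 0 from rfl, ← h1]
    refine Finset.sum_congr rfl fun i _ => ?_
    rw [Submodule.coe_smul, hm i]
    rfl
  obtain ⟨j, hj⟩ := fr_eq_zero.1 h0
  have h1 : ∑ i, f i • (s ^ j • m i) = 0 := by
    rw [← hj, Finset.smul_sum]
    exact Finset.sum_congr rfl fun i _ => smul_comm _ _ _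
  obtain ⟨κ, a, y, hy, ha⟩ := Module.Flat.isTrivialRelation_of_sum_smul_eq_zero h1
  have hz : ∀ l, LDeg g s d n (fr s (g.pr (n + (k + j : ℕ) * d) (y l)) (k + j)) := fun l =>
    ⟨k + j, _, g.hom_pr _ _, rfl⟩
  refine ⟨κ, a, fun l => ⟨_, (hV _).2 (hz l)⟩, fun i => ?_, ha⟩
  apply Subtype.ext
  rw [AddSubmonoidClass.coe_finsetSum]
  have h2 : (x i).1 = fr s (s ^ j • m i) (k + j) := by
    rw [fr_raise, hm i]
  have h3 : s ^ j • m i = ∑ l, a i l • g.pr (n + (k + j : ℕ) * d) (y l) := by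
    have h4 := (hs.pow j).hom (hhom i)
    unfold Gr.Hom at h4
    have e : n + (k : ℤ) * d + (j : ℤ) * d = n + ((k + j : ℕ) : ℤ) * d := by
      push_cast
      ring
    rw [e] at h4
    have h5 : s ^ j • m i = ∑ l, a i l • y l := hy i
    rw [← h4, h5, map_sum]
    refine Finset.sum_congr rfl fun l _ => ?_
    rw [hA]
  rw [h2, h3, pnb_sum]
  refine Finset.sum_congr rfl fun l _ => ?_
  rfl

end Pool.Agent.Lib.MP_0b721b_ag
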