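import Pool.Agent.Lib.MP_0b721b_ag.P9d0
import Pool.Agent.Lib.MP_0b721b_ag.P9a
import Pool.Agent.Lib.MP_0b721b_ag.P9b

/-!
Part P9d: vanishing over `R` from vanishing over the residue fields.
-/

namespace Pool.Agent.Lib.MP_0b721b_ag

open MvPolynomial

universe u

section general

variable {R : Type u} [CommRing R] {S : Type u} [CommRing S] [Algebra R S] {M : Type u}
  [AddCommGroup M] [Module S M] [Module R M] [IsScalarTower R S M]

/-- the fractions of degree `n` as a submodule -/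
def locSub {g : Gr M} {s : S} {d : ℤ} (hs : g.Op s d)
    (hA : ∀ (a : R) n m, g.pr n (a • m) = a • g.pr n m) (n : ℤ) : Submodule R (Loc s M) where
  carrier := {z | LDeg g s d n z}
  zero_mem' := (locDeg g hs n).zero_mem
  add_mem' := (locDeg g hs n).add_mem
  smul_mem' := by
    rintro a _ ⟨k, m, hm, rfl⟩
    refine ⟨k, a • m, ?_, rfl⟩
    unfold Gr.Hom at *
    rw [hA, hm]

variable {α : Type} [LinearOrder α] {D : Dat S α} {g : Gr M}

omit [Algebra R S] [IsScalarTower R S M] in
theorem tw_smul [SMulCommClass R S M] (J J' : Finset α) (h0 : J.Nonempty) (hs : J ⊆ J') (r : R)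
    (z : Loc (D.fJ J) M) : D.tw M J J' h0 hs (r • z) = r • D.tw M J J' h0 hs z := by
  obtain ⟨m, k, rfl⟩ := fr_surj z
  unfold Dat.tw Dat.U Dat.res
  simp only [AddMonoidHom.comp_apply, locRes_fr, opm_fr, smul_fr]
  congr 1
  rw [← smul_comm r, ← smul_comm r]

/-- the twisted restriction on the submodules of degree `n` -/
def Dat.Ok.ρs (h : D.Ok g) (hA : ∀ (a : R) n m, g.pr n (a • m) = a • g.pr n m) (n : ℤ)
    (J J' : Finset α) (h0 : J.Nonempty) (hs : J ⊆ J') :
    locSub (h.opJ J) hA n →+ locSub (h.opJ J') hA n :=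
  ((D.tw M J J' h0 hs).comp (locSub (h.opJ J) hA n).toAddSubgroup.subtype).codRestrict _
    (fun z => h.lDeg_tw D h0 hs z.2)

theorem Dat.Ok.dCs_coe (h : D.Ok g) (hA : ∀ (a : R) n m, g.pr n (a • m) = a • g.pr n m) (n : ℤ)
    (z : ∀ J, locSub (h.opJ J) hA n) (J : Finset α) :
    ((dC (h.ρs hA n) z J : locSub (h.opJ J) hA n) : Loc (D.fJ J) M) =
      dC (D.tw M) (fun J => (z J).1) J := by
  exact (dC_map (ρ₁ := h.ρs hA n) (ρ₂ := D.tw M)
    (φ := fun J => (locSub (h.opJ J) hA n).toAddSubgroup.subtype)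
    (fun J J' h0 hs z => rfl) z J).symm

/-- vanishing from the flat Nakayama lemma, for a general graded module -/
theorem hv_of_nakayama [IsNoetherianRing R] [Fintype α] [Module.Flat R M] (h : D.Ok g)
    (hA : ∀ (a : R) n m, g.pr n (a • m) = a • g.pr n m) (n : ℤ)
    (hfin : ∀ p, 1 ≤ p → ∃ (r : ℕ) (Z : Fin r → ∀ J : Finset α, Loc (D.fJ J) M),
      (∀ i J, LDeg g (D.fJ J) (D.dJ J) n (Z i J)) ∧
      (∀ i J, J.card = p + 2 → dC (D.tw M) (Z i) J = 0) ∧
      ∀ z : ∀ J : Finset α, Loc (D.fJ J) M, (∀ J, LDeg g (D.fJ J) (D.dJ J) n (z J)) →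
        (∀ J, J.card = p + 2 → dC (D.tw M) z J = 0) →
        ∃ (b : Fin r → R) (w : ∀ J : Finset α, Loc (D.fJ J) M),
          (∀ J, LDeg g (D.fJ J) (D.dJ J) n (w J)) ∧
          ∀ J, J.card = p + 1 → z J = ∑ i, b i • Z i J + dC (D.tw M) w J)
    (hm : ∀ m : Ideal R, m.IsMaximal → ∀ p, 1 ≤ p →
      ∀ z : ∀ J : Finset α, Loc (D.fJ J) M, (∀ J, LDeg g (D.fJ J) (D.dJ J) n (z J)) →
        (∀ J, J.card = p + 2 → dC (D.tw M) z J = 0) →
        ∃ w : ∀ J : Finset α, Loc (D.fJ J) M, (∀ J, LDeg g (D.fJ J) (D.dJ J) n (w J)) ∧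
          ∀ J, J.card = p + 1 → ∃ (e : ℕ) (x : M),
            x ∈ m • (⊤ : Submodule R M) ∧ z J - dC (D.tw M) w J = fr (D.fJ J) x e)
    {p : ℕ} (hp : 1 ≤ p) : HV D g n p := by
  classical
  have hfct : Fct (h.ρs hA n) := by
    intro J J' J'' h0 h0' hs hs' z
    exact Subtype.ext (h.fct D J J' J'' h0 h0' hs hs' z.1)
  have hvan := flat_nakayama (h.ρs hA n) hfct
    (fun J J' h0 hs r z => by
      apply Subtype.ext
      exact tw_smul J J' h0 hs r z.1)
    (fun J _ => flat_locDeg (h.opJ J) n (locSub (h.opJ J) hA n) (fun z => Iff.rfl) hA)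
    (fun p hp => by
      obtain ⟨r, Z, hZ, hZc, hZ'⟩ := hfin p hp
      refine ⟨r, fun i J => ⟨Z i J, hZ i J⟩, fun i J hJ => Subtype.ext ?_, fun z hz => ?_⟩
      · rw [h.dCs_coe]
        exact hZc i J hJ
      · obtain ⟨b, w, hw, hw'⟩ := hZ' (fun J => (z J).1) (fun J => (z J).2) (fun J hJ => by
          rw [← h.dCs_coe, hz J hJ]
          rfl)
        refine ⟨b, fun J => ⟨w J, hw J⟩, fun J hJ => Subtype.ext ?_⟩
        rw [hw' J hJ, Submodule.coe_add, h.dCs_coe]
        congr 1
        rw [AddSubmonoidClass.coe_finsetSum]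
        rfl)
    (fun m hmax p hp z hz => by
      obtain ⟨w, hw, hw'⟩ := hm m hmax p hp (fun J => (z J).1) (fun J => (z J).2) (fun J hJ => by
        rw [← h.dCs_coe, hz J hJ]
        rfl)
      refine ⟨fun J => ⟨w J, hw J⟩, fun J => z J - dC (h.ρs hA n) (fun J => ⟨w J, hw J⟩) J,
        fun J hJ => ?_, fun J hJ => ?_⟩
      · obtain ⟨e, x, hx, hx'⟩ := hw' J hJ
        -- replace `x` by its component
        have hd : LDeg g (D.fJ J) (D.dJ J) n (fr (D.fJ J) x e) := by
          rw [← hx']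
          exact (locDeg g (h.opJ J) n).sub_mem (z J).2 (h.lDeg_dC hw J)
        have key : ∀ x ∈ m • (⊤ : Submodule R M),
            (⟨fr (D.fJ J) (g.pr (n + e * D.dJ J) x) e, ⟨e, _, g.hom_pr _ _, rfl⟩⟩ :
              locSub (h.opJ J) hA n) ∈ m • (⊤ : Submodule R (locSub (h.opJ J) hA n)) := by
          intro x hx
          induction hx using Submodule.smul_induction_on' with
          | smul a ha y _ =>
            have e1 : (⟨fr (D.fJ J) (g.pr (n + e * D.dJ J) (a • y)) e,
                ⟨e, _, g.hom_pr _ _, rfl⟩⟩ : locSub (h.opJ J) hA n) =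
                a • ⟨fr (D.fJ J) (g.pr (n + e * D.dJ J) y) e, ⟨e, _, g.hom_pr _ _, rfl⟩⟩ := by
              apply Subtype.ext
              change fr (D.fJ J) (g.pr (n + e * D.dJ J) (a • y)) e =
                fr (D.fJ J) (a • g.pr (n + e * D.dJ J) y) e
              rw [hA]
            rw [e1]
            exact Submodule.smul_mem_smul ha trivial
          | add x _ y _ hx hy =>
            have e1 : (⟨fr (D.fJ J) (g.pr (n + e * D.dJ J) (x + y)) e,
                ⟨e, _, g.hom_pr _ _, rfl⟩⟩ : locSub (h.opJ J) hA n) =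
                ⟨fr (D.fJ J) (g.pr (n + e * D.dJ J) x) e, ⟨e, _, g.hom_pr _ _, rfl⟩⟩ +
                ⟨fr (D.fJ J) (g.pr (n + e * D.dJ J) y) e, ⟨e, _, g.hom_pr _ _, rfl⟩⟩ := by
              apply Subtype.ext
              change fr (D.fJ J) (g.pr (n + e * D.dJ J) (x + y)) e =
                fr (D.fJ J) (g.pr (n + e * D.dJ J) x) e + fr (D.fJ J) (g.pr (n + e * D.dJ J) y) e
              rw [map_add, fr_add]
            rw [e1]
            exact Submodule.add_mem _ hx hy
        have e2 : z J - dC (h.ρs hA n) (fun J => ⟨w J, hw J⟩) J =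
            ⟨fr (D.fJ J) (g.pr (n + e * D.dJ J) x) e, ⟨e, _, g.hom_pr _ _, rfl⟩⟩ := by
          apply Subtype.ext
          rw [AddSubgroupClass.coe_sub, h.dCs_coe]
          change _ = fr (D.fJ J) (g.pr (n + e * D.dJ J) x) e
          rw [← hd.fr_pr (h.opJ J), ← hx']
        have e3 := key x hx
        rw [← e2] at e3
        exact e3
      · rw [add_sub_cancel])
  intro z hz hz'
  obtain ⟨v, hv⟩ := hvan p hp (fun J => ⟨z J, hz J⟩) (fun J hJ => Subtype.ext (by
    rw [h.dCs_coe]
    exact hz' J hJ))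
  refine ⟨fun J => (v J).1, fun J => (v J).2, fun J hJ => ?_⟩
  rw [← h.dCs_coe, hv J hJ]

end general

section red

variable {R : Type u} [CommRing R] {N : ℕ} {w : Fin N → ℤ} {I : Ideal (MvPolynomial (Fin N) R)}

/-- the kernel of the reduction modulo an ideal -/
theorem qmc_ker (m : Ideal R) (u : MvPolynomial (Fin N) R ⧸ I)
    (h : qmc (Ideal.Quotient.mk m) I 1 u = 0) :
    u ∈ m • (⊤ : Submodule R (MvPolynomial (Fin N) R ⧸ I)) := by
  obtain ⟨f, rfl⟩ := Submodule.Quotient.mk_surjective I u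
  rw [qmc_mk, map_one, one_mul, Submodule.Quotient.mk_eq_zero] at h
  obtain ⟨i, hi, hi'⟩ := (Ideal.mem_map_iff_of_surjective _
    (MvPolynomial.map_surjective _ Ideal.Quotient.mk_surjective)).1 h
  have h1 : f - i ∈ RingHom.ker (MvPolynomial.map (σ := Fin N) (Ideal.Quotient.mk m)) := by
    rw [RingHom.mem_ker, RingHom.map_sub, hi', sub_self]
  rw [MvPolynomial.ker_map, Ideal.mk_ker] at h1
  have h2 : (Submodule.Quotient.mk f : MvPolynomial (Fin N) R ⧸ I) =
      Submodule.Quotient.mk (f - i) := by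
    apply (Submodule.Quotient.eq I).2
    rw [sub_sub_cancel]
    exact hi
  rw [h2]
  unfold Ideal.map at h1
  generalize f - i = q at h1
  induction h1 using Submodule.span_induction with
  | mem x hx =>
    obtain ⟨a, ha, rfl⟩ := hx
    have : (Submodule.Quotient.mk (C a) : MvPolynomial (Fin N) R ⧸ I) =
        a • (Submodule.Quotient.mk 1 : MvPolynomial (Fin N) R ⧸ I) := by
      rw [← Submodule.Quotient.mk_smul, MvPolynomial.smul_eq_C_mul, mul_one]
    rw [this]
    exact Submodule.smul_mem_smul ha trivial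
  | zero => exact Submodule.zero_mem _
  | add x y _ _ hx hy =>
    rw [Submodule.Quotient.mk_add]
    exact Submodule.add_mem _ hx hy
  | smul t x _ hx =>
    have key : ∀ v ∈ m • (⊤ : Submodule R (MvPolynomial (Fin N) R ⧸ I)),
        t • v ∈ m • (⊤ : Submodule R (MvPolynomial (Fin N) R ⧸ I)) := by
      intro v hv
      induction hv using Submodule.smul_induction_on' with
      | smul a ha y _ =>
        rw [← smul_comm a t y]
        exact Submodule.smul_mem_smul ha trivial
      | add x _ y _ hx hy =>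
        rw [smul_add]
        exact Submodule.add_mem _ hx hy
    exact key _ hx

end red

end Pool.Agent.Lib.MP_0b721b_ag
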