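import Pool.Agent.Lib.MP_0b721b_ag.P3a
import Pool.Agent.Lib.MP_0b721b_ag.P9c
import Pool.Agent.Lib.MP_0b721b_ag.P9d1
import Pool.Agent.Lib.MP_0b721b_ag.P9d2

/-!
Part P9d: from the finite quotients of `R` to a field containing `R`.
-/

namespace Pool.Agent.Lib.MP_0b721b_ag

open MvPolynomial

universe u

/-- a quotient with a basis of standard monomials is free -/
theorem free_of_nf {R : Type u} [CommRing R] {N : ℕ} {I : Ideal (MvPolynomial (Fin N) R)}
    {E : Set (Fin N →₀ ℕ)}
    (h1 : ∀ f : MvPolynomial (Fin N) R, ∃ r : MvPolynomial (Fin N) R,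
        (∀ d ∈ r.support, d ∈ E) ∧ f - r ∈ I)
    (h2 : ∀ r ∈ I, (∀ d ∈ r.support, d ∈ E) → r = 0) :
    Module.Free R (MvPolynomial (Fin N) R ⧸ I) := by
  classical
  let T : (restrictSupport R E) →ₗ[R] (MvPolynomial (Fin N) R ⧸ I) :=
    (Submodule.mkQ I).restrictScalars R ∘ₗ Submodule.subtype (restrictSupport R E)
  have hT : Function.Bijective T := by
    constructor
    · rw [injective_iff_map_eq_zero]
      rintro ⟨r, hr⟩ h
      apply Subtype.ext
      refine h2 r ?_ (fun d hd => hr hd)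
      exact (Submodule.Quotient.mk_eq_zero I).1 h
    · intro y
      obtain ⟨f, rfl⟩ := Submodule.Quotient.mk_surjective I y
      obtain ⟨r, hr, hr'⟩ := h1 f
      refine ⟨⟨r, fun d hd => hr d hd⟩, ?_⟩
      exact ((Submodule.Quotient.eq I).2 hr').symm
  exact Module.Free.of_basis ((basisRestrictSupport R E).map (LinearEquiv.ofBijective T hT))

theorem noeth_closure {k : Type u} [Field k] (s : Finset k) :
    IsNoetherianRing (Subring.closure (s : Set k)) := by
  have h1 : Algebra.FiniteType ℤ (Algebra.adjoin ℤ (s : Set k)) :=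
    (Subalgebra.fg_iff_finiteType _).1 (Subalgebra.fg_adjoin_finset s)
  have h2 : IsNoetherianRing (Algebra.adjoin ℤ (s : Set k)) :=
    Algebra.FiniteType.isNoetherianRing ℤ _
  rw [Algebra.adjoin_int] at h2
  exact h2

/-- vanishing for all finite quotients of a finitely generated subring `R` of `k`, for line
bundles and the ideal defined over `R`, gives vanishing over `R` and over `k` (P9d) -/
theorem hv_of_finite {k : Type u} [Field k] {N : ℕ} {w : Fin N → ℤ} (hw : ∀ i, 0 < w i)
    (s : Finset k) {R : Subring k} (hR : R = Subring.closure (s : Set k))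
    {I : Ideal (MvPolynomial (Fin N) R)} (hI : (polyGr R w).Sub I)
    -- normal forms over every ring over `R`
    {E : Set (Fin N →₀ ℕ)}
    (hE : ∀ (C : Type u) [CommRing C] (φ : R →+* C),
      (∀ f : MvPolynomial (Fin N) C, ∃ r : MvPolynomial (Fin N) C,
        (∀ d ∈ r.support, d ∈ E) ∧ f - r ∈ I.map (MvPolynomial.map φ)) ∧
      (∀ r ∈ I.map (MvPolynomial.map φ), (∀ d ∈ r.support, d ∈ E) → r = 0))
    {α : Type} [LinearOrder α] [Fintype α] {D : Dat (MvPolynomial (Fin N) R) α} (hD : D.Lb w I)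
    {n : ℤ}
    (H : ∀ m : Ideal R, m.IsMaximal → Finite (R ⧸ m) → ∀ p, 1 ≤ p →
      ∀ hI : (polyGr (R ⧸ m) w).Sub (I.map (MvPolynomial.map (Ideal.Quotient.mk m))),
      HV (D.bc (Ideal.Quotient.mk m)) (cyc w _ hI) n p)
    {p : ℕ} (hp : 1 ≤ p)
    (hI' : (polyGr k w).Sub (I.map (MvPolynomial.map R.subtype))) :
    HV (D.bc R.subtype) (cyc w _ hI') n p := by
  classical
  have hid : I.map (MvPolynomial.map (RingHom.id R)) = I := by
    have : MvPolynomial.map (RingHom.id R) = RingHom.id (MvPolynomial (Fin N) R) :=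
      RingHom.ext MvPolynomial.map_id
    rw [this, Ideal.map_id]
  have hR1 : ∀ f : MvPolynomial (Fin N) R, ∃ r : MvPolynomial (Fin N) R,
      (∀ d ∈ r.support, d ∈ E) ∧ f - r ∈ I := by
    have := (hE R (RingHom.id R)).1
    rw [hid] at this
    exact this
  have hR2 : ∀ r ∈ I, (∀ d ∈ r.support, d ∈ E) → r = 0 := by
    have := (hE R (RingHom.id R)).2
    rw [hid] at this
    exact this
  have hfree : Module.Free R (MvPolynomial (Fin N) R ⧸ I) := free_of_nf hR1 hR2
  have hnoeth : IsNoetherianRing R := by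
    subst hR
    exact noeth_closure s
  have hOk := hD.okc hI
  have hA : ∀ (a : R) n (m : MvPolynomial (Fin N) R ⧸ I),
      (cyc w I hI).pr n (a • m) = a • (cyc w I hI).pr n m := by
    intro a n m
    have h1 := (cyc_gmod hI 0 (C a) (polyGr_C w a)) n m
    rw [add_zero] at h1
    have h2 : ∀ m : MvPolynomial (Fin N) R ⧸ I, a • m = (C a : MvPolynomial (Fin N) R) • m := by
      intro m
      obtain ⟨f, rfl⟩ := Submodule.Quotient.mk_surjective I m
      rw [← Submodule.Quotient.mk_smul, ← Submodule.Quotient.mk_smul, smul_eq_C_mul, smul_eq_mul]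
    rw [h2, h2]
    exact h1
  refine hv_field (E := E) hI hD hR1 (hE k R.subtype).2 ?_ hI'
  refine hv_of_nakayama (R := R) hOk hA n (fun p hp => ?_) (fun m hmax p hp z hz hzc => ?_) hp
  · exact hf_tw (A := R) hw hI hD (cyc_gmod hI) (fun a ha m => by
      obtain ⟨m, rfl⟩ := Submodule.Quotient.mk_surjective I m
      rw [← Submodule.Quotient.mk_smul, Submodule.Quotient.mk_eq_zero, smul_eq_mul]
      exact Ideal.mul_mem_right _ _ ha) n hp
  · have hfin : Finite (R ⧸ m) := by
      subst hR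
      exact finite_residue s m
    have hIm := map_sub hI (Ideal.Quotient.mk m)
    have hc := qmc_cmp (Ideal.Quotient.mk m) I 1 D
    obtain ⟨v, hv, hv'⟩ := H m hmax hfin p hp hIm (fun J => hc.lm J (z J)) (fun J => by
      have := hc.lDeg (g := cyc w I hI) (g' := cyc w _ hIm) (δ := 0)
        (fun n m hm => qmc_hom _ 1 hI hIm n m hm) (hz J)
      rw [add_zero] at this
      exact this) (fun J hJ => by
      rw [dC_map hc.nat, hzc J hJ, map_zero])
    have hlift : ∀ J : Finset α, ∃ x : Loc (D.fJ J) (MvPolynomial (Fin N) R ⧸ I),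
        LDeg (cyc w I hI) (D.fJ J) (D.dJ J) n x ∧ hc.lm J x = v J := by
      intro J
      obtain ⟨e, y, hy, hy'⟩ := hv J
      obtain ⟨f, rfl⟩ := Submodule.Quotient.mk_surjective _ y
      obtain ⟨f, rfl⟩ := MvPolynomial.map_surjective _ Ideal.Quotient.mk_surjective f
      refine ⟨fr (D.fJ J) ((cyc w I hI).pr (n + e * D.dJ J) (Submodule.Quotient.mk f)) e,
        ⟨e, _, Gr.hom_pr _ _ _, rfl⟩, ?_⟩
      rw [hc.lm_fr, qmc_pr _ 1 hI hIm, qmc_mk, map_one, one_mul, hy']
      congr 1
    choose x hx hx' using hlift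
    refine ⟨x, hx, fun J hJ => ?_⟩
    have h0 : hc.lm J (z J - dC (D.tw (MvPolynomial (Fin N) R ⧸ I)) x J) = 0 := by
      rw [AddMonoidHom.map_sub, ← dC_map hc.nat]
      have : dC ((D.bc (Ideal.Quotient.mk m)).tw _) (fun J => hc.lm J (x J)) J = hc.lm J (z J) := by
        rw [← hv' J hJ]
        exact dC_congr fun K _ => hx' K
      rw [this, sub_self]
    obtain ⟨y, e, hy⟩ := fr_surj (z J - dC (D.tw (MvPolynomial (Fin N) R ⧸ I)) x J)
    rw [hy, hc.lm_fr, fr_eq_zero] at h0
    obtain ⟨j, hj⟩ := h0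
    refine ⟨e + j, D.fJ J ^ j • y, ?_, ?_⟩
    · apply qmc_ker
      rw [← hj]
      exact pow_smul_map (hc.prod J) j y
    · rw [hy, fr_raise]

end Pool.Agent.Lib.MP_0b721b_ag
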