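import Pool.Agent.Lib.MP_0b721b_ag.Fib

/-!
Part P9e: descent of line bundles and of ampleness to a finitely generated subring of a field. A
subring is given by an injective ring map `j : A → k` whose range contains a suitable finite set.
-/

namespace Pool.Agent.Lib.MP_0b721b_ag

open MvPolynomial

universe u

section p9

variable {k : Type u} [CommRing k]

/-- the property holds for all subrings which contain a suitable finite set -/
def P9Ev (P : ∀ (A : Type u) [CommRing A] (_ : A →+* k), Prop) : Prop :=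
  ∃ F : Finset k, ∀ (A : Type u) [CommRing A] (j : A →+* k), Function.Injective j →
    (F : Set k) ⊆ Set.range j → P A j

theorem P9Ev.mono {P Q : ∀ (A : Type u) [CommRing A] (_ : A →+* k), Prop} (h : P9Ev P)
    (hPQ : ∀ (A : Type u) [CommRing A] (j : A →+* k), Function.Injective j → P A j → Q A j) :
    P9Ev Q := by
  obtain ⟨F, hF⟩ := h
  exact ⟨F, fun A _ j hj hR => hPQ A j hj (hF A j hj hR)⟩

theorem P9Ev.and {P Q : ∀ (A : Type u) [CommRing A] (_ : A →+* k), Prop} (h : P9Ev P)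
    (h' : P9Ev Q) : P9Ev fun A _ j => P A j ∧ Q A j := by
  classical
  obtain ⟨F, hF⟩ := h
  obtain ⟨F', hF'⟩ := h'
  refine ⟨F ∪ F', fun A _ j hj hR => ?_⟩
  rw [Finset.coe_union] at hR
  exact ⟨hF A j hj (Set.subset_union_left.trans hR), hF' A j hj (Set.subset_union_right.trans hR)⟩

theorem P9Ev.all {ι : Type*} [Finite ι] {P : ι → ∀ (A : Type u) [CommRing A] (_ : A →+* k), Prop}
    (h : ∀ i, P9Ev (P i)) : P9Ev fun A _ j => ∀ i, P i A j := by
  classical
  cases nonempty_fintype ι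
  choose F hF using h
  refine ⟨Finset.univ.biUnion F, fun A _ j hj hR i => hF i A j hj fun x hx => hR ?_⟩
  exact Finset.mem_coe.2 (Finset.mem_biUnion.2 ⟨i, Finset.mem_univ _, hx⟩)

variable {σ : Type*}

theorem p9_lift (g : MvPolynomial σ k) :
    P9Ev fun (A : Type u) _ (j : A →+* k) => ∃ g' : MvPolynomial σ A, MvPolynomial.map j g' = g := by
  refine ⟨g.coeffs, fun A _ j hj hR => ?_⟩
  have := (mem_range_map_iff_coeffs_subset (f := j) (x := g)).2 (by
    intro x hx
    exact hR hx)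
  exact this

/-- membership in an extended ideal descends -/
theorem p9_desc {B : Type*} [CommRing B] (φ : B →+* k) (J : Ideal (MvPolynomial σ B))
    {g : MvPolynomial σ k} (hg : g ∈ J.map (MvPolynomial.map φ)) :
    P9Ev fun (A : Type u) _ (j : A →+* k) => ∀ ψ : B →+* A, j.comp ψ = φ →
      ∃ g' ∈ J.map (MvPolynomial.map ψ), MvPolynomial.map j g' = g := by
  unfold Ideal.map at hg
  induction hg using Submodule.span_induction with
  | mem x hx =>
    obtain ⟨y, hy, rfl⟩ := hx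
    refine ⟨∅, fun A _ j _ _ ψ hψ => ⟨_, Ideal.mem_map_of_mem _ hy, ?_⟩⟩
    rw [MvPolynomial.map_map, hψ]
  | zero => exact ⟨∅, fun A _ j _ _ ψ _ => ⟨0, Ideal.zero_mem _, map_zero _⟩⟩
  | add x y _ _ hx hy =>
    refine (hx.and hy).mono fun A _ j _ ⟨h1, h2⟩ ψ hψ => ?_
    obtain ⟨a, ha, rfl⟩ := h1 ψ hψ
    obtain ⟨b, hb, rfl⟩ := h2 ψ hψ
    exact ⟨a + b, Ideal.add_mem _ ha hb, map_add _ _ _⟩
  | smul a x _ hx =>
    refine ((p9_lift a).and hx).mono fun A _ j _ ⟨⟨a', h1⟩, h2⟩ ψ hψ => ?_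
    obtain ⟨b, hb, rfl⟩ := h2 ψ hψ
    exact ⟨a' * b, Ideal.mul_mem_left _ _ hb, by rw [map_mul, h1, smul_eq_mul]⟩

/-- membership in a finitely generated ideal descends -/
theorem p9_desc_span {ι : Type*} (x : ι → MvPolynomial σ k) {g : MvPolynomial σ k}
    (hg : g ∈ Ideal.span (Set.range x)) :
    P9Ev fun (A : Type u) _ (j : A →+* k) => ∀ x' : ι → MvPolynomial σ A,
      (∀ i, MvPolynomial.map j (x' i) = x i) →
      ∃ g' ∈ Ideal.span (Set.range x'), MvPolynomial.map j g' = g := by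
  induction hg using Submodule.span_induction with
  | mem y hy =>
    obtain ⟨i, rfl⟩ := hy
    exact ⟨∅, fun A _ j _ _ x' hx' => ⟨x' i, Ideal.subset_span ⟨i, rfl⟩, hx' i⟩⟩
  | zero => exact ⟨∅, fun A _ j _ _ x' _ => ⟨0, Ideal.zero_mem _, map_zero _⟩⟩
  | add y z _ _ hy hz =>
    refine (hy.and hz).mono fun A _ j _ ⟨h1, h2⟩ x' hx' => ?_
    obtain ⟨a, ha, rfl⟩ := h1 x' hx'
    obtain ⟨b, hb, rfl⟩ := h2 x' hx'
    exact ⟨a + b, Ideal.add_mem _ ha hb, map_add _ _ _⟩
  | smul a y _ hy =>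
    refine ((p9_lift a).and hy).mono fun A _ j _ ⟨⟨a', h1⟩, h2⟩ x' hx' => ?_
    obtain ⟨b, hb, rfl⟩ := h2 x' hx'
    exact ⟨a' * b, Ideal.mul_mem_left _ _ hb, by rw [map_mul, h1, smul_eq_mul]⟩

/-- membership in the sum of both -/
theorem p9_desc_sup {B : Type*} [CommRing B] (φ : B →+* k) (J : Ideal (MvPolynomial σ B))
    {ι : Type*} (x : ι → MvPolynomial σ k) {g : MvPolynomial σ k}
    (hg : g ∈ J.map (MvPolynomial.map φ) ⊔ Ideal.span (Set.range x)) :
    P9Ev fun (A : Type u) _ (j : A →+* k) => ∀ ψ : B →+* A, j.comp ψ = φ →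
      ∀ x' : ι → MvPolynomial σ A, (∀ i, MvPolynomial.map j (x' i) = x i) →
      ∃ g' ∈ J.map (MvPolynomial.map ψ) ⊔ Ideal.span (Set.range x'), MvPolynomial.map j g' = g := by
  obtain ⟨a, ha, b, hb, rfl⟩ := Submodule.mem_sup.1 hg
  refine ((p9_desc φ J ha).and (p9_desc_span x hb)).mono fun A _ j _ ⟨h1, h2⟩ ψ hψ x' hx' => ?_
  obtain ⟨a', ha', rfl⟩ := h1 ψ hψ
  obtain ⟨b', hb', rfl⟩ := h2 x' hx'
  exact ⟨a' + b', Submodule.add_mem_sup ha' hb', map_add _ _ _⟩

end p9

section p9gen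

variable {A : Type*} [CommRing A] {k : Type*} [CommRing k] {σ : Type*} {α : Type*} {w : σ → ℤ}
  (j : A →+* k) (hj : Function.Injective j)

include hj

theorem p9_hom {n : ℤ} {f : MvPolynomial σ A}
    (h : (polyGr k w).Hom n (MvPolynomial.map j f)) : (polyGr A w).Hom n f := by
  unfold Gr.Hom at *
  apply MvPolynomial.map_injective j hj
  rw [polyGr_map, h]

/-- the conditions for a line bundle can be checked after an injective base change -/
theorem p9_lb (D : Dat (MvPolynomial σ A) α) (I : Ideal (MvPolynomial σ A))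
    (hpos : ∀ a, 0 < D.d a)
    (hf : ∀ a, (polyGr k w).Hom (D.d a) (MvPolynomial.map j (D.f a)))
    (hv : ∀ a b, (polyGr k w).Hom (D.t * (D.d a + D.d b)) (MvPolynomial.map j (D.v a b)))
    (h1 : ∀ a, ∃ e : ℕ, ∃ g ∈ I, MvPolynomial.map j g = MvPolynomial.map j (D.f a) ^ e *
      (MvPolynomial.map j (D.v a a) - MvPolynomial.map j (D.f a) ^ (2 * D.t)))
    (h2 : ∀ a b c, ∃ e : ℕ, ∃ g ∈ I, MvPolynomial.map j g =
      (MvPolynomial.map j (D.f a) * MvPolynomial.map j (D.f b) * MvPolynomial.map j (D.f c)) ^ e *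
      (MvPolynomial.map j (D.v a b) * MvPolynomial.map j (D.v b c) -
        MvPolynomial.map j (D.v a c) * MvPolynomial.map j (D.f b) ^ (2 * D.t)))
    (h3 : ∀ i : σ, ∃ e : ℕ, ∃ g ∈ I ⊔ Ideal.span (Set.range D.f),
      MvPolynomial.map j g = X i ^ e) : D.Lb w I := by
  have inj := MvPolynomial.map_injective (σ := σ) j hj
  refine ⟨hpos, fun a => p9_hom j hj (hf a), fun a b => p9_hom j hj (hv a b), ?_, ?_, ?_⟩
  · intro a
    obtain ⟨e, g, hg, hg'⟩ := h1 a
    refine ⟨e, ?_⟩
    have : g = D.f a ^ e * (D.v a a - D.f a ^ (2 * D.t)) := by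
      apply inj
      rw [hg']
      simp only [map_mul, _root_.map_sub, map_pow]
    rw [this] at hg
    exact hg
  · intro a b c
    obtain ⟨e, g, hg, hg'⟩ := h2 a b c
    refine ⟨e, ?_⟩
    have : g = (D.f a * D.f b * D.f c) ^ e *
        (D.v a b * D.v b c - D.v a c * D.f b ^ (2 * D.t)) := by
      apply inj
      rw [hg']
      simp only [map_mul, _root_.map_sub, map_pow]
    rw [this] at hg
    exact hg
  · intro i
    obtain ⟨e, g, hg, hg'⟩ := h3 i
    refine ⟨e, ?_⟩
    have : g = X i ^ e := by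
      apply inj
      rw [hg']
      simp only [map_pow, map_X]
    rw [this] at hg
    exact hg

/-- the conditions for global generation can be checked after an injective base change -/
theorem p9_gg (D : Dat (MvPolynomial σ A) α) (I : Ideal (MvPolynomial σ A)) (u : ℤ)
    (T r : ℕ) (ε : Fin r → α → MvPolynomial σ A)
    (h1 : ∀ i a, (polyGr k w).Hom (T * D.d a + u) (MvPolynomial.map j (ε i a)))
    (h2 : ∀ i a b, ∃ e : ℕ, ∃ g ∈ I, MvPolynomial.map j g =
      (MvPolynomial.map j (D.f a) * MvPolynomial.map j (D.f b)) ^ e *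
      (MvPolynomial.map j (ε i a) * MvPolynomial.map j (D.f b) ^ T *
        (MvPolynomial.map j (D.f a) * MvPolynomial.map j (D.f b)) ^ D.t -
        MvPolynomial.map j (D.v a b) * MvPolynomial.map j (ε i b) *
          MvPolynomial.map j (D.f a) ^ T))
    (h3 : ∀ a, ∃ e : ℕ, ∃ g ∈ I ⊔ Ideal.span (Set.range fun i => ε i a),
      MvPolynomial.map j g = MvPolynomial.map j (D.f a) ^ e) : D.GG w I u := by
  have inj := MvPolynomial.map_injective (σ := σ) j hj
  refine ⟨T, r, ε, fun i a => p9_hom j hj (h1 i a), ?_, ?_⟩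
  · intro i a b
    obtain ⟨e, g, hg, hg'⟩ := h2 i a b
    refine ⟨e, ?_⟩
    have : g = (D.f a * D.f b) ^ e *
        (ε i a * D.f b ^ T * (D.f a * D.f b) ^ D.t - D.v a b * ε i b * D.f a ^ T) := by
      apply inj
      rw [hg']
      simp only [map_mul, _root_.map_sub, map_pow]
    rw [this] at hg
    exact hg
  · intro a
    obtain ⟨e, g, hg, hg'⟩ := h3 a
    refine ⟨e, ?_⟩
    have : g = D.f a ^ e := by
      apply inj
      rw [hg']
      simp only [map_pow]
    rw [this, sup_comm] at hg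
    exact hg

end p9gen

/-- descent of line bundles and of ampleness to a finitely generated subring (P9, main part) -/
theorem p9_descent {N : ℕ} {w : Fin N → ℤ} {B : Type*} [CommRing B] {k : Type u} [CommRing k]
    (φ : B →+* k) (J : Ideal (MvPolynomial (Fin N) B))
    {α : Type} [Fintype α] (D : Dat (MvPolynomial (Fin N) k) α)
    (hD : D.Lb w (J.map (MvPolynomial.map φ))) (n : ℤ)
    (hA : D.Amp w (J.map (MvPolynomial.map φ)) n) :
    P9Ev fun (A : Type u) _ (j : A →+* k) => ∀ ψ : B →+* A, j.comp ψ = φ →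
      ∃ D' : Dat (MvPolynomial (Fin N) A) α, D'.bc j = D ∧
      D'.Lb w (J.map (MvPolynomial.map ψ)) ∧ D'.Amp w (J.map (MvPolynomial.map ψ)) n := by
  classical
  obtain ⟨n₀, u, hn₀, hu, T, r, ε, hε1, hε2, hε3⟩ := hA
  choose e1 he1 using hD.self
  choose e2 he2 using hD.cocy
  choose e3 he3 using hD.cov
  choose e4 he4 using hε2
  choose e5 he5 using hε3
  simp only [sup_comm _ (J.map (MvPolynomial.map φ))] at he5
  replace hε1 : ∀ (j : Fin r) (a : α), (polyGr k w).Hom (T * D.d a + u) (ε j a) := hε1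
  replace he4 : ∀ (j : Fin r) (a b : α), (D.f a * D.f b) ^ e4 j a b *
      (ε j a * D.f b ^ T * (D.f a * D.f b) ^ (n₀ * D.t) - D.v a b ^ n₀ * ε j b * D.f a ^ T) ∈
      J.map (MvPolynomial.map φ) := he4
  replace he5 : ∀ a : α, D.f a ^ e5 a ∈
      J.map (MvPolynomial.map φ) ⊔ Ideal.span (Set.range fun j => ε j a) := he5
  have H := (P9Ev.all fun a => p9_lift (D.f a)).and
    ((P9Ev.all fun a => P9Ev.all fun b => p9_lift (D.v a b)).and
    ((P9Ev.all fun j => P9Ev.all fun a => p9_lift (ε j a)).and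
    ((P9Ev.all fun a => p9_desc φ _ (he1 a)).and
    ((P9Ev.all fun a => P9Ev.all fun b => P9Ev.all fun c => p9_desc φ _ (he2 a b c)).and
    ((P9Ev.all fun i => p9_desc_sup φ _ _ (he3 i)).and
    ((P9Ev.all fun j => P9Ev.all fun a => P9Ev.all fun b => p9_desc φ _ (he4 j a b)).and
    (P9Ev.all fun a => p9_desc_sup φ _ _ (he5 a))))))))
  refine H.mono fun A _ j hj ⟨hf, hv, hε, h1, h2, h3, h4, h5⟩ ψ hψ => ?_
  choose f' hf' using hf
  choose v' hv' using hv
  choose ε' hε' using hε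
  refine ⟨⟨f', D.d, D.t, v'⟩, ?_, ?_, ?_⟩
  · unfold Dat.bc Dat.map
    obtain ⟨f, d, t, v⟩ := D
    congr 1
    · funext a
      exact hf' a
    · funext a b
      exact hv' a b
  · refine p9_lb j hj _ _ hD.pos ?_ ?_ ?_ ?_ ?_
    · intro a
      have := hD.hf a
      rw [← hf' a] at this
      exact this
    · intro a b
      have := hD.hv a b
      rw [← hv' a b] at this
      exact this
    · intro a
      refine ⟨e1 a, ?_⟩
      have := h1 a ψ hψ
      simp only [← hf', ← hv'] at this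
      exact this
    · intro a b c
      refine ⟨e2 a b c, ?_⟩
      have := h2 a b c ψ hψ
      simp only [← hf', ← hv'] at this
      exact this
    · intro i
      exact ⟨e3 i, h3 i ψ hψ f' hf'⟩
  · refine ⟨n₀, u, hn₀, hu, p9_gg j hj _ _ u T r ε' ?_ ?_ ?_⟩
    · intro i a
      have := hε1 i a
      rw [← hε' i a] at this
      exact this
    · intro i a b
      refine ⟨e4 i a b, ?_⟩
      have := h4 i a b ψ hψ
      simp only [← hf', ← hv', ← hε'] at this
      obtain ⟨g, hg, hg'⟩ := this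
      refine ⟨g, hg, hg'.trans ?_⟩
      change _ = (MvPolynomial.map j (f' a) * MvPolynomial.map j (f' b)) ^ e4 i a b *
        (MvPolynomial.map j (ε' i a) * MvPolynomial.map j (f' b) ^ T *
          (MvPolynomial.map j (f' a) * MvPolynomial.map j (f' b)) ^ (n₀ * D.t) -
          MvPolynomial.map j (v' a b ^ n₀) * MvPolynomial.map j (ε' i b) *
            MvPolynomial.map j (f' a) ^ T)
      rw [map_pow]
    · intro a
      refine ⟨e5 a, ?_⟩
      have := h5 a ψ hψ (fun j => ε' j a) (fun j => hε' j a)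
      simp only [← hf'] at this
      exact this

/-- the image of a finitely generated ring is contained in a finitely generated ring -/
theorem p9_image {K : Type*} [CommRing K] {k : Type*} [CommRing k] (s : Finset K)
    (φ : Subring.closure (s : Set K) →+* k) :
    ∃ F : Finset k, ∀ R : Subring k, (F : Set k) ⊆ R → ∀ b, φ b ∈ R := by
  classical
  refine ⟨s.attach.image fun x => φ ⟨x.1, Subring.subset_closure x.2⟩, fun R hR => ?_⟩
  rintro ⟨b, hb⟩
  induction hb using Subring.closure_induction with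
  | mem x hx =>
    refine hR ?_
    rw [Finset.mem_coe, Finset.mem_image]
    exact ⟨⟨x, hx⟩, Finset.mem_attach _ _, rfl⟩
  | zero =>
    have : φ ⟨0, zero_mem _⟩ = 0 := map_zero φ
    rw [this]
    exact zero_mem _
  | one =>
    have : φ ⟨1, one_mem _⟩ = 1 := map_one φ
    rw [this]
    exact one_mem _
  | add x y hx hy h1 h2 =>
    have : φ ⟨x + y, add_mem hx hy⟩ = φ ⟨x, hx⟩ + φ ⟨y, hy⟩ := map_add φ ⟨x, hx⟩ ⟨y, hy⟩
    rw [this]
    exact add_mem h1 h2
  | neg x hx h1 =>
    have : φ ⟨-x, neg_mem hx⟩ = -φ ⟨x, hx⟩ := map_neg φ ⟨x, hx⟩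
    rw [this]
    exact neg_mem h1
  | mul x y hx hy h1 h2 =>
    have : φ ⟨x * y, mul_mem hx hy⟩ = φ ⟨x, hx⟩ * φ ⟨y, hy⟩ := map_mul φ ⟨x, hx⟩ ⟨y, hy⟩
    rw [this]
    exact mul_mem h1 h2

end Pool.Agent.Lib.MP_0b721b_ag
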