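import Pool.Agent.Lib.MP_0b721b_ag.P7
import Pool.Agent.Lib.MP_0b721b_ag.P9d
import Pool.Agent.Lib.MP_0b721b_ag.P9e

/-!
Part P9: from finite fields to all fields.
-/

namespace Pool.Agent.Lib.MP_0b721b_ag

open MvPolynomial

universe u

/-- base change of the ideal of the fibre -/
theorem p9_fib {K : Type u} [Field K] {N : ℕ} (I : Ideal (MvPolynomial (Fin N) K))
    {B : Subring K} {A C : Type u} [CommRing A] [CommRing C] (ψ : B →+* A) (χ : A →+* C) :
    (fib I ψ).map (MvPolynomial.map χ) = fib I (χ.comp ψ) := by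
  unfold fib
  rw [Ideal.map_map]
  congr 1
  exact RingHom.ext fun x => MvPolynomial.map_map _ _ x

/-- the reduction modulo a maximal ideal with finite residue field -/
theorem p9_red {K : Type u} [Field K] {N : ℕ} {w : Fin N → ℤ}
    {I : Ideal (MvPolynomial (Fin N) K)} {s : Finset K} {m₀ : ℤ}
    (hs : ∀ B : Subring K, (s : Set K) ⊆ B → ∀ (k : Type u) [Field k],
      (true = true → Finite k) → ∀ (φ : B →+* k) (α : Type) [LinearOrder α] [Fintype α]
      (D : Dat (MvPolynomial (Fin N) k) α), D.Lb w (fib I φ) →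
      ∀ n, D.Amp w (fib I φ) (n - m₀) → ∀ p, 1 ≤ p → ∀ hI : (polyGr k w).Sub (fib I φ),
      HV D (cyc w (fib I φ) hI) n p)
    {B : Subring K} (hB : (s : Set K) ⊆ B) {A : Type u} [CommRing A] (ψ : B →+* A)
    {α : Type} [LinearOrder α] [Fintype α] {D : Dat (MvPolynomial (Fin N) A) α}
    (hD : D.Lb w (fib I ψ)) {n : ℤ} (hA : D.Amp w (fib I ψ) (n - m₀))
    (m : Ideal A) (hm : m.IsMaximal) (hfin : Finite (A ⧸ m)) (p : ℕ) (hp : 1 ≤ p)
    (hI : (polyGr (A ⧸ m) w).Sub ((fib I ψ).map (MvPolynomial.map (Ideal.Quotient.mk m)))) :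
    HV (D.bc (Ideal.Quotient.mk m)) (cyc w _ hI) n p := by
  let _ : Field (A ⧸ m) := Ideal.Quotient.field m
  have e := p9_fib I ψ (Ideal.Quotient.mk m)
  have h1 := hD.map (Ideal.Quotient.mk m)
  have h2 := hA.map (Ideal.Quotient.mk m)
  revert hI
  rw [e] at h1 h2 ⊢
  intro hI
  exact hs B hB (A ⧸ m) (fun _ => hfin) _ α _ h1 n h2 p hp hI

/-- from finite fields to all fields -/
theorem claim_all {K : Type u} [Field K] {N : ℕ} {w : Fin N → ℤ} (hw : ∀ i, 0 < w i)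
    {I : Ideal (MvPolynomial (Fin N) K)} (hI : (polyGr K w).Sub I) (h : Claim true w I) :
    Claim false w I := by
  classical
  obtain ⟨s, m₀, hs⟩ := h
  obtain ⟨E, s₁, hnf⟩ := nf I
  obtain ⟨s₂, hcomp⟩ := fib_comp I
  refine ⟨s ∪ s₁ ∪ s₂, m₀, ?_⟩
  intro B hB k _ _ φ α _ _ D hD n hA p hp hI'
  have hle : Subring.closure ((s ∪ s₁ ∪ s₂ : Finset K) : Set K) ≤ B := Subring.closure_le.2 hB
  have hsB : ((s ∪ s₁ ∪ s₂ : Finset K) : Set K) ⊆
      (Subring.closure ((s ∪ s₁ ∪ s₂ : Finset K) : Set K) : Subring K) := Subring.subset_closure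
  have hs0 : (s : Set K) ⊆ (Subring.closure ((s ∪ s₁ ∪ s₂ : Finset K) : Set K) : Subring K) :=
    fun x hx => hsB (by simp [Finset.mem_coe.1 hx])
  have hs1 : (s₁ : Set K) ⊆ (Subring.closure ((s ∪ s₁ ∪ s₂ : Finset K) : Set K) : Subring K) :=
    fun x hx => hsB (by simp [Finset.mem_coe.1 hx])
  have hs2 : (s₂ : Set K) ⊆ (Subring.closure ((s ∪ s₁ ∪ s₂ : Finset K) : Set K) : Subring K) :=
    fun x hx => hsB (by simp [Finset.mem_coe.1 hx])
  have e := hcomp _ B hle hs2 k φ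
  obtain ⟨F₁, hF₁⟩ := p9_image (s ∪ s₁ ∪ s₂) (φ.comp (Subring.inclusion hle))
  generalize φ.comp (Subring.inclusion hle) = φ₀ at e hF₁
  revert hI'
  rw [← e] at hD hA ⊢
  intro hI'
  obtain ⟨F₂, hF₂⟩ := p9_descent φ₀ _ D hD _ hA
  have hF₁' := hF₁ (Subring.closure ((F₁ ∪ F₂ : Finset k) : Set k))
    (fun x hx => Subring.subset_closure (by simp [Finset.mem_coe.1 hx]))
  obtain ⟨D', hDD, hD', hA'⟩ := hF₂ (Subring.closure ((F₁ ∪ F₂ : Finset k) : Set k))
    (Subring.subtype _) Subtype.val_injective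
    (fun x hx => ⟨⟨x, Subring.subset_closure (by simp [Finset.mem_coe.1 hx])⟩, rfl⟩)
    (φ₀.codRestrict _ hF₁') (RingHom.ext fun x => rfl)
  have e2 : (fib I (φ₀.codRestrict (Subring.closure ((F₁ ∪ F₂ : Finset k) : Set k)) hF₁')).map
      (MvPolynomial.map (Subring.subtype _)) = fib I φ₀ := by
    rw [p9_fib]
    rfl
  have hI'' := hI'
  rw [← e2] at hI''
  have key := hv_of_finite hw (F₁ ∪ F₂) rfl (fib_sub hI (φ₀.codRestrict _ hF₁'))
    (E := E) (fun C _ χ => by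
      rw [p9_fib]
      exact hnf _ hs1 C _) hD' (n := n)
      (fun m hm hfin p hp hI => p9_red hs hs0 _ hD' hA' m hm hfin p hp hI) hp hI''
  have tr : ∀ (J : Ideal (MvPolynomial (Fin N) k)) (hJ : (polyGr k w).Sub J), J = fib I φ₀ →
      HV D (cyc w J hJ) n p → HV D (cyc w (fib I φ₀) hI') n p := by
    rintro J hJ rfl h
    exact h
  rw [hDD] at key
  exact tr _ hI'' e2 key

end Pool.Agent.Lib.MP_0b721b_ag
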