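import Pool.Agent.Lib.MP_0b721b_ag.P8
import Pool.Agent.Lib.MP_0b721b_ag.P9
import Pool.Agent.Lib.MP_0b721b_ag.P10e
import Pool.Agent.Lib.MP_0b721b_ag.P10c

/-!
Part P10a: uniform vanishing for `P / I` over a noetherian ring `A`, by noetherian induction over
`Spec A`.
-/

namespace Pool.Agent.Lib.MP_0b721b_ag

open MvPolynomial

universe u

/-- noetherian induction over `Spec A` -/
theorem spec_induction {A : Type u} [CommRing A] [IsNoetherianRing A]
    (Q : ∀ (k : Type u) [Field k], (A →+* k) → ℤ → Prop)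
    (hmono : ∀ (k : Type u) [Field k] (ψ : A →+* k) (m m' : ℤ), m ≤ m' → Q k ψ m → Q k ψ m')
    (h : ∀ 𝔭 : Ideal A, 𝔭.IsPrime → ∃ b : A, b ∉ 𝔭 ∧ ∃ m : ℤ, ∀ (k : Type u) [Field k]
      (ψ : A →+* k), (∀ a ∈ 𝔭, ψ a = 0) → ψ b ≠ 0 → Q k ψ m) :
    ∃ m : ℤ, ∀ (k : Type u) [Field k] (ψ : A →+* k), Q k ψ m := by
  suffices H : ∀ 𝔞 : Ideal A, ∃ m : ℤ, ∀ (k : Type u) [Field k] (ψ : A →+* k),
      (∀ a ∈ 𝔞, ψ a = 0) → Q k ψ m by
    obtain ⟨m, hm⟩ := H ⊥
    refine ⟨m, fun k _ ψ => hm k ψ fun a ha => ?_⟩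
    rw [Ideal.mem_bot.1 ha, map_zero]
  intro 𝔞
  induction 𝔞 using WellFoundedGT.induction with
  | ind 𝔞 ih =>
  have hsup : ∀ x : A, ∀ (k : Type u) [Field k] (ψ : A →+* k), (∀ a ∈ 𝔞, ψ a = 0) → ψ x = 0 →
      ∀ a ∈ 𝔞 ⊔ Ideal.span {x}, ψ a = 0 := by
    intro x k _ ψ h1 h2 a ha
    obtain ⟨y, hy, z, hz, rfl⟩ := Submodule.mem_sup.1 ha
    obtain ⟨c, rfl⟩ := Ideal.mem_span_singleton'.1 hz
    rw [map_add, h1 y hy, map_mul, h2, mul_zero, zero_add]
  have hlt : ∀ x : A, x ∉ 𝔞 → 𝔞 < 𝔞 ⊔ Ideal.span {x} := by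
    intro x hx
    refine lt_of_le_of_ne le_sup_left (fun h => hx ?_)
    rw [h]
    exact Ideal.mem_sup_right (Ideal.mem_span_singleton_self x)
  by_cases ht : 𝔞 = ⊤
  · refine ⟨0, fun k _ ψ h0 => ?_⟩
    exfalso
    have h1 := h0 1 (by rw [ht]; exact Submodule.mem_top)
    rw [map_one] at h1
    exact one_ne_zero h1
  by_cases hp : 𝔞.IsPrime
  · obtain ⟨b, hb, m, hm⟩ := h 𝔞 hp
    obtain ⟨m', hm'⟩ := ih _ (hlt b hb)
    refine ⟨max m m', fun k _ ψ h0 => ?_⟩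
    by_cases hb' : ψ b = 0
    · exact hmono k ψ _ _ (le_max_right _ _) (hm' k ψ (hsup b k ψ h0 hb'))
    · exact hmono k ψ _ _ (le_max_left _ _) (hm k ψ h0 hb')
  · rw [Ideal.isPrime_iff] at hp
    push Not at hp
    obtain ⟨x, y, hxy, hx, hy⟩ := hp ht
    obtain ⟨m, hm⟩ := ih _ (hlt x hx)
    obtain ⟨m', hm'⟩ := ih _ (hlt y hy)
    refine ⟨max m m', fun k _ ψ h0 => ?_⟩
    have h1 := h0 _ hxy
    rw [map_mul] at h1
    rcases mul_eq_zero.1 h1 with h2 | h2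
    · exact hmono k ψ _ _ (le_max_left _ _) (hm k ψ (hsup x k ψ h0 h2))
    · exact hmono k ψ _ _ (le_max_right _ _) (hm' k ψ (hsup y k ψ h0 h2))

theorem HV.congr_ideal {A : Type u} [CommRing A] {N : ℕ} {w : Fin N → ℤ}
    {I I' : Ideal (MvPolynomial (Fin N) A)} (h : I = I') (hI : (polyGr A w).Sub I)
    (hI' : (polyGr A w).Sub I') {α : Type} [LinearOrder α] {D : Dat (MvPolynomial (Fin N) A) α}
    {n : ℤ} {p : ℕ} (H : HV D (cyc w I hI) n p) : HV D (cyc w I' hI') n p := by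
  subst h
  exact H

/-- the uniform vanishing for `P / I` over a noetherian ring -/
theorem core_ideal {A : Type u} [CommRing A] [IsNoetherianRing A] {N : ℕ} {w : Fin N → ℤ}
    (hw : ∀ i, 0 < w i) (I : Ideal (MvPolynomial (Fin N) A)) (hI : (polyGr A w).Sub I) :
    ∃ m₀ : ℤ, ∀ (k : Type u) [Field k] (ψ : A →+* k) (α : Type) [LinearOrder α] [Fintype α]
      (D : Dat (MvPolynomial (Fin N) k) α), D.Lb w (I.map (MvPolynomial.map ψ)) →
      ∀ n, D.Amp w (I.map (MvPolynomial.map ψ)) (n - m₀) → ∀ p, 1 ≤ p →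
      ∀ hI' : (polyGr k w).Sub (I.map (MvPolynomial.map ψ)), HV D (cyc w _ hI') n p := by
  refine spec_induction (fun k _ ψ m₀ => ∀ (α : Type) [LinearOrder α] [Fintype α]
      (D : Dat (MvPolynomial (Fin N) k) α), D.Lb w (I.map (MvPolynomial.map ψ)) →
      ∀ n, D.Amp w (I.map (MvPolynomial.map ψ)) (n - m₀) → ∀ p, 1 ≤ p →
      ∀ hI' : (polyGr k w).Sub (I.map (MvPolynomial.map ψ)), HV D (cyc w _ hI') n p) ?_ ?_
  · intro k _ ψ m m' hm H α _ _ D hD n hA p hp hI'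
    exact H α D hD n (hA.le (sub_le_sub_left hm _)) p hp hI'
  · intro 𝔭 h𝔭
    classical
    let K := AlgebraicClosure (FractionRing (A ⧸ 𝔭))
    let j : A →+* K := (algebraMap (FractionRing (A ⧸ 𝔭)) K).comp
      ((algebraMap (A ⧸ 𝔭) (FractionRing (A ⧸ 𝔭))).comp (Ideal.Quotient.mk 𝔭))
    have hj : RingHom.ker j = 𝔭 := by
      ext a
      rw [RingHom.mem_ker]
      change algebraMap (FractionRing (A ⧸ 𝔭)) K (algebraMap (A ⧸ 𝔭) (FractionRing (A ⧸ 𝔭))
        (Ideal.Quotient.mk 𝔭 a)) = 0 ↔ _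
      rw [map_eq_zero_iff _ (algebraMap (FractionRing (A ⧸ 𝔭)) K).injective,
        map_eq_zero_iff _ (IsFractionRing.injective (A ⧸ 𝔭) (FractionRing (A ⧸ 𝔭))),
        Ideal.Quotient.eq_zero_iff_mem]
    have halg : ∀ x : K, ∃ f : Polynomial A, f.map j ≠ 0 ∧ f.eval₂ j x = 0 := by
      intro x
      have h1 : IsAlgebraic (FractionRing (A ⧸ 𝔭)) x := Algebra.IsAlgebraic.isAlgebraic x
      have h2 : IsAlgebraic (A ⧸ 𝔭) x :=
        (IsFractionRing.isAlgebraic_iff (A ⧸ 𝔭) (FractionRing (A ⧸ 𝔭)) K).2 h1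
      obtain ⟨f, hf0, hf⟩ := h2
      obtain ⟨g, hg⟩ := Polynomial.map_surjective (Ideal.Quotient.mk 𝔭)
        Ideal.Quotient.mk_surjective f
      have hjj : j = (algebraMap (A ⧸ 𝔭) K).comp (Ideal.Quotient.mk 𝔭) := rfl
      refine ⟨g, ?_, ?_⟩
      · rw [hjj, ← Polynomial.map_map, hg]
        intro h3
        apply hf0
        apply Polynomial.map_injective (algebraMap (A ⧸ 𝔭) K) _
        · rw [h3, Polynomial.map_zero]
        · exact (algebraMap (FractionRing (A ⧸ 𝔭)) K).injective.comp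
            (IsFractionRing.injective (A ⧸ 𝔭) (FractionRing (A ⧸ 𝔭)))
      · rw [hjj, ← Polynomial.eval₂_map, hg]
        exact hf
    have hIK : (polyGr K w).Sub (I.map (MvPolynomial.map j)) := map_sub hI j
    obtain ⟨s1, m₀, hclaim⟩ := claim_all hw hIK (claim_fin hw _ hIK)
    obtain ⟨s2, h2⟩ := fib_of_map j I
    obtain ⟨b, hb, hext⟩ := ext_hom h𝔭 j hj halg (s1 ∪ s2)
    refine ⟨b, hb, m₀, fun k _ ψ h0 hb0 α _ _ D hD n hA p hp hI' => ?_⟩
    obtain ⟨B, hB⟩ : ∃ B, B = Subring.closure (Set.range j ∪ ((s1 ∪ s2 : Finset K) : Set K)) :=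
      ⟨_, rfl⟩
    rw [← hB] at hext
    obtain ⟨φ, hφ⟩ := hext k ψ h0 hb0
    have hs1 : (s1 : Set K) ⊆ B := fun x hx => hB ▸ Subring.subset_closure (Or.inr (by
      rw [Finset.coe_union]
      exact Or.inl hx))
    have hs2 : (s2 : Set K) ⊆ B := fun x hx => hB ▸ Subring.subset_closure (Or.inr (by
      rw [Finset.coe_union]
      exact Or.inr hx))
    have hjB : ∀ a, j a ∈ B := fun a => hB ▸ Subring.subset_closure (Or.inl ⟨a, rfl⟩)
    have e1 := h2 B hjB hs2 (AlgebraicClosure k) φ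
    have e2 : φ.comp (j.codRestrict B hjB) = (algebraMap k (AlgebraicClosure k)).comp ψ := by
      ext a
      exact hφ a _
    have e3 : fib (I.map (MvPolynomial.map j)) φ =
        (I.map (MvPolynomial.map ψ)).map (MvPolynomial.map (algebraMap k (AlgebraicClosure k))) := by
      rw [e1, e2, Ideal.map_map]
      congr 1
      ext x
      · simp
      · simp
    have hI'' : (polyGr (AlgebraicClosure k) w).Sub ((I.map (MvPolynomial.map ψ)).map
        (MvPolynomial.map (algebraMap k (AlgebraicClosure k)))) := map_sub hI' _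
    apply hv_descent (algebraMap k (AlgebraicClosure k)) hI' hI''
    have hD' : (D.bc (algebraMap k (AlgebraicClosure k))).Lb w
        (fib (I.map (MvPolynomial.map j)) φ) := by
      rw [e3]
      exact hD.map _
    have hA' : (D.bc (algebraMap k (AlgebraicClosure k))).Amp w
        (fib (I.map (MvPolynomial.map j)) φ) (n - m₀) := by
      rw [e3]
      exact hA.map _
    exact HV.congr_ideal e3 _ hI'' (hclaim B hs1 (AlgebraicClosure k) (by simp) φ α _ hD' n hA' p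
      hp (fib_sub hIK φ))

end Pool.Agent.Lib.MP_0b721b_ag
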