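import Pool.Agent.Lib.MP_0b721b_ag.P3a1

/-!
Part P3a: the twisted sheaves `F ⊗ N` are coherent sheaves over `T = A[y_a]`, `y_a` acting as `f a`;
Serre vanishing for `F ⊗ N (n)`, `n` large, and finiteness of the cohomology.
-/

namespace Pool.Agent.Lib.MP_0b721b_ag

open MvPolynomial

universe u

variable {A : Type u} [CommRing A] {N : ℕ} {w : Fin N → ℤ}
  {α : Type} [LinearOrder α] [Fintype α]
  {D : Dat (MvPolynomial (Fin N) A) α} {I : Ideal (MvPolynomial (Fin N) A)}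
  {M : Type u} [AddCommGroup M] [Module (MvPolynomial (Fin N) A) M]

variable [IsNoetherianRing A]

theorem serre_O (hw : ∀ i, 0 < w i) (hI : (polyGr A w).Sub I) (hD : D.Lb w I)
    {g : Gr M} (hg : GMod (A := A) w g)
    [Module.Finite (MvPolynomial (Fin N) A) M] (hM : ∀ a ∈ I, ∀ m : M, a • m = 0) {p : ℕ}
    (hp : 1 ≤ p) : ∃ n₀ : ℤ, ∀ n, n₀ ≤ n → HV D g n p := by
  letI : Module (MvPolynomial α A) M :=
    Module.compHom M (aeval D.f : MvPolynomial α A →ₐ[A] MvPolynomial (Fin N) A).toRingHom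
  have hT : ∀ (t : MvPolynomial α A) (m : M),
      t • m = (aeval D.f t : MvPolynomial (Fin N) A) • m := fun t m => rfl
  haveI : SMulCommClass (MvPolynomial α A) (MvPolynomial (Fin N) A) M :=
    ⟨fun t s m => by rw [hT, hT, smul_comm]⟩
  have hok : D.Ok g := hD.ok hg hM
  obtain ⟨n₀, hn₀⟩ := (p3a_sh hw hI hD hg hok hM hT).van hD.pos hp
  refine ⟨n₀, fun n hn z hz hz' => ?_⟩
  obtain ⟨v, hv, hv'⟩ := hn₀ n hn z (fun J => (locGr_hom_iff _).2 (hz J)) hz'
  exact ⟨v, fun J => (locGr_hom_iff _).1 (hv J), hv'⟩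

theorem hf_tw (hw : ∀ i, 0 < w i) (hI : (polyGr A w).Sub I) (hD : D.Lb w I)
    {g : Gr M} (hg : GMod (A := A) w g) [Module A M] [IsScalarTower A (MvPolynomial (Fin N) A) M]
    [SMulCommClass A (MvPolynomial (Fin N) A) M]
    [Module.Finite (MvPolynomial (Fin N) A) M] (hM : ∀ a ∈ I, ∀ m : M, a • m = 0) (n : ℤ) {p : ℕ}
    (hp : 1 ≤ p) : HF A D g n p := by
  letI : Module (MvPolynomial α A) M :=
    Module.compHom M (aeval D.f : MvPolynomial α A →ₐ[A] MvPolynomial (Fin N) A).toRingHom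
  have hT : ∀ (t : MvPolynomial α A) (m : M),
      t • m = (aeval D.f t : MvPolynomial (Fin N) A) • m := fun t m => rfl
  haveI : SMulCommClass (MvPolynomial α A) (MvPolynomial (Fin N) A) M :=
    ⟨fun t s m => by rw [hT, hT, smul_comm]⟩
  have hok : D.Ok g := hD.ok hg hM
  have hC : ∀ (J : Finset α) (b : A) (z : Loc (D.fJ J) M),
      (C b : MvPolynomial α A) • z = b • z := by
    intro J b z
    obtain ⟨m, k, rfl⟩ := fr_surj z
    rw [smul_fr, smul_fr, hT, aeval_C, algebraMap_smul]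
  obtain ⟨r, Z, hZ, hZ', H⟩ := (p3a_sh hw hI hD hg hok hM hT).hfin hD.pos n hp
  refine ⟨r, Z, fun i J => (locGr_hom_iff _).1 (hZ i J), hZ', fun z hz hz' => ?_⟩
  obtain ⟨b, v, hv, hv'⟩ := H z (fun J => (locGr_hom_iff _).2 (hz J)) hz'
  refine ⟨b, v, fun J => (locGr_hom_iff _).1 (hv J), fun J hJ => ?_⟩
  rw [hv' J hJ]
  congr 1
  exact Finset.sum_congr rfl fun i _ => hC J (b i) (Z i J)

end Pool.Agent.Lib.MP_0b721b_ag
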