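import Pool.Agent.Lib.MP_0b721b_ag.P10c

/-!
Part P10b0: the polynomial ring with additional variables `e_1, ..., e_r`: the inclusion of `P`, the
value at `e = 0` and the part of degree one in `e`.
-/

namespace Pool.Agent.Lib.MP_0b721b_ag

open MvPolynomial

universe u

section gr

variable {M : Type*} [AddCommGroup M] {M' : Type*} [AddCommGroup M']

/-- an additive map which shifts the degrees by `δ` commutes with the projections -/
theorem p10b_pr_comm (g : Gr M) (g' : Gr M') (F : M →+ M') (δ : ℤ)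
    (hF : ∀ n m, g.Hom n m → g'.Hom (n + δ) (F m)) (n : ℤ) (m : M) :
    g'.pr (n + δ) (F m) = F (g.pr n m) := by
  have key : ∀ j, g'.pr (n + δ) (F (g.pr j m)) = if j = n then F (g.pr n m) else 0 := by
    intro j
    have h1 := hF j _ (g.hom_pr j m)
    split_ifs with h
    · subst h
      exact h1
    · unfold Gr.Hom at h1
      rw [← h1, Gr.pr_ne]
      omega
  conv_lhs => rw [← g.sum m]
  rw [AddMonoidHom.map_finsum F (g.fin m), AddMonoidHom.map_finsum _ ((g.fin m).subset (by
      intro j hj h'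
      exact hj (by simp only [h', map_zero])))]
  simp only [key]
  rw [finsum_eq_single _ n (fun j hj => by rw [if_neg hj]), if_pos rfl]

end gr

section hom

variable {B : Type*} [CommRing B] {σ τ : Type*} {w : σ → ℤ} {w' : τ → ℤ}

theorem p10b_hom_prod {ι : Type*} (s : Finset ι) (f : ι → MvPolynomial τ B) (e : ι → ℤ)
    (h : ∀ i ∈ s, (polyGr B w').Hom (e i) (f i)) :
    (polyGr B w').Hom (∑ i ∈ s, e i) (∏ i ∈ s, f i) := by
  classical
  induction s using Finset.induction_on with
  | empty =>
    rw [Finset.sum_empty, Finset.prod_empty]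
    exact polyGr_C w' (1 : B)
  | insert a s ha ih =>
    rw [Finset.sum_insert ha, Finset.prod_insert ha]
    exact polyGr_mul (h a (Finset.mem_insert_self _ _))
      (ih fun i hi => h i (Finset.mem_insert_of_mem hi))

/-- an algebra map which sends the variables to homogeneous elements of the same degree -/
theorem p10b_hom_alg (h : MvPolynomial σ B →ₐ[B] MvPolynomial τ B)
    (hX : ∀ i, (polyGr B w').Hom (w i) (h (X i))) {n : ℤ} {f : MvPolynomial σ B}
    (hf : (polyGr B w).Hom n f) : (polyGr B w').Hom n (h f) := by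
  classical
  rw [f.as_sum, map_sum]
  refine Gr.Hom.sum fun d hd => ?_
  have hd' : Finsupp.weight w d = n := (polyGr_hom_iff.1 hf) (mem_support_iff.1 hd)
  rw [monomial_eq, map_mul, Finsupp.prod, map_prod, ← hd']
  have h1 : h (C (coeff d f)) = C (coeff d f) := by
    rw [← algebraMap_eq, AlgHom.commutes]
    rfl
  have h2 : (polyGr B w').Hom (∑ i ∈ d.support, (d i : ℤ) * w i)
      (∏ i ∈ d.support, h (X i ^ d i)) := p10b_hom_prod _ _ _ fun i _ => by
    rw [map_pow]
    exact polyGr_pow (hX i) (d i)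
  have h3 := polyGr_mul (polyGr_C w' (coeff d f)) h2
  rw [h1]
  convert h3 using 1
  rw [zero_add, Finsupp.weight_apply, Finsupp.sum]
  refine Finset.sum_congr rfl fun i _ => ?_
  rw [nsmul_eq_mul]

end hom

section ext

variable {N r : ℕ} (B : Type*) [CommRing B]

/-- the inclusion of `P` -/
noncomputable def p10b_inc (N r : ℕ) (B : Type*) [CommRing B] :
    MvPolynomial (Fin N) B →ₐ[B] MvPolynomial (Fin (N + r)) B :=
  rename (Fin.castAdd r)

/-- the value at `e = 0` -/
noncomputable def p10b_zz (N r : ℕ) (B : Type*) [CommRing B] :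
    MvPolynomial (Fin (N + r)) B →ₐ[B] MvPolynomial (Fin N) B :=
  aeval (Fin.append (fun i => X i) (fun _ => 0))

/-- the variable `e_j` -/
noncomputable def p10b_ee (N : ℕ) {r : ℕ} (B : Type*) [CommRing B] (j : Fin r) :
    MvPolynomial (Fin (N + r)) B := X (Fin.natAdd N j)

/-- the part of degree one in `e` -/
noncomputable def p10b_pp (N r : ℕ) (B : Type*) [CommRing B] :
    MvPolynomial (Fin (N + r)) B →+ (Fin r → MvPolynomial (Fin N) B) :=
  AddMonoidHom.mk' (fun f j => p10b_zz N r B (pderiv (Fin.natAdd N j) f)) (fun a b => by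
    funext j
    simp only [map_add, Pi.add_apply])

/-- the polynomial `∑ v_j e_j` -/
noncomputable def p10b_em (N r : ℕ) (B : Type*) [CommRing B] :
    (Fin r → MvPolynomial (Fin N) B) →+ MvPolynomial (Fin (N + r)) B :=
  AddMonoidHom.mk' (fun v => ∑ j, p10b_inc N r B (v j) * p10b_ee N B j) (fun a b => by
    rw [← Finset.sum_add_distrib]
    refine Finset.sum_congr rfl fun j _ => ?_
    rw [Pi.add_apply, map_add, add_mul])

variable {B}

theorem p10b_pp_apply (f : MvPolynomial (Fin (N + r)) B) (j : Fin r) :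
    p10b_pp N r B f j = p10b_zz N r B (pderiv (Fin.natAdd N j) f) := rfl

theorem p10b_em_apply (v : Fin r → MvPolynomial (Fin N) B) :
    p10b_em N r B v = ∑ j, p10b_inc N r B (v j) * p10b_ee N B j := rfl

theorem p10b_inc_X (i : Fin N) : p10b_inc N r B (X i) = X (Fin.castAdd r i) := rename_X _ _

theorem p10b_zz_X (i : Fin N) : p10b_zz N r B (X (Fin.castAdd r i)) = X i := by
  unfold p10b_zz
  rw [aeval_X, Fin.append_left]

theorem p10b_zz_ee (j : Fin r) : p10b_zz N r B (p10b_ee N B j) = 0 := by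
  unfold p10b_zz p10b_ee
  rw [aeval_X, Fin.append_right]

theorem p10b_zz_inc (a : MvPolynomial (Fin N) B) : p10b_zz N r B (p10b_inc N r B a) = a := by
  have h : (p10b_zz N r B).comp (p10b_inc N r B) = AlgHom.id B _ := by
    apply MvPolynomial.algHom_ext
    intro i
    rw [AlgHom.comp_apply, p10b_inc_X, p10b_zz_X]
    rfl
  exact DFunLike.congr_fun h a

theorem p10b_pd_inc (j : Fin r) (a : MvPolynomial (Fin N) B) :
    pderiv (Fin.natAdd N j) (p10b_inc N r B a) = 0 := by
  unfold p10b_inc
  induction a using MvPolynomial.induction_on with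
  | C c => rw [rename_C, pderiv_C]
  | add p q hp hq => rw [map_add, map_add, hp, hq, add_zero]
  | mul_X p i hp =>
    rw [map_mul, rename_X, pderiv_mul, hp, zero_mul, zero_add, pderiv_X_of_ne, mul_zero]
    intro h
    have h1 := congrArg Fin.val h
    rw [Fin.val_castAdd, Fin.val_natAdd] at h1
    omega

theorem p10b_pd_ee (j l : Fin r) : pderiv (Fin.natAdd N j) (p10b_ee N B l) = if j = l then 1 else 0 := by
  unfold p10b_ee
  split_ifs with h
  · rw [h, pderiv_X_self]
  · rw [pderiv_X_of_ne]
    intro h1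
    apply h
    have h2 := congrArg Fin.val h1
    rw [Fin.val_natAdd, Fin.val_natAdd] at h2
    exact Fin.ext (by omega)

/-- the product rule -/
theorem p10b_pp_mul (f g : MvPolynomial (Fin (N + r)) B) :
    p10b_pp N r B (f * g) = p10b_zz N r B f • p10b_pp N r B g + p10b_zz N r B g • p10b_pp N r B f := by
  funext j
  rw [Pi.add_apply, Pi.smul_apply, Pi.smul_apply, p10b_pp_apply, p10b_pp_apply, p10b_pp_apply, pderiv_mul, map_add,
    map_mul, map_mul, smul_eq_mul, smul_eq_mul]
  ring

theorem p10b_pp_inc (a : MvPolynomial (Fin N) B) : p10b_pp N r B (p10b_inc N r B a) = 0 := by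
  funext j
  rw [p10b_pp_apply, p10b_pd_inc, map_zero]
  rfl

theorem p10b_pp_inc_mul (a : MvPolynomial (Fin N) B) (f : MvPolynomial (Fin (N + r)) B) :
    p10b_pp N r B (p10b_inc N r B a * f) = a • p10b_pp N r B f := by
  rw [p10b_pp_mul, p10b_pp_inc, smul_zero, add_zero, p10b_zz_inc]

theorem p10b_zz_em (v : Fin r → MvPolynomial (Fin N) B) : p10b_zz N r B (p10b_em N r B v) = 0 := by
  rw [p10b_em_apply, map_sum]
  refine Finset.sum_eq_zero fun j _ => ?_
  rw [map_mul, p10b_zz_ee, mul_zero]

theorem p10b_pp_em (v : Fin r → MvPolynomial (Fin N) B) : p10b_pp N r B (p10b_em N r B v) = v := by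
  rw [p10b_em_apply, map_sum]
  funext l
  rw [Finset.sum_apply]
  have h1 : ∀ j, p10b_pp N r B (p10b_inc N r B (v j) * p10b_ee N B j) l = if l = j then v j else 0 := by
    intro j
    rw [p10b_pp_inc_mul, Pi.smul_apply, p10b_pp_apply, p10b_pd_ee, smul_eq_mul]
    split_ifs with h
    · rw [map_one, mul_one]
    · rw [map_zero, mul_zero]
  simp only [h1]
  rw [Finset.sum_ite_eq, if_pos (Finset.mem_univ l)]

theorem p10b_zz_ee_ee (i j : Fin r) : p10b_zz N r B (p10b_ee N B i * p10b_ee N B j) = 0 := by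
  rw [map_mul, p10b_zz_ee, zero_mul]

theorem p10b_pp_ee_ee (i j : Fin r) : p10b_pp N r B (p10b_ee N B i * p10b_ee N B j) = 0 := by
  rw [p10b_pp_mul, p10b_zz_ee, p10b_zz_ee, zero_smul, zero_smul, add_zero]

theorem p10b_em_smul (a : MvPolynomial (Fin N) B) (v : Fin r → MvPolynomial (Fin N) B) :
    p10b_em N r B (a • v) = p10b_inc N r B a * p10b_em N r B v := by
  rw [p10b_em_apply, p10b_em_apply, Finset.mul_sum]
  refine Finset.sum_congr rfl fun j _ => ?_
  rw [Pi.smul_apply, smul_eq_mul, map_mul, mul_assoc]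

section map

variable {B' : Type*} [CommRing B'] (ψ : B →+* B')

theorem p10b_map_inc (a : MvPolynomial (Fin N) B) :
    MvPolynomial.map ψ (p10b_inc N r B a) = p10b_inc N r B' (MvPolynomial.map ψ a) := map_rename ψ _ a

theorem p10b_map_ee (j : Fin r) : MvPolynomial.map ψ (p10b_ee N B j) = p10b_ee N B' j := map_X ψ _

theorem p10b_map_em (v : Fin r → MvPolynomial (Fin N) B) :
    MvPolynomial.map ψ (p10b_em N r B v) = p10b_em N r B' (fun j => MvPolynomial.map ψ (v j)) := by
  rw [p10b_em_apply, p10b_em_apply, map_sum]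
  refine Finset.sum_congr rfl fun j _ => ?_
  rw [map_mul, p10b_map_inc, p10b_map_ee]

end map

section deg

variable {w : Fin N → ℤ} {e : Fin r → ℤ} {c : ℤ}

/-- the weights of the extended ring -/
def p10b_wx (w : Fin N → ℤ) (e : Fin r → ℤ) (c : ℤ) : Fin (N + r) → ℤ :=
  Fin.append w (fun j => e j + c)

theorem p10b_inc_hom {n : ℤ} {f : MvPolynomial (Fin N) B} (hf : (polyGr B w).Hom n f) :
    (polyGr B (p10b_wx w e c)).Hom n (p10b_inc N r B f) := by
  refine p10b_hom_alg (w := w) (p10b_inc N r B) (fun i => ?_) hf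
  rw [p10b_inc_X]
  have := polyGr_X (A := B) (p10b_wx w e c) (Fin.castAdd r i)
  unfold p10b_wx at this
  rw [Fin.append_left] at this
  exact this

theorem p10b_ee_hom (j : Fin r) : (polyGr B (p10b_wx w e c)).Hom (e j + c) (p10b_ee N B j) := by
  have := polyGr_X (A := B) (p10b_wx w e c) (Fin.natAdd N j)
  unfold p10b_wx at this
  rw [Fin.append_right] at this
  exact this

theorem p10b_zz_hom {n : ℤ} {f : MvPolynomial (Fin (N + r)) B}
    (hf : (polyGr B (p10b_wx w e c)).Hom n f) : (polyGr B w).Hom n (p10b_zz N r B f) := by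
  refine p10b_hom_alg (w := p10b_wx w e c) (p10b_zz N r B) (fun i => ?_) hf
  refine Fin.addCases (fun i => ?_) (fun i => ?_) i
  · rw [p10b_zz_X]
    unfold p10b_wx
    rw [Fin.append_left]
    exact polyGr_X w i
  · have := p10b_zz_ee (N := N) (B := B) i
    unfold p10b_ee at this
    rw [this]
    exact Gr.Hom.zero _ _

theorem p10b_em_hom {n : ℤ} {v : Fin r → MvPolynomial (Fin N) B} (hv : (freeGr B w e).Hom n v) :
    (polyGr B (p10b_wx w e c)).Hom (n + c) (p10b_em N r B v) := by
  rw [p10b_em_apply]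
  refine Gr.Hom.sum fun j _ => ?_
  have h1 : (polyGr B w).Hom (n - e j) (v j) := congrFun hv j
  have h2 := polyGr_mul (p10b_inc_hom (e := e) (c := c) h1) (p10b_ee_hom (w := w) (e := e) (c := c) j)
  convert h2 using 1
  ring

theorem p10b_pp_hom {n : ℤ} {f : MvPolynomial (Fin (N + r)) B}
    (hf : (polyGr B (p10b_wx w e c)).Hom (n + c) f) : (freeGr B w e).Hom n (p10b_pp N r B f) := by
  have h1 : ∀ j, (polyGr B w).Hom (n - e j) (p10b_pp N r B f j) := by
    intro j
    rw [p10b_pp_apply]
    refine p10b_zz_hom (e := e) (c := c) (polyGr_hom_iff.2 ?_)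
    refine (polyGr_hom_iff.1 hf).pderiv ?_
    unfold p10b_wx
    rw [Fin.append_right]
    ring
  funext j
  exact h1 j

end deg

end ext

end Pool.Agent.Lib.MP_0b721b_ag
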