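import Pool.Agent.Lib.MP_0b721b_ag.P10a
import Pool.Agent.Lib.MP_0b721b_ag.P10b0

/-!
Part P10b: coherent sheaves. `F = P ^ r / W` is the part of degree one in the variables `e j` of the
ring `A[x, e] / (I, W(e), e_i e_j)`, with large weights for the `e j`.
-/

namespace Pool.Agent.Lib.MP_0b721b_ag

open MvPolynomial

universe u

section ideal

variable {N r : ℕ} {A : Type*} [CommRing A]

/-- the generators of the ideal of the idealization -/
def p10b_genX (I : Ideal (MvPolynomial (Fin N) A))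
    (W : Submodule (MvPolynomial (Fin N) A) (Fin r → MvPolynomial (Fin N) A)) :
    Set (MvPolynomial (Fin (N + r)) A) :=
  {f | (∃ a ∈ I, f = p10b_inc N r A a) ∨ (∃ v ∈ W, f = p10b_em N r A v) ∨
    ∃ i j, f = p10b_ee N A i * p10b_ee N A j}

/-- the ideal of the idealization -/
noncomputable def p10b_idX (I : Ideal (MvPolynomial (Fin N) A))
    (W : Submodule (MvPolynomial (Fin N) A) (Fin r → MvPolynomial (Fin N) A)) :
    Ideal (MvPolynomial (Fin (N + r)) A) := Ideal.span (p10b_genX I W)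

variable {I : Ideal (MvPolynomial (Fin N) A)}
  {W : Submodule (MvPolynomial (Fin N) A) (Fin r → MvPolynomial (Fin N) A)}

theorem p10b_idX_sub {w : Fin N → ℤ} {e : Fin r → ℤ} (c : ℤ) (hI : (polyGr A w).Sub I)
    (hW : (freeGr A w e).Sub W) : (polyGr A (p10b_wx w e c)).Sub (p10b_idX I W) := by
  intro n m hm
  induction hm using Submodule.span_induction generalizing n with
  | mem x hx =>
    rcases hx with ⟨a, ha, rfl⟩ | ⟨v, hv, rfl⟩ | ⟨i, j, rfl⟩
    · have h1 := p10b_pr_comm (polyGr A w) (polyGr A (p10b_wx w e c)) (p10b_inc N r A).toLinearMap.toAddMonoidHom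
        0 (fun n m hm => by
          rw [add_zero]
          exact p10b_inc_hom hm) n a
      rw [add_zero] at h1
      have h2 : (polyGr A (p10b_wx w e c)).pr n (p10b_inc N r A a) = p10b_inc N r A ((polyGr A w).pr n a) := h1
      rw [h2]
      exact Submodule.subset_span (Or.inl ⟨_, hI n a ha, rfl⟩)
    · have h1 := p10b_pr_comm (freeGr A w e) (polyGr A (p10b_wx w e c)) (p10b_em N r A)
        c (fun n m hm => p10b_em_hom hm) (n - c) v
      rw [sub_add_cancel] at h1
      rw [h1]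
      exact Submodule.subset_span (Or.inr (Or.inl ⟨_, hW _ v hv, rfl⟩))
    · have h1 := polyGr_mul (p10b_ee_hom (B := A) (w := w) (e := e) (c := c) i)
        (p10b_ee_hom (B := A) (w := w) (e := e) (c := c) j)
      by_cases h : n = e i + c + (e j + c)
      · subst h
        unfold Gr.Hom at h1
        rw [h1]
        exact Submodule.subset_span (Or.inr (Or.inr ⟨i, j, rfl⟩))
      · unfold Gr.Hom at h1
        rw [← h1, Gr.pr_ne _ _ _ h]
        exact Submodule.zero_mem _
  | zero =>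
    rw [map_zero]
    exact Submodule.zero_mem _
  | add x y _ _ hx hy =>
    rw [map_add]
    exact Submodule.add_mem _ (hx n) (hy n)
  | smul a x _ hx =>
    rw [smul_eq_mul, polyGr_pr_mul]
    exact finsum_induction (fun y => y ∈ p10b_idX I W) (Submodule.zero_mem _)
      (fun _ _ h h' => Submodule.add_mem _ h h')
      (fun j => Ideal.mul_mem_left _ _ (hx (n - j)))

variable {k : Type*} [CommRing k] (ψ : A →+* k)

/-- the base change of the ideal -/
theorem p10b_inc_mem {a : MvPolynomial (Fin N) k} (ha : a ∈ I.map (MvPolynomial.map ψ)) :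
    p10b_inc N r k a ∈ (p10b_idX I W).map (MvPolynomial.map ψ) := by
  have h1 : I.map (MvPolynomial.map ψ) ≤
      ((p10b_idX I W).map (MvPolynomial.map ψ)).comap (p10b_inc N r k) := by
    rw [Ideal.map_le_iff_le_comap]
    intro x hx
    rw [Ideal.mem_comap, Ideal.mem_comap, ← p10b_map_inc]
    exact Ideal.mem_map_of_mem _ (Ideal.subset_span (Or.inl ⟨x, hx, rfl⟩))
  exact h1 ha

theorem p10b_ee_ee_mem (i j : Fin r) : p10b_ee N k i * p10b_ee N k j ∈ (p10b_idX I W).map (MvPolynomial.map ψ) := by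
  rw [← p10b_map_ee ψ, ← p10b_map_ee ψ, ← map_mul]
  exact Ideal.mem_map_of_mem _ (Ideal.subset_span (Or.inr (Or.inr ⟨i, j, rfl⟩)))

theorem p10b_em_mem {v : Fin r → MvPolynomial (Fin N) k} (hv : v ∈ bcS ψ W) :
    p10b_em N r k v ∈ (p10b_idX I W).map (MvPolynomial.map ψ) := by
  unfold bcS at hv
  induction hv using Submodule.span_induction with
  | mem x hx =>
    obtain ⟨v, hv, rfl⟩ := hx
    rw [← p10b_map_em]
    exact Ideal.mem_map_of_mem _ (Ideal.subset_span (Or.inr (Or.inl ⟨v, hv, rfl⟩)))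
  | zero =>
    rw [map_zero]
    exact Submodule.zero_mem _
  | add x y _ _ hx hy =>
    rw [map_add]
    exact Submodule.add_mem _ hx hy
  | smul a x _ hx =>
    rw [p10b_em_smul]
    exact Ideal.mul_mem_left _ _ hx

/-- the ideal kills the base change of the module -/
theorem p10b_bcS_kill (hIW : ∀ a ∈ I, ∀ v, a • v ∈ W) {a : MvPolynomial (Fin N) k}
    (ha : a ∈ I.map (MvPolynomial.map ψ)) (v : Fin r → MvPolynomial (Fin N) k) :
    a • v ∈ bcS ψ W := by
  classical
  revert v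
  refine Submodule.span_induction (p := fun a _ => ∀ v, a • v ∈ bcS ψ W) ?_ ?_ ?_ ?_ ha
  · rintro _ ⟨a, ha, rfl⟩ v
    have h1 : (MvPolynomial.map ψ a) • v = ∑ j, v j •
        (fun l => MvPolynomial.map ψ ((a • (Pi.single j 1 : Fin r → MvPolynomial (Fin N) A)) l)) := by
      funext l
      rw [Finset.sum_apply]
      simp only [Pi.smul_apply, smul_eq_mul, map_mul]
      rw [Finset.sum_eq_single l]
      · rw [Pi.single_eq_same, map_one, mul_one, mul_comm]
      · intro j _ hj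
        rw [Pi.single_eq_of_ne (Ne.symm hj), map_zero, mul_zero, mul_zero]
      · intro h
        exact absurd (Finset.mem_univ l) h
    rw [h1]
    exact Submodule.sum_mem _ fun j _ => Submodule.smul_mem _ _
      (Submodule.subset_span ⟨_, hIW a ha _, rfl⟩)
  · intro v
    rw [zero_smul]
    exact Submodule.zero_mem _
  · intro a b _ _ ha hb v
    rw [add_smul]
    exact Submodule.add_mem _ (ha v) (hb v)
  · intro a b _ hb v
    rw [smul_eq_mul, mul_smul]
    exact Submodule.smul_mem _ _ (hb v)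

/-- the part of degree one of the elements of the ideal -/
theorem p10b_pp_mem (hIW : ∀ a ∈ I, ∀ v, a • v ∈ W) {f : MvPolynomial (Fin (N + r)) k}
    (hf : f ∈ (p10b_idX I W).map (MvPolynomial.map ψ)) :
    p10b_zz N r k f ∈ I.map (MvPolynomial.map ψ) ∧ p10b_pp N r k f ∈ bcS ψ W := by
  unfold p10b_idX at hf
  rw [Ideal.map_span] at hf
  induction hf using Submodule.span_induction with
  | mem x hx =>
    obtain ⟨y, hy, rfl⟩ := hx
    rcases hy with ⟨a, ha, rfl⟩ | ⟨v, hv, rfl⟩ | ⟨i, j, rfl⟩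
    · rw [p10b_map_inc, p10b_zz_inc, p10b_pp_inc]
      exact ⟨Ideal.mem_map_of_mem _ ha, Submodule.zero_mem _⟩
    · rw [p10b_map_em, p10b_zz_em, p10b_pp_em]
      exact ⟨Submodule.zero_mem _, Submodule.subset_span ⟨v, hv, rfl⟩⟩
    · rw [map_mul, p10b_map_ee, p10b_map_ee, p10b_zz_ee_ee, p10b_pp_ee_ee]
      exact ⟨Submodule.zero_mem _, Submodule.zero_mem _⟩
  | zero =>
    rw [map_zero, map_zero]
    exact ⟨Submodule.zero_mem _, Submodule.zero_mem _⟩
  | add x y _ _ hx hy =>
    rw [map_add, map_add]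
    exact ⟨Submodule.add_mem _ hx.1 hy.1, Submodule.add_mem _ hx.2 hy.2⟩
  | smul a x _ hx =>
    rw [smul_eq_mul, map_mul, p10b_pp_mul]
    exact ⟨Ideal.mul_mem_left _ _ hx.1, Submodule.add_mem _ (Submodule.smul_mem _ _ hx.2)
      (p10b_bcS_kill ψ hIW hx.1 _)⟩

end ideal

section lb

variable {N r : ℕ} {k : Type*} [CommRing k] {I : Ideal (MvPolynomial (Fin N) k)}
  {J : Ideal (MvPolynomial (Fin (N + r)) k)} {w : Fin N → ℤ} {e : Fin r → ℤ} {c : ℤ}
  {α : Type*} {D : Dat (MvPolynomial (Fin N) k) α}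

/-- the data over the extended ring -/
noncomputable def Dat.inX (D : Dat (MvPolynomial (Fin N) k) α) (r : ℕ) :
    Dat (MvPolynomial (Fin (N + r)) k) α :=
  D.map (p10b_inc N r k : MvPolynomial (Fin N) k →+* MvPolynomial (Fin (N + r)) k)

theorem Dat.Lb.inX (h : D.Lb w I) (hJ : ∀ a ∈ I, p10b_inc N r k a ∈ J)
    (hee : ∀ i j, p10b_ee N k i * p10b_ee N k j ∈ J) : (D.inX r).Lb (p10b_wx w e c) J where
  pos := h.pos
  hf a := p10b_inc_hom (h.hf a)
  hv a b := p10b_inc_hom (h.hv a b)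
  self a := by
    obtain ⟨e, he⟩ := h.self a
    refine ⟨e, ?_⟩
    have := hJ _ he
    simp only [map_mul, _root_.map_sub, map_pow] at this
    exact this
  cocy a b c := by
    obtain ⟨e, he⟩ := h.cocy a b c
    refine ⟨e, ?_⟩
    have := hJ _ he
    simp only [map_mul, _root_.map_sub, map_pow] at this
    exact this
  cov i := by
    refine Fin.addCases (fun i => ?_) (fun i => ?_) i
    · obtain ⟨e, he⟩ := h.cov i
      refine ⟨e, ?_⟩
      obtain ⟨x, hx, y, hy, hxy⟩ := Submodule.mem_sup.1 he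
      rw [← p10b_inc_X, ← map_pow, ← hxy, map_add]
      refine Submodule.add_mem_sup (hJ x hx) ?_
      have h1 := Ideal.mem_map_of_mem (p10b_inc N r k) hy
      rw [Ideal.map_span, ← Set.range_comp] at h1
      exact h1
    · refine ⟨2, Ideal.mem_sup_left ?_⟩
      rw [pow_two]
      exact hee i i

theorem Dat.GG.inX {u : ℤ} (h : D.GG w I u) (hJ : ∀ a ∈ I, p10b_inc N r k a ∈ J) :
    (D.inX r).GG (p10b_wx w e c) J u := by
  obtain ⟨T, s, ε, h1, h2, h3⟩ := h
  refine ⟨T, s, fun j a => p10b_inc N r k (ε j a), fun j a => p10b_inc_hom (h1 j a),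
    fun j a b => ?_, fun a => ?_⟩
  · obtain ⟨e, he⟩ := h2 j a b
    refine ⟨e, ?_⟩
    have := hJ _ he
    simp only [map_mul, _root_.map_sub, map_pow] at this
    exact this
  · obtain ⟨e, he⟩ := h3 a
    refine ⟨e, ?_⟩
    obtain ⟨x, hx, y, hy, hxy⟩ := Submodule.mem_sup.1 he
    have h4 : (D.inX r).f a ^ e = p10b_inc N r k x + p10b_inc N r k y := by
      rw [← map_add, hxy, map_pow]
      rfl
    rw [h4]
    refine Submodule.add_mem_sup ?_ (hJ y hy)
    have h1 := Ideal.mem_map_of_mem (p10b_inc N r k) hx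
    rw [Ideal.map_span, ← Set.range_comp] at h1
    exact h1

theorem Dat.Amp.inX {n : ℤ} (h : D.Amp w I n) (hJ : ∀ a ∈ I, p10b_inc N r k a ∈ J) :
    (D.inX r).Amp (p10b_wx w e c) J n := by
  obtain ⟨n₀, u, h1, h2, h3⟩ := h
  refine ⟨n₀, u, h1, h2, ?_⟩
  have h4 : (D.inX r).pw n₀ = (D.pw n₀).inX r := Dat.map_pw _ _ _
  rw [h4]
  exact h3.inX hJ

end lb

/-- the uniform vanishing for coherent sheaves over a noetherian ring -/
theorem core_module {A : Type u} [CommRing A] [IsNoetherianRing A] {N : ℕ} {w : Fin N → ℤ}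
    (hw : ∀ i, 0 < w i) (I : Ideal (MvPolynomial (Fin N) A)) (hI : (polyGr A w).Sub I) {r : ℕ}
    (e : Fin r → ℤ) (W : Submodule (MvPolynomial (Fin N) A) (Fin r → MvPolynomial (Fin N) A))
    (hW : (freeGr A w e).Sub W) (hIW : ∀ a ∈ I, ∀ v, a • v ∈ W) :
    ∃ m₀ : ℤ, ∀ (k : Type u) [Field k] (ψ : A →+* k) (α : Type) [LinearOrder α] [Fintype α]
      (D : Dat (MvPolynomial (Fin N) k) α), D.Lb w (I.map (MvPolynomial.map ψ)) →
      ∀ n, D.Amp w (I.map (MvPolynomial.map ψ)) (n - m₀) → ∀ p, 1 ≤ p →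
      HV D ((freeGr k w e).quot (bcS ψ W) (bcS_sub ψ hW)) n p := by
  classical
  obtain ⟨c, hc⟩ : ∃ c : ℤ, ∀ j, 0 < e j + c := by
    refine ⟨∑ j, |e j| + 1, fun j => ?_⟩
    have h1 : |e j| ≤ ∑ j, |e j| := Finset.single_le_sum (f := fun j => |e j|)
      (fun _ _ => abs_nonneg _) (Finset.mem_univ j)
    have h2 := neg_abs_le (e j)
    omega
  have hwx : ∀ i, 0 < p10b_wx w e c i := by
    intro i
    refine Fin.addCases (fun i => ?_) (fun i => ?_) i
    · unfold p10b_wx
      rw [Fin.append_left]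
      exact hw i
    · unfold p10b_wx
      rw [Fin.append_right]
      exact hc i
  have hX := p10b_idX_sub c hI hW
  obtain ⟨m₁, hm₁⟩ := core_ideal hwx (p10b_idX I W) hX
  refine ⟨m₁ - c, fun k _ ψ α _ _ D hD n hA p hp => ?_⟩
  have hXk : (polyGr k (p10b_wx w e c)).Sub ((p10b_idX I W).map (MvPolynomial.map ψ)) := map_sub hX ψ
  have hJ : ∀ a ∈ I.map (MvPolynomial.map ψ), p10b_inc N r k a ∈
      (p10b_idX I W).map (MvPolynomial.map ψ) := fun a ha => p10b_inc_mem ψ ha
  have hH := hm₁ k ψ α (D.inX r) (hD.inX hJ (p10b_ee_ee_mem ψ)) (n + c) (by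
    have := hA.inX (e := e) (c := c) hJ
    rw [show n - (m₁ - c) = n + c - m₁ by ring] at this
    exact this) p hp hXk
  -- the maps
  let φ : ((Fin r → MvPolynomial (Fin N) k) ⧸ bcS ψ W) →+
      (MvPolynomial (Fin (N + r)) k ⧸ (p10b_idX I W).map (MvPolynomial.map ψ)) :=
    QuotientAddGroup.map (Submodule.toAddSubgroup (bcS ψ W))
      (Submodule.toAddSubgroup ((p10b_idX I W).map (MvPolynomial.map ψ))) (p10b_em N r k)
      (fun v hv => p10b_em_mem ψ hv)
  let π : (MvPolynomial (Fin (N + r)) k ⧸ (p10b_idX I W).map (MvPolynomial.map ψ)) →+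
      ((Fin r → MvPolynomial (Fin N) k) ⧸ bcS ψ W) :=
    QuotientAddGroup.map (Submodule.toAddSubgroup ((p10b_idX I W).map (MvPolynomial.map ψ)))
      (Submodule.toAddSubgroup (bcS ψ W)) (p10b_pp N r k) (fun f hf => (p10b_pp_mem ψ hIW hf).2)
  have hφ : ∀ v, φ (Submodule.Quotient.mk v) = Submodule.Quotient.mk (p10b_em N r k v) := fun _ => rfl
  have hπ : ∀ f, π (Submodule.Quotient.mk f) = Submodule.Quotient.mk (p10b_pp N r k f) := fun _ => rfl
  have hφs : ∀ (a : MvPolynomial (Fin N) k) m, φ (a • m) = p10b_inc N r k a • φ m := by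
    intro a m
    obtain ⟨v, rfl⟩ := Submodule.Quotient.mk_surjective _ m
    rw [← Submodule.Quotient.mk_smul, hφ, hφ, ← Submodule.Quotient.mk_smul, p10b_em_smul, smul_eq_mul]
  have hπs : ∀ (a : MvPolynomial (Fin N) k) m, π (p10b_inc N r k a • m) = a • π m := by
    intro a m
    obtain ⟨f, rfl⟩ := Submodule.Quotient.mk_surjective _ m
    rw [← Submodule.Quotient.mk_smul, hπ, hπ, ← Submodule.Quotient.mk_smul, smul_eq_mul,
      p10b_pp_inc_mul]
  have hc1 : Cmp D (D.inX r) φ := ⟨fun a m => hφs _ _, fun a b m => hφs _ _, rfl, rfl⟩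
  have hc2 : Cmp (D.inX r) D π := ⟨fun a m => hπs _ _, fun a b m => hπs _ _, rfl, rfl⟩
  refine HV.retract hc1 hc2 (fun m => ?_) (δ := c) (fun n m hm => ?_) (fun n m hm => ?_) hH
  · obtain ⟨v, rfl⟩ := Submodule.Quotient.mk_surjective _ m
    rw [hφ, hπ, p10b_pp_em]
  · obtain ⟨v, rfl⟩ := Submodule.Quotient.mk_surjective _ m
    unfold Gr.Hom at hm
    rw [Gr.quot_pr] at hm
    rw [← hm, hφ]
    exact Gr.quot_hom _ _ _ (p10b_em_hom ((freeGr k w e).hom_pr n v))
  · obtain ⟨f, rfl⟩ := Submodule.Quotient.mk_surjective _ m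
    unfold Gr.Hom at hm
    have hm' : (Submodule.Quotient.mk ((polyGr k (p10b_wx w e c)).pr (n + c) f) :
        MvPolynomial (Fin (N + r)) k ⧸ (p10b_idX I W).map (MvPolynomial.map ψ)) =
        Submodule.Quotient.mk f := hm
    rw [← hm', hπ]
    exact Gr.quot_hom _ _ _ (p10b_pp_hom ((polyGr k (p10b_wx w e c)).hom_pr (n + c) f))

end Pool.Agent.Lib.MP_0b721b_ag
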