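import Pool.Agent.Lib.MP_0b721b_ag.NefDef
import Pool.Agent.Lib.MP_0b721b_ag.P10b
import Pool.Agent.Lib.MP_0b721b_ag.Kl.Geom

/-!
Part VII (Kleiman): nef line bundles over a field.
-/

namespace Pool.Agent.Lib.MP_0b721b_ag

open MvPolynomial

universe u

theorem kleiman {k : Type u} [Field k] {N : ℕ} {α : Type} [LinearOrder α] [Fintype α]
    {I : Ideal (MvPolynomial (Fin N) k)} (hI : (polyGr k (fun _ => 1)).Sub I)
    {M : Dat (MvPolynomial (Fin N) k) α} (hM : M.Lb (fun _ => 1) I)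
    (hnef : Nef M (fun _ => 1) I) : ∀ a, 1 ≤ a → (M.pw a).Amp (fun _ => 1) I 1 :=
  Kl.kleiman_geo hI hM hnef

end Pool.Agent.Lib.MP_0b721b_ag
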