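import Mathlib

/-!
The localisation `Loc s M` of a module at the powers of one element `s`, as fractions `m / s ^ k`
with explicit exponents, and the additive maps which it carries (also semilinear ones, between
modules over different rings).
-/

namespace Pool.Agent.Lib.MP_0b721b_ag

section basic

variable {S : Type*} [CommRing S] (s : S) (M : Type*) [AddCommGroup M] [Module S M]

/-- `(m, k) ~ (m', k')` when `s ^ (j + k') m = s ^ (j + k) m'` for some `j` -/
def locSetoid : Setoid (M × ℕ) where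
  r x y := ∃ j : ℕ, s ^ (j + y.2) • x.1 = s ^ (j + x.2) • y.1
  iseqv := by
    refine ⟨fun x => ⟨0, rfl⟩, ?_, ?_⟩
    · rintro x y ⟨j, h⟩
      exact ⟨j, h.symm⟩
    · rintro ⟨x, a⟩ ⟨y, b⟩ ⟨z, c⟩ ⟨i, h⟩ ⟨j, h'⟩
      refine ⟨i + j + b, ?_⟩
      dsimp only at h h' ⊢
      have e1 : s ^ (i + j + b + c) • x = s ^ (j + c) • (s ^ (i + b) • x) := by
        rw [← mul_smul, ← pow_add]
        congr 2
        omega
      have e2 : s ^ (i + j + b + a) • z = s ^ (i + a) • (s ^ (j + b) • z) := by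
        rw [← mul_smul, ← pow_add]
        congr 2
        omega
      rw [e1, e2, h, ← h', smul_smul, smul_smul, mul_comm]

/-- the localisation of `M` at the powers of `s`: fractions `m / s ^ k` -/
def Loc : Type _ := Quotient (locSetoid s M)

variable {M}

/-- the fraction `m / s ^ k` -/
def fr (m : M) (k : ℕ) : Loc s M := Quotient.mk (locSetoid s M) (m, k)

variable {s}

theorem fr_surj (z : Loc s M) : ∃ m k, z = fr s m k := by
  obtain ⟨⟨m, k⟩, h⟩ := Quotient.exists_rep z
  exact ⟨m, k, h.symm⟩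

theorem fr_eq {m m' : M} {k k' : ℕ} :
    fr s m k = fr s m' k' ↔ ∃ j : ℕ, s ^ (j + k') • m = s ^ (j + k) • m' :=
  Quotient.eq (r := locSetoid s M)

theorem fr_eq_of {m m' : M} {k k' : ℕ} (j : ℕ)
    (h : s ^ (j + k') • m = s ^ (j + k) • m') : fr s m k = fr s m' k' :=
  fr_eq.2 ⟨j, h⟩

variable (s) in
theorem fr_raise (m : M) (k j : ℕ) : fr s (s ^ j • m) (k + j) = fr s m k := by
  refine fr_eq_of 0 ?_
  rw [← mul_smul, ← pow_add]
  congr 2
  omega

/-- two fractions can be written with one exponent -/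
theorem fr_surj₂ (z z' : Loc s M) : ∃ m m' k, z = fr s m k ∧ z' = fr s m' k := by
  obtain ⟨m, k, rfl⟩ := fr_surj z
  obtain ⟨m', k', rfl⟩ := fr_surj z'
  refine ⟨s ^ k' • m, s ^ k • m', k + k', (fr_raise _ _ _ _).symm, ?_⟩
  rw [add_comm k k', fr_raise]

/-- lifting a function of `m` and `k` to fractions -/
def locLift {X : Sort*} (F : M → ℕ → X)
    (h : ∀ m m' k k' j, s ^ (j + k') • m = s ^ (j + k) • m' → F m k = F m' k') (z : Loc s M) : X :=
  Quotient.lift (fun x : M × ℕ => F x.1 x.2) (by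
    rintro ⟨m, k⟩ ⟨m', k'⟩ ⟨j, hj⟩
    exact h m m' k k' j hj) z

theorem locLift_fr {X : Sort*} (F : M → ℕ → X)
    (h : ∀ m m' k k' j, s ^ (j + k') • m = s ^ (j + k) • m' → F m k = F m' k') (m : M) (k : ℕ) :
    locLift F h (fr s m k) = F m k := rfl

instance : Zero (Loc s M) := ⟨fr s 0 0⟩

instance : Neg (Loc s M) := ⟨locLift (fun m k => fr s (-m) k) (by
  intro m m' k k' j h
  refine fr_eq_of j ?_
  rw [smul_neg, smul_neg, h])⟩

theorem pow_smul_pow (a b : ℕ) (m : M) : s ^ a • s ^ b • m = s ^ (a + b) • m := by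
  rw [smul_smul, ← pow_add]

/-- rewriting inside a product of powers -/
theorem pow_smul_eq {a b : M} {x y : ℕ} (h : s ^ x • a = s ^ y • b) (k x' y' : ℕ)
    (hx : x' = k + x) (hy : y' = k + y) : s ^ x' • a = s ^ y' • b := by
  rw [hx, hy, pow_add, pow_add, mul_smul, mul_smul, h]

instance : Add (Loc s M) := ⟨fun z => locLift (s := s) (M := M)
    (fun m k => locLift (s := s) (M := M) (fun m' k' => fr s (s ^ k • m' + s ^ k' • m) (k + k')) (by
      intro a b l l' j h
      refine fr_eq_of j ?_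
      rw [smul_add, smul_add, pow_smul_pow, pow_smul_pow, pow_smul_pow, pow_smul_pow]
      congr 1
      · exact pow_smul_eq h (k + k) _ _ (by omega) (by omega)
      · congr 2
        omega) z) (by
      intro a b l l' j h
      obtain ⟨m', k', rfl⟩ := fr_surj z
      rw [locLift_fr, locLift_fr]
      refine fr_eq_of j ?_
      rw [smul_add, smul_add, pow_smul_pow, pow_smul_pow, pow_smul_pow, pow_smul_pow]
      congr 1
      · congr 2
        omega
      · exact pow_smul_eq h (k' + k') _ _ (by omega) (by omega))⟩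

theorem fr_add_fr (m m' : M) (k k' : ℕ) :
    fr s m' k' + fr s m k = fr s (s ^ k • m' + s ^ k' • m) (k + k') := rfl

theorem fr_add (m m' : M) (k : ℕ) : fr s m k + fr s m' k = fr s (m + m') k := by
  rw [fr_add_fr]
  refine fr_eq_of 0 ?_
  rw [smul_add, smul_add, pow_smul_pow, pow_smul_pow]
  congr 1
  · congr 2
    omega
  · congr 2
    omega

theorem fr_neg (m : M) (k : ℕ) : -fr s m k = fr s (-m) k := rfl

theorem fr_zero (k : ℕ) : fr s (0 : M) k = 0 := by
  refine fr_eq_of 0 ?_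
  rw [smul_zero, smul_zero]

instance : AddCommGroup (Loc s M) where
  add := (· + ·)
  zero := 0
  neg := Neg.neg
  nsmul := nsmulRec
  zsmul := zsmulRec
  add_assoc x y z := by
    obtain ⟨a, b, k, rfl, rfl⟩ := fr_surj₂ x y
    obtain ⟨c, l, rfl⟩ := fr_surj z
    rw [← fr_raise s a k l, ← fr_raise s b k l, ← fr_raise s c l k, add_comm l k, fr_add, fr_add,
      fr_add, fr_add, add_assoc]
  zero_add x := by
    obtain ⟨a, k, rfl⟩ := fr_surj x
    rw [← fr_zero k, fr_add, zero_add]
  add_zero x := by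
    obtain ⟨a, k, rfl⟩ := fr_surj x
    rw [← fr_zero k, fr_add, add_zero]
  neg_add_cancel x := by
    obtain ⟨a, k, rfl⟩ := fr_surj x
    rw [fr_neg, fr_add, neg_add_cancel, fr_zero]
  add_comm x y := by
    obtain ⟨a, b, k, rfl, rfl⟩ := fr_surj₂ x y
    rw [fr_add, fr_add, add_comm]

theorem fr_sub (m m' : M) (k : ℕ) : fr s m k - fr s m' k = fr s (m - m') k := by
  rw [sub_eq_add_neg, fr_neg, fr_add, ← sub_eq_add_neg]

theorem fr_eq_zero {m : M} {k : ℕ} : fr s m k = 0 ↔ ∃ j : ℕ, s ^ j • m = 0 := by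
  rw [← fr_zero 0, fr_eq]
  constructor
  · rintro ⟨j, h⟩
    refine ⟨j, ?_⟩
    simpa using h
  · rintro ⟨j, h⟩
    exact ⟨j, by simpa using h⟩

/-- a finite family of fractions can be written with one exponent, as large as we like -/
theorem fr_surj_fin {ι : Type*} [Finite ι] (z : ι → Loc s M) (K : ℕ) :
    ∃ k : ℕ, K ≤ k ∧ ∀ i, ∃ m, z i = fr s m k := by
  classical
  cases nonempty_fintype ι
  choose m k h using fun i => fr_surj (z i)
  refine ⟨K + ∑ i, k i, Nat.le_add_right _ _, fun i => ?_⟩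
  have hi : k i ≤ ∑ i, k i := Finset.single_le_sum (f := k) (fun _ _ => Nat.zero_le _)
    (Finset.mem_univ i)
  refine ⟨s ^ (K + ∑ i, k i - k i) • m i, ?_⟩
  rw [h i, ← fr_raise s (m i) (k i) (K + ∑ i, k i - k i)]
  congr 1
  omega

/-- every ring acting on `M` and commuting with `s` acts on the fractions -/
instance instModuleLoc {R : Type*} [Semiring R] [Module R M] [SMulCommClass R S M] :
    Module R (Loc s M) where
  smul r := locLift (s := s) (M := M) (fun m k => fr s (r • m) k) (by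
    intro a b l l' j h
    refine fr_eq_of j ?_
    rw [← smul_comm r, ← smul_comm r, h])
  one_smul z := by
    obtain ⟨a, k, rfl⟩ := fr_surj z
    change fr s ((1 : R) • a) k = _
    rw [one_smul]
  mul_smul r r' z := by
    obtain ⟨a, k, rfl⟩ := fr_surj z
    change fr s ((r * r') • a) k = fr s (r • r' • a) k
    rw [mul_smul]
  smul_zero r := by
    change fr s (r • 0) 0 = fr s 0 0
    rw [smul_zero]
  smul_add r x y := by
    obtain ⟨a, b, k, rfl, rfl⟩ := fr_surj₂ x y
    rw [fr_add]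
    change fr s (r • (a + b)) k = fr s (r • a) k + fr s (r • b) k
    rw [fr_add, smul_add]
  add_smul r r' z := by
    obtain ⟨a, k, rfl⟩ := fr_surj z
    change fr s ((r + r') • a) k = fr s (r • a) k + fr s (r' • a) k
    rw [fr_add, add_smul]
  zero_smul z := by
    obtain ⟨a, k, rfl⟩ := fr_surj z
    change fr s ((0 : R) • a) k = _
    rw [zero_smul, fr_zero]

theorem smul_fr {R : Type*} [Semiring R] [Module R M] [SMulCommClass R S M] (r : R) (m : M)
    (k : ℕ) : r • fr s m k = fr s (r • m) k := rfl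

end basic

section semi

variable {S : Type*} [CommRing S] {s : S} {M : Type*} [AddCommGroup M] [Module S M]
  {S' : Type*} [CommRing S'] {s' : S'} {M' : Type*} [AddCommGroup M'] [Module S' M']
  {S₂ : Type*} [CommRing S₂] {s₂ : S₂} {M₂ : Type*} [AddCommGroup M₂] [Module S₂ M₂]

theorem pow_comm_of {φ : M →+ M'} {q : ℕ}
    (h : ∀ m, φ (s • m) = s' ^ q • φ m) (j : ℕ) (m : M) :
    φ (s ^ j • m) = s' ^ (q * j) • φ m := by
  induction j generalizing m with
  | zero => simp
  | succ j ih =>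
    rw [pow_succ, mul_smul, ih, h, ← mul_smul, ← pow_add]
    congr 2

/-- the map `m / s ^ k ↦ φ m / s' ^ (q k)` induced by an additive map `φ` with
`φ (s m) = s' ^ q φ m` -/
def smapq (φ : M →+ M') (q : ℕ) (h : ∀ m, φ (s • m) = s' ^ q • φ m) : Loc s M →+ Loc s' M' :=
  AddMonoidHom.mk' (locLift (s := s) (M := M) (fun m k => fr s' (φ m) (q * k)) (by
    intro a b l l' j hj
    refine fr_eq_of (q * j) ?_
    rw [← Nat.mul_add, ← Nat.mul_add, ← pow_comm_of h, ← pow_comm_of h, hj])) (by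
    intro z z'
    obtain ⟨a, b, k, rfl, rfl⟩ := fr_surj₂ z z'
    rw [fr_add, locLift_fr, locLift_fr, locLift_fr, fr_add, map_add])

theorem smapq_fr (φ : M →+ M') (q : ℕ) (h : ∀ m, φ (s • m) = s' ^ q • φ m) (m : M) (k : ℕ) :
    smapq φ q h (fr s m k) = fr s' (φ m) (q * k) := rfl

/-- the map `m / s ^ k ↦ φ m / s' ^ k` induced by an additive map `φ` with `φ (s m) = s' φ m` -/
def smap (φ : M →+ M') (h : ∀ m, φ (s • m) = s' • φ m) : Loc s M →+ Loc s' M' :=
  AddMonoidHom.mk' (locLift (s := s) (M := M) (fun m k => fr s' (φ m) k) (by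
    intro a b l l' j hj
    have h' : ∀ m, φ (s • m) = s' ^ 1 • φ m := by simpa using h
    refine fr_eq_of j ?_
    have e1 := pow_comm_of h' (j + l') a
    have e2 := pow_comm_of h' (j + l) b
    rw [one_mul] at e1 e2
    rw [← e1, ← e2, hj])) (by
    intro z z'
    obtain ⟨a, b, k, rfl, rfl⟩ := fr_surj₂ z z'
    rw [fr_add, locLift_fr, locLift_fr, locLift_fr, fr_add, map_add])

theorem smap_fr (φ : M →+ M') (h : ∀ m, φ (s • m) = s' • φ m) (m : M) (k : ℕ) :
    smap φ h (fr s m k) = fr s' (φ m) k := rfl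

/-- multiplication by the fraction `w / s ^ j` -/
def opm (s w : S) (j : ℕ) : Loc s M →+ Loc s M :=
  AddMonoidHom.mk' (locLift (s := s) (M := M) (fun m k => fr s (w • m) (k + j)) (by
    intro a b l l' i h
    refine fr_eq_of i ?_
    rw [smul_comm _ w, smul_comm _ w]
    congr 1
    exact pow_smul_eq h j _ _ (by omega) (by omega))) (by
    intro z z'
    obtain ⟨a, b, k, rfl, rfl⟩ := fr_surj₂ z z'
    rw [fr_add, locLift_fr, locLift_fr, locLift_fr, fr_add, smul_add])

theorem opm_fr (w : S) (j : ℕ) (m : M) (k : ℕ) : opm s w j (fr s m k) = fr s (w • m) (k + j) := rfl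

/-- the restriction map `m / s ^ k ↦ (r ^ k m) / (s r) ^ k` -/
def locRes (s r t : S) (ht : s * r = t) : Loc s M →+ Loc t M :=
  AddMonoidHom.mk' (locLift (s := s) (M := M) (fun m k => fr t (r ^ k • m) k) (by
    intro a b l l' j h
    refine fr_eq_of j ?_
    rw [← ht, mul_pow, mul_pow, smul_smul, smul_smul]
    have e1 : s ^ (j + l') * r ^ (j + l') * r ^ l = r ^ (j + l + l') * s ^ (j + l') := by ring
    have e2 : s ^ (j + l) * r ^ (j + l) * r ^ l' = r ^ (j + l + l') * s ^ (j + l) := by ring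
    rw [e1, e2, mul_smul, mul_smul, h])) (by
    intro z z'
    obtain ⟨a, b, k, rfl, rfl⟩ := fr_surj₂ z z'
    rw [fr_add, locLift_fr, locLift_fr, locLift_fr, fr_add, smul_add])

theorem locRes_fr (r t : S) (ht : s * r = t) (m : M) (k : ℕ) :
    locRes s r t ht (fr s m k) = fr t (r ^ k • m) k := rfl

theorem opm_opm (s w w' : S) (j j' : ℕ) (z : Loc s M) :
    opm s w j (opm s w' j' z) = opm s (w * w') (j' + j) z := by
  obtain ⟨m, k, rfl⟩ := fr_surj z
  rw [opm_fr, opm_fr, opm_fr, mul_smul, add_assoc]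

theorem opm_eq (s : S) {w w' : S} {j j' : ℕ}
    (h : ∀ m : M, ∃ i : ℕ, s ^ (i + j') • w • m = s ^ (i + j) • w' • m) (z : Loc s M) :
    opm s w j z = opm s w' j' z := by
  obtain ⟨m, k, rfl⟩ := fr_surj z
  obtain ⟨i, hi⟩ := h m
  rw [opm_fr, opm_fr]
  refine fr_eq_of i ?_
  exact pow_smul_eq hi k _ _ (by omega) (by omega)

theorem opm_one (s : S) (z : Loc s M) : opm s 1 0 z = z := by
  obtain ⟨m, k, rfl⟩ := fr_surj z
  rw [opm_fr, one_smul, add_zero]

theorem locRes_opm (s r t : S) (ht : s * r = t) (w : S) (j : ℕ) (z : Loc s M) :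
    locRes s r t ht (opm s w j z) = opm t (r ^ j * w) j (locRes s r t ht z) := by
  obtain ⟨m, k, rfl⟩ := fr_surj z
  rw [opm_fr, locRes_fr, locRes_fr, opm_fr]
  congr 1
  rw [smul_smul, smul_smul]
  congr 1
  ring

theorem locRes_locRes (s r t r' t' : S) (ht : s * r = t) (ht' : t * r' = t') (z : Loc s M) :
    locRes t r' t' ht' (locRes s r t ht z) =
      locRes s (r * r') t' (by rw [← ht', ← ht, mul_assoc]) z := by
  obtain ⟨m, k, rfl⟩ := fr_surj z
  rw [locRes_fr, locRes_fr, locRes_fr, smul_smul]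
  congr 2
  ring

theorem locRes_one (s t : S) (r : S) (hr : r = 1) (ht : s * r = t) (m : M) (k : ℕ) :
    locRes s r t ht (fr s m k) = fr t m k := by
  rw [locRes_fr, hr, one_pow, one_smul]

theorem smap_opm {φ : M →+ M'} (h : ∀ m, φ (s • m) = s' • φ m) {w : S} {w' : S'}
    (hw : ∀ m, φ (w • m) = w' • φ m) (j : ℕ) (z : Loc s M) :
    smap φ h (opm s w j z) = opm s' w' j (smap φ h z) := by
  obtain ⟨m, k, rfl⟩ := fr_surj z
  rw [opm_fr, smap_fr, smap_fr, opm_fr, hw]

theorem smap_locRes {φ : M →+ M'} {r t : S} {r' t' : S'} (ht : s * r = t) (ht' : s' * r' = t')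
    (h : ∀ m, φ (s • m) = s' • φ m) (hr : ∀ m, φ (r • m) = r' • φ m)
    (h' : ∀ m, φ (t • m) = t' • φ m) (z : Loc s M) :
    smap φ h' (locRes s r t ht z) = locRes s' r' t' ht' (smap φ h z) := by
  obtain ⟨m, k, rfl⟩ := fr_surj z
  rw [locRes_fr, smap_fr, smap_fr, locRes_fr]
  congr 1
  have hr' : ∀ m, φ (r • m) = r' ^ 1 • φ m := by simpa using hr
  rw [pow_comm_of hr', one_mul]

end semi

section exact

variable {S : Type*} [CommRing S] {s : S} {M M' M'' : Type*} [AddCommGroup M] [Module S M]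
  [AddCommGroup M'] [Module S M'] [AddCommGroup M''] [Module S M'']

theorem smap_injective {φ : M →ₗ[S] M'} (hφ : Function.Injective φ) :
    Function.Injective (smap (s := s) (s' := s) φ.toAddMonoidHom (fun m => map_smul φ s m)) := by
  rw [injective_iff_map_eq_zero]
  intro z hz
  obtain ⟨m, k, rfl⟩ := fr_surj z
  rw [smap_fr, fr_eq_zero] at hz
  obtain ⟨j, hj⟩ := hz
  rw [fr_eq_zero]
  refine ⟨j, hφ ?_⟩
  rw [map_smul, map_zero]
  exact hj

end exact

end Pool.Agent.Lib.MP_0b721b_ag
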