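import Pool.Agent.Lib.MP_0b721b_ag.P10a

/-!
Part P11u: fibrewise ampleness is uniform: if on every fibre some power of `L` is `O(1)` times a
globally generated line bundle, then bounded powers suffice.
-/

namespace Pool.Agent.Lib.MP_0b721b_ag

open MvPolynomial

universe u

/-- maps to `k` extend to finitely generated subrings of the residue field, over a nonempty open
subset of `V(𝔭)` -/
theorem ext_frac {A : Type u} [CommRing A] (x : PrimeSpectrum A)
    (s : Finset x.asIdeal.ResidueField) :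
    ∃ b : A, b ∉ x.asIdeal ∧ ∀ (k : Type u) [Field k] (ψ : A →+* k),
      (∀ a ∈ x.asIdeal, ψ a = 0) → ψ b ≠ 0 →
      ∃ φ : Subring.closure (Set.range (algebraMap A x.asIdeal.ResidueField) ∪
          (s : Set x.asIdeal.ResidueField)) →+* k,
        ∀ (a : A) (h : algebraMap A x.asIdeal.ResidueField a ∈
          Subring.closure (Set.range (algebraMap A x.asIdeal.ResidueField) ∪
          (s : Set x.asIdeal.ResidueField))), φ ⟨algebraMap A x.asIdeal.ResidueField a, h⟩ = ψ a := by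
  classical
  have hfrac : ∀ t : x.asIdeal.ResidueField, ∃ a b : A, b ∉ x.asIdeal ∧
      t * algebraMap A _ b = algebraMap A _ a := by
    intro t
    obtain ⟨a, b, hb, rfl⟩ := IsFractionRing.div_surjective (A := A ⧸ x.asIdeal) t
    obtain ⟨a, rfl⟩ := Ideal.Quotient.mk_surjective a
    obtain ⟨b, rfl⟩ := Ideal.Quotient.mk_surjective b
    have hb0 : (Ideal.Quotient.mk x.asIdeal b) ≠ 0 := nonZeroDivisors.ne_zero hb
    refine ⟨a, b, fun h => hb0 (Ideal.Quotient.eq_zero_iff_mem.2 h), ?_⟩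
    have h1 : algebraMap (A ⧸ x.asIdeal) x.asIdeal.ResidueField (Ideal.Quotient.mk x.asIdeal b) ≠ 0 :=
      fun h => hb0 ((map_eq_zero_iff _
        (IsFractionRing.injective (A ⧸ x.asIdeal) x.asIdeal.ResidueField)).1 h)
    have e : ∀ c : A, algebraMap A x.asIdeal.ResidueField c =
        algebraMap (A ⧸ x.asIdeal) x.asIdeal.ResidueField (Ideal.Quotient.mk x.asIdeal c) :=
      fun c => IsScalarTower.algebraMap_apply A (A ⧸ x.asIdeal) x.asIdeal.ResidueField c
    rw [e, e, div_mul_cancel₀ _ h1]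
  choose num den hden hnd using hfrac
  have hbp : ∏ t ∈ s, den t ∉ x.asIdeal := by
    intro h
    obtain ⟨t, _, ht⟩ := x.isPrime.prod_mem_iff.1 h
    exact hden t ht
  refine ⟨∏ t ∈ s, den t, hbp, fun k _ ψ h0 hb => ?_⟩
  obtain ⟨b, hbdef⟩ : ∃ b, b = ∏ t ∈ s, den t := ⟨_, rfl⟩
  rw [← hbdef] at hbp hb
  obtain ⟨q, hq⟩ : ∃ q, q = Ideal.Quotient.mk x.asIdeal := ⟨_, rfl⟩
  have hqb : Ideal.Quotient.mk x.asIdeal b ≠ 0 := fun h => hbp (Ideal.Quotient.eq_zero_iff_mem.1 h)
  have hinjK := IsFractionRing.injective (A ⧸ x.asIdeal) x.asIdeal.ResidueField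
  -- the two maps from the localization
  let C := Localization (Submonoid.powers (Ideal.Quotient.mk x.asIdeal b))
  have hu1 : ∀ y : Submonoid.powers (Ideal.Quotient.mk x.asIdeal b),
      IsUnit (algebraMap (A ⧸ x.asIdeal) x.asIdeal.ResidueField y) := by
    rintro ⟨_, n, rfl⟩
    rw [isUnit_iff_ne_zero]
    intro h
    exact pow_ne_zero n hqb ((map_eq_zero_iff _ hinjK).1 h)
  let ψ' : A ⧸ x.asIdeal →+* k := Ideal.Quotient.lift x.asIdeal ψ h0
  have hu2 : ∀ y : Submonoid.powers (Ideal.Quotient.mk x.asIdeal b), IsUnit (ψ' y) := by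
    rintro ⟨_, n, rfl⟩
    rw [isUnit_iff_ne_zero]
    change ψ' (Ideal.Quotient.mk x.asIdeal b ^ n) ≠ 0
    rw [map_pow]
    exact pow_ne_zero n hb
  let lam : C →+* x.asIdeal.ResidueField := IsLocalization.lift hu1
  let mu : C →+* k := IsLocalization.lift hu2
  have hlam : ∀ c : A ⧸ x.asIdeal, lam (algebraMap _ C c) = algebraMap _ _ c :=
    fun c => IsLocalization.lift_eq hu1 c
  have hmu : ∀ c : A ⧸ x.asIdeal, mu (algebraMap _ C c) = ψ' c :=
    fun c => IsLocalization.lift_eq hu2 c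
  have hle0 : Submonoid.powers (Ideal.Quotient.mk x.asIdeal b) ≤ nonZeroDivisors (A ⧸ x.asIdeal) :=
    powers_le_nonZeroDivisors_of_noZeroDivisors hqb
  have hinj : Function.Injective lam := by
    rw [IsLocalization.lift_injective_iff]
    intro y z
    constructor
    · intro h
      rw [IsLocalization.injective C hle0 h]
    · intro h
      rw [hinjK h]
  -- the closure is in the range
  have hle : Subring.closure (Set.range (algebraMap A x.asIdeal.ResidueField) ∪
      (s : Set x.asIdeal.ResidueField)) ≤ lam.range := by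
    rw [Subring.closure_le]
    rintro y (⟨a, rfl⟩ | hy)
    · exact ⟨algebraMap _ C (Ideal.Quotient.mk x.asIdeal a), hlam _⟩
    · have hy' : y ∈ s := hy
      have h1 : y * algebraMap A _ b =
          algebraMap A _ (num y * ∏ t ∈ s.erase y, den t) := by
        rw [hbdef, ← Finset.mul_prod_erase s den hy', map_mul, map_mul, ← mul_assoc, hnd y]
      have h2 : algebraMap A x.asIdeal.ResidueField b =
          lam (algebraMap _ C (Ideal.Quotient.mk x.asIdeal b)) := by
        rw [hlam]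
        rfl
      have h3 : IsUnit (algebraMap (A ⧸ x.asIdeal) C (Ideal.Quotient.mk x.asIdeal b)) :=
        IsLocalization.map_units C (⟨_, Submonoid.mem_powers _⟩ :
          Submonoid.powers (Ideal.Quotient.mk x.asIdeal b))
      obtain ⟨v, hv⟩ := h3
      refine ⟨algebraMap _ C (Ideal.Quotient.mk x.asIdeal (num y * ∏ t ∈ s.erase y, den t)) *
        (v⁻¹ : Cˣ), ?_⟩
      rw [map_mul, hlam]
      change algebraMap A _ (num y * ∏ t ∈ s.erase y, den t) * _ = y
      rw [← h1, h2, ← hv, mul_assoc, ← map_mul, Units.mul_inv, map_one, mul_one]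
  let E : C ≃+* lam.range := RingEquiv.ofBijective lam.rangeRestrict
    ⟨fun y z h => hinj (congrArg Subtype.val h), lam.rangeRestrict_surjective⟩
  refine ⟨(mu.comp E.symm.toRingHom).comp (Subring.inclusion hle), fun a h => ?_⟩
  have h1 : E.symm ⟨algebraMap A x.asIdeal.ResidueField a, hle h⟩ =
      algebraMap _ C (Ideal.Quotient.mk x.asIdeal a) := by
    rw [RingEquiv.symm_apply_eq]
    apply Subtype.ext
    change algebraMap A x.asIdeal.ResidueField a = lam _
    rw [hlam]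
    rfl
  change mu (E.symm ⟨algebraMap A x.asIdeal.ResidueField a, hle h⟩) = ψ a
  rw [h1, hmu]
  rfl

/-- global generation over a field comes from all large subrings -/
theorem gg_spread0 {A : Type u} [CommRing A] {K : Type u} [Field K] (j : A →+* K) {N : ℕ}
    {w : Fin N → ℤ} (I : Ideal (MvPolynomial (Fin N) A)) {α : Type} [LinearOrder α] [Fintype α]
    (L : Dat (MvPolynomial (Fin N) A) α) (u : ℤ)
    (h : (L.bc j).GG w (I.map (MvPolynomial.map j)) u) :
    ∃ s : Finset K, ∀ (B : Subring K) (hB : ∀ a, j a ∈ B), (s : Set K) ⊆ B →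
      (L.bc (j.codRestrict B hB)).GG w (I.map (MvPolynomial.map (j.codRestrict B hB))) u := by
  classical
  obtain ⟨T, r, ε, h1, h2, h3⟩ := h
  choose e2 he2 using h2
  choose e3 he3 using h3
  have h4 : ∀ a, ∃ (c : Fin r → MvPolynomial (Fin N) K) (z : MvPolynomial (Fin N) K),
      z ∈ I.map (MvPolynomial.map j) ∧ (∑ i, c i * ε i a) + z = (L.bc j).f a ^ e3 a := by
    intro a
    obtain ⟨y, hy, z, hz, hyz⟩ := Submodule.mem_sup.1 (he3 a)
    obtain ⟨c, hc⟩ := Ideal.mem_span_range_iff_exists_fun.1 hy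
    exact ⟨c, z, hz, by rw [hc, hyz]⟩
  choose c z hz hcz using h4
  choose s2 hs2 using fun i a b => p7_rel j I _ (he2 i a b)
  choose s3 hs3 using fun a => p7_rel j I _ (hz a)
  refine ⟨(Finset.univ.biUnion fun i => Finset.univ.biUnion fun a => (ε i a).coeffs) ∪
    (Finset.univ.biUnion fun a => Finset.univ.biUnion fun i => (c a i).coeffs) ∪
    (Finset.univ.biUnion fun i => Finset.univ.biUnion fun a => Finset.univ.biUnion fun b =>
      s2 i a b) ∪ (Finset.univ.biUnion fun a => s3 a), fun B hB hs => ?_⟩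
  rw [Finset.coe_union, Finset.coe_union, Finset.coe_union, Set.union_subset_iff,
    Set.union_subset_iff, Set.union_subset_iff] at hs
  obtain ⟨⟨⟨k1, k2⟩, k3⟩, k4⟩ := hs
  have l1 : ∀ i a, ((ε i a).coeffs : Set K) ⊆ B := fun i a y hy => k1 (Finset.mem_coe.2
    (Finset.mem_biUnion.2 ⟨i, Finset.mem_univ i, Finset.mem_biUnion.2 ⟨a, Finset.mem_univ a, hy⟩⟩))
  have l2 : ∀ a i, ((c a i).coeffs : Set K) ⊆ B := fun a i y hy => k2 (Finset.mem_coe.2
    (Finset.mem_biUnion.2 ⟨a, Finset.mem_univ a, Finset.mem_biUnion.2 ⟨i, Finset.mem_univ i, hy⟩⟩))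
  have l3 : ∀ i a b, (s2 i a b : Set K) ⊆ B := fun i a b y hy => k3 (Finset.mem_coe.2
    (Finset.mem_biUnion.2 ⟨i, Finset.mem_univ i, Finset.mem_biUnion.2 ⟨a, Finset.mem_univ a,
      Finset.mem_biUnion.2 ⟨b, Finset.mem_univ b, hy⟩⟩⟩))
  have l4 : ∀ a, (s3 a : Set K) ⊆ B := fun a y hy => k4 (Finset.mem_coe.2
    (Finset.mem_biUnion.2 ⟨a, Finset.mem_univ a, hy⟩))
  choose ε' hε' using fun i a => p7_lift (ε i a) (l1 i a)
  choose c' hc' using fun a i => p7_lift (c a i) (l2 a i)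
  have hmap : ∀ y : MvPolynomial (Fin N) A, MvPolynomial.map B.subtype
      (MvPolynomial.map (j.codRestrict B hB) y) = MvPolynomial.map j y := fun y =>
    MvPolynomial.map_map _ _ _
  refine ⟨T, r, ε', fun i a => ?_, fun i a b => ⟨e2 i a b, ?_⟩, fun a => ⟨e3 a, ?_⟩⟩
  · unfold Gr.Hom
    apply p7_inj B
    rw [polyGr_map, hε']
    exact h1 i a
  · refine hs2 i a b B hB (l3 i a b) _ ?_
    change MvPolynomial.map B.subtype
      ((MvPolynomial.map (j.codRestrict B hB) (L.f a) *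
        MvPolynomial.map (j.codRestrict B hB) (L.f b)) ^ e2 i a b *
      (ε' i a * MvPolynomial.map (j.codRestrict B hB) (L.f b) ^ T *
        (MvPolynomial.map (j.codRestrict B hB) (L.f a) *
        MvPolynomial.map (j.codRestrict B hB) (L.f b)) ^ L.t -
        MvPolynomial.map (j.codRestrict B hB) (L.v a b) * ε' i b *
        MvPolynomial.map (j.codRestrict B hB) (L.f a) ^ T)) = _
    simp only [map_mul, _root_.map_sub, map_pow, hmap, hε']
    rfl
  · have h5 : (L.bc (j.codRestrict B hB)).f a ^ e3 a - ∑ i, c' a i * ε' i a ∈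
        I.map (MvPolynomial.map (j.codRestrict B hB)) := by
      refine hs3 a B hB (l4 a) _ ?_
      change MvPolynomial.map B.subtype (MvPolynomial.map (j.codRestrict B hB) (L.f a) ^ e3 a -
        ∑ i, c' a i * ε' i a) = z a
      simp only [map_mul, _root_.map_sub, map_pow, map_sum, hmap, hε', hc']
      rw [← add_right_injective (∑ i, c a i * ε i a) |>.eq_iff]
      change (∑ i, c a i * ε i a) + (MvPolynomial.map j (L.f a) ^ e3 a -
        ∑ i, c a i * ε i a) = (∑ i, c a i * ε i a) + z a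
      rw [hcz a, add_sub_cancel]
      rfl
    rw [← add_sub_cancel (∑ i, c' a i * ε' i a) ((L.bc (j.codRestrict B hB)).f a ^ e3 a)]
    refine Submodule.add_mem _ (Ideal.mem_sup_left ?_) (Ideal.mem_sup_right h5)
    exact Ideal.mem_span_range_iff_exists_fun.2 ⟨c' a, rfl⟩

/-- global generation spreads out -/
theorem gg_spread {A : Type u} [CommRing A] {N : ℕ} {w : Fin N → ℤ}
    (I : Ideal (MvPolynomial (Fin N) A)) {α : Type} [LinearOrder α] [Fintype α]
    (L : Dat (MvPolynomial (Fin N) A) α) (u : ℤ) (x : PrimeSpectrum A)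
    (h : (L.bc (algebraMap A x.asIdeal.ResidueField)).GG w
      (I.map (MvPolynomial.map (algebraMap A x.asIdeal.ResidueField))) u) :
    ∃ b : A, b ∉ x.asIdeal ∧ ∀ (k : Type u) [Field k] (ψ : A →+* k),
      (∀ a ∈ x.asIdeal, ψ a = 0) → ψ b ≠ 0 →
      (L.bc ψ).GG w (I.map (MvPolynomial.map ψ)) u := by
  obtain ⟨s, hs⟩ := gg_spread0 (algebraMap A x.asIdeal.ResidueField) I L u h
  obtain ⟨b, hb, hext⟩ := ext_frac x s
  refine ⟨b, hb, fun k _ ψ h0 hb0 => ?_⟩
  obtain ⟨B, hBdef⟩ : ∃ B, B = Subring.closure (Set.range (algebraMap A x.asIdeal.ResidueField) ∪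
      (s : Set x.asIdeal.ResidueField)) := ⟨_, rfl⟩
  rw [← hBdef] at hext
  obtain ⟨φ, hφ⟩ := hext k ψ h0 hb0
  have hB : ∀ a, algebraMap A x.asIdeal.ResidueField a ∈ B := fun a =>
    hBdef ▸ Subring.subset_closure (Or.inl ⟨a, rfl⟩)
  have hsB : (s : Set x.asIdeal.ResidueField) ⊆ B := fun y hy =>
    hBdef ▸ Subring.subset_closure (Or.inr hy)
  have h1 := (hs B hB hsB).map φ
  have e : φ.comp ((algebraMap A x.asIdeal.ResidueField).codRestrict B hB) = ψ := by
    ext a
    exact hφ a _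
  have e2 : (MvPolynomial.map ψ : MvPolynomial (Fin N) A →+* _) = (MvPolynomial.map φ).comp
      (MvPolynomial.map ((algebraMap A x.asIdeal.ResidueField).codRestrict B hB)) := by
    rw [p7_comp, e]
  rw [Ideal.map_map, ← e2] at h1
  have e3 : ((L.bc ((algebraMap A x.asIdeal.ResidueField).codRestrict B hB)).map
      (MvPolynomial.map φ)) = L.bc ψ := by
    change L.map ((MvPolynomial.map φ).comp
      (MvPolynomial.map ((algebraMap A x.asIdeal.ResidueField).codRestrict B hB))) =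
        L.map (MvPolynomial.map ψ)
    rw [e2]
  rwa [e3] at h1

/-- bounded powers suffice on all fibres -/
theorem uniform_gg {A : Type u} [CommRing A] [IsNoetherianRing A] {N : ℕ} {w : Fin N → ℤ}
    (I : Ideal (MvPolynomial (Fin N) A)) {α : Type} [LinearOrder α] [Fintype α]
    (L : Dat (MvPolynomial (Fin N) A) α)
    (h : ∀ x : PrimeSpectrum A, ∃ r : ℕ, 1 ≤ r ∧
      ((L.bc (algebraMap A x.asIdeal.ResidueField)).pw r).GG w
        (I.map (MvPolynomial.map (algebraMap A x.asIdeal.ResidueField))) (-1)) :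
    ∃ R : ℤ, ∀ (k : Type u) [Field k] (ψ : A →+* k), ∃ r : ℕ, 1 ≤ r ∧ (r : ℤ) ≤ R ∧
      ((L.bc ψ).pw r).GG w (I.map (MvPolynomial.map ψ)) (-1) := by
  refine spec_induction (fun k _ ψ R => ∃ r : ℕ, 1 ≤ r ∧ (r : ℤ) ≤ R ∧
      ((L.bc ψ).pw r).GG w (I.map (MvPolynomial.map ψ)) (-1)) ?_ ?_
  · rintro k _ ψ m m' hm ⟨r, h1, h2, h3⟩
    exact ⟨r, h1, h2.trans hm, h3⟩
  · intro 𝔭 h𝔭
    obtain ⟨r, hr, hgg⟩ := h ⟨𝔭, h𝔭⟩
    rw [Dat.map_pw] at hgg
    obtain ⟨b, hb, hb'⟩ := gg_spread I (L.pw r) (-1) ⟨𝔭, h𝔭⟩ hgg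
    refine ⟨b, hb, r, fun k _ ψ h0 hb0 => ⟨r, hr, le_refl _, ?_⟩⟩
    rw [Dat.map_pw]
    exact hb' k ψ h0 hb0

end Pool.Agent.Lib.MP_0b721b_ag
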