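import Pool.Agent.Lib.MP_0b721b_ag.Cyc

/-!
Part P11: tensor products of line bundles given on two covers.
-/

namespace Pool.Agent.Lib.MP_0b721b_ag

open MvPolynomial

section

variable {S : Type*} [CommRing S] {α β : Type*}

/-- the tensor product of two line bundles, on the product cover -/
def Dat.prod (D : Dat S α) (D' : Dat S β) : Dat S (α ×ₗ β) where
  f x := D.f (ofLex x).1 * D'.f (ofLex x).2
  d x := D.d (ofLex x).1 + D'.d (ofLex x).2
  t := D.t + D'.t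
  v x y := D.v (ofLex x).1 (ofLex y).1 * D'.v (ofLex x).2 (ofLex y).2 *
    (D.f (ofLex x).1 * D.f (ofLex y).1) ^ D'.t * (D'.f (ofLex x).2 * D'.f (ofLex y).2) ^ D.t

theorem Dat.prod_pw (D : Dat S α) (D' : Dat S β) (a b c : ℕ) :
    ((D.pw a).prod (D'.pw b)).pw c = (D.pw (a * c)).prod (D'.pw (b * c)) := by
  unfold Dat.prod Dat.pw
  rw [Dat.mk.injEq]
  refine ⟨rfl, rfl, ?_, ?_⟩
  · ring
  · funext x y
    ring

theorem Dat.pw_pw (D : Dat S α) (a b : ℕ) : (D.pw a).pw b = D.pw (a * b) := by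
  unfold Dat.pw
  rw [Dat.mk.injEq]
  refine ⟨rfl, rfl, ?_, ?_⟩
  · ring
  · funext x y
    rw [pow_mul]

theorem Dat.pw_one (D : Dat S α) : D.pw 1 = D := by
  unfold Dat.pw
  cases D
  rw [Dat.mk.injEq]
  refine ⟨rfl, rfl, ?_, ?_⟩
  · exact one_mul _
  · funext x y
    exact pow_one _

/-- products of generators -/
theorem mul_mem_span_mul {ι κ : Type*} {s : ι → S} {s' : κ → S} {I : Ideal S} {x y : S}
    (hx : x ∈ Ideal.span (Set.range s) ⊔ I) (hy : y ∈ Ideal.span (Set.range s') ⊔ I) :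
    x * y ∈ Ideal.span (Set.range fun p : ι × κ => s p.1 * s' p.2) ⊔ I := by
  obtain ⟨a, ha, b, hb, rfl⟩ := Submodule.mem_sup.1 hx
  obtain ⟨c, hc, d, hd, rfl⟩ := Submodule.mem_sup.1 hy
  have h1 : a * c ∈ Ideal.span (Set.range fun p : ι × κ => s p.1 * s' p.2) := by
    have h2 := Ideal.mul_mem_mul ha hc
    rw [Ideal.span_mul_span'] at h2
    refine Ideal.span_mono ?_ h2
    rintro _ ⟨_, ⟨i, rfl⟩, _, ⟨j, rfl⟩, rfl⟩
    exact ⟨(i, j), rfl⟩
  have e : (a + b) * (c + d) = a * c + (b * (c + d) + a * d) := by ring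
  rw [e]
  exact Submodule.add_mem_sup h1 (Ideal.add_mem _ (Ideal.mul_mem_right _ _ hb)
    (Ideal.mul_mem_left _ _ hd))

theorem mul_const_mem {ι : Type*} {s : ι → S} {I : Ideal S} {x : S} (m : S)
    (hx : x ∈ Ideal.span (Set.range s) ⊔ I) :
    x * m ∈ Ideal.span (Set.range fun i => s i * m) ⊔ I := by
  have h := mul_mem_span_mul (s' := fun _ : Unit => m) (y := m) hx
    (Ideal.mem_sup_left (Ideal.subset_span ⟨(), rfl⟩))
  refine sup_le_sup_right (Ideal.span_mono ?_) I h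
  rintro _ ⟨⟨i, _⟩, rfl⟩
  exact ⟨i, rfl⟩

/-- products of congruences -/
theorem mul_congr_mem {I : Ideal S} {F F' P P' Q Q' R : S} {e e' : ℕ}
    (h : F ^ e * (P - Q) ∈ I) (h' : F' ^ e' * (P' - Q') ∈ I) (X : S)
    (hX : X = (F * F') ^ (e + e') * (R * (P * P' - Q * Q'))) : X ∈ I := by
  have e1 : X = F ^ e' * F' ^ (e + e') * R * P' * (F ^ e * (P - Q)) +
      F ^ (e + e') * F' ^ e * R * Q * (F' ^ e' * (P' - Q')) := by
    rw [hX]
    ring
  rw [e1]
  exact Ideal.add_mem _ (Ideal.mul_mem_left _ _ h) (Ideal.mul_mem_left _ _ h')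

end

section

variable {A : Type*} [CommRing A] {σ : Type*} {w : σ → ℤ} {α β : Type*}
  {D : Dat (MvPolynomial σ A) α} {D' : Dat (MvPolynomial σ A) β} {I : Ideal (MvPolynomial σ A)}

theorem Dat.Lb.prod (h : D.Lb w I) (h' : D'.Lb w I) : (D.prod D').Lb w I where
  pos x := add_pos (h.pos _) (h'.pos _)
  hf x := polyGr_mul (h.hf _) (h'.hf _)
  hv x y := by
    have h1 := polyGr_mul (polyGr_mul (polyGr_mul (h.hv (ofLex x).1 (ofLex y).1)
      (h'.hv (ofLex x).2 (ofLex y).2))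
      (polyGr_pow (polyGr_mul (h.hf (ofLex x).1) (h.hf (ofLex y).1)) D'.t))
      (polyGr_pow (polyGr_mul (h'.hf (ofLex x).2) (h'.hf (ofLex y).2)) D.t)
    change (polyGr A w).Hom (((D.t + D'.t : ℕ) : ℤ) * ((D.d (ofLex x).1 + D'.d (ofLex x).2) +
      (D.d (ofLex y).1 + D'.d (ofLex y).2))) (D.v (ofLex x).1 (ofLex y).1 *
      D'.v (ofLex x).2 (ofLex y).2 * (D.f (ofLex x).1 * D.f (ofLex y).1) ^ D'.t *
      (D'.f (ofLex x).2 * D'.f (ofLex y).2) ^ D.t)
    convert h1 using 1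
    push_cast
    ring
  self x := by
    obtain ⟨e, he⟩ := h.self (ofLex x).1
    obtain ⟨e', he'⟩ := h'.self (ofLex x).2
    refine ⟨e + e', ?_⟩
    change (D.f (ofLex x).1 * D'.f (ofLex x).2) ^ (e + e') * (D.v (ofLex x).1 (ofLex x).1 *
      D'.v (ofLex x).2 (ofLex x).2 * (D.f (ofLex x).1 * D.f (ofLex x).1) ^ D'.t *
      (D'.f (ofLex x).2 * D'.f (ofLex x).2) ^ D.t -
      (D.f (ofLex x).1 * D'.f (ofLex x).2) ^ (2 * (D.t + D'.t))) ∈ I
    refine mul_congr_mem (R := (D.f (ofLex x).1 * D.f (ofLex x).1) ^ D'.t *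
      (D'.f (ofLex x).2 * D'.f (ofLex x).2) ^ D.t) he he' _ ?_
    ring
  cocy x y z := by
    obtain ⟨e, he⟩ := h.cocy (ofLex x).1 (ofLex y).1 (ofLex z).1
    obtain ⟨e', he'⟩ := h'.cocy (ofLex x).2 (ofLex y).2 (ofLex z).2
    refine ⟨e + e', ?_⟩
    refine mul_congr_mem (R := (D.f (ofLex x).1 * D.f (ofLex y).1 * D.f (ofLex y).1 *
      D.f (ofLex z).1) ^ D'.t * (D'.f (ofLex x).2 * D'.f (ofLex y).2 * D'.f (ofLex y).2 *
      D'.f (ofLex z).2) ^ D.t) he he' _ ?_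
    simp only [Dat.prod]
    ring
  cov i := by
    obtain ⟨e, he⟩ := h.cov i
    obtain ⟨e', he'⟩ := h'.cov i
    refine ⟨e + e', ?_⟩
    rw [sup_comm] at he he'
    have h1 := mul_mem_span_mul he he'
    rw [← pow_add, sup_comm] at h1
    refine (sup_le_sup_left (Ideal.span_mono ?_) I) h1
    rintro _ ⟨⟨a, b⟩, rfl⟩
    exact ⟨toLex (a, b), rfl⟩

theorem Dat.GG.prod {u u' : ℤ} (hD : D.Lb w I) (hD' : D'.Lb w I) (h : D.GG w I u)
    (h' : D'.GG w I u') : (D.prod D').GG w I (u + u') := by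
  obtain ⟨T, r, ε, h1, h2, h3⟩ := h
  obtain ⟨T', r', ε', h1', h2', h3'⟩ := h'
  refine ⟨T + T', r * r', fun j x => ε (finProdFinEquiv.symm j).1 (ofLex x).1 *
    ε' (finProdFinEquiv.symm j).2 (ofLex x).2 * (D.f (ofLex x).1 ^ T' * D'.f (ofLex x).2 ^ T),
    ?_, ?_, ?_⟩
  · intro j x
    have h4 := polyGr_mul (polyGr_mul (h1 (finProdFinEquiv.symm j).1 (ofLex x).1)
      (h1' (finProdFinEquiv.symm j).2 (ofLex x).2))
      (polyGr_mul (polyGr_pow (hD.hf (ofLex x).1) T') (polyGr_pow (hD'.hf (ofLex x).2) T))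
    convert h4 using 1
    change ((T + T' : ℕ) : ℤ) * (D.d (ofLex x).1 + D'.d (ofLex x).2) + (u + u') = _
    push_cast
    ring
  · intro j x y
    obtain ⟨e, he⟩ := h2 (finProdFinEquiv.symm j).1 (ofLex x).1 (ofLex y).1
    obtain ⟨e', he'⟩ := h2' (finProdFinEquiv.symm j).2 (ofLex x).2 (ofLex y).2
    refine ⟨e + e', ?_⟩
    refine mul_congr_mem (R := (D.f (ofLex x).1 * D.f (ofLex y).1) ^ (T' + D'.t) *
      (D'.f (ofLex x).2 * D'.f (ofLex y).2) ^ (T + D.t)) he he' _ ?_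
    simp only [Dat.prod]
    ring
  · intro x
    obtain ⟨e, he⟩ := h3 (ofLex x).1
    obtain ⟨e', he'⟩ := h3' (ofLex x).2
    refine ⟨e + e' + T + T', ?_⟩
    have h4 := Ideal.mul_mem_left _ (D.f (ofLex x).1 ^ (e' + T) * D'.f (ofLex x).2 ^ (e + T'))
      (mul_const_mem (D.f (ofLex x).1 ^ T' * D'.f (ofLex x).2 ^ T) (mul_mem_span_mul he he'))
    have h5 : (D.f (ofLex x).1 ^ (e' + T) * D'.f (ofLex x).2 ^ (e + T')) *
        (D.f (ofLex x).1 ^ e * D'.f (ofLex x).2 ^ e' *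
        (D.f (ofLex x).1 ^ T' * D'.f (ofLex x).2 ^ T)) = (D.prod D').f x ^ (e + e' + T + T') := by
      simp only [Dat.prod]
      ring
    rw [h5] at h4
    refine sup_le_sup_right (Ideal.span_mono ?_) I h4
    rintro _ ⟨⟨j, j'⟩, rfl⟩
    exact ⟨finProdFinEquiv (j, j'), by simp⟩

theorem one_GG (c : ℤ) (hc : c = 0) : (D.pw 0).GG w I c := by
  subst hc
  refine ⟨0, 1, fun _ _ => 1, fun j a => ?_, fun j a b => ⟨0, ?_⟩, fun a => ⟨0, ?_⟩⟩
  · have := polyGr_C w (1 : A)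
    rw [map_one] at this
    convert this using 1
    push_cast
    ring
  · simp [Dat.pw]
  · rw [pow_zero]
    exact Ideal.mem_sup_left (Ideal.subset_span ⟨0, rfl⟩)

/-- powers of globally generated line bundles -/
theorem Dat.GG.pw {u : ℤ} (hD : D.Lb w I) (h : D.GG w I u) (c : ℕ) :
    (D.pw c).GG w I (c * u) := by
  induction c with
  | zero => exact one_GG _ (by simp)
  | succ c ih =>
    obtain ⟨T, r, ε, h1, h2, h3⟩ := ih
    obtain ⟨T', r', ε', h1', h2', h3'⟩ := h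
    refine ⟨T + T', r * r', fun j x => ε (finProdFinEquiv.symm j).1 x *
      ε' (finProdFinEquiv.symm j).2 x, ?_, ?_, ?_⟩
    · intro j x
      have h4 := polyGr_mul (h1 (finProdFinEquiv.symm j).1 x)
        (h1' (finProdFinEquiv.symm j).2 x)
      convert h4 using 1
      simp only [Dat.pw]
      push_cast
      ring
    · intro j x y
      obtain ⟨e, he⟩ := h2 (finProdFinEquiv.symm j).1 x y
      obtain ⟨e', he'⟩ := h2' (finProdFinEquiv.symm j).2 x y
      refine ⟨2 * (e + e'), ?_⟩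
      have h6 := mul_congr_mem (R := 1) he he' _ rfl
      convert Ideal.mul_mem_left _ 1 h6 using 1
      simp only [Dat.pw]
      ring
    · intro x
      obtain ⟨e, he⟩ := h3 x
      obtain ⟨e', he'⟩ := h3' x
      refine ⟨e + e', ?_⟩
      have h4 := mul_mem_span_mul he he'
      simp only [Dat.pw] at h4 ⊢
      rw [← pow_add] at h4
      refine sup_le_sup_right (Ideal.span_mono ?_) I h4
      rintro _ ⟨⟨j, j'⟩, rfl⟩
      exact ⟨finProdFinEquiv (j, j'), by simp⟩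

/-- `L` ample (`L ^ r (-1)` globally generated), `M` nef in the sense that all `M ^ a (1)`, `a ≥ 1`,
are ample: `L ^ m ⊗ M (-m₀)` is ample as soon as `m > r m₀` -/
theorem amp_prod {r : ℕ} (hr : 1 ≤ r) (hD : D.Lb w I) (hD' : D'.Lb w I)
    (h : (D.pw r).GG w I (-1)) (h' : ∀ a, 1 ≤ a → (D'.pw a).Amp w I 1) {m : ℕ} {m₀ : ℤ}
    (hm : r * m₀ < m) : ((D.pw m).prod D').Amp w I (-m₀) := by
  obtain ⟨n₀, u, h1, h2, h3⟩ := h' r hr
  refine ⟨r * n₀, u - m * n₀, ?_, ?_, ?_⟩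
  · exact Nat.mul_pos (by omega) (by omega)
  · have h4 : (n₀ : ℤ) ≤ n₀ * (m - r * m₀) := by
      have h5 : (1 : ℤ) ≤ m - r * m₀ := by omega
      nlinarith [Int.natCast_nonneg n₀]
    push_cast
    nlinarith
  · have e1 := Dat.prod_pw D D' m 1 (r * n₀)
    rw [Dat.pw_one] at e1
    rw [e1]
    have e2 : D.pw (m * (r * n₀)) = (D.pw r).pw (m * n₀) := by
      rw [Dat.pw_pw]
      congr 1
      ring
    have e3 : D'.pw (1 * (r * n₀)) = (D'.pw r).pw n₀ := by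
      rw [Dat.pw_pw, one_mul]
    rw [e2, e3]
    have h6 := (h.pw (hD.pw r) (m * n₀)).prod ((hD.pw r).pw (m * n₀)) ((hD'.pw r).pw n₀) h3
    convert h6 using 1
    push_cast
    ring

end

end Pool.Agent.Lib.MP_0b721b_ag
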