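import Pool.Agent.Lib.MP_0b721b_ag.Kleiman
import Pool.Agent.Lib.MP_0b721b_ag.Prod
import Pool.Agent.Lib.MP_0b721b_ag.P11u

/-!
The main theorem.
-/

namespace Pool.Agent.Lib.MP_0b721b_ag

open MvPolynomial

universe u

/-- Uniform Fujita vanishing. `A` is a noetherian ring, `X = V(I)` a closed subscheme of the
projective space over `A`, `L` a line bundle on `X` which is ample on all fibres `X_s`, `s` in
`Spec A` (some `L_s ^ r (-1)`, `r ≥ 1`, is globally generated), and `F` the coherent sheaf on `X`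
given by the graded module `A[x] ^ r / W` killed by `I`. There is `m₀` such that for all fields `k`
over `A` (in particular all residue fields of points of `Spec A`), all nef line bundles `M` on
`X_k`, all `m ≥ m₀` and all `p ≥ 1` we have `H^p (X_k, F ⊗ L ^ m ⊗ M) = 0`. -/
theorem main {A : Type u} [CommRing A] [IsNoetherianRing A] {N : ℕ}
    (I : Ideal (MvPolynomial (Fin N) A)) (hI : (polyGr A (fun _ => 1)).Sub I)
    {α : Type} [LinearOrder α] [Fintype α] (L : Dat (MvPolynomial (Fin N) A) α)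
    (hL : L.Lb (fun _ => 1) I)
    (hample : ∀ s : PrimeSpectrum A, ∃ r : ℕ, 1 ≤ r ∧
      ((L.bc (algebraMap A s.asIdeal.ResidueField)).pw r).GG (fun _ => 1)
        (I.map (MvPolynomial.map (algebraMap A s.asIdeal.ResidueField))) (-1))
    {r : ℕ} (e : Fin r → ℤ)
    (W : Submodule (MvPolynomial (Fin N) A) (Fin r → MvPolynomial (Fin N) A))
    (hW : (freeGr A (fun _ => 1) e).Sub W) (hIW : ∀ a ∈ I, ∀ v, a • v ∈ W) :
    ∃ m₀ : ℕ, ∀ (k : Type u) [Field k] (ψ : A →+* k) (β : Type) [LinearOrder β] [Fintype β]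
      (M : Dat (MvPolynomial (Fin N) k) β), M.Lb (fun _ => 1) (I.map (MvPolynomial.map ψ)) →
      Nef M (fun _ => 1) (I.map (MvPolynomial.map ψ)) →
      ∀ m, m₀ ≤ m → ∀ p, 1 ≤ p →
      HV (((L.bc ψ).pw m).prod M)
        ((freeGr k (fun _ => 1) e).quot (bcS ψ W) (bcS_sub ψ hW)) 0 p := by
  obtain ⟨m₀, h⟩ := core_module (w := fun _ => 1) (fun _ => one_pos) I hI e W hW hIW
  obtain ⟨R, hR⟩ := uniform_gg I L hample
  refine ⟨(R * |m₀|).toNat + 1, fun k _ ψ β _ _ M hM hnef m hm p hp => ?_⟩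
  obtain ⟨q, hq, hqR, hgg⟩ := hR k ψ
  have hIk : (polyGr k (fun _ => 1)).Sub (I.map (MvPolynomial.map ψ)) := map_sub hI ψ
  have hLk : (L.bc ψ).Lb (fun _ => 1) (I.map (MvPolynomial.map ψ)) := hL.map ψ
  have hlt : (q : ℤ) * m₀ < m := by
    have h1 : (q : ℤ) * m₀ ≤ q * |m₀| :=
      mul_le_mul_of_nonneg_left (le_abs_self m₀) (Int.natCast_nonneg q)
    have h2 : (q : ℤ) * |m₀| ≤ R * |m₀| := mul_le_mul_of_nonneg_right hqR (abs_nonneg m₀)
    have h3 := Int.self_le_toNat (R * |m₀|)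
    omega
  have hA := amp_prod (m := m) (m₀ := m₀) hq hLk hM hgg (kleiman hIk hM hnef) hlt
  exact h k ψ _ _ ((hLk.pw m).prod hM) 0 (by rw [zero_sub]; exact hA) p hp

end Pool.Agent.Lib.MP_0b721b_ag
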