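import Pool.Agent.Lib.MP_0b721b_ag.Cyc

/-!
Degrees on integral curves and nef line bundles on a projective scheme over a field.
-/

namespace Pool.Agent.Lib.MP_0b721b_ag

open MvPolynomial

universe u

/-- the dimension of the space `H^0 (V(I), N (n))` of global sections: families of sections `z a` of
`N (n)` over the members `f a ≠ 0` of the cover (written in the trivialisation of `N` over
`f a ≠ 0`) which agree on the intersections -/
noncomputable def h0 {k : Type u} [Field k] {σ : Type} {α : Type} [LinearOrder α]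
    (D : Dat (MvPolynomial σ k) α) (w : σ → ℤ) (I : Ideal (MvPolynomial σ k))
    (hI : (polyGr k w).Sub I) (n : ℤ) : ℕ :=
  Module.finrank k (Submodule.span k {z : ∀ a : α, Loc (D.fJ {a}) (MvPolynomial σ k ⧸ I) |
    (∀ a, LDeg (cyc w I hI) (D.fJ {a}) (D.dJ {a}) n (z a)) ∧
    ∀ a b, D.tw (MvPolynomial σ k ⧸ I) {a} {a, b} (Finset.singleton_nonempty a)
        (Finset.singleton_subset_iff.2 (Finset.mem_insert_self a _)) (z a) =
      D.tw (MvPolynomial σ k ⧸ I) {b} {a, b} (Finset.singleton_nonempty b)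
        (Finset.singleton_subset_iff.2 (Finset.mem_insert_of_mem (Finset.mem_singleton_self b)))
        (z b)})

/-- a homogeneous prime ideal which does not contain all variables: a point of the projective
scheme `Proj k[x]`, or an integral closed subscheme of it -/
def RelPrime {k : Type u} [Field k] {σ : Type} (w : σ → ℤ) (Q : Ideal (MvPolynomial σ k)) : Prop :=
  (polyGr k w).Sub Q ∧ Q.IsPrime ∧ ∃ i, (X i : MvPolynomial σ k) ∉ Q

/-- the integral closed subscheme `V(Q)` is a curve, that is, has dimension one -/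
def IsCurve {k : Type u} [Field k] {σ : Type} (w : σ → ℤ) (Q : Ideal (MvPolynomial σ k)) : Prop :=
  RelPrime w Q ∧ (∃ Q', RelPrime w Q' ∧ Q < Q') ∧
    ¬ ∃ Q' Q'', RelPrime w Q' ∧ RelPrime w Q'' ∧ Q < Q' ∧ Q' < Q''

/-- `N` is nef on `V(I)`: it has non-negative degree on every integral curve `V(Q)` in `V(I)`. By
Riemann-Roch and Serre vanishing the degree of `N` on `V(Q)` is
`h^0 (V(Q), N (b)) - h^0 (V(Q), O (b))` for all large `b`. -/
def Nef {k : Type u} [Field k] {σ : Type} {α : Type} [LinearOrder α]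
    (D : Dat (MvPolynomial σ k) α) (w : σ → ℤ) (I : Ideal (MvPolynomial σ k)) : Prop :=
  ∀ (Q : Ideal (MvPolynomial σ k)) (hQ : IsCurve w Q), I ≤ Q →
    ∃ b₀ : ℤ, ∀ b, b₀ ≤ b → h0 (D.pw 0) w Q hQ.1.1 b ≤ h0 D w Q hQ.1.1 b

end Pool.Agent.Lib.MP_0b721b_ag
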