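import Pool.Agent.Lib.MP_0b721b_ag.P2aL

/-!
Part P2a: the structure sheaf of a weighted projective space (Laurent monomials).
-/

namespace Pool.Agent.Lib.MP_0b721b_ag.P2a

open MvPolynomial

universe u

variable {α : Type} [LinearOrder α] [Fintype α] {B : Type u} [CommRing B]

section gv

omit [Fintype α]

/-- the coefficients of the Laurent monomial `v` over `J` -/
def GV (B : Type u) [CommRing B] (v : α → ℤ) (J : Finset α) : AddSubgroup B where
  carrier := {b | (∃ a ∉ J, v a < 0) → b = 0}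
  zero_mem' := fun _ => rfl
  add_mem' := by
    intro a b ha hb h
    rw [ha h, hb h, add_zero]
  neg_mem' := by
    intro a ha h
    rw [ha h, neg_zero]

omit [LinearOrder α] in
theorem GV_mono (v : α → ℤ) {J J' : Finset α} (h : J ⊆ J') : GV B v J ≤ GV B v J' := by
  intro b hb hex
  obtain ⟨a, ha, hv⟩ := hex
  exact hb ⟨a, fun h' => ha (h h'), hv⟩

/-- the restrictions -/
def rV (v : α → ℤ) (J J' : Finset α) (_ : J.Nonempty) (hs : J ⊆ J') : GV B v J →+ GV B v J' :=
  AddSubgroup.inclusion (GV_mono v hs)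

omit [LinearOrder α] in
theorem rV_fct (v : α → ℤ) : Fct (rV (B := B) v) := fun _ _ _ _ _ _ _ _ => rfl

theorem rV_bij {v : α → ℤ} {c : α} (hc : 0 ≤ v c) (J : Finset α) (h : J.Nonempty) :
    Function.Bijective (rV (B := B) v J (insert c J) h (Finset.subset_insert _ _)) := by
  constructor
  · exact AddSubgroup.inclusion_injective _
  · rintro ⟨b, hb⟩
    refine ⟨⟨b, ?_⟩, rfl⟩
    rintro ⟨a, ha, hv⟩
    refine hb ⟨a, ?_, hv⟩
    rw [Finset.mem_insert]
    rintro (rfl | h')
    · omega
    · exact ha h'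

end gv

variable {d : α → ℤ}

/-- the coefficient of the Laurent monomial `v` -/
noncomputable def cfG (d v : α → ℤ) (J : Finset α) :
    Loc ((datO B d).fJ J) (MvPolynomial α B) →+ GV B v J :=
  (cf d v J).codRestrict _ (by
    rintro z ⟨a, ha, hv⟩
    exact cf_neg ha hv z)

theorem cfG_nat (v : α → ℤ) :
    Nat' ((datO B d).tw (MvPolynomial α B)) (rV (B := B) v) (fun J => cfG d v J) := by
  intro J J' h0 hs z
  exact Subtype.ext (cf_tw v h0 hs z)

/-- the coefficients of the Cech differential -/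
theorem cf_dC (v : α → ℤ) (z : ∀ J, Loc ((datO B d).fJ J) (MvPolynomial α B)) (J : Finset α) :
    cf d v J (dC ((datO B d).tw (MvPolynomial α B)) z J) =
      (dC (rV (B := B) v) (fun J => cfG d v J (z J)) J : GV B v J) := by
  rw [dC_map (cfG_nat v)]
  rfl

/-- a primitive, except for the Laurent monomials with all exponents negative -/
theorem lau_prim {n : ℤ} {p : ℕ} (hp : 1 ≤ p)
    (z : ∀ J, Loc ((datO B d).fJ J) (MvPolynomial α B))
    (hz : ∀ J, LDeg (polyGr B d) ((datO B d).fJ J) ((datO B d).dJ J) n (z J))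
    (hz' : ∀ J, J.card = p + 2 → dC ((datO B d).tw (MvPolynomial α B)) z J = 0) :
    ∃ w : ∀ J, Loc ((datO B d).fJ J) (MvPolynomial α B),
      (∀ J, LDeg (polyGr B d) ((datO B d).fJ J) ((datO B d).dJ J) n (w J)) ∧
      (∀ J, J.card = p + 1 → ∀ v : α → ℤ, (∃ c, 0 ≤ v c) →
        cf d v J (dC ((datO B d).tw (MvPolynomial α B)) w J) = cf d v J (z J)) ∧
      ∀ J, ∀ v : α → ℤ, ¬ (∃ c, 0 ≤ v c) →
        cf d v J (dC ((datO B d).tw (MvPolynomial α B)) w J) = 0 := by
  classical
  -- the primitives of the coefficients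
  have h1 : ∀ v : α → ℤ, ∃ w : ∀ J, GV B v J, (∃ c, 0 ≤ v c) → ∀ J, J.card = p + 1 →
      dC (rV (B := B) v) w J = cfG d v J (z J) := by
    intro v
    by_cases hv : ∃ c, 0 ≤ v c
    · obtain ⟨c, hc⟩ := hv
      obtain ⟨w, hw⟩ := van_contract (rV_fct (B := B) v) c (rV_bij hc) hp
        (fun J => cfG d v J (z J)) (fun J hJ => by
          rw [dC_map (cfG_nat v), hz' J hJ, map_zero])
      exact ⟨w, fun _ => hw⟩
    · exact ⟨fun J => 0, fun h => absurd h hv⟩
  choose w hw using h1
  -- the monomials which occur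
  have hfin : (⋃ J : Finset α, {v | cf d v J (z J) ≠ 0}).Finite :=
    Set.finite_iUnion fun J => cf_finite J (z J)
  set V : Finset (α → ℤ) := hfin.toFinset.filter (fun v => ∃ c, 0 ≤ v c) with hV
  have hVd : ∀ v ∈ V, vdeg d v = n := by
    intro v hv
    rw [hV, Finset.mem_filter, Set.Finite.mem_toFinset, Set.mem_iUnion] at hv
    obtain ⟨⟨J, hJ⟩, -⟩ := hv
    exact cf_deg (hz J) hJ
  let W : ∀ J, Loc ((datO B d).fJ J) (MvPolynomial α B) := fun J =>
    ∑ v ∈ V, mon d J v ((w v J : GV B v J) : B)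
  have hW : ∀ v J, cf d v J (W J) = if v ∈ V then ((w v J : GV B v J) : B) else 0 := by
    intro v J
    change cf d v J (∑ v ∈ V, mon d J v ((w v J : GV B v J) : B)) = _
    rw [map_sum]
    have h2 : ∀ v' ∈ V, cf d v J (mon d J v' ((w v' J : GV B v' J) : B)) =
        if v = v' then ((w v' J : GV B v' J) : B) else 0 := fun v' _ => cf_mon (w v' J).2 v
    rw [Finset.sum_congr rfl h2, Finset.sum_ite_eq]
  refine ⟨W, fun J => ?_, fun J hJ v hv => ?_, fun J v hv => ?_⟩
  · have h3 : W J ∈ locDeg (polyGr B d) ((datO_ok (B := B) (d := d)).opJ J) n :=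
      AddSubgroup.sum_mem _ fun v hv => mon_lDeg (w v J).2 (hVd v hv)
    exact h3
  · rw [cf_dC]
    by_cases hvV : v ∈ V
    · have h4 : (fun J => cfG d v J (W J)) = w v := by
        funext J
        apply Subtype.ext
        change cf d v J (W J) = _
        rw [hW, if_pos hvV]
      rw [h4, hw v hv J hJ]
      rfl
    · have h5 : cf d v J (z J) = 0 := by
        by_contra h
        apply hvV
        rw [hV, Finset.mem_filter, Set.Finite.mem_toFinset, Set.mem_iUnion]
        exact ⟨⟨J, h⟩, hv⟩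
      rw [h5, dC_eq_zero_of]
      · rfl
      · intro K _
        apply Subtype.ext
        change cf d v K (W K) = 0
        rw [hW, if_neg hvV]
  · have hvV : v ∉ V := by
      intro h
      rw [hV, Finset.mem_filter] at h
      exact hv h.2
    rw [cf_dC, dC_eq_zero_of]
    · rfl
    · intro K _
      apply Subtype.ext
      change cf d v K (W K) = 0
      rw [hW, if_neg hvV]

omit [LinearOrder α] in
theorem vdeg_neg (hd : ∀ a, 0 < d a) {v : α → ℤ} (hv : ¬ ∃ c, 0 ≤ v c) [Nonempty α] :
    vdeg d v < 0 := by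
  push Not at hv
  unfold vdeg
  exact Finset.sum_neg (fun a _ => mul_neg_of_neg_of_pos (hv a) (hd a)) Finset.univ_nonempty

omit [LinearOrder α] in
theorem vdeg_neg_finite (hd : ∀ a, 0 < d a) (n : ℤ) :
    {v : α → ℤ | (¬ ∃ c, 0 ≤ v c) ∧ vdeg d v = n}.Finite := by
  classical
  refine (Set.finite_Icc (fun _ : α => n) (fun _ : α => (-1 : ℤ))).subset ?_
  rintro v ⟨hv, hn⟩
  push Not at hv
  rw [Set.mem_Icc]
  constructor
  · intro a
    change n ≤ v a
    rw [← hn]
    unfold vdeg
    rw [← Finset.add_sum_erase Finset.univ _ (Finset.mem_univ a)]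
    have h1 : ∑ b ∈ Finset.univ.erase a, v b * d b ≤ 0 :=
      Finset.sum_nonpos fun b _ => mul_nonpos_of_nonpos_of_nonneg (hv b).le (hd b).le
    have h2 : v a * d a ≤ v a := by
      have := hd a
      have := hv a
      nlinarith
    linarith
  · intro a
    change v a ≤ -1
    have := hv a
    omega

/-- `H^p (O(n)) = 0` for `p ≥ 1`, `n ≥ 0` -/
theorem hv_datO {d : α → ℤ} (hd : ∀ a, 0 < d a) {n : ℤ} (hn : 0 ≤ n) {p : ℕ} (hp : 1 ≤ p) :
    HV (datO B d) (polyGr B d) n p := by
  intro z hz hz'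
  obtain ⟨w, hw, hw1, hw2⟩ := lau_prim hp z hz hz'
  refine ⟨w, hw, fun J hJ => cf_inj fun v => ?_⟩
  by_cases hv : ∃ c, 0 ≤ v c
  · exact hw1 J hJ v hv
  · rw [hw2 J v hv]
    by_contra h
    have h1 := cf_deg (hz J) (Ne.symm h)
    have hJ' : J.Nonempty := nonempty_of_card hJ
    have : Nonempty α := ⟨hJ'.choose⟩
    have h2 := vdeg_neg hd hv
    omega

/-- finite generation from a finite family of cocycles -/
theorem HF.of_fintype {A : Type*} [CommRing A] {S : Type*} [CommRing S] {α : Type*}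
    [LinearOrder α] {M : Type*} [AddCommGroup M] [Module S M] [Module A M] [SMulCommClass A S M]
    {D : Dat S α} {g : Gr M} {n : ℤ} {p : ℕ} {ι : Type*} [Fintype ι]
    (Z : ι → ∀ J : Finset α, Loc (D.fJ J) M)
    (h1 : ∀ i J, LDeg g (D.fJ J) (D.dJ J) n (Z i J))
    (h2 : ∀ i J, J.card = p + 2 → dC (D.tw M) (Z i) J = 0)
    (h3 : ∀ z : ∀ J : Finset α, Loc (D.fJ J) M, (∀ J, LDeg g (D.fJ J) (D.dJ J) n (z J)) →
      (∀ J, J.card = p + 2 → dC (D.tw M) z J = 0) →
      ∃ (b : ι → A) (w : ∀ J : Finset α, Loc (D.fJ J) M),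
        (∀ J, LDeg g (D.fJ J) (D.dJ J) n (w J)) ∧
        ∀ J, J.card = p + 1 → z J = ∑ i, b i • Z i J + dC (D.tw M) w J) :
    HF A D g n p := by
  refine ⟨Fintype.card ι, fun i => Z ((Fintype.equivFin ι).symm i), fun i J => h1 _ J,
    fun i J hJ => h2 _ J hJ, fun z hz hz' => ?_⟩
  obtain ⟨b, w, hw, hw'⟩ := h3 z hz hz'
  refine ⟨fun i => b ((Fintype.equivFin ι).symm i), w, hw, fun J hJ => ?_⟩
  rw [hw' J hJ]
  congr 1
  exact (Equiv.sum_comp (Fintype.equivFin ι).symm (fun i => b i • Z i J)).symm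

/-- `H^p (O(n))` is finitely generated -/
theorem hf_datO {d : α → ℤ} (hd : ∀ a, 0 < d a) (n : ℤ) {p : ℕ} (hp : 1 ≤ p) :
    HF B (datO B d) (polyGr B d) n p := by
  classical
  let _ : Fintype {v : α → ℤ | (¬ ∃ c, 0 ≤ v c) ∧ vdeg d v = n} := (vdeg_neg_finite hd n).fintype
  have hmem : ∀ (v : α → ℤ) (b : B), (∃ a ∉ (Finset.univ : Finset α), v a < 0) → b = 0 := by
    rintro v b ⟨a, ha, -⟩
    exact absurd (Finset.mem_univ a) ha
  -- the generators
  let Z : {v : α → ℤ | (¬ ∃ c, 0 ≤ v c) ∧ vdeg d v = n} →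
      ∀ J : Finset α, Loc ((datO B d).fJ J) (MvPolynomial α B) :=
    fun v J => if J = Finset.univ then mon d J v.1 1 else 0
  refine HF.of_fintype Z ?_ ?_ ?_
  · intro v J
    change LDeg _ _ _ _ (if J = Finset.univ then mon d J v.1 1 else 0)
    split_ifs with h
    · subst h
      exact mon_lDeg (hmem v.1 1) v.2.2
    · exact ⟨0, 0, Gr.Hom.zero _ _, (fr_zero 0).symm⟩
  · intro v J hJ
    apply dC_eq_zero_of
    intro K hK
    change (if K = Finset.univ then mon d K v.1 1 else 0) = (0 : Loc _ _)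
    rw [if_neg]
    rintro rfl
    have := Finset.card_le_univ J
    rw [Finset.card_univ] at hK
    omega
  · intro z hz hz'
    obtain ⟨w, hw, hw1, hw2⟩ := lau_prim hp z hz hz'
    refine ⟨fun v => cf d v.1 Finset.univ (z Finset.univ), w, hw, fun J hJ => cf_inj fun v => ?_⟩
    rw [map_add, map_sum]
    simp only [cf_smul]
    by_cases hJu : J = Finset.univ
    · subst hJu
      have h1 : ∀ v' : {v : α → ℤ | (¬ ∃ c, 0 ≤ v c) ∧ vdeg d v = n},
          cf d v Finset.univ (Z v' Finset.univ) = if v = v'.1 then 1 else 0 := by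
        intro v'
        change cf d v Finset.univ (if Finset.univ = Finset.univ then mon d Finset.univ v'.1 1
          else 0) = _
        rw [if_pos rfl, cf_mon (hmem v'.1 1)]
      simp only [h1]
      by_cases hv : ∃ c, 0 ≤ v c
      · rw [hw1 _ hJ v hv, Finset.sum_eq_zero, zero_add]
        intro v' _
        rw [if_neg, mul_zero]
        rintro rfl
        exact v'.2.1 hv
      · rw [hw2 _ v hv, add_zero]
        by_cases hvd : vdeg d v = n
        · rw [Finset.sum_eq_single (⟨v, hv, hvd⟩ : {v : α → ℤ | (¬ ∃ c, 0 ≤ v c) ∧ vdeg d v = n})]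
          · rw [if_pos rfl, mul_one]
          · intro v' _ hne
            rw [if_neg, mul_zero]
            intro h
            exact hne (Subtype.ext h.symm)
          · intro h
            exact absurd (Finset.mem_univ _) h
        · rw [Finset.sum_eq_zero]
          · by_contra h
            exact hvd (cf_deg (hz _) h)
          · intro v' _
            rw [if_neg, mul_zero]
            rintro rfl
            exact hvd v'.2.2
    · have h1 : ∀ v' : {v : α → ℤ | (¬ ∃ c, 0 ≤ v c) ∧ vdeg d v = n},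
          cf d v J (Z v' J) = 0 := by
        intro v'
        change cf d v J (if J = Finset.univ then mon d J v'.1 1 else 0) = _
        rw [if_neg hJu, map_zero]
      simp only [h1, mul_zero, Finset.sum_const_zero, zero_add]
      by_cases hv : ∃ c, 0 ≤ v c
      · exact (hw1 _ hJ v hv).symm
      · rw [hw2 _ v hv]
        obtain ⟨a, ha⟩ : ∃ a, a ∉ J := by
          by_contra hc
          push Not at hc
          exact hJu (Finset.eq_univ_iff_forall.2 hc)
        push Not at hv
        exact cf_neg ha (hv a) _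

/-! ### free modules -/

section free

theorem dC_sum {α : Type*} [LinearOrder α] {G : Finset α → Type*} [∀ J, AddCommGroup (G J)]
    {ρ : ∀ J J' : Finset α, J.Nonempty → J ⊆ J' → G J →+ G J'} {ι : Type*} (s : Finset ι)
    (f : ι → ∀ J, G J) (J : Finset α) :
    dC ρ (fun J => ∑ i ∈ s, f i J) J = ∑ i ∈ s, dC ρ (f i) J := by
  classical
  induction s using Finset.induction_on with
  | empty =>
    simp only [Finset.sum_empty]
    exact dC_eq_zero_of fun _ _ => rfl
  | insert a s ha ih =>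
    simp only [Finset.sum_insert ha]
    rw [← ih]
    exact dC_add _ _ J

theorem fr_sum {S : Type*} [CommRing S] {s : S} {M : Type*} [AddCommGroup M] [Module S M]
    {ι : Type*} (t : Finset ι) (m : ι → M) (k : ℕ) :
    fr s (∑ i ∈ t, m i) k = ∑ i ∈ t, fr s (m i) k := by
  classical
  induction t using Finset.induction_on with
  | empty => rw [Finset.sum_empty, Finset.sum_empty, fr_zero]
  | insert a t ha ih => rw [Finset.sum_insert ha, Finset.sum_insert ha, ← ih, fr_add]

variable {r : ℕ} {e : Fin r → ℤ}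

omit [LinearOrder α] [Fintype α] in
/-- the free module is a graded module -/
theorem free_op (J : Finset α) : (freeGr B d e).Op ((datO B d).fJ J) ((datO B d).dJ J) := by
  intro n m
  funext j
  have h1 := (datO_ok (B := B) (d := d)).opJ J (n - e j) (m j)
  rw [show n - e j + (datO B d).dJ J = n + (datO B d).dJ J - e j by ring] at h1
  exact h1

omit [LinearOrder α] [Fintype α] in
/-- the component `i` of a section of the free module -/
theorem frp (B : Type u) [CommRing B] (d : α → ℤ) (r : ℕ) (i : Fin r) :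
    Cmp (datO B d) (datO B d)
      (LinearMap.proj (R := MvPolynomial α B) (φ := fun _ : Fin r => MvPolynomial α B)
        i).toAddMonoidHom :=
  cmp_linear (datO B d) _

omit [LinearOrder α] [Fintype α] in
/-- the inclusion of the component `i` -/
theorem fri (B : Type u) [CommRing B] (d : α → ℤ) (r : ℕ) (i : Fin r) :
    Cmp (datO B d) (datO B d)
      (LinearMap.single (MvPolynomial α B) (fun _ : Fin r => MvPolynomial α B)
        i).toAddMonoidHom :=
  cmp_linear (datO B d) _

omit [LinearOrder α] [Fintype α] in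
theorem free_hom {n : ℤ} {m : Fin r → MvPolynomial α B} (h : (freeGr B d e).Hom n m) (i : Fin r) :
    (polyGr B d).Hom (n + -e i) (m i) := by
  have h1 := congrFun h i
  exact h1

omit [LinearOrder α] [Fintype α] in
theorem free_single {n : ℤ} {m : MvPolynomial α B} (h : (polyGr B d).Hom n m) (i : Fin r) :
    (freeGr B d e).Hom (n + e i)
      (LinearMap.single (MvPolynomial α B) (fun _ : Fin r => MvPolynomial α B) i m) := by
  funext j
  change (polyGr B d).pr (n + e i - e j)
    ((Pi.single i m : Fin r → MvPolynomial α B) j) = (Pi.single i m : Fin r → MvPolynomial α B) j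
  by_cases hj : j = i
  · subst hj
    rw [Pi.single_eq_same, add_sub_cancel_right]
    exact h
  · rw [Pi.single_eq_of_ne hj, map_zero]

omit [LinearOrder α] [Fintype α] in
theorem frp_deg {n : ℤ} {J : Finset α}
    {z : Loc ((datO B d).fJ J) (Fin r → MvPolynomial α B)}
    (hz : LDeg (freeGr B d e) ((datO B d).fJ J) ((datO B d).dJ J) n z) (i : Fin r) :
    LDeg (polyGr B d) ((datO B d).fJ J) ((datO B d).dJ J) (n - e i) ((frp B d r i).lm J z) := by
  have := (frp B d r i).lDeg (g := freeGr B d e) (g' := polyGr B d) (δ := -e i)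
    (fun n m hm => free_hom hm i) hz
  exact this

omit [LinearOrder α] [Fintype α] in
theorem fri_deg {n : ℤ} {J : Finset α} (i : Fin r)
    {z : Loc ((datO B d).fJ J) (MvPolynomial α B)}
    (hz : LDeg (polyGr B d) ((datO B d).fJ J) ((datO B d).dJ J) (n - e i) z) :
    LDeg (freeGr B d e) ((datO B d).fJ J) ((datO B d).dJ J) n ((fri B d r i).lm J z) := by
  have := (fri B d r i).lDeg (g := polyGr B d) (g' := freeGr B d e) (δ := e i)
    (fun n m hm => free_single hm i) hz
  rw [sub_add_cancel] at this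
  exact this

omit [LinearOrder α] [Fintype α] in
theorem fri_frp (J : Finset α) (z : Loc ((datO B d).fJ J) (Fin r → MvPolynomial α B)) :
    ∑ i, (fri B d r i).lm J ((frp B d r i).lm J z) = z := by
  obtain ⟨m, k, rfl⟩ := fr_surj z
  simp only [Cmp.lm_fr]
  rw [← fr_sum]
  congr 1
  exact Finset.univ_sum_single m

omit [LinearOrder α] [Fintype α] in
theorem fri_smul (i : Fin r) (J : Finset α) (b : B)
    (z : Loc ((datO B d).fJ J) (MvPolynomial α B)) :
    (fri B d r i).lm J (b • z) = b • (fri B d r i).lm J z := by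
  obtain ⟨m, k, rfl⟩ := fr_surj z
  rw [smul_fr, Cmp.lm_fr, Cmp.lm_fr, smul_fr]
  congr 1
  exact (LinearMap.single (MvPolynomial α B)
    (fun _ : Fin r => MvPolynomial α B) i).map_smul_of_tower b m

/-- the same for a free module: vanishing for `n ≥ e j` -/
theorem hv_free {d : α → ℤ} (hd : ∀ a, 0 < d a) {r : ℕ} {e : Fin r → ℤ} {n : ℤ}
    (hn : ∀ j, e j ≤ n) {p : ℕ} (hp : 1 ≤ p) : HV (datO B d) (freeGr B d e) n p := by
  intro z hz hz'
  have h1 : ∀ i : Fin r, ∃ w : ∀ J, Loc ((datO B d).fJ J) (MvPolynomial α B),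
      (∀ J, LDeg (polyGr B d) ((datO B d).fJ J) ((datO B d).dJ J) (n - e i) (w J)) ∧
      ∀ J, J.card = p + 1 →
        dC ((datO B d).tw (MvPolynomial α B)) w J = (frp B d r i).lm J (z J) := by
    intro i
    refine hv_datO hd (sub_nonneg.2 (hn i)) hp (fun J => (frp B d r i).lm J (z J))
      (fun J => frp_deg (hz J) i) (fun J hJ => ?_)
    rw [dC_map (frp B d r i).nat, hz' J hJ, map_zero]
  choose w hw hw' using h1
  refine ⟨fun J => ∑ i, (fri B d r i).lm J (w i J), fun J => ?_, fun J hJ => ?_⟩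
  · have hop : (freeGr B d e).Op ((datO B d).fJ J) ((datO B d).dJ J) := free_op J
    have h3 : ∑ i, (fri B d r i).lm J (w i J) ∈ locDeg (freeGr B d e) hop n :=
      AddSubgroup.sum_mem _ fun i _ => fri_deg i (hw i J)
    exact h3
  · rw [dC_sum]
    conv_rhs => rw [← fri_frp J (z J)]
    refine Finset.sum_congr rfl fun i _ => ?_
    rw [dC_map (fri B d r i).nat, hw' i J hJ]

theorem hf_free {d : α → ℤ} (hd : ∀ a, 0 < d a) {r : ℕ} (e : Fin r → ℤ) (n : ℤ) {p : ℕ}
    (hp : 1 ≤ p) : HF B (datO B d) (freeGr B d e) n p := by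
  have h1 : ∀ i : Fin r, HF B (datO B d) (polyGr B d) (n - e i) p := fun i => hf_datO hd _ hp
  choose s Z hZ hZ' hZ'' using h1
  refine HF.of_fintype (ι := Σ i : Fin r, Fin (s i))
    (fun x J => (fri B d r x.1).lm J (Z x.1 x.2 J)) ?_ ?_ ?_
  · rintro ⟨i, j⟩ J
    exact fri_deg i (hZ i j J)
  · rintro ⟨i, j⟩ J hJ
    change dC _ (fun J => (fri B d r i).lm J (Z i j J)) J = 0
    rw [dC_map (fri B d r i).nat, hZ' i j J hJ, map_zero]
  · intro z hz hz'
    have h2 := fun i : Fin r => hZ'' i (fun J => (frp B d r i).lm J (z J))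
      (fun J => frp_deg (hz J) i) (fun J hJ => by
        rw [dC_map (frp B d r i).nat, hz' J hJ, map_zero])
    choose b w hw hw' using h2
    refine ⟨fun x => b x.1 x.2, fun J => ∑ i, (fri B d r i).lm J (w i J), fun J => ?_,
      fun J hJ => ?_⟩
    · have hop : (freeGr B d e).Op ((datO B d).fJ J) ((datO B d).dJ J) := free_op J
      have h3 : ∑ i, (fri B d r i).lm J (w i J) ∈ locDeg (freeGr B d e) hop n :=
        AddSubgroup.sum_mem _ fun i _ => fri_deg i (hw i J)
      exact h3
    · rw [dC_sum, Fintype.sum_sigma, ← Finset.sum_add_distrib]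
      conv_lhs => rw [← fri_frp J (z J)]
      refine Finset.sum_congr rfl fun i _ => ?_
      rw [dC_map (fri B d r i).nat, hw' i J hJ, map_add, map_sum]
      simp only [fri_smul]

end free

end Pool.Agent.Lib.MP_0b721b_ag.P2a

namespace Pool.Agent.Lib.MP_0b721b_ag

universe u

variable {α : Type} [LinearOrder α] [Fintype α] {B : Type u} [CommRing B]

/-- `H^p (O(n)) = 0` for `p ≥ 1`, `n ≥ 0` -/
theorem hv_datO {d : α → ℤ} (hd : ∀ a, 0 < d a) {n : ℤ} (hn : 0 ≤ n) {p : ℕ} (hp : 1 ≤ p) :
    HV (datO B d) (polyGr B d) n p :=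
  P2a.hv_datO hd hn hp

/-- `H^p (O(n))` is finitely generated -/
theorem hf_datO {d : α → ℤ} (hd : ∀ a, 0 < d a) (n : ℤ) {p : ℕ} (hp : 1 ≤ p) :
    HF B (datO B d) (polyGr B d) n p :=
  P2a.hf_datO hd n hp

/-- the same for a free module: vanishing for `n ≥ e j` -/
theorem hv_free {d : α → ℤ} (hd : ∀ a, 0 < d a) {r : ℕ} {e : Fin r → ℤ} {n : ℤ}
    (hn : ∀ j, e j ≤ n) {p : ℕ} (hp : 1 ≤ p) : HV (datO B d) (freeGr B d e) n p :=
  P2a.hv_free hd hn hp

theorem hf_free {d : α → ℤ} (hd : ∀ a, 0 < d a) {r : ℕ} (e : Fin r → ℤ) (n : ℤ) {p : ℕ}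
    (hp : 1 ≤ p) : HF B (datO B d) (freeGr B d e) n p :=
  P2a.hf_free hd e n hp

end Pool.Agent.Lib.MP_0b721b_ag
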