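import Pool.Agent.Lib.MP_0b721b_ag.P2a
import Pool.Agent.Lib.MP_0b721b_ag.Kl.H0

/-!
Part P2a, cohomology in degree `p = 0`: the sections of `O(n)` and of a free module are finitely
generated.
-/

namespace Pool.Agent.Lib.MP_0b721b_ag.P2a

open MvPolynomial

universe u

variable {α : Type} [LinearOrder α] [Fintype α] {B : Type u} [CommRing B]

omit [LinearOrder α] in
theorem vdeg_sec_finite {d : α → ℤ} (hd : ∀ a, 0 < d a) (n : ℤ) :
    {v : α → ℤ | vdeg d v = n ∧ ∀ c, (∃ a, a ≠ c) → 0 ≤ v c}.Finite := by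
  classical
  refine (Set.finite_Icc (fun _ : α => -|n|) (fun _ : α => |n|)).subset ?_
  rintro v ⟨hn, hv⟩
  have key : ∀ c, |v c| ≤ |n| := by
    intro c
    by_cases hc : ∃ a, a ≠ c
    · -- all exponents are nonnegative
      obtain ⟨a, ha⟩ := hc
      have hall : ∀ b, 0 ≤ v b := by
        intro b
        by_cases hb : b = c
        · subst hb
          exact hv _ ⟨a, ha⟩
        · exact hv _ ⟨c, fun h => hb h.symm⟩
      have h1 : v c * d c ≤ vdeg d v :=
        Finset.single_le_sum (f := fun a => v a * d a)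
          (fun b _ => mul_nonneg (hall b) (hd b).le) (Finset.mem_univ c)
      have h2 : v c ≤ v c * d c := le_mul_of_one_le_right (hall c) (hd c)
      rw [abs_of_nonneg (hall c)]
      exact le_trans (le_trans h2 h1) (by rw [hn]; exact le_abs_self n)
    · push Not at hc
      have h1 : vdeg d v = v c * d c := by
        unfold vdeg
        exact Finset.sum_eq_single c (fun b _ hb => absurd (hc b) hb)
          (fun h => absurd (Finset.mem_univ c) h)
      rw [← hn, h1, abs_mul]
      exact le_mul_of_one_le_right (abs_nonneg _) (by rw [abs_of_pos (hd c)]; exact hd c)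
  rw [Set.mem_Icc]
  constructor
  · intro c
    exact neg_le_of_abs_le (key c)
  · intro c
    exact le_of_abs_le (key c)

/-- `H^0 (O(n))` is finitely generated -/
theorem hf_datO0 {d : α → ℤ} (hd : ∀ a, 0 < d a) (n : ℤ) :
    HF B (datO B d) (polyGr B d) n 0 := by
  classical
  let _ : Fintype {v : α → ℤ | vdeg d v = n ∧ ∀ c, (∃ a, a ≠ c) → 0 ≤ v c} :=
    (vdeg_sec_finite hd n).fintype
  have hmem : ∀ v ∈ {v : α → ℤ | vdeg d v = n ∧ ∀ c, (∃ a, a ≠ c) → 0 ≤ v c},
      ∀ J : Finset α, J.Nonempty → (∃ a ∉ J, v a < 0) → (1 : B) = 0 := by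
    rintro v ⟨-, hv⟩ J ⟨b, hb⟩ ⟨a, ha, hlt⟩
    have := hv a ⟨b, fun h => ha (h ▸ hb)⟩
    omega
  let Z : {v : α → ℤ | vdeg d v = n ∧ ∀ c, (∃ a, a ≠ c) → 0 ≤ v c} →
      ∀ J : Finset α, Loc ((datO B d).fJ J) (MvPolynomial α B) :=
    fun v J => if J.Nonempty then mon d J v.1 1 else 0
  have hZ : ∀ v J, J.Nonempty → Z v J = mon d J v.1 1 := fun v J hJ => if_pos hJ
  refine HF.of_fintype Z ?_ ?_ ?_
  · intro v J
    by_cases hJ : J.Nonempty
    · rw [hZ v J hJ]
      exact mon_lDeg (hmem v.1 v.2 J hJ) v.2.1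
    · have h1 : Z v J = 0 := if_neg hJ
      rw [h1]
      exact ⟨0, 0, Gr.Hom.zero _ _, (fr_zero 0).symm⟩
  · intro v
    refine (cocycle_iff (Z v)).2 fun a b hab => cf_inj fun v' => ?_
    rw [cf_tw, cf_tw, hZ v _ (Finset.singleton_nonempty b), hZ v _ (Finset.singleton_nonempty a),
      cf_mon (hmem v.1 v.2 _ (Finset.singleton_nonempty b)),
      cf_mon (hmem v.1 v.2 _ (Finset.singleton_nonempty a))]
  · intro z hz hz'
    by_cases hα : Nonempty α
    swap
    · refine ⟨fun _ => 0, fun _ => 0, fun J => ⟨0, 0, Gr.Hom.zero _ _, (fr_zero 0).symm⟩,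
        fun J hJ => ?_⟩
      obtain ⟨a, -⟩ := Finset.card_eq_one.1 hJ
      exact absurd ⟨a⟩ hα
    obtain ⟨a₀⟩ := hα
    -- the coefficients do not depend on the chart
    have hlt : ∀ (v : α → ℤ) (a b : α), a < b → cf d v {b} (z {b}) = cf d v {a} (z {a}) := by
      intro v a b hab
      have h1 := congrArg (cf d v {a, b}) ((cocycle_iff z).1 hz' a b hab)
      rw [cf_tw, cf_tw] at h1
      exact h1
    have hall : ∀ (v : α → ℤ) (a b : α), cf d v {a} (z {a}) = cf d v {b} (z {b}) := by
      intro v a b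
      rcases lt_trichotomy a b with h | h | h
      · exact (hlt v a b h).symm
      · subst h
        rfl
      · exact hlt v b a h
    refine ⟨fun v => cf d v.1 {a₀} (z {a₀}), fun _ => 0,
      fun J => ⟨0, 0, Gr.Hom.zero _ _, (fr_zero 0).symm⟩, fun J hJ => ?_⟩
    obtain ⟨a, rfl⟩ := Finset.card_eq_one.1 hJ
    have h0 : dC ((datO B d).tw (MvPolynomial α B))
        (fun J => (0 : Loc ((datO B d).fJ J) (MvPolynomial α B))) {a} = 0 :=
      dC_eq_zero_of fun _ _ => rfl
    rw [h0, add_zero]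
    refine cf_inj fun v => ?_
    rw [map_sum]
    simp only [cf_smul]
    have h1 : ∀ v' : {v : α → ℤ | vdeg d v = n ∧ ∀ c, (∃ a, a ≠ c) → 0 ≤ v c},
        cf d v {a} (Z v' {a}) = if v = v'.1 then 1 else 0 := by
      intro v'
      rw [hZ v' _ (Finset.singleton_nonempty a),
        cf_mon (hmem v'.1 v'.2 _ (Finset.singleton_nonempty a))]
    simp only [h1]
    by_cases hv : vdeg d v = n ∧ ∀ c, (∃ a, a ≠ c) → 0 ≤ v c
    · rw [Finset.sum_eq_single
        (⟨v, hv⟩ : {v : α → ℤ | vdeg d v = n ∧ ∀ c, (∃ a, a ≠ c) → 0 ≤ v c})]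
      · rw [if_pos rfl, mul_one]
        exact hall v a a₀
      · intro v' _ hne
        rw [if_neg, mul_zero]
        intro h
        exact hne (Subtype.ext h.symm)
      · intro h
        exact absurd (Finset.mem_univ _) h
    · rw [Finset.sum_eq_zero]
      · by_contra h
        apply hv
        refine ⟨cf_deg (hz _) h, fun c hc => ?_⟩
        obtain ⟨b, hb⟩ := hc
        by_contra hneg
        apply h
        rw [hall v a b]
        refine cf_neg (a := c) ?_ (not_le.1 hneg) _
        rw [Finset.mem_singleton]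
        exact fun h' => hb h'.symm
      · intro v' _
        rw [if_neg, mul_zero]
        rintro rfl
        exact hv v'.2

/-- finite generation for a free module from the finite generation for its components -/
theorem hf_free_of {d : α → ℤ} {r : ℕ} {e : Fin r → ℤ} {n : ℤ} {p : ℕ}
    (h1 : ∀ i : Fin r, HF B (datO B d) (polyGr B d) (n - e i) p) :
    HF B (datO B d) (freeGr B d e) n p := by
  choose s Z hZ hZ' hZ'' using h1
  refine HF.of_fintype (ι := Σ i : Fin r, Fin (s i))
    (fun x J => (fri B d r x.1).lm J (Z x.1 x.2 J)) ?_ ?_ ?_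
  · rintro ⟨i, j⟩ J
    exact fri_deg i (hZ i j J)
  · rintro ⟨i, j⟩ J hJ
    change dC _ (fun J => (fri B d r i).lm J (Z i j J)) J = 0
    rw [dC_map (fri B d r i).nat, hZ' i j J hJ, map_zero]
  · intro z hz hz'
    have h2 := fun i : Fin r => hZ'' i (fun J => (frp B d r i).lm J (z J))
      (fun J => frp_deg (hz J) i) (fun J hJ => by
        rw [dC_map (frp B d r i).nat, hz' J hJ, map_zero])
    choose b w hw hw' using h2
    refine ⟨fun x => b x.1 x.2, fun J => ∑ i, (fri B d r i).lm J (w i J), fun J => ?_,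
      fun J hJ => ?_⟩
    · have hop : (freeGr B d e).Op ((datO B d).fJ J) ((datO B d).dJ J) := free_op J
      have h3 : ∑ i, (fri B d r i).lm J (w i J) ∈ locDeg (freeGr B d e) hop n :=
        AddSubgroup.sum_mem _ fun i _ => fri_deg i (hw i J)
      exact h3
    · rw [dC_sum, Fintype.sum_sigma, ← Finset.sum_add_distrib]
      conv_lhs => rw [← fri_frp J (z J)]
      refine Finset.sum_congr rfl fun i _ => ?_
      rw [dC_map (fri B d r i).nat, hw' i J hJ, map_add, map_sum]
      simp only [fri_smul]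

end Pool.Agent.Lib.MP_0b721b_ag.P2a

namespace Pool.Agent.Lib.MP_0b721b_ag

universe u

variable {α : Type} [LinearOrder α] [Fintype α] {B : Type u} [CommRing B]

/-- `H^0 (O(n))` is finitely generated -/
theorem hf_datO0 {d : α → ℤ} (hd : ∀ a, 0 < d a) (n : ℤ) :
    HF B (datO B d) (polyGr B d) n 0 :=
  P2a.hf_datO0 hd n

/-- the same for a free module -/
theorem hf_free0 {d : α → ℤ} (hd : ∀ a, 0 < d a) {r : ℕ} (e : Fin r → ℤ) (n : ℤ) :
    HF B (datO B d) (freeGr B d e) n 0 :=
  P2a.hf_free_of fun i => P2a.hf_datO0 hd (n - e i)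

end Pool.Agent.Lib.MP_0b721b_ag
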