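import Pool.Agent.Lib.MP_0b721b_ag.HF

/-!
Part P2a: coefficients of the Laurent polynomials in `Loc (∏ a ∈ J, X a) T`.
-/

namespace Pool.Agent.Lib.MP_0b721b_ag.P2a

open MvPolynomial

universe u

section zc

variable {α : Type} [Fintype α] {B : Type u} [CommRing B]

/-- the exponent with the integer entries `u` (if they are nonnegative) -/
noncomputable def zex (u : α → ℤ) : α →₀ ℕ := Finsupp.equivFunOnFinite.symm fun a => (u a).toNat

theorem zex_apply (u : α → ℤ) (a : α) : zex u a = (u a).toNat := rfl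

open Classical in
/-- the coefficient at an exponent with integer entries -/
noncomputable def zc (u : α → ℤ) (m : MvPolynomial α B) : B :=
  if ∀ a, 0 ≤ u a then coeff (zex u) m else 0

theorem zc_add (u : α → ℤ) (m m' : MvPolynomial α B) : zc u (m + m') = zc u m + zc u m' := by
  unfold zc
  split_ifs
  · exact coeff_add _ _ _
  · rw [add_zero]

theorem zc_smul (u : α → ℤ) (b : B) (m : MvPolynomial α B) : zc u (b • m) = b * zc u m := by
  unfold zc
  split_ifs
  · rw [coeff_smul, smul_eq_mul]
  · rw [mul_zero]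

/-- multiplication by a monomial shifts the coefficients -/
theorem zc_mul (u : α → ℤ) (l : α →₀ ℕ) (m : MvPolynomial α B) :
    zc (fun a => u a + l a) (monomial l 1 * m) = zc u m := by
  classical
  unfold zc
  by_cases h : ∀ a, 0 ≤ u a
  · rw [if_pos h, if_pos (fun a => add_nonneg (h a) (Int.natCast_nonneg _))]
    have e : zex (fun a => u a + l a) = l + zex u := by
      ext a
      rw [zex_apply, Finsupp.add_apply, zex_apply]
      have := h a
      omega
    rw [e, coeff_monomial_mul, one_mul]
  · rw [if_neg h]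
    split_ifs with h'
    · rw [coeff_monomial_mul', if_neg]
      intro hl
      apply h
      intro a
      have h1 := hl a
      rw [zex_apply] at h1
      have h2 : 0 ≤ u a + l a := h' a
      omega
    · rfl

theorem zc_monomial (u : α → ℤ) (l : α →₀ ℕ) (b : B) [Decidable (u = fun a => (l a : ℤ))] :
    zc u (monomial l b) = if u = fun a => (l a : ℤ) then b else 0 := by
  classical
  unfold zc
  by_cases h : u = fun a => (l a : ℤ)
  · subst h
    rw [if_pos rfl, if_pos (fun a => Int.natCast_nonneg _)]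
    have e : zex (fun a => (l a : ℤ)) = l := by
      ext a
      rw [zex_apply, Int.toNat_natCast]
    rw [e, coeff_monomial, if_pos rfl]
  · rw [if_neg h]
    split_ifs with h'
    · rw [coeff_monomial, if_neg]
      rintro rfl
      apply h
      funext a
      rw [zex_apply]
      have := h' a
      omega
    · rfl

end zc

section cf

variable {α : Type} [LinearOrder α] [Fintype α] {B : Type u} [CommRing B] (d : α → ℤ)

/-- the exponent of `∏ a ∈ J, X a` -/
noncomputable def eJ (J : Finset α) : α →₀ ℕ := ∑ a ∈ J, Finsupp.single a 1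

omit [Fintype α] in
theorem eJ_apply (J : Finset α) (a : α) : eJ J a = if a ∈ J then 1 else 0 := by
  unfold eJ
  rw [Finsupp.finsetSum_apply]
  simp only [Finsupp.single_apply]
  rw [Finset.sum_ite_eq' J a (fun _ => 1)]

omit [Fintype α] [LinearOrder α] in
theorem datO_fJ (J : Finset α) :
    (datO B d).fJ J = monomial (eJ J) 1 := by
  unfold Dat.fJ datO eJ
  rw [monomial_sum_one]
  rfl

omit [Fintype α] [LinearOrder α] in
theorem datO_fJ_pow (J : Finset α) (k : ℕ) :
    (datO B d).fJ J ^ k = monomial (k • eJ J) 1 := by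
  rw [datO_fJ, monomial_pow, one_pow]

/-- `v + k e_J` -/
def vk (v : α → ℤ) (J : Finset α) (k : ℕ) : α → ℤ := fun a => v a + (k * (if a ∈ J then 1 else 0) : ℤ)

/-- the coefficient of the Laurent monomial `v` -/
noncomputable def cf (v : α → ℤ) (J : Finset α) :
    Loc ((datO B d).fJ J) (MvPolynomial α B) →+ B :=
  AddMonoidHom.mk' (locLift (fun m k => zc (vk v J k) m) (by
    have key : ∀ (m : MvPolynomial α B) (k l : ℕ),
        zc (vk v J (k + l)) ((datO B d).fJ J ^ l • m) = zc (vk v J k) m := by
      intro m k l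
      rw [datO_fJ_pow, smul_eq_mul, ← zc_mul (vk v J k) (l • eJ J) m]
      congr 1
      funext a
      unfold vk
      rw [Finsupp.smul_apply, eJ_apply]
      push_cast
      split_ifs
      · simp
        ring
      · simp
    intro m m' k k' j h
    rw [← key m k (j + k'), ← key m' k' (j + k), h]
    congr 2
    omega)) (by
    intro z z'
    obtain ⟨a, b, k, rfl, rfl⟩ := fr_surj₂ z z'
    rw [fr_add, locLift_fr, locLift_fr, locLift_fr, zc_add])

theorem cf_fr (v : α → ℤ) (J : Finset α) (m : MvPolynomial α B) (k : ℕ) :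
    cf d v J (fr _ m k) = zc (vk v J k) m := rfl

variable {d}

theorem cf_smul (v : α → ℤ) (J : Finset α) (b : B) (z : Loc ((datO B d).fJ J) (MvPolynomial α B)) :
    cf d v J (b • z) = b * cf d v J z := by
  obtain ⟨m, k, rfl⟩ := fr_surj z
  rw [smul_fr, cf_fr, cf_fr, zc_smul]

/-- a Laurent monomial without denominators outside of `J` -/
theorem cf_neg {v : α → ℤ} {J : Finset α} {a : α} (ha : a ∉ J) (hv : v a < 0)
    (z : Loc ((datO B d).fJ J) (MvPolynomial α B)) : cf d v J z = 0 := by
  obtain ⟨m, k, rfl⟩ := fr_surj z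
  rw [cf_fr]
  unfold zc
  rw [if_neg]
  intro h
  have := h a
  unfold vk at this
  rw [if_neg ha] at this
  simp at this
  omega

theorem cf_ext {J : Finset α} {z : Loc ((datO B d).fJ J) (MvPolynomial α B)}
    (h : ∀ v, cf d v J z = 0) : z = 0 := by
  obtain ⟨m, k, rfl⟩ := fr_surj z
  have hm : m = 0 := by
    apply MvPolynomial.ext
    intro l
    have h1 := h (fun a => (l a : ℤ) - (k * (if a ∈ J then 1 else 0) : ℤ))
    rw [cf_fr] at h1
    unfold zc vk at h1
    rw [if_pos (fun a => by dsimp only; rw [sub_add_cancel]; exact Int.natCast_nonneg _)] at h1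
    rw [coeff_zero, ← h1]
    congr 1
    ext a
    rw [zex_apply, sub_add_cancel, Int.toNat_natCast]
  rw [hm, fr_zero]

theorem cf_inj {J : Finset α} {z z' : Loc ((datO B d).fJ J) (MvPolynomial α B)}
    (h : ∀ v, cf d v J z = cf d v J z') : z = z' := by
  rw [← sub_eq_zero]
  apply cf_ext
  intro v
  rw [map_sub, h, sub_self]

/-- the restrictions do not change the coefficients -/
theorem cf_tw (v : α → ℤ) {J J' : Finset α} (h0 : J.Nonempty) (hs : J ⊆ J')
    (z : Loc ((datO B d).fJ J) (MvPolynomial α B)) :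
    cf d v J' ((datO B d).tw (MvPolynomial α B) J J' h0 hs z) = cf d v J z := by
  obtain ⟨m, k, rfl⟩ := fr_surj z
  unfold Dat.tw Dat.U Dat.res
  rw [AddMonoidHom.comp_apply, locRes_fr, opm_fr, cf_fr, cf_fr]
  have e1 : (datO B d).v (J'.min' (h0.mono hs)) (J.min' h0) *
      ((datO B d).fJ (J'.erase (J'.min' (h0.mono hs))) * (datO B d).fJ (J'.erase (J.min' h0))) ^
        (datO B d).t = 1 := by
    change (1 : MvPolynomial α B) * _ ^ 0 = 1
    rw [pow_zero, one_mul]
  have e2 : k + 2 * (datO B d).t = k := by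
    change k + 2 * 0 = k
    omega
  rw [e1, one_smul, e2, datO_fJ_pow, smul_eq_mul, ← zc_mul (vk v J k) (k • eJ (J' \ J)) m]
  congr 1
  funext a
  unfold vk
  rw [Finsupp.smul_apply, eJ_apply]
  by_cases h1 : a ∈ J
  · have h2 := hs h1
    simp [h1, h2]
  · by_cases h2 : a ∈ J'
    · simp [h1, h2]
    · simp [h1, h2]

theorem cf_finite (J : Finset α) (z : Loc ((datO B d).fJ J) (MvPolynomial α B)) :
    {v | cf d v J z ≠ 0}.Finite := by
  obtain ⟨m, k, rfl⟩ := fr_surj z
  refine (m.support.finite_toSet.image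
    (fun l => fun a => (l a : ℤ) - (k * (if a ∈ J then 1 else 0) : ℤ))).subset ?_
  intro v hv
  change zc (vk v J k) m ≠ 0 at hv
  unfold zc at hv
  split_ifs at hv with h
  · refine ⟨zex (vk v J k), ?_, ?_⟩
    · rw [Finset.mem_coe, mem_support_iff]
      exact hv
    · funext a
      dsimp only
      rw [zex_apply]
      have := h a
      rw [Int.toNat_of_nonneg this]
      unfold vk
      ring
  · exact absurd rfl hv

/-- the degree of a Laurent monomial -/
def vdeg (d v : α → ℤ) : ℤ := ∑ a, v a * d a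

omit [LinearOrder α] in
theorem weight_zex {u : α → ℤ} (h : ∀ a, 0 ≤ u a) : Finsupp.weight d (zex u) = vdeg d u := by
  rw [Finsupp.weight_apply, Finsupp.sum_fintype _ _ (by intro i; simp)]
  unfold vdeg
  refine Finset.sum_congr rfl fun a _ => ?_
  rw [zex_apply, nsmul_eq_mul]
  congr 1
  exact Int.toNat_of_nonneg (h a)

theorem vdeg_vk (v : α → ℤ) (J : Finset α) (k : ℕ) :
    vdeg d (vk v J k) = vdeg d v + k * (datO B d).dJ J := by
  unfold vdeg vk Dat.dJ datO
  simp only [add_mul, Finset.sum_add_distrib]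
  congr 1
  rw [Finset.mul_sum, ← Finset.sum_filter_add_sum_filter_not Finset.univ (fun a => a ∈ J)]
  have h1 : ∑ a ∈ Finset.univ.filter (fun a => a ∉ J), (k : ℤ) * (if a ∈ J then 1 else 0) * d a =
      0 := by
    refine Finset.sum_eq_zero fun a ha => ?_
    rw [if_neg (Finset.mem_filter.1 ha).2]
    ring
  rw [h1, add_zero, Finset.filter_mem_eq_inter, Finset.univ_inter]
  refine Finset.sum_congr rfl fun a ha => ?_
  rw [if_pos ha]
  ring

theorem cf_deg {J : Finset α} {n : ℤ} {z : Loc ((datO B d).fJ J) (MvPolynomial α B)}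
    (hz : LDeg (polyGr B d) ((datO B d).fJ J) ((datO B d).dJ J) n z) {v : α → ℤ}
    (hv : cf d v J z ≠ 0) : vdeg d v = n := by
  obtain ⟨k, m, hm, rfl⟩ := hz
  rw [cf_fr] at hv
  unfold zc at hv
  split_ifs at hv with h
  · have h1 := polyGr_hom_iff.1 hm hv
    rw [weight_zex h, vdeg_vk (B := B)] at h1
    linarith
  · exact absurd rfl hv

/-- the bound for the denominators of the Laurent monomial `v` -/
def kv (v : α → ℤ) : ℕ := ∑ a, (v a).natAbs

omit [LinearOrder α] in
theorem le_kv (v : α → ℤ) (a : α) : 0 ≤ v a + kv v := by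
  have h1 : (v a).natAbs ≤ kv v :=
    Finset.single_le_sum (f := fun a => (v a).natAbs) (fun _ _ => Nat.zero_le _)
      (Finset.mem_univ a)
  omega

variable (d) in
/-- the Laurent monomial `v` with the coefficient `b` -/
noncomputable def mon (J : Finset α) (v : α → ℤ) (b : B) :
    Loc ((datO B d).fJ J) (MvPolynomial α B) :=
  fr _ (monomial (zex (vk v J (kv v))) b) (kv v)

theorem mon_zero (J : Finset α) (v : α → ℤ) : mon (B := B) d J v 0 = 0 := by
  unfold mon
  rw [map_zero, fr_zero]

theorem vk_nonneg {v : α → ℤ} {J : Finset α} (h : ∀ a ∉ J, 0 ≤ v a) (a : α) :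
    0 ≤ vk v J (kv v) a := by
  unfold vk
  by_cases ha : a ∈ J
  · rw [if_pos ha, mul_one]
    exact le_kv v a
  · rw [if_neg ha, mul_zero, add_zero]
    exact h a ha

open Classical in
theorem cf_mon {J : Finset α} {v : α → ℤ} {b : B} (h : (∃ a ∉ J, v a < 0) → b = 0)
    (v' : α → ℤ) : cf d v' J (mon d J v b) = if v' = v then b else 0 := by
  by_cases hb : ∃ a ∉ J, v a < 0
  · rw [h hb, mon_zero, map_zero, ite_self]
  · push Not at hb
    unfold mon
    rw [cf_fr, zc_monomial]
    have e : (vk v' J (kv v) = fun a => ((zex (vk v J (kv v)) a : ℕ) : ℤ)) ↔ v' = v := by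
      constructor
      · intro he
        funext a
        have h1 := congrFun he a
        rw [zex_apply, Int.toNat_of_nonneg (vk_nonneg hb a)] at h1
        unfold vk at h1
        linarith
      · rintro rfl
        funext a
        rw [zex_apply, Int.toNat_of_nonneg (vk_nonneg hb a)]
    simp only [e]

theorem mon_lDeg {J : Finset α} {v : α → ℤ} {b : B} (h : (∃ a ∉ J, v a < 0) → b = 0) {n : ℤ}
    (hn : vdeg d v = n) :
    LDeg (polyGr B d) ((datO B d).fJ J) ((datO B d).dJ J) n (mon d J v b) := by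
  by_cases hb : ∃ a ∉ J, v a < 0
  · rw [h hb, mon_zero]
    exact ⟨0, 0, Gr.Hom.zero _ _, (fr_zero 0).symm⟩
  · push Not at hb
    refine ⟨kv v, _, polyGr_hom_iff.2 (isWeightedHomogeneous_monomial _ _ _ ?_), rfl⟩
    rw [weight_zex (vk_nonneg hb), vdeg_vk (B := B), hn]

omit [LinearOrder α] [Fintype α] in
/-- the structure sheaf satisfies the compatibilities -/
theorem datO_ok : (datO B d).Ok (polyGr B d) where
  opf a := polyGr_op (polyGr_X d a)
  opv a b := by
    have h1 := Gr.Op.one (S := MvPolynomial α B) (polyGr B d)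
    have h2 : (((datO B d).t : ℕ) : ℤ) * ((datO B d).d a + (datO B d).d b) = 0 := by
      change ((0 : ℕ) : ℤ) * _ = 0
      simp
    rw [h2]
    exact h1
  self a m := ⟨0, by
    change (X a : MvPolynomial α B) ^ 0 • (1 : MvPolynomial α B) • m =
      (X a : MvPolynomial α B) ^ 0 • (X a : MvPolynomial α B) ^ (2 * 0) • m
    simp⟩
  cocy a b c m := ⟨0, by
    change (X a * X b * X c : MvPolynomial α B) ^ 0 • ((1 : MvPolynomial α B) * 1) • m =
      (X a * X b * X c : MvPolynomial α B) ^ 0 • (1 * (X b : MvPolynomial α B) ^ (2 * 0)) • m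
    simp⟩

end cf

end Pool.Agent.Lib.MP_0b721b_ag.P2a
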