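import Pool.Agent.Lib.MP_0b721b_ag.HF

/-!
Part P2b: finitely many homogeneous global sections of a coherent graded sheaf generate it.
-/

namespace Pool.Agent.Lib.MP_0b721b_ag

open MvPolynomial

universe u

variable {α : Type} [LinearOrder α] [Fintype α] {B : Type u} [CommRing B] {d : α → ℤ}
  {G : Finset α → Type u} [∀ J, AddCommGroup (G J)] [∀ J, Module (MvPolynomial α B) (G J)]
  {g : ∀ J, Gr (G J)} {ρ : ∀ J J' : Finset α, J.Nonempty → J ⊆ J' → G J →+ G J'}

omit [Fintype α] in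
/-- the restriction from `J` to `J` is the identity -/
theorem p2b_self (h : Sh (B := B) d g ρ) (J : Finset α) (h0 : J.Nonempty) (hs : J ⊆ J) (z : G J) :
    ρ J J h0 hs z = z := by
  have h1 : ρ J J h0 hs (ρ J J h0 hs z - z) = 0 := by
    rw [map_sub, h.fct, sub_self]
  obtain ⟨k, hk⟩ := h.linj J J h0 hs _ h1
  rw [Finset.sdiff_self, Finset.prod_empty, one_pow, one_smul, sub_eq_zero] at hk
  exact hk

omit [Fintype α] in
theorem p2b_linj (h : Sh (B := B) d g ρ) (a : α) (J J' : Finset α) (h0 : J.Nonempty)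
    (hs : J ⊆ J') (hJ : J' ⊆ insert a J) (z : G J) (hz : ρ J J' h0 hs z = 0) :
    ∀ᶠ k : ℕ in Filter.atTop, (X a : MvPolynomial α B) ^ k • z = 0 := by
  obtain ⟨k, hk⟩ := h.linj J J' h0 hs z hz
  have h1 : J' \ J ⊆ {a} := by
    intro b hb
    rw [Finset.mem_sdiff] at hb
    rcases Finset.mem_insert.1 (hJ hb.1) with h2 | h2
    · exact Finset.mem_singleton.2 h2
    · exact absurd h2 hb.2
  refine Filter.eventually_atTop.2 ⟨k, fun m hm => ?_⟩
  rcases Finset.subset_singleton_iff.1 h1 with h2 | h2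
  · rw [h2, Finset.prod_empty, one_pow, one_smul] at hk
    rw [hk, smul_zero]
  · rw [h2, Finset.prod_singleton] at hk
    rw [← Nat.sub_add_cancel hm, pow_add, mul_smul, hk, smul_zero]

omit [Fintype α] in
theorem p2b_lsurj (h : Sh (B := B) d g ρ) (a : α) (J J' : Finset α) (h0 : J.Nonempty)
    (hs : J ⊆ J') (hJ : J' ⊆ insert a J) (z : G J') :
    ∀ᶠ k : ℕ in Filter.atTop, ∃ z' : G J, ρ J J' h0 hs z' = (X a : MvPolynomial α B) ^ k • z := by
  obtain ⟨k, z', hz'⟩ := h.lsurj J J' h0 hs z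
  have h1 : J' \ J ⊆ {a} := by
    intro b hb
    rw [Finset.mem_sdiff] at hb
    rcases Finset.mem_insert.1 (hJ hb.1) with h2 | h2
    · exact Finset.mem_singleton.2 h2
    · exact absurd h2 hb.2
  refine Filter.eventually_atTop.2 ⟨k, fun m hm => ?_⟩
  rcases Finset.subset_singleton_iff.1 h1 with h2 | h2
  · rw [h2, Finset.prod_empty, one_pow, one_smul] at hz'
    exact ⟨(X a : MvPolynomial α B) ^ m • z', by rw [h.lin, hz']⟩
  · rw [h2, Finset.prod_singleton] at hz'
    refine ⟨(X a : MvPolynomial α B) ^ (m - k) • z', ?_⟩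
    rw [h.lin, hz', ← mul_smul, ← pow_add, Nat.sub_add_cancel hm]

/-- `X a ^ k • x` extends to a global section for large `k` -/
theorem p2b_ext (h : Sh (B := B) d g ρ) (a : α) (x : G {a}) :
    ∃ (k : ℕ) (s : ∀ J, G J), (∀ J J' h0 hs, ρ J J' h0 hs (s J) = s J') ∧
      s {a} = (X a : MvPolynomial α B) ^ k • x := by
  classical
  have ha : ∀ b : α, ({a} : Finset α) ⊆ insert a {b} := fun b => by simp
  have hb : ∀ b : α, ({b} : Finset α) ⊆ insert a {b} := fun b => by simp
  have h1 : ∀ᶠ k : ℕ in Filter.atTop, ∀ b : α, ∃ z' : G {b},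
      ρ {b} (insert a {b}) (Finset.singleton_nonempty b) (hb b) z' =
        (X a : MvPolynomial α B) ^ k •
          ρ {a} (insert a {b}) (Finset.singleton_nonempty a) (ha b) x :=
    Filter.eventually_all.2 fun b => p2b_lsurj h a _ _ _ _ subset_rfl _
  obtain ⟨k, hk⟩ := h1.exists
  choose z hz using hk
  have hbc : ∀ b c : α, ({b} : Finset α) ⊆ {b, c} := fun b c => by simp
  have hcb : ∀ b c : α, ({c} : Finset α) ⊆ {b, c} := fun b c => by simp
  have h2 : ∀ b c : α, ∀ᶠ m : ℕ in Filter.atTop, (X a : MvPolynomial α B) ^ m •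
      (ρ {b} {b, c} (Finset.singleton_nonempty b) (hbc b c) (z b) -
        ρ {c} {b, c} (Finset.singleton_nonempty c) (hcb b c) (z c)) = 0 := by
    intro b c
    refine p2b_linj h a {b, c} (insert a {b, c}) (by simp) (by simp) subset_rfl _ ?_
    have e1 : ({b} : Finset α) ⊆ insert a {b, c} := by simp
    have e2 : ({c} : Finset α) ⊆ insert a {b, c} := by simp
    have e3 : insert a {b} ⊆ insert a ({b, c} : Finset α) :=
      Finset.insert_subset_insert _ (hbc b c)
    have e4 : insert a {c} ⊆ insert a ({b, c} : Finset α) :=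
      Finset.insert_subset_insert _ (hcb b c)
    rw [map_sub, h.fct, h.fct,
      ← h.fct {b} (insert a {b}) _ (Finset.singleton_nonempty b) (by simp) (hb b) e3,
      ← h.fct {c} (insert a {c}) _ (Finset.singleton_nonempty c) (by simp) (hb c) e4, hz, hz,
      h.lin, h.lin, h.fct, h.fct, sub_self]
  have h3 : ∀ᶠ m : ℕ in Filter.atTop, ∀ b c : α, (X a : MvPolynomial α B) ^ m •
      (ρ {b} {b, c} (Finset.singleton_nonempty b) (hbc b c) (z b) -
        ρ {c} {b, c} (Finset.singleton_nonempty c) (hcb b c) (z c)) = 0 :=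
    Filter.eventually_all.2 fun b => Filter.eventually_all.2 fun c => h2 b c
  obtain ⟨m, hm⟩ := h3.exists
  have hm' : ∀ b c : α, ρ {b} {b, c} (Finset.singleton_nonempty b) (hbc b c)
      ((X a : MvPolynomial α B) ^ m • z b) = ρ {c} {b, c} (Finset.singleton_nonempty c) (hcb b c)
      ((X a : MvPolynomial α B) ^ m • z c) := by
    intro b c
    have := hm b c
    rw [smul_sub, sub_eq_zero] at this
    rw [h.lin, h.lin, this]
  -- the section
  let s : ∀ J, G J := fun J =>
    if hJ : J.Nonempty then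
      ρ {hJ.choose} J (Finset.singleton_nonempty _) (Finset.singleton_subset_iff.2 hJ.choose_spec)
        ((X a : MvPolynomial α B) ^ m • z hJ.choose)
    else 0
  have hs : ∀ (J : Finset α) (b : α) (hbJ : b ∈ J), s J =
      ρ {b} J (Finset.singleton_nonempty _) (Finset.singleton_subset_iff.2 hbJ)
        ((X a : MvPolynomial α B) ^ m • z b) := by
    intro J b hbJ
    have hJ : J.Nonempty := ⟨b, hbJ⟩
    have h4 : s J = ρ {hJ.choose} J (Finset.singleton_nonempty _)
        (Finset.singleton_subset_iff.2 hJ.choose_spec)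
        ((X a : MvPolynomial α B) ^ m • z hJ.choose) := dif_pos hJ
    rw [h4]
    have h5 : ({hJ.choose, b} : Finset α) ⊆ J := by
      intro c hc
      rcases Finset.mem_insert.1 hc with h6 | h6
      · rw [h6]
        exact hJ.choose_spec
      · rw [Finset.mem_singleton.1 h6]
        exact hbJ
    rw [← h.fct {hJ.choose} {hJ.choose, b} J (Finset.singleton_nonempty _) (by simp)
      (hbc _ _) h5, hm', h.fct]
  refine ⟨m + k, s, ?_, ?_⟩
  · intro J J' h0 hJJ
    obtain ⟨b, hbJ⟩ := h0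
    rw [hs J b hbJ, hs J' b (hJJ hbJ), h.fct]
  · rw [hs {a} a (Finset.mem_singleton_self a), p2b_self h, pow_add, mul_smul]
    congr 1
    have h4 := hz a
    rw [← h.lin] at h4
    have h5 : ρ {a} (insert a {a}) (Finset.singleton_nonempty a) (hb a)
        (z a - (X a : MvPolynomial α B) ^ k • x) = 0 := by
      rw [map_sub, sub_eq_zero]
      exact h4
    obtain ⟨j, hj⟩ := h.linj _ _ _ _ _ h5
    have h6 : insert a {a} \ {a} = (∅ : Finset α) := by simp
    rw [h6, Finset.prod_empty, one_pow, one_smul, sub_eq_zero] at hj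
    exact hj

/-- the homogeneous version -/
theorem p2b_ext' (h : Sh (B := B) d g ρ) (a : α) (n : ℤ) (x : G {a}) (hx : (g {a}).Hom n x) :
    ∃ (k : ℕ) (e : ℤ) (s : ∀ J, G J), (∀ J, (g J).Hom e (s J)) ∧
      (∀ J J' h0 hs, ρ J J' h0 hs (s J) = s J') ∧
      s {a} = (X a : MvPolynomial α B) ^ k • x := by
  obtain ⟨k, s, h1, h2⟩ := p2b_ext h a x
  refine ⟨k, n + k * d a, fun J => (g J).pr (n + k * d a) (s J), fun J => (g J).hom_pr _ _,
    fun J J' h0 hs => ?_, ?_⟩
  · rw [h.gρ, h1]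
  · change (g {a}).pr (n + k * d a) (s {a}) = _
    rw [h2]
    exact (h.gmod {a} _ _ (polyGr_pow (polyGr_X d a) k)).hom hx

/-- the saturation of a submodule -/
def p2b_sat {S M : Type*} [CommRing S] [AddCommGroup M] [Module S M] (f : S)
    (N : Submodule S M) : Submodule S M where
  carrier := {z | ∃ k : ℕ, f ^ k • z ∈ N}
  zero_mem' := ⟨0, by simp⟩
  add_mem' := by
    rintro z z' ⟨k, hk⟩ ⟨l, hl⟩
    refine ⟨k + l, ?_⟩
    rw [smul_add]
    refine N.add_mem ?_ ?_
    · rw [add_comm, pow_add, mul_smul]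
      exact N.smul_mem _ hk
    · rw [pow_add, mul_smul]
      exact N.smul_mem _ hl
  smul_mem' := by
    rintro c z ⟨k, hk⟩
    refine ⟨k, ?_⟩
    rw [smul_comm]
    exact N.smul_mem _ hk

/-- homogeneous global sections which generate all `G J` up to powers of the coordinates -/
theorem Sh.gen (h : Sh (B := B) d g ρ) :
    ∃ (r : ℕ) (e : Fin r → ℤ) (s : Fin r → ∀ J, G J),
      (∀ j J, (g J).Hom (e j) (s j J)) ∧
      (∀ j J J' h0 hs, ρ J J' h0 hs (s j J) = s j J') ∧
      ∀ J : Finset α, J.Nonempty → ∀ z : G J, ∃ (k : ℕ) (c : Fin r → MvPolynomial α B),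
        (∏ a ∈ J, (X a : MvPolynomial α B)) ^ k • z = ∑ j, c j • s j J := by
  classical
  choose S hS using h.fin
  have hfin : ∀ (a : α) (x : G {a}), Finite {n : ℤ // (g {a}).pr n x ≠ 0} :=
    fun a x => ((g {a}).fin x).to_subtype
  obtain ⟨r, ⟨φ⟩⟩ := Finite.exists_equiv_fin
    (Σ (a : α) (x : S a), {n : ℤ // (g {a}).pr n (x : G {a}) ≠ 0})
  have hex : ∀ i : (Σ (a : α) (x : S a), {n : ℤ // (g {a}).pr n (x : G {a}) ≠ 0}),
      ∃ (k : ℕ) (e : ℤ) (s : ∀ J, G J), (∀ J, (g J).Hom e (s J)) ∧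
      (∀ J J' h0 hs, ρ J J' h0 hs (s J) = s J') ∧
      s {i.1} = (X i.1 : MvPolynomial α B) ^ k • (g {i.1}).pr i.2.2.1 (i.2.1 : G {i.1}) :=
    fun i => p2b_ext' h i.1 i.2.2.1 _ ((g {i.1}).hom_pr _ _)
  choose k e s h1 h2 h3 using hex
  refine ⟨r, fun j => e (φ.symm j), fun j => s (φ.symm j), fun j J => h1 _ J,
    fun j J J' h0 hs => h2 _ J J' h0 hs, ?_⟩
  -- generation on the sets with one element
  have hW : ∀ (a : α) (z : G {a}), ∃ m : ℕ, (X a : MvPolynomial α B) ^ m • z ∈
      Submodule.span (MvPolynomial α B) (Set.range fun j => s (φ.symm j) {a}) := by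
    intro a z
    set N := Submodule.span (MvPolynomial α B) (Set.range fun j => s (φ.symm j) {a}) with hN
    have hx : ∀ x ∈ S a, x ∈ p2b_sat (X a : MvPolynomial α B) N := by
      intro x hxS
      have h4 : ∀ n : ℤ, (g {a}).pr n x ∈ p2b_sat (X a : MvPolynomial α B) N := by
        intro n
        by_cases hn : (g {a}).pr n x = 0
        · rw [hn]
          exact Submodule.zero_mem _
        · let i : (Σ (a : α) (x : S a), {n : ℤ // (g {a}).pr n (x : G {a}) ≠ 0}) :=
            ⟨a, ⟨x, hxS⟩, ⟨n, hn⟩⟩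
          refine ⟨k i, ?_⟩
          have h5 := h3 i
          change s i {a} = (X a : MvPolynomial α B) ^ k i • (g {a}).pr n x at h5
          rw [← h5]
          refine Submodule.subset_span ⟨φ i, ?_⟩
          simp
      rw [← (g {a}).sum x]
      refine finsum_induction (· ∈ p2b_sat (X a : MvPolynomial α B) N) (Submodule.zero_mem _)
        (fun _ _ => Submodule.add_mem _) fun n => h4 n
    obtain ⟨l, hl⟩ := hS a z
    have h6 : (X a : MvPolynomial α B) ^ l • z ∈ p2b_sat (X a : MvPolynomial α B) N :=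
      Submodule.span_le.2 (fun x hx' => hx x hx') hl
    obtain ⟨m, hm⟩ := h6
    exact ⟨m + l, by rw [pow_add, mul_smul]; exact hm⟩
  intro J hJ z
  obtain ⟨a, ha⟩ := hJ
  have haJ : ({a} : Finset α) ⊆ J := Finset.singleton_subset_iff.2 ha
  obtain ⟨l, z', hz'⟩ := h.lsurj {a} J (Finset.singleton_nonempty a) haJ z
  obtain ⟨m, hm⟩ := hW a z'
  obtain ⟨c, hc⟩ := (Submodule.mem_span_range_iff_exists_fun _).1 hm
  have h7 := congrArg (ρ {a} J (Finset.singleton_nonempty a) haJ) hc
  rw [map_sum, h.lin, hz'] at h7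
  simp only [h.lin, h2] at h7
  set P : MvPolynomial α B := ∏ b ∈ J \ {a}, (X b : MvPolynomial α B) with hP
  have h8 : ∏ b ∈ J, (X b : MvPolynomial α B) = X a * P := by
    rw [hP, ← Finset.prod_sdiff haJ, Finset.prod_singleton, mul_comm]
  refine ⟨m + l, fun j => ((X a : MvPolynomial α B) ^ l * P ^ m) * c j, ?_⟩
  simp only [mul_smul]
  rw [← Finset.smul_sum, ← Finset.smul_sum, h7, h8, ← mul_smul, ← mul_smul, ← mul_smul]
  congr 1
  ring

end Pool.Agent.Lib.MP_0b721b_ag
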