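import Pool.Agent.Lib.MP_0b721b_ag.HF

/-!
Part P2c, preparations: restricted gradings, the universal property of fractions, the structure
sheaf acting on free modules.
-/

namespace Pool.Agent.Lib.MP_0b721b_ag

open MvPolynomial

universe u

section subm

variable {S : Type*} [CommRing S] {M : Type*} [AddCommGroup M] [Module S M]

/-- the grading of a homogeneous submodule -/
def Gr.subm (g : Gr M) (W : Submodule S M) (hW : g.Sub W) : Gr W where
  pr n := ((g.pr n).comp W.subtype.toAddMonoidHom).codRestrict W (fun z => hW n z.1 z.2)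
  pr_same n m := Subtype.ext (g.pr_same n m.1)
  pr_ne i j h m := Subtype.ext (g.pr_ne i j h m.1)
  fin m := (g.fin m.1).subset (by
    intro n hn h
    exact hn (Subtype.ext h))
  sum m := by
    apply Subtype.ext
    have h := AddMonoidHom.map_finsum (W.subtype.toAddMonoidHom)
      (f := fun n => ((g.pr n).comp W.subtype.toAddMonoidHom).codRestrict W
        (fun z => hW n z.1 z.2) m) ((g.fin m.1).subset (by
          intro n hn h
          exact hn (Subtype.ext h)))
    exact h.trans (g.sum m.1)

theorem Gr.subm_pr (g : Gr M) (W : Submodule S M) (hW : g.Sub W) (n : ℤ) (m : W) :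
    ((g.subm W hW).pr n m : M) = g.pr n m := rfl

theorem Gr.subm_hom {g : Gr M} {W : Submodule S M} {hW : g.Sub W} {n : ℤ} {m : W} :
    (g.subm W hW).Hom n m ↔ g.Hom n m.1 := by
  unfold Gr.Hom
  rw [Subtype.ext_iff, Gr.subm_pr]

/-- the universal property of the fractions -/
theorem exists_locMap (s : S) {G : Type*} [AddCommGroup G] [Module S G]
    (hb : Function.Bijective fun z : G => s • z) (σ : M →ₗ[S] G) :
    ∃ ψ : Loc s M →ₗ[S] G, ∀ m k, s ^ k • ψ (fr s m k) = σ m := by
  have hbk : ∀ k : ℕ, Function.Bijective fun z : G => s ^ k • z := by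
    intro k
    induction k with
    | zero =>
      simp only [pow_zero, one_smul]
      exact Function.bijective_id
    | succ k ih =>
      have := ih.comp hb
      convert this using 1
      funext z
      simp only [Function.comp_apply]
      rw [smul_smul, pow_succ]
  choose dv hdv using fun k => (hbk k).2
  have h1 : ∀ m m' k k' j, s ^ (j + k') • m = s ^ (j + k) • m' → dv k (σ m) = dv k' (σ m') := by
    intro m m' k k' j h
    apply (hbk (j + k + k')).1
    dsimp only
    have e1 : s ^ (j + k + k') • dv k (σ m) = s ^ (j + k') • (s ^ k • dv k (σ m)) := by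
      rw [smul_smul, ← pow_add]
      congr 2
      omega
    have e2 : s ^ (j + k + k') • dv k' (σ m') = s ^ (j + k) • (s ^ k' • dv k' (σ m')) := by
      rw [smul_smul, ← pow_add]
    have e3 := hdv k (σ m)
    have e4 := hdv k' (σ m')
    dsimp only at e3 e4
    rw [e1, e2, e3, e4, ← map_smul, ← map_smul, h]
  have key : ∀ m k, s ^ k • locLift (s := s) (M := M) (fun m k => dv k (σ m)) h1 (fr s m k) =
      σ m := by
    intro m k
    rw [locLift_fr]
    exact hdv k (σ m)
  refine ⟨{ toFun := locLift (s := s) (M := M) (fun m k => dv k (σ m)) h1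
            map_add' := ?_
            map_smul' := ?_ }, key⟩
  · intro z z'
    obtain ⟨a, b, k, rfl, rfl⟩ := fr_surj₂ z z'
    apply (hbk k).1
    dsimp only
    rw [smul_add, fr_add, key, key, key, map_add]
  · intro t z
    obtain ⟨a, k, rfl⟩ := fr_surj z
    apply (hbk k).1
    dsimp only [RingHom.id_apply]
    rw [smul_fr, key, smul_comm, key, map_smul]

/-- operators act on the graded fractions -/
theorem locGr_op {g : Gr M} {s : S} {d : ℤ} (hs : g.Op s d) {t : S} {e : ℤ} (ht : g.Op t e) :
    (locGr g hs).Op t e := by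
  intro n z
  obtain ⟨m, k, rfl⟩ := fr_surj z
  have h1 : n + e + k * d = n + k * d + e := by ring
  rw [smul_fr, locGr_pr, locGr_pr, smul_fr, h1, ht]

end subm

section gmod

variable {A : Type*} [CommRing A] {σ : Type*} {w : σ → ℤ}
  {M : Type*} [AddCommGroup M] [Module (MvPolynomial σ A) M]

theorem GMod.pr_smul {g : Gr M} (hg : GMod (A := A) w g) {e : ℤ} {m : M} (hm : g.Hom e m)
    (f : MvPolynomial σ A) (n : ℤ) : g.pr n (f • m) = (polyGr A w).pr (n - e) f • m := by
  have key : ∀ j, g.pr n ((polyGr A w).pr j f • m) =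
      if j = n - e then (polyGr A w).pr (n - e) f • m else 0 := by
    intro j
    have h1 : g.Hom (e + j) ((polyGr A w).pr j f • m) := (hg j _ ((polyGr A w).hom_pr j f)).hom hm
    split_ifs with h
    · rw [h] at h1 ⊢
      have e1 : e + (n - e) = n := by ring
      rw [e1] at h1
      exact h1
    · unfold Gr.Hom at h1
      rw [← h1, Gr.pr_ne]
      omega
  have h2 : f • m = ∑ᶠ j, (polyGr A w).pr j f • m := by
    conv_lhs => rw [← (polyGr A w).sum f]
    exact AddMonoidHom.map_finsum ((smulAddHom (MvPolynomial σ A) M).flip m) ((polyGr A w).fin f)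
  rw [h2, AddMonoidHom.map_finsum _ (((polyGr A w).fin f).subset (by
      intro j hj h'
      exact hj (by simp only [h', zero_smul])))]
  simp only [key]
  rw [finsum_eq_single _ (n - e) (fun j hj => by rw [if_neg hj]), if_pos rfl]

theorem p2c_freeGr_gmod (w : σ → ℤ) {r : ℕ} (e : Fin r → ℤ) : GMod (A := A) w (freeGr A w e) := by
  intro e' f hf n v
  funext j
  change (polyGr A w).pr (n + e' - e j) (f • v j) = f • (polyGr A w).pr (n - e j) (v j)
  have h1 : n + e' - e j = n - e j + e' := by ring
  rw [h1]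
  exact polyGr_op hf (n - e j) (v j)

end gmod

section dat

variable {α : Type} [LinearOrder α] {B : Type u} [CommRing B] {d : α → ℤ}
  {M : Type*} [AddCommGroup M] [Module (MvPolynomial α B) M]

omit [LinearOrder α] in
theorem datO_ok {g : Gr M} (hg : GMod (A := B) d g) : (datO B d).Ok g where
  opf a := hg _ _ (polyGr_X d a)
  opv a b := by
    have e0 : ((datO B d).t : ℤ) * ((datO B d).d a + (datO B d).d b) = 0 := by
      change ((0 : ℕ) : ℤ) * _ = 0
      simp
    rw [e0]
    exact Gr.Op.one (S := MvPolynomial α B) g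
  self a m := ⟨0, by simp [datO]⟩
  cocy a b c m := ⟨0, by simp [datO]⟩

theorem datO_tw_fr {J J' : Finset α} (h0 : J.Nonempty) (h : J ⊆ J') (m : M) (k : ℕ) :
    (datO B d).tw M J J' h0 h (fr ((datO B d).fJ J) m k) =
      fr ((datO B d).fJ J') ((datO B d).fJ (J' \ J) ^ k • m) k := by
  unfold Dat.tw Dat.U Dat.res
  rw [AddMonoidHom.comp_apply, locRes_fr, opm_fr]
  have h1 : (datO B d).v (J'.min' (h0.mono h)) (J.min' h0) * ((datO B d).fJ
      (J'.erase (J'.min' (h0.mono h))) * (datO B d).fJ (J'.erase (J.min' h0))) ^ (datO B d).t =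
      1 := by
    change (1 : MvPolynomial α B) * _ ^ 0 = 1
    rw [pow_zero, one_mul]
  rw [h1, one_smul]
  rfl

theorem datO_tw_smul {J J' : Finset α} (h0 : J.Nonempty) (h : J ⊆ J') (t : MvPolynomial α B)
    (z : Loc ((datO B d).fJ J) M) :
    (datO B d).tw M J J' h0 h (t • z) = t • (datO B d).tw M J J' h0 h z := by
  obtain ⟨m, k, rfl⟩ := fr_surj z
  rw [smul_fr, datO_tw_fr, datO_tw_fr, smul_fr, smul_comm]

end dat

section loc

variable {S : Type*} [CommRing S] {α : Type*} [LinearOrder α] (D : Dat S α)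
  {M : Type*} [AddCommGroup M] [Module S M]

theorem loc_f_inj {J : Finset α} {a : α} (ha : a ∈ J) {z : Loc (D.fJ J) M} (h : D.f a • z = 0) :
    z = 0 := by
  obtain ⟨m, k, rfl⟩ := fr_surj z
  rw [smul_fr, fr_eq_zero] at h
  obtain ⟨j, hj⟩ := h
  rw [fr_eq_zero]
  refine ⟨j + 1, ?_⟩
  rw [pow_succ, mul_smul]
  nth_rewrite 2 [← D.fJ_erase ha]
  rw [mul_comm (D.f a), mul_smul, smul_comm, hj, smul_zero]

theorem loc_f_div {J : Finset α} {a : α} (ha : a ∈ J) (z : Loc (D.fJ J) M) :
    ∃ z' : Loc (D.fJ J) M, D.f a • z' = z := by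
  obtain ⟨m, k, rfl⟩ := fr_surj z
  refine ⟨fr _ (D.fJ (J.erase a) • m) (k + 1), ?_⟩
  rw [smul_fr, smul_smul, D.fJ_erase ha]
  conv_rhs => rw [← fr_raise _ m k 1]
  rw [pow_one]

end loc

end Pool.Agent.Lib.MP_0b721b_ag
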