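import Pool.Agent.Lib.MP_0b721b_ag.P2a
import Pool.Agent.Lib.MP_0b721b_ag.P2b
import Pool.Agent.Lib.MP_0b721b_ag.P2cA

/-!
Part P2c: the kernel of the surjection from a free sheaf is coherent.
-/

namespace Pool.Agent.Lib.MP_0b721b_ag

open MvPolynomial

universe u

variable {α : Type} [LinearOrder α] [Fintype α] {B : Type u} [CommRing B] [IsNoetherianRing B]
  {d : α → ℤ}
  {G : Finset α → Type u} [∀ J, AddCommGroup (G J)] [∀ J, Module (MvPolynomial α B) (G J)]
  {g : ∀ J, Gr (G J)} {ρ : ∀ J J' : Finset α, J.Nonempty → J ⊆ J' → G J →+ G J'}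

omit [Fintype α] [IsNoetherianRing B] in
/-- the product of the coordinates in `J` acts bijectively on `G J` -/
theorem Sh.fJ_bij (h : Sh (B := B) d g ρ) (J : Finset α) :
    Function.Bijective fun z : G J => (datO B d).fJ J • z := by
  classical
  have key : ∀ J0 ⊆ J, Function.Bijective fun z : G J =>
      (∏ a ∈ J0, (X a : MvPolynomial α B)) • z := by
    intro J0
    induction J0 using Finset.induction_on with
    | empty =>
      intro _
      simp only [Finset.prod_empty, one_smul]
      exact Function.bijective_id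
    | insert a J0 ha ih =>
      intro hsub
      have h1 : Function.Bijective fun z : G J => (X a : MvPolynomial α B) • z := by
        have haJ : a ∈ J := hsub (Finset.mem_insert_self _ _)
        refine ⟨fun z z' hz => ?_, fun z => h.div J a haJ z⟩
        rw [← sub_eq_zero]
        refine h.inj J a haJ _ ?_
        rw [smul_sub, sub_eq_zero]
        exact hz
      have h2 := h1.comp (ih fun x hx => hsub (Finset.mem_insert_of_mem hx))
      convert h2 using 1
      funext z
      rw [Finset.prod_insert ha, mul_smul]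
      rfl
  exact key J subset_rfl

/-- the presentation by a free sheaf, with coherent kernel -/
theorem Sh.pres (hd : ∀ a, 0 < d a) (h : Sh (B := B) d g ρ) :
    ∃ (r : ℕ) (e : Fin r → ℤ)
      (ψ : ∀ J, Loc ((datO B d).fJ J) (Fin r → MvPolynomial α B) →+ G J)
      (K : Finset α → Type u) (_ : ∀ J, AddCommGroup (K J))
      (_ : ∀ J, Module (MvPolynomial α B) (K J)) (gK : ∀ J, Gr (K J))
      (ρK : ∀ J J' : Finset α, J.Nonempty → J ⊆ J' → K J →+ K J')
      (φ : ∀ J, K J →+ Loc ((datO B d).fJ J) (Fin r → MvPolynomial α B)),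
      Sh (B := B) d gK ρK ∧
      SES (ρ₁ := ρK) (ρ₂ := (datO B d).tw (Fin r → MvPolynomial α B)) (ρ₃ := ρ) φ ψ ∧
      (∀ J n z, (gK J).Hom n z → LDeg (freeGr B d e) ((datO B d).fJ J) ((datO B d).dJ J) n
        (φ J z)) ∧
      (∀ J n z, LDeg (freeGr B d e) ((datO B d).fJ J) ((datO B d).dJ J) n z →
        (g J).Hom n (ψ J z)) ∧
      (∀ J (t : MvPolynomial α B) z, φ J (t • z) = t • φ J z) ∧
      (∀ J (t : MvPolynomial α B) z, ψ J (t • z) = t • ψ J z) := by
  classical
  obtain ⟨r, e, s, hs, hsρ, hgen⟩ := h.gen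
  have hfree : GMod (A := B) d (freeGr B d e) := p2c_freeGr_gmod d e
  have hOk : (datO B d).Ok (freeGr B d e) := datO_ok hfree
  -- the map from the free module
  let σ : ∀ J, (Fin r → MvPolynomial α B) →ₗ[MvPolynomial α B] G J := fun J =>
    Fintype.linearCombination (MvPolynomial α B) fun j => s j J
  have hσ : ∀ J v, σ J v = ∑ j, v j • s j J := fun J v =>
    Fintype.linearCombination_apply (MvPolynomial α B) (fun j => s j J) v
  choose Ψ hΨ using fun J => exists_locMap (M := Fin r → MvPolynomial α B) ((datO B d).fJ J)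
    (h.fJ_bij J) (σ J)
  have hpowb : ∀ J (k : ℕ), Function.Injective fun z : G J => (datO B d).fJ J ^ k • z := by
    intro J k
    induction k with
    | zero =>
      simp only [pow_zero, one_smul]
      exact Function.injective_id
    | succ k ih =>
      have := ih.comp (h.fJ_bij J).1
      convert this using 1
      funext z
      simp only [Function.comp_apply]
      rw [smul_smul, pow_succ]
  have hΨu : ∀ J v k y, (datO B d).fJ J ^ k • y = σ J v →
      Ψ J (fr ((datO B d).fJ J) v k) = y := by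
    intro J v k y hy
    apply hpowb J k
    dsimp only
    rw [hΨ, hy]
  -- compatibility with the restrictions
  have hρσ : ∀ J J' h0 h' v, ρ J J' h0 h' (σ J v) = σ J' v := by
    intro J J' h0 h' v
    rw [hσ, hσ, map_sum]
    refine Finset.sum_congr rfl fun j _ => ?_
    rw [h.lin, hsρ]
  have hpow : ∀ J J' h0 h' (t : MvPolynomial α B) z,
      ρ J J' h0 h' (t • z) = t • ρ J J' h0 h' z := h.lin
  have hnat : Nat' ((datO B d).tw (Fin r → MvPolynomial α B)) ρ
      (fun J => (Ψ J).toAddMonoidHom) := by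
    intro J J' h0 h' z
    obtain ⟨v, k, rfl⟩ := fr_surj z
    change Ψ J' ((datO B d).tw _ J J' h0 h' (fr _ v k)) = ρ J J' h0 h' (Ψ J (fr _ v k))
    rw [datO_tw_fr]
    refine hΨu _ _ _ _ ?_
    rw [← hpow, ← (datO B d).fJ_sdiff h', mul_pow, mul_comm, mul_smul, hΨ, hpow, hρσ, map_smul]
  -- compatibility with the gradings
  have hgσ : ∀ J n v, (g J).pr n (σ J v) = σ J ((freeGr B d e).pr n v) := by
    intro J n v
    rw [hσ, hσ, map_sum]
    refine Finset.sum_congr rfl fun j _ => ?_
    rw [(h.gmod J).pr_smul (hs j J)]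
    rfl
  have hop : ∀ J, (g J).Op ((datO B d).fJ J) ((datO B d).dJ J) := fun J =>
    (datO_ok (h.gmod J)).opJ J
  have hΨpr : ∀ J n z, Ψ J ((locGr (freeGr B d e) (hOk.opJ J)).pr n z) =
      (g J).pr n (Ψ J z) := by
    intro J n z
    obtain ⟨v, k, rfl⟩ := fr_surj z
    rw [locGr_pr]
    refine hΨu _ _ _ _ ?_
    rw [← hgσ, ← hΨ J v k, ((hop J).pow k)]
  -- the kernel
  let K : ∀ J, Submodule (MvPolynomial α B)
    (Loc ((datO B d).fJ J) (Fin r → MvPolynomial α B)) := fun J => LinearMap.ker (Ψ J)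
  have hK : ∀ J z, z ∈ K J ↔ Ψ J z = 0 := fun J z => LinearMap.mem_ker
  have hKsub : ∀ J, (locGr (freeGr B d e) (hOk.opJ J)).Sub (K J) := by
    intro J n z hz
    rw [hK] at hz ⊢
    rw [hΨpr, hz, map_zero]
  let gK : ∀ J, Gr (K J) := fun J => (locGr (freeGr B d e) (hOk.opJ J)).subm (K J) (hKsub J)
  have hρmem : ∀ J J' h0 h' (z : K J),
      (datO B d).tw (Fin r → MvPolynomial α B) J J' h0 h' z.1 ∈ K J' := by
    intro J J' h0 h' z
    rw [hK]
    have h1 := hnat J J' h0 h' z.1
    change Ψ J' _ = ρ J J' h0 h' (Ψ J z.1) at h1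
    rw [h1, (hK J z.1).1 z.2, map_zero]
  let ρK : ∀ J J' : Finset α, J.Nonempty → J ⊆ J' → K J →+ K J' := fun J J' h0 h' =>
    (((datO B d).tw (Fin r → MvPolynomial α B) J J' h0 h').comp
      (K J).subtype.toAddMonoidHom).codRestrict (K J') (hρmem J J' h0 h')
  have hρK : ∀ J J' h0 h' z, (ρK J J' h0 h' z : Loc ((datO B d).fJ J')
      (Fin r → MvPolynomial α B)) = (datO B d).tw _ J J' h0 h' z.1 := fun _ _ _ _ _ => rfl
  refine ⟨r, e, fun J => (Ψ J).toAddMonoidHom, fun J => K J, fun J => inferInstance,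
    fun J => inferInstance, gK, ρK, fun J => (K J).subtype.toAddMonoidHom, ?_, ?_, ?_, ?_, ?_, ?_⟩
  · refine ⟨?_, ?_, ?_, ?_, ?_, ?_, ?_, ?_, ?_⟩
    · intro J J' J'' h0 h0' h1 h2 z
      apply Subtype.ext
      exact hOk.fct (datO B d) J J' J'' h0 h0' h1 h2 z.1
    · intro J J' h0 h1 t z
      apply Subtype.ext
      exact datO_tw_smul h0 h1 t z.1
    · intro J e' f hf n z
      apply Subtype.ext
      exact locGr_op (hOk.opJ J) (hfree e' f hf) n z.1
    · intro J J' h0 h1 n z
      apply Subtype.ext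
      exact hOk.pr_tw n J J' h0 h1 z.1
    · intro J a ha z hz
      apply Subtype.ext
      refine loc_f_inj (datO B d) ha ?_
      exact congrArg Subtype.val hz
    · intro J a ha z
      obtain ⟨z', hz'⟩ := loc_f_div (datO B d) ha z.1
      have h1 : Ψ J z' = 0 := by
        refine h.inj J a ha _ ?_
        rw [← map_smul]
        change Ψ J ((datO B d).f a • z') = 0
        rw [hz']
        exact (hK J z.1).1 z.2
      exact ⟨⟨z', (hK J z').2 h1⟩, Subtype.ext hz'⟩
    · rintro J J' h0 h1 ⟨z, hz⟩ hz0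
      obtain ⟨v, l, rfl⟩ := fr_surj z
      have h2 : (datO B d).tw (Fin r → MvPolynomial α B) J J' h0 h1
          (fr ((datO B d).fJ J) v l) = 0 := congrArg Subtype.val hz0
      rw [datO_tw_fr, fr_eq_zero] at h2
      obtain ⟨j, hj⟩ := h2
      refine ⟨j + l, Subtype.ext ?_⟩
      change (datO B d).fJ (J' \ J) ^ (j + l) • fr ((datO B d).fJ J) v l = 0
      rw [smul_fr, fr_eq_zero]
      refine ⟨j, ?_⟩
      rw [← hj, ← (datO B d).fJ_sdiff h1, smul_smul, smul_smul]
      congr 1
      ring
    · rintro J J' h0 h1 ⟨z, hz⟩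
      obtain ⟨v, l, rfl⟩ := fr_surj z
      have h2 : (datO B d).tw (Fin r → MvPolynomial α B) J J' h0 h1
          (fr ((datO B d).fJ J) v l) = (datO B d).fJ (J' \ J) ^ l •
            fr ((datO B d).fJ J') v l := by
        rw [datO_tw_fr, smul_fr]
      have h3 : ρ J J' h0 h1 (Ψ J (fr ((datO B d).fJ J) v l)) = 0 := by
        have h4 := hnat J J' h0 h1 (fr ((datO B d).fJ J) v l)
        change Ψ J' _ = ρ J J' h0 h1 (Ψ J _) at h4
        rw [← h4, h2, map_smul, (hK J' _).1 hz, smul_zero]
      obtain ⟨k, hk⟩ := h.linj J J' h0 h1 _ h3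
      refine ⟨k + l, ⟨(datO B d).fJ (J' \ J) ^ k • fr ((datO B d).fJ J) v l, ?_⟩,
        Subtype.ext ?_⟩
      · rw [hK, map_smul]
        exact hk
      · change (datO B d).tw (Fin r → MvPolynomial α B) J J' h0 h1
          ((datO B d).fJ (J' \ J) ^ k • fr ((datO B d).fJ J) v l) =
          (datO B d).fJ (J' \ J) ^ (k + l) • fr ((datO B d).fJ J') v l
        rw [datO_tw_smul, h2, smul_smul, pow_add]
    · intro a
      -- generators of the kernel of `σ`
      have hker : ∀ v : LinearMap.ker (σ {a}), fr ((datO B d).fJ {a}) v.1 0 ∈ K {a} := by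
        intro v
        rw [hK]
        refine hΨu _ _ _ _ ?_
        rw [smul_zero]
        exact (LinearMap.mem_ker.1 v.2).symm
      let ι : LinearMap.ker (σ {a}) →ₗ[MvPolynomial α B] K {a} :=
        { toFun := fun v => ⟨fr ((datO B d).fJ {a}) v.1 0, hker v⟩
          map_add' := fun v w => Subtype.ext (fr_add _ _ _).symm
          map_smul' := fun t v => rfl }
      have hnoe : IsNoetherian (MvPolynomial α B) (Fin r → MvPolynomial α B) := inferInstance
      obtain ⟨S0, hS0⟩ := (inferInstance :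
        Module.Finite (MvPolynomial α B) (LinearMap.ker (σ {a}))).1
      refine ⟨S0.image ι, ?_⟩
      rintro ⟨z, hz⟩
      obtain ⟨v, k, rfl⟩ := fr_surj z
      have hv : v ∈ LinearMap.ker (σ {a}) := by
        rw [LinearMap.mem_ker, ← hΨ {a} v k, (hK _ _).1 hz, smul_zero]
      refine ⟨k, ?_⟩
      have h1 : (X a : MvPolynomial α B) ^ k • (⟨fr ((datO B d).fJ {a}) v k, hz⟩ : K {a}) =
          ι ⟨v, hv⟩ := by
        apply Subtype.ext
        change (X a : MvPolynomial α B) ^ k • fr ((datO B d).fJ {a}) v k =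
          fr ((datO B d).fJ {a}) v 0
        rw [smul_fr]
        have h2 : (datO B d).fJ {a} = X a := by
          unfold Dat.fJ
          rw [Finset.prod_singleton]
          rfl
        rw [h2]
        have h3 := fr_raise (X a : MvPolynomial α B) v 0 k
        rw [zero_add] at h3
        exact h3
      rw [h1, Finset.coe_image, ← Submodule.map_span, hS0]
      exact Submodule.mem_map_of_mem trivial
  · refine ⟨fun J J' h0 h1 z => rfl, hnat, fun J _ => Subtype.val_injective, ?_, ?_⟩
    · intro J _ z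
      constructor
      · intro hz
        exact ⟨⟨z, (hK J z).2 hz⟩, rfl⟩
      · rintro ⟨y, rfl⟩
        exact (hK J y.1).1 y.2
    · intro J hJ z
      obtain ⟨k, c, hc⟩ := hgen J hJ z
      refine ⟨fr ((datO B d).fJ J) c k, hΨu J c k z ?_⟩
      rw [hσ, ← hc]
      rfl
  · intro J n z hz
    rw [← locGr_hom_iff (hOk.opJ J)]
    exact Gr.subm_hom.1 hz
  · intro J n z hz
    rw [← locGr_hom_iff (hOk.opJ J)] at hz
    unfold Gr.Hom at hz ⊢
    change (g J).pr n (Ψ J z) = Ψ J z
    rw [← hΨpr, hz]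
  · intro J t z
    rfl
  · intro J t z
    exact map_smul (Ψ J) t z

end Pool.Agent.Lib.MP_0b721b_ag
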