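import Pool.Agent.Lib.MP_0b721b_ag.HF

/-!
Part P2d, preparations: exact sequences of graded functors, vanishing and finiteness in one degree.
-/

namespace Pool.Agent.Lib.MP_0b721b_ag

open MvPolynomial

universe u

/-- a map which preserves the degree commutes with the projections -/
theorem p2d_pr {M M' : Type*} [AddCommGroup M] [AddCommGroup M'] (g : Gr M) (g' : Gr M')
    (f : M →+ M') (h : ∀ n m, g.Hom n m → g'.Hom n (f m)) (n : ℤ) (m : M) :
    f (g.pr n m) = g'.pr n (f m) := by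
  have key : ∀ k, g'.pr n (f (g.pr k m)) = if k = n then f (g.pr k m) else 0 := by
    intro k
    have h1 := h k _ (g.hom_pr k m)
    split_ifs with hk
    · subst hk
      exact h1
    · unfold Gr.Hom at h1
      rw [← h1, Gr.pr_ne _ _ _ (Ne.symm hk)]
  conv_rhs => rw [← g.sum m]
  rw [AddMonoidHom.map_finsum _ (g.fin m), AddMonoidHom.map_finsum _ ((g.fin m).subset (by
      intro k hk h'
      exact hk (by simp only [h', map_zero])))]
  simp only [key]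
  rw [finsum_eq_single _ n (fun k hk => by rw [if_neg hk]), if_pos rfl]

section dch

variable {α : Type} [LinearOrder α] {B : Type u} [CommRing B]
  {G : Finset α → Type u} [∀ J, AddCommGroup (G J)] [∀ J, Module (MvPolynomial α B) (G J)]
  {g : ∀ J, Gr (G J)} {ρ : ∀ J J' : Finset α, J.Nonempty → J ⊆ J' → G J →+ G J'}

omit [∀ J, Module (MvPolynomial α B) (G J)] in
theorem p2d_dC_pr (gρ : ∀ J J' h0 h n z, ρ J J' h0 h ((g J).pr n z) = (g J').pr n (ρ J J' h0 h z))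
    (n : ℤ) (z : ∀ J, G J) (J : Finset α) :
    dC ρ (fun J => (g J).pr n (z J)) J = (g J).pr n (dC ρ z J) :=
  dC_map (ρ₁ := ρ) (ρ₂ := ρ) (φ := fun J => (g J).pr n)
    (fun J J' h0 hs z => (gρ J J' h0 hs n z).symm) z J

theorem p2d_dC_smul (lin : ∀ J J' h0 h (t : MvPolynomial α B) z, ρ J J' h0 h (t • z) =
    t • ρ J J' h0 h z) (t : MvPolynomial α B) (z : ∀ J, G J) (J : Finset α) :
    dC ρ (fun J => t • z J) J = t • dC ρ z J :=
  dC_map (ρ₁ := ρ) (ρ₂ := ρ) (φ := fun J => DistribSMul.toAddMonoidHom (G J) t)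
    (fun J J' h0 hs z => (lin J J' h0 hs t z).symm) z J

omit [∀ J, Module (MvPolynomial α B) (G J)] in
theorem p2d_dC_sum {ι : Type*} (s : Finset ι) (z : ι → ∀ J, G J) (J : Finset α) :
    dC ρ (fun J => ∑ i ∈ s, z i J) J = ∑ i ∈ s, dC ρ (z i) J := by
  have h1 : (fun J => ∑ i ∈ s, z i J) = ∑ i ∈ s, z i := by
    funext J
    rw [Finset.sum_apply]
  rw [h1]
  exact map_sum (AddMonoidHom.mk' (fun z => dC ρ z J) fun z z' => dC_add z z' J) z s

/-- the generators may be indexed by any finite type -/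
theorem p2d_fin_of {ι : Type*} [Fintype ι] (n : ℤ) (p : ℕ) (Z : ι → ∀ J, G J)
    (hZ : ∀ i J, (g J).Hom n (Z i J)) (hZ' : ∀ i J, J.card = p + 2 → dC ρ (Z i) J = 0)
    (H : ∀ z : ∀ J, G J, (∀ J, (g J).Hom n (z J)) → (∀ J, J.card = p + 2 → dC ρ z J = 0) →
      ∃ (b : ι → B) (w : ∀ J, G J), (∀ J, (g J).Hom n (w J)) ∧
        ∀ J, J.card = p + 1 → z J = ∑ i, (C (b i) : MvPolynomial α B) • Z i J + dC ρ w J) :
    FinD B g ρ n p := by
  refine ⟨Fintype.card ι, fun i => Z ((Fintype.equivFin ι).symm i), fun i J => hZ _ J,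
    fun i J hJ => hZ' _ J hJ, fun z hz hz' => ?_⟩
  obtain ⟨b, w, hw, h⟩ := H z hz hz'
  refine ⟨fun i => b ((Fintype.equivFin ι).symm i), w, hw, fun J hJ => ?_⟩
  rw [h J hJ]
  congr 1
  exact (Equiv.sum_comp (Fintype.equivFin ι).symm
    fun i => (C (b i) : MvPolynomial α B) • Z i J).symm

end dch

section ses

variable {α : Type} [LinearOrder α] {B : Type u} [CommRing B]
  {G₁ : Finset α → Type u} [∀ J, AddCommGroup (G₁ J)] [∀ J, Module (MvPolynomial α B) (G₁ J)]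
  {G₂ : Finset α → Type u} [∀ J, AddCommGroup (G₂ J)] [∀ J, Module (MvPolynomial α B) (G₂ J)]
  {G₃ : Finset α → Type u} [∀ J, AddCommGroup (G₃ J)] [∀ J, Module (MvPolynomial α B) (G₃ J)]
  {g₁ : ∀ J, Gr (G₁ J)} {g₂ : ∀ J, Gr (G₂ J)} {g₃ : ∀ J, Gr (G₃ J)}
  {ρ₁ : ∀ J J' : Finset α, J.Nonempty → J ⊆ J' → G₁ J →+ G₁ J'}
  {ρ₂ : ∀ J J' : Finset α, J.Nonempty → J ⊆ J' → G₂ J →+ G₂ J'}
  {ρ₃ : ∀ J J' : Finset α, J.Nonempty → J ⊆ J' → G₃ J →+ G₃ J'}
  {φ : ∀ J, G₁ J →+ G₂ J} {ψ : ∀ J, G₂ J →+ G₃ J}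

omit [∀ J, Module (MvPolynomial α B) (G₁ J)] [∀ J, Module (MvPolynomial α B) (G₂ J)]
  [∀ J, Module (MvPolynomial α B) (G₃ J)] in
/-- homogeneous lifts -/
theorem p2d_lift (h : SES (ρ₁ := ρ₁) (ρ₂ := ρ₂) (ρ₃ := ρ₃) φ ψ)
    (gψ : ∀ J n z, (g₂ J).Hom n z → (g₃ J).Hom n (ψ J z)) {n : ℤ} {z : ∀ J, G₃ J}
    (hz : ∀ J, (g₃ J).Hom n (z J)) :
    ∃ y : ∀ J, G₂ J, (∀ J, (g₂ J).Hom n (y J)) ∧ ∀ J : Finset α, J.Nonempty → ψ J (y J) = z J := by
  obtain ⟨y, hy⟩ := h.lift z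
  refine ⟨fun J => (g₂ J).pr n (y J), fun J => (g₂ J).hom_pr n _, fun J hJ => ?_⟩
  rw [p2d_pr (g₂ J) (g₃ J) (ψ J) (gψ J), hy J hJ]
  exact hz J

omit [∀ J, Module (MvPolynomial α B) (G₁ J)] [∀ J, Module (MvPolynomial α B) (G₂ J)]
  [∀ J, Module (MvPolynomial α B) (G₃ J)] in
/-- the connecting homomorphism -/
theorem p2d_conn (h : SES (ρ₁ := ρ₁) (ρ₂ := ρ₂) (ρ₃ := ρ₃) φ ψ) (hρ₂ : Fct ρ₂)
    (gφ : ∀ J n z, (g₁ J).Hom n z → (g₂ J).Hom n (φ J z))
    (gρ₂ : ∀ J J' h0 h n z, ρ₂ J J' h0 h ((g₂ J).pr n z) = (g₂ J').pr n (ρ₂ J J' h0 h z))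
    {n : ℤ} {p : ℕ} {z : ∀ J, G₃ J} (hz : ∀ J, J.card = p + 2 → dC ρ₃ z J = 0)
    {y : ∀ J, G₂ J} (hyn : ∀ J, (g₂ J).Hom n (y J))
    (hy : ∀ J : Finset α, J.Nonempty → ψ J (y J) = z J) :
    ∃ x : ∀ J, G₁ J, (∀ J, (g₁ J).Hom n (x J)) ∧ (∀ J, J.card = p + 1 + 2 → dC ρ₁ x J = 0) ∧
      ∀ J, J.card = p + 2 → φ J (x J) = dC ρ₂ y J := by
  obtain ⟨x, hx⟩ := h.pull (k := p + 1) (dC ρ₂ y) (fun J hJ => by
    rw [← dC_map h.natψ]
    have : dC ρ₃ (fun J => ψ J (y J)) J = dC ρ₃ z J :=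
      dC_congr fun K hK => hy K (nonempty_of_card (k := p) (by omega))
    rw [this, hz J hJ])
  have hx' : ∀ J, J.card = p + 2 → φ J ((g₁ J).pr n (x J)) = dC ρ₂ y J := by
    intro J hJ
    rw [p2d_pr (g₁ J) (g₂ J) (φ J) (gφ J), hx J hJ, ← p2d_dC_pr gρ₂]
    exact dC_congr fun K _ => hyn K
  refine ⟨fun J => (g₁ J).pr n (x J), fun J => (g₁ J).hom_pr n _, fun J hJ => ?_, hx'⟩
  apply h.inj J (nonempty_of_card (k := p + 2) hJ)
  rw [map_zero, ← dC_map h.natφ]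
  have : dC ρ₂ (fun J => φ J ((g₁ J).pr n (x J))) J = dC ρ₂ (dC ρ₂ y) J :=
    dC_congr fun K hK => hx' K (by omega)
  rw [this, dC_dC hρ₂]

omit [∀ J, Module (MvPolynomial α B) (G₁ J)] [∀ J, Module (MvPolynomial α B) (G₂ J)]
  [∀ J, Module (MvPolynomial α B) (G₃ J)] in
/-- `H^p(G₂) = 0` and `H^(p+1)(G₁) = 0` give `H^p(G₃) = 0`, in degree `n` -/
theorem p2d_van (h : SES (ρ₁ := ρ₁) (ρ₂ := ρ₂) (ρ₃ := ρ₃) φ ψ) (hρ₂ : Fct ρ₂)
    (gφ : ∀ J n z, (g₁ J).Hom n z → (g₂ J).Hom n (φ J z))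
    (gψ : ∀ J n z, (g₂ J).Hom n z → (g₃ J).Hom n (ψ J z))
    (gρ₂ : ∀ J J' h0 h n z, ρ₂ J J' h0 h ((g₂ J).pr n z) = (g₂ J').pr n (ρ₂ J J' h0 h z))
    {n : ℤ} {p : ℕ} (h2 : VanD g₂ ρ₂ n p) (h1 : VanD g₁ ρ₁ n (p + 1)) : VanD g₃ ρ₃ n p := by
  intro z hz hz'
  obtain ⟨y, hyn, hy⟩ := p2d_lift h gψ hz
  obtain ⟨x, hxn, hx, hxy⟩ := p2d_conn h hρ₂ gφ gρ₂ hz' hyn hy
  obtain ⟨v, hvn, hv⟩ := h1 x hxn hx
  obtain ⟨w, hwn, hw⟩ := h2 (y - fun J => φ J (v J)) (fun J => by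
      have h3 := (hyn J).add (gφ J n _ (hvn J)).neg
      rw [← sub_eq_add_neg] at h3
      exact h3) (fun J hJ => by
    rw [dC_sub, dC_map h.natφ, hv J hJ, hxy J hJ, sub_self])
  refine ⟨fun J => ψ J (w J), fun J => gψ J n _ (hwn J), fun J hJ => ?_⟩
  have hJ' := nonempty_of_card hJ
  rw [dC_map h.natψ, hw J hJ, Pi.sub_apply, map_sub, hy J hJ',
    (h.exact J hJ' _).2 ⟨v J, rfl⟩, sub_zero]

omit [LinearOrder α] in
/-- constants preserve the degree -/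
theorem p2d_hom_C {M : Type*} [AddCommGroup M] [Module (MvPolynomial α B) M] {g : Gr M}
    (op : ∀ b : B, g.Op (C b : MvPolynomial α B) 0) {n : ℤ} (b : B) {m : M} (hm : g.Hom n m) :
    g.Hom n ((C b : MvPolynomial α B) • m) := by
  have := (op b).hom hm
  rwa [add_zero] at this

/-- finiteness in degree `n` -/
theorem p2d_fin [IsNoetherianRing B] (h : SES (ρ₁ := ρ₁) (ρ₂ := ρ₂) (ρ₃ := ρ₃) φ ψ)
    (hρ₂ : Fct ρ₂)
    (gφ : ∀ J n z, (g₁ J).Hom n z → (g₂ J).Hom n (φ J z))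
    (gψ : ∀ J n z, (g₂ J).Hom n z → (g₃ J).Hom n (ψ J z))
    (gρ₂ : ∀ J J' h0 h n z, ρ₂ J J' h0 h ((g₂ J).pr n z) = (g₂ J').pr n (ρ₂ J J' h0 h z))
    (op₁ : ∀ J (b : B), (g₁ J).Op (C b : MvPolynomial α B) 0)
    (op₂ : ∀ J (b : B), (g₂ J).Op (C b : MvPolynomial α B) 0)
    (lin₁ : ∀ J J' h0 h (t : MvPolynomial α B) z, ρ₁ J J' h0 h (t • z) = t • ρ₁ J J' h0 h z)
    (lin₂ : ∀ J J' h0 h (t : MvPolynomial α B) z, ρ₂ J J' h0 h (t • z) = t • ρ₂ J J' h0 h z)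
    (linφ : ∀ J (t : MvPolynomial α B) z, φ J (t • z) = t • φ J z)
    (linψ : ∀ J (t : MvPolynomial α B) z, ψ J (t • z) = t • ψ J z)
    {n : ℤ} {p : ℕ} (h2 : FinD B g₂ ρ₂ n p) (h1 : FinD B g₁ ρ₁ n (p + 1)) :
    FinD B g₃ ρ₃ n p := by
  obtain ⟨s, Z, hZn, hZ, HZ⟩ := h1
  obtain ⟨q, W, hWn, hW, HW⟩ := h2
  -- the coefficient vectors of the image of the connecting homomorphism
  let N : Submodule B (Fin s → B) :=
    { carrier := {c | ∃ (y : ∀ J, G₂ J) (v : ∀ J, G₁ J), (∀ J, (g₂ J).Hom n (y J)) ∧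
        (∀ J, (g₁ J).Hom n (v J)) ∧ ∀ J, J.card = p + 2 →
          dC ρ₂ y J = φ J (∑ i, (C (c i) : MvPolynomial α B) • Z i J + dC ρ₁ v J)}
      zero_mem' := by
        refine ⟨fun J => 0, fun J => 0, fun J => Gr.Hom.zero _ _, fun J => Gr.Hom.zero _ _,
          fun J hJ => ?_⟩
        rw [dC_eq_zero_of (fun K _ => rfl), dC_eq_zero_of (fun K _ => rfl)]
        simp
      add_mem' := by
        rintro c c' ⟨y, v, h1, h2, h3⟩ ⟨y', v', h1', h2', h3'⟩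
        refine ⟨y + y', v + v', fun J => (h1 J).add (h1' J), fun J => (h2 J).add (h2' J),
          fun J hJ => ?_⟩
        rw [dC_add, dC_add, h3 J hJ, h3' J hJ, ← map_add]
        congr 1
        have : ∑ i, (C ((c + c') i) : MvPolynomial α B) • Z i J =
            ∑ i, (C (c i) : MvPolynomial α B) • Z i J +
              ∑ i, (C (c' i) : MvPolynomial α B) • Z i J := by
          rw [← Finset.sum_add_distrib]
          refine Finset.sum_congr rfl fun i _ => ?_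
          rw [Pi.add_apply, map_add, add_smul]
        rw [this]
        abel
      smul_mem' := by
        rintro b c ⟨y, v, h1, h2, h3⟩
        refine ⟨fun J => (C b : MvPolynomial α B) • y J, fun J => (C b : MvPolynomial α B) • v J,
          fun J => p2d_hom_C (op₂ J) b (h1 J), fun J => p2d_hom_C (op₁ J) b (h2 J),
          fun J hJ => ?_⟩
        rw [p2d_dC_smul lin₂, p2d_dC_smul lin₁, h3 J hJ, ← linφ]
        congr 1
        rw [smul_add, Finset.smul_sum]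
        congr 1
        refine Finset.sum_congr rfl fun i _ => ?_
        rw [Pi.smul_apply, smul_eq_mul, map_mul, mul_smul] }
  have hN : N.FG := IsNoetherian.noetherian N
  obtain ⟨t, c, hc⟩ := Submodule.fg_iff_exists_fin_generating_family.1 hN
  have hcN : ∀ j, c j ∈ N := fun j => by
    rw [← hc]
    exact Submodule.subset_span ⟨j, rfl⟩
  choose y v hyn hvn hyv using hcN
  refine p2d_fin_of (ι := Fin t ⊕ Fin q) n p
    (Sum.elim (fun j J => ψ J (y j J)) (fun i J => ψ J (W i J))) ?_ ?_ ?_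
  · rintro (j | i) J
    · exact gψ J n _ (hyn j J)
    · exact gψ J n _ (hWn i J)
  · rintro (j | i) J hJ
    · show dC ρ₃ (fun J => ψ J (y j J)) J = 0
      rw [dC_map h.natψ, hyv j J hJ]
      exact (h.exact J (nonempty_of_card hJ) _).2 ⟨_, rfl⟩
    · show dC ρ₃ (fun J => ψ J (W i J)) J = 0
      rw [dC_map h.natψ, hW i J hJ, map_zero]
  · intro z hz hz'
    obtain ⟨y0, hy0n, hy0⟩ := p2d_lift h gψ hz
    obtain ⟨x, hxn, hx, hxy⟩ := p2d_conn h hρ₂ gφ gρ₂ hz' hy0n hy0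
    obtain ⟨b, w, hwn, hw⟩ := HZ x hxn hx
    have hbN : b ∈ N := ⟨y0, w, hy0n, hwn, fun J hJ => by rw [← hxy J hJ, hw J (by omega)]⟩
    rw [← hc] at hbN
    obtain ⟨β, hβ⟩ := (Submodule.mem_span_range_iff_exists_fun B).1 hbN
    -- the corrected lift is a cocycle up to the image of `φ`
    let v' : ∀ J, G₁ J := fun J => w J - ∑ j, (C (β j) : MvPolynomial α B) • v j J
    let y' : ∀ J, G₂ J := fun J => y0 J - ∑ j, (C (β j) : MvPolynomial α B) • y j J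
    have hv'n : ∀ J, (g₁ J).Hom n (v' J) := fun J => by
      have h3 := (hwn J).add (Gr.Hom.sum (s := Finset.univ) fun j _ =>
        p2d_hom_C (op₁ J) (β j) (hvn j J)).neg
      rw [← sub_eq_add_neg] at h3
      exact h3
    have hy'n : ∀ J, (g₂ J).Hom n (y' J) := fun J => by
      have h3 := (hy0n J).add (Gr.Hom.sum (s := Finset.univ) fun j _ =>
        p2d_hom_C (op₂ J) (β j) (hyn j J)).neg
      rw [← sub_eq_add_neg] at h3
      exact h3
    have hdv : ∀ J, dC ρ₁ v' J = dC ρ₁ w J -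
        ∑ j, (C (β j) : MvPolynomial α B) • dC ρ₁ (v j) J := by
      intro J
      have h3 : v' = w - fun J => ∑ j, (C (β j) : MvPolynomial α B) • v j J := rfl
      rw [h3, dC_sub, p2d_dC_sum Finset.univ (fun j J => (C (β j) : MvPolynomial α B) • v j J)]
      congr 1
      exact Finset.sum_congr rfl fun j _ => p2d_dC_smul lin₁ _ _ _
    have hdy : ∀ J, dC ρ₂ y' J = dC ρ₂ y0 J -
        ∑ j, (C (β j) : MvPolynomial α B) • dC ρ₂ (y j) J := by
      intro J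
      have h3 : y' = y0 - fun J => ∑ j, (C (β j) : MvPolynomial α B) • y j J := rfl
      rw [h3, dC_sub, p2d_dC_sum Finset.univ (fun j J => (C (β j) : MvPolynomial α B) • y j J)]
      congr 1
      exact Finset.sum_congr rfl fun j _ => p2d_dC_smul lin₂ _ _ _
    have hsum : ∀ J, ∑ i, (C (b i) : MvPolynomial α B) • Z i J =
        ∑ j, (C (β j) : MvPolynomial α B) • ∑ i, (C (c j i) : MvPolynomial α B) • Z i J := by
      intro J
      simp only [Finset.smul_sum, smul_smul, ← map_mul]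
      rw [Finset.sum_comm]
      refine Finset.sum_congr rfl fun i _ => ?_
      rw [← Finset.sum_smul, ← map_sum, ← hβ]
      congr 2
      simp [Finset.sum_apply]
    have hcyc : ∀ J, J.card = p + 2 → dC ρ₂ y' J = φ J (dC ρ₁ v' J) := by
      intro J hJ
      have e : ∑ j, (C (β j) : MvPolynomial α B) • dC ρ₂ (y j) J =
          φ J (∑ j, (C (β j) : MvPolynomial α B) •
            ∑ i, (C (c j i) : MvPolynomial α B) • Z i J) +
          φ J (∑ j, (C (β j) : MvPolynomial α B) • dC ρ₁ (v j) J) := by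
        rw [← map_add, ← Finset.sum_add_distrib, map_sum]
        refine Finset.sum_congr rfl fun j _ => ?_
        rw [hyv j J hJ, ← linφ, smul_add]
      rw [hdy, hdv, ← hxy J hJ, hw J (by omega), hsum J, e, map_add, map_sub]
      abel
    obtain ⟨a, r, hrn, hr⟩ := HW (y' - fun J => φ J (v' J)) (fun J => by
        have h3 := (hy'n J).add (gφ J n _ (hv'n J)).neg
        rw [← sub_eq_add_neg] at h3
        exact h3) (fun J hJ => by
      rw [dC_sub, dC_map h.natφ, hcyc J hJ, sub_self])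
    refine ⟨Sum.elim β a, fun J => ψ J (r J), fun J => gψ J n _ (hrn J), fun J hJ => ?_⟩
    have hJ' := nonempty_of_card hJ
    have h4 := congrArg (ψ J) (hr J hJ)
    rw [Pi.sub_apply, map_sub, (h.exact J hJ' _).2 ⟨v' J, rfl⟩, sub_zero, map_add, map_sum] at h4
    have h5 : ψ J (y' J) = z J - ∑ j, (C (β j) : MvPolynomial α B) • ψ J (y j J) := by
      show ψ J (y0 J - ∑ j, (C (β j) : MvPolynomial α B) • y j J) = _
      rw [map_sub, hy0 J hJ', map_sum]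
      congr 1
      exact Finset.sum_congr rfl fun j _ => linψ J _ _
    rw [h5] at h4
    rw [Fintype.sum_sum_type, dC_map h.natψ]
    simp only [Sum.elim_inl, Sum.elim_inr]
    rw [eq_add_of_sub_eq h4, Finset.sum_congr rfl fun i _ => linψ J (C (a i)) (W i J)]
    abel

end ses

end Pool.Agent.Lib.MP_0b721b_ag
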