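import Pool.Agent.Lib.MP_0b721b_ag.P2c
import Pool.Agent.Lib.MP_0b721b_ag.P2d0

/-!
Part P2d: Serre vanishing and finiteness, by descending induction on `p`.
-/

namespace Pool.Agent.Lib.MP_0b721b_ag

open MvPolynomial

universe u

section prep

variable {α : Type} [LinearOrder α] {B : Type u} [CommRing B]

omit [LinearOrder α] in
/-- homogeneous polynomials act on the free modules as operators of their degree -/
private theorem p2d_free_gmod (d : α → ℤ) {r : ℕ} (e : Fin r → ℤ) :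
    GMod (A := B) d (freeGr B d e) := by
  intro c f hf n v
  funext j
  change (polyGr B d).pr (n + c - e j) (f • v j) = f • (polyGr B d).pr (n - e j) (v j)
  rw [← polyGr_op hf (n - e j) (v j)]
  congr 2
  ring

omit [LinearOrder α] in
private theorem p2d_free_ok (B : Type u) [CommRing B] (d : α → ℤ) {r : ℕ} (e : Fin r → ℤ) :
    (datO B d).Ok (freeGr B d e) where
  opf a := p2d_free_gmod d e _ _ (polyGr_X d a)
  opv a b := by
    change (freeGr B d e).Op (1 : MvPolynomial α B) (((0 : ℕ) : ℤ) * (d a + d b))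
    rw [Nat.cast_zero, zero_mul]
    exact Gr.Op.one _
  self a m := ⟨0, by simp [datO]⟩
  cocy a b c m := ⟨0, by simp [datO]⟩

/-- the restrictions are linear -/
private theorem p2d_tw_smul {S : Type*} [CommRing S] (D : Dat S α) {M : Type*} [AddCommGroup M]
    [Module S M] (J J' : Finset α) (h0 : J.Nonempty) (hs : J ⊆ J') (t : S)
    (z : Loc (D.fJ J) M) : D.tw M J J' h0 hs (t • z) = t • D.tw M J J' h0 hs z := by
  obtain ⟨m, k, rfl⟩ := fr_surj z
  unfold Dat.tw Dat.U Dat.res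
  simp only [AddMonoidHom.comp_apply, smul_fr, locRes_fr, opm_fr]
  congr 1
  rw [smul_comm _ t m, smul_comm _ t]

omit [LinearOrder α] in
/-- the two actions of the constants on the fractions -/
private theorem p2d_C_smul {r : ℕ} {s : MvPolynomial α B} (b : B)
    (z : Loc s (Fin r → MvPolynomial α B)) : (C b : MvPolynomial α B) • z = b • z := by
  obtain ⟨m, k, rfl⟩ := fr_surj z
  rw [smul_fr, smul_fr]
  congr 1
  funext j
  rw [Pi.smul_apply, Pi.smul_apply, smul_eq_mul, MvPolynomial.smul_eq_C_mul]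

/-- an operator of degree `c` acts on the fractions as an operator of degree `c` -/
private theorem p2d_locGr_op {S : Type*} [CommRing S] {M : Type*} [AddCommGroup M] [Module S M]
    {g : Gr M} {s t : S} {c e : ℤ} (hs : g.Op s c) (ht : g.Op t e) : (locGr g hs).Op t e := by
  intro n z
  obtain ⟨m, k, rfl⟩ := fr_surj z
  rw [smul_fr, locGr_pr, locGr_pr, smul_fr, ← ht]
  congr 2
  ring_nf

end prep

variable {α : Type} [LinearOrder α] [Fintype α] {B : Type u} [CommRing B] [IsNoetherianRing B]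
  {d : α → ℤ}
  {G : Finset α → Type u} [∀ J, AddCommGroup (G J)] [∀ J, Module (MvPolynomial α B) (G J)]
  {g : ∀ J, Gr (G J)} {ρ : ∀ J J' : Finset α, J.Nonempty → J ⊆ J' → G J →+ G J'}

omit [IsNoetherianRing B] in
private theorem p2d_free_van (hd : ∀ a, 0 < d a) {r : ℕ} {e : Fin r → ℤ} {n : ℤ}
    (hn : ∀ j, e j ≤ n) {p : ℕ} (hp : 1 ≤ p) :
    VanD (fun J => locGr (freeGr B d e) ((p2d_free_ok B d e).opJ J))
      ((datO B d).tw (Fin r → MvPolynomial α B)) n p := by
  intro z hz hz'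
  obtain ⟨w, hw, hw'⟩ := hv_free (B := B) hd hn hp z (fun J => (locGr_hom_iff _).1 (hz J)) hz'
  exact ⟨w, fun J => (locGr_hom_iff _).2 (hw J), hw'⟩

omit [IsNoetherianRing B] in
private theorem p2d_free_fin (hd : ∀ a, 0 < d a) {r : ℕ} (e : Fin r → ℤ) (n : ℤ) {p : ℕ}
    (hp : 1 ≤ p) :
    FinD B (fun J => locGr (freeGr B d e) ((p2d_free_ok B d e).opJ J))
      ((datO B d).tw (Fin r → MvPolynomial α B)) n p := by
  obtain ⟨q, Z, hZ, hZ', H⟩ := hf_free (B := B) hd e n hp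
  refine ⟨q, Z, fun i J => (locGr_hom_iff _).2 (hZ i J), hZ', fun z hz hz' => ?_⟩
  obtain ⟨b, w, hw, hw'⟩ := H z (fun J => (locGr_hom_iff _).1 (hz J)) hz'
  refine ⟨b, w, fun J => (locGr_hom_iff _).2 (hw J), fun J hJ => ?_⟩
  rw [hw' J hJ]
  congr 1
  exact Finset.sum_congr rfl fun i _ => (p2d_C_smul _ _).symm

private theorem p2d_van_ind (hd : ∀ a, 0 < d a) (k : ℕ) : ∀ {p : ℕ}, 1 ≤ p →
    Fintype.card α ≤ p + k → ∀ {G : Finset α → Type u} [∀ J, AddCommGroup (G J)]
      [∀ J, Module (MvPolynomial α B) (G J)] {g : ∀ J, Gr (G J)}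
      {ρ : ∀ J J' : Finset α, J.Nonempty → J ⊆ J' → G J →+ G J'}, Sh (B := B) d g ρ →
      ∃ n₀ : ℤ, ∀ n, n₀ ≤ n → VanD g ρ n p := by
  induction k with
  | zero =>
    intro p hp hc G _ _ g ρ h
    refine ⟨0, fun n _ z hz hz' => ⟨z, hz, fun J hJ => ?_⟩⟩
    have := Finset.card_le_univ J
    omega
  | succ k ih =>
    intro p hp hc G _ _ g ρ h
    obtain ⟨r, e, ψ, K, _, _, gK, ρK, φ, hK, hS, gφ, gψ, lφ, lψ⟩ := h.pres hd
    obtain ⟨n₀, hn₀⟩ := ih (p := p + 1) (by omega) (by omega) hK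
    refine ⟨max n₀ (∑ j, |e j|), fun n hn => ?_⟩
    have hn1 : ∀ j, e j ≤ n := fun j =>
      (le_abs_self _).trans ((Finset.single_le_sum (f := fun j => |e j|)
        (fun j _ => abs_nonneg _) (Finset.mem_univ j)).trans ((le_max_right _ _).trans hn))
    exact p2d_van hS ((p2d_free_ok B d e).fct _)
      (fun J n z hz => (locGr_hom_iff _).2 (gφ J n z hz))
      (fun J n z hz => gψ J n z ((locGr_hom_iff _).1 hz))
      (fun J J' h0 hs n z => (p2d_free_ok B d e).pr_tw n J J' h0 hs z)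
      (p2d_free_van hd hn1 hp) (hn₀ n ((le_max_left _ _).trans hn))

private theorem p2d_fin_ind (hd : ∀ a, 0 < d a) (n : ℤ) (k : ℕ) : ∀ {p : ℕ}, 1 ≤ p →
    Fintype.card α ≤ p + k → ∀ {G : Finset α → Type u} [∀ J, AddCommGroup (G J)]
      [∀ J, Module (MvPolynomial α B) (G J)] {g : ∀ J, Gr (G J)}
      {ρ : ∀ J J' : Finset α, J.Nonempty → J ⊆ J' → G J →+ G J'}, Sh (B := B) d g ρ →
      FinD B g ρ n p := by
  induction k with
  | zero =>
    intro p hp hc G _ _ g ρ h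
    refine ⟨0, fun i => i.elim0, fun i => i.elim0, fun i => i.elim0,
      fun z hz hz' => ⟨fun i => i.elim0, z, hz, fun J hJ => ?_⟩⟩
    have := Finset.card_le_univ J
    omega
  | succ k ih =>
    intro p hp hc G _ _ g ρ h
    obtain ⟨r, e, ψ, K, _, _, gK, ρK, φ, hK, hS, gφ, gψ, lφ, lψ⟩ := h.pres hd
    exact p2d_fin hS ((p2d_free_ok B d e).fct _)
      (fun J n z hz => (locGr_hom_iff _).2 (gφ J n z hz))
      (fun J n z hz => gψ J n z ((locGr_hom_iff _).1 hz))
      (fun J J' h0 hs n z => (p2d_free_ok B d e).pr_tw n J J' h0 hs z)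
      (fun J b => hK.gmod J 0 _ (polyGr_C d b))
      (fun J b => p2d_locGr_op _ (p2d_free_gmod d e 0 _ (polyGr_C d b)))
      hK.lin (fun J J' h0 hs t z => p2d_tw_smul _ J J' h0 hs t z) lφ lψ
      (p2d_free_fin hd e n hp) (ih (p := p + 1) (by omega) (by omega) hK)

/-- Serre vanishing -/
theorem Sh.van (hd : ∀ a, 0 < d a) (h : Sh (B := B) d g ρ) {p : ℕ} (hp : 1 ≤ p) :
    ∃ n₀ : ℤ, ∀ n, n₀ ≤ n → VanD g ρ n p :=
  p2d_van_ind hd (Fintype.card α) hp (Nat.le_add_left _ _) h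

/-- finiteness -/
theorem Sh.hfin (hd : ∀ a, 0 < d a) (h : Sh (B := B) d g ρ) (n : ℤ) {p : ℕ} (hp : 1 ≤ p) :
    FinD B g ρ n p :=
  p2d_fin_ind hd n (Fintype.card α) hp (Nat.le_add_left _ _) h

end Pool.Agent.Lib.MP_0b721b_ag
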