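import Pool.Agent.Lib.MP_0b721b_ag.Cyc

/-!
Part P3a0: graded modules on `V(I)` are finitely generated over `T = A[y_a]`, `y_a` acting as `f a`.
-/

namespace Pool.Agent.Lib.MP_0b721b_ag

open MvPolynomial

universe u

variable {A : Type u} [CommRing A] {N : ℕ} {w : Fin N → ℤ}
  {α : Type} [LinearOrder α] [Fintype α]
  {D : Dat (MvPolynomial (Fin N) A) α} {I : Ideal (MvPolynomial (Fin N) A)}
  {M : Type u} [AddCommGroup M] [Module (MvPolynomial (Fin N) A) M]

omit [LinearOrder α] in
/-- a power of a variable is, modulo `I`, a combination of the `f a` with homogeneous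
coefficients -/
theorem pow_decomp (hI : (polyGr A w).Sub I) (hD : D.Lb w I) (i : Fin N) {e : ℕ}
    (he : (X i : MvPolynomial (Fin N) A) ^ e ∈ I ⊔ Ideal.span (Set.range D.f)) :
    ∃ ι ∈ I, ∃ c : α → MvPolynomial (Fin N) A,
      (∀ a, (polyGr A w).Hom (e * w i - D.d a) (c a)) ∧
      (X i : MvPolynomial (Fin N) A) ^ e = ι + ∑ a, D.f a * c a := by
  obtain ⟨x, hx, y, hy, hxy⟩ := Submodule.mem_sup.1 he
  obtain ⟨c, hc⟩ := (Ideal.mem_span_range_iff_exists_fun).1 hy
  refine ⟨(polyGr A w).pr (e * w i) x, hI _ _ hx,
    fun a => (polyGr A w).pr (e * w i - D.d a) (c a), fun a => (polyGr A w).hom_pr _ _, ?_⟩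
  have h1 : (polyGr A w).pr (e * w i) ((X i : MvPolynomial (Fin N) A) ^ e) = X i ^ e :=
    polyGr_pow (polyGr_X w i) e
  rw [← h1, ← hxy, map_add, ← hc, map_sum]
  congr 1
  refine Finset.sum_congr rfl fun a _ => ?_
  have h2 := polyGr_op (hD.hf a) (e * w i - D.d a) (c a)
  rw [sub_add_cancel, smul_eq_mul, smul_eq_mul] at h2
  rw [← h2, mul_comm (c a)]

/-- a finitely generated graded module killed by `I` is finitely generated over `A[f a]` -/
theorem fg_over_f (hw : ∀ i, 0 < w i) (hI : (polyGr A w).Sub I) (hD : D.Lb w I)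
    [Module.Finite (MvPolynomial (Fin N) A) M] (hM : ∀ a ∈ I, ∀ m : M, a • m = 0) :
    ∃ s : Finset M, ∀ m : M, ∃ c : M →₀ MvPolynomial α A, (c.support : Set M) ⊆ s ∧
      m = c.sum fun x t => (aeval D.f t : MvPolynomial (Fin N) A) • x := by
  classical
  let inst : Module (MvPolynomial α A) M :=
    Module.compHom M (aeval D.f : MvPolynomial α A →ₐ[A] MvPolynomial (Fin N) A).toRingHom
  have hsm : ∀ (t : MvPolynomial α A) (m : M),
      t • m = (aeval D.f t : MvPolynomial (Fin N) A) • m := fun t m => rfl
  choose e he using hD.cov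
  obtain ⟨G, hG⟩ := Module.Finite.fg_top (R := MvPolynomial (Fin N) A) (M := M)
  let E : Fin N →₀ ℕ := Finsupp.equivFunOnFinite.symm e
  let s : Finset M := ((Finset.Iic E) ×ˢ G).image
    fun x => (monomial x.1 (1 : A) : MvPolynomial (Fin N) A) • x.2
  let W : Submodule (MvPolynomial α A) M := Submodule.span (MvPolynomial α A) (s : Set M)
  have hnn : ∀ d : Fin N →₀ ℕ, 0 ≤ Finsupp.weight w d := by
    intro d
    rw [Finsupp.weight_apply]
    exact Finset.sum_nonneg fun i _ => by
      have := (hw i).le
      positivity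
  -- monomials
  have key : ∀ (k : ℕ) (d : Fin N →₀ ℕ), Finsupp.weight w d < k → ∀ (c : A), ∀ g ∈ G,
      (monomial d c : MvPolynomial (Fin N) A) • g ∈ W := by
    intro k
    induction k with
    | zero =>
      intro d hd
      exact absurd hd (not_lt.2 (by exact_mod_cast hnn d))
    | succ k ih =>
      intro d hd c g hg
      by_cases hdE : d ≤ E
      · have h1 : (monomial d c : MvPolynomial (Fin N) A) • g =
            (C c : MvPolynomial α A) • ((monomial d (1 : A) : MvPolynomial (Fin N) A) • g) := by
          rw [hsm, smul_smul, aeval_C, algebraMap_eq, C_mul_monomial, mul_one]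
        rw [h1]
        refine W.smul_mem _ (Submodule.subset_span ?_)
        refine Finset.mem_coe.2 (Finset.mem_image.2 ⟨(d, g), ?_, rfl⟩)
        exact Finset.mem_product.2 ⟨Finset.mem_Iic.2 hdE, hg⟩
      · obtain ⟨i, hi⟩ : ∃ i, e i ≤ d i := by
          by_contra hcon
          push Not at hcon
          exact hdE fun i => (hcon i).le
        obtain ⟨ι, hι, b, hb, hX⟩ := pow_decomp hI hD i (he i)
        have hle : Finsupp.single i (e i) ≤ d := Finsupp.single_le_iff.2 hi
        set d' := d - Finsupp.single i (e i) with hd'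
        have hdd : d' + Finsupp.single i (e i) = d := tsub_add_cancel_of_le hle
        have hwd : Finsupp.weight w d = Finsupp.weight w d' + e i * w i := by
          rw [← hdd, map_add, Finsupp.weight_single, nsmul_eq_mul]
        have hmon : (monomial d c : MvPolynomial (Fin N) A) =
            monomial d' c * ι + ∑ a, D.f a * (monomial d' c * b a) := by
          have h1 : (monomial d c : MvPolynomial (Fin N) A) = monomial d' c * X i ^ e i := by
            rw [X_pow_eq_monomial, monomial_mul, hdd, mul_one]
          rw [h1, hX, mul_add, Finset.mul_sum]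
          congr 1
          exact Finset.sum_congr rfl fun a _ => by ring
        rw [hmon, add_smul, hM _ (Ideal.mul_mem_left _ _ hι) g, zero_add, Finset.sum_smul]
        refine W.sum_mem fun a _ => ?_
        have h2 : (D.f a * (monomial d' c * b a)) • g =
            (X a : MvPolynomial α A) • ((monomial d' c * b a) • g) := by
          rw [hsm, smul_smul, aeval_X]
        rw [h2]
        refine W.smul_mem _ ?_
        have hhom : IsWeightedHomogeneous w (monomial d' c * b a)
            (Finsupp.weight w d' + (e i * w i - D.d a)) :=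
          (isWeightedHomogeneous_monomial w d' c rfl).mul (polyGr_hom_iff.1 (hb a))
        rw [(monomial d' c * b a).as_sum, Finset.sum_smul]
        refine W.sum_mem fun d'' hd'' => ih d'' ?_ _ g hg
        have h3 := hhom (mem_support_iff.1 hd'')
        have h4 := hD.pos a
        push_cast at hd
        rw [h3]
        omega
  have key2 : ∀ (p : MvPolynomial (Fin N) A), ∀ g ∈ G, p • g ∈ W := by
    intro p g hg
    rw [p.as_sum, Finset.sum_smul]
    refine W.sum_mem fun d _ => key ((Finsupp.weight w d).toNat + 1) d ?_ _ g hg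
    have := hnn d
    push_cast
    omega
  refine ⟨s, fun m => ?_⟩
  have hm : m ∈ W := by
    have h1 : m ∈ Submodule.span (MvPolynomial (Fin N) A) (G : Set M) := by
      rw [hG]
      trivial
    obtain ⟨c, hc, rfl⟩ := Submodule.mem_span_set.1 h1
    exact W.sum_mem fun g hg => key2 _ g (hc hg)
  obtain ⟨c, hc, h⟩ := Submodule.mem_span_set.1 hm
  exact ⟨c, hc, h.symm⟩

end Pool.Agent.Lib.MP_0b721b_ag
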