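import Pool.Agent.Lib.MP_0b721b_ag.P2d
import Pool.Agent.Lib.MP_0b721b_ag.P3a0

/-!
Part P3a1: the twisted sheaves `F ⊗ N` are coherent sheaves over `T = A[y_a]`, `y_a` acting as `f a`.
-/

namespace Pool.Agent.Lib.MP_0b721b_ag

open MvPolynomial

universe u

section gen

variable {S : Type*} [CommRing S] {M : Type*} [AddCommGroup M] [Module S M]
  {R : Type*} [CommRing R] [Module R M] [SMulCommClass R S M]

/-- the twisted restrictions commute with all the operators commuting with `S` -/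
theorem p3a_tw_smul {α : Type*} [LinearOrder α] (D : Dat S α) (J J' : Finset α) (h0 : J.Nonempty)
    (hs : J ⊆ J') (t : R) (z : Loc (D.fJ J) M) :
    D.tw M J J' h0 hs (t • z) = t • D.tw M J J' h0 hs z := by
  obtain ⟨m, k, rfl⟩ := fr_surj z
  unfold Dat.tw Dat.U Dat.res
  simp only [AddMonoidHom.comp_apply, smul_fr, locRes_fr, opm_fr]
  congr 1
  rw [smul_comm t, smul_comm t]

theorem p3a_U_smul {α : Type*} [LinearOrder α] (D : Dat S α) (J : Finset α) (a b : α) (t : R)
    (z : Loc (D.fJ J) M) : D.U M J a b (t • z) = t • D.U M J a b z := by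
  obtain ⟨m, k, rfl⟩ := fr_surj z
  unfold Dat.U
  simp only [smul_fr, opm_fr]
  congr 1
  rw [smul_comm t]

/-- an operator of degree `c` acts on the fractions as an operator of degree `c` -/
theorem p3a_locGr_op {g : Gr M} {s : S} {t : R} {c e : ℤ} (hs : g.Op s c) (ht : g.Op t e) :
    (locGr g hs).Op t e := by
  intro n z
  obtain ⟨m, k, rfl⟩ := fr_surj z
  rw [smul_fr, locGr_pr, locGr_pr, smul_fr, ← ht]
  congr 2
  ring_nf

end gen

variable {A : Type u} [CommRing A] {N : ℕ} {w : Fin N → ℤ} {α : Type}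

/-- substitution of homogeneous polynomials -/
theorem p3a_aeval_hom {d : α → ℤ} {f : α → MvPolynomial (Fin N) A}
    (hf : ∀ a, (polyGr A w).Hom (d a) (f a)) {e : ℤ} {t : MvPolynomial α A}
    (ht : (polyGr A d).Hom e t) : (polyGr A w).Hom e (aeval f t) := by
  rw [aeval_def, eval₂_eq]
  refine Gr.Hom.sum fun x hx => ?_
  rw [algebraMap_eq]
  have h1 : IsWeightedHomogeneous w (∏ i ∈ x.support, f i ^ x i) (∑ i ∈ x.support, x i • d i) :=
    IsWeightedHomogeneous.prod _ _ _ fun i _ => (polyGr_hom_iff.1 (hf i)).pow (x i)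
  have h2 : ∑ i ∈ x.support, x i • d i = e := by
    have h3 := polyGr_hom_iff.1 ht (mem_support_iff.1 hx)
    rw [Finsupp.weight_apply] at h3
    exact h3
  have h4 := polyGr_mul (polyGr_C w (coeff x t)) (polyGr_hom_iff.2 h1)
  rw [zero_add, h2] at h4
  exact h4

variable [LinearOrder α] [Fintype α]
  {D : Dat (MvPolynomial (Fin N) A) α} {I : Ideal (MvPolynomial (Fin N) A)}
  {M : Type u} [AddCommGroup M] [Module (MvPolynomial (Fin N) A) M]

/-- the twisted sheaves are coherent -/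
theorem p3a_sh (hw : ∀ i, 0 < w i) (hI : (polyGr A w).Sub I) (hD : D.Lb w I)
    {g : Gr M} (hg : GMod (A := A) w g) (hok : D.Ok g)
    [Module.Finite (MvPolynomial (Fin N) A) M] (hM : ∀ a ∈ I, ∀ m : M, a • m = 0)
    [Module (MvPolynomial α A) M] [SMulCommClass (MvPolynomial α A) (MvPolynomial (Fin N) A) M]
    (hT : ∀ (t : MvPolynomial α A) (m : M), t • m = (aeval D.f t : MvPolynomial (Fin N) A) • m) :
    Sh (B := A) D.d (fun J => locGr g (hok.opJ J)) (D.tw M) := by
  have hX : ∀ (a : α) (m : M), (X a : MvPolynomial α A) • m = D.f a • m := fun a m => by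
    rw [hT, aeval_X]
  have hP : ∀ (K : Finset α) (k : ℕ) (m : M),
      (∏ a ∈ K, (X a : MvPolynomial α A)) ^ k • m = D.fJ K ^ k • m := fun K k m => by
    rw [hT, map_pow, map_prod]
    simp only [aeval_X]
    rfl
  refine ⟨hok.fct D, fun J J' h0 h t z => p3a_tw_smul D J J' h0 h t z, fun J e f hf =>
    p3a_locGr_op (hok.opJ J) ?_, fun J J' h0 h n z => hok.pr_tw n J J' h0 h z, ?_, ?_, ?_, ?_, ?_⟩
  · intro n m
    rw [hT, hT]
    exact hg _ _ (p3a_aeval_hom hD.hf hf) n m
  · intro J a ha z hz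
    obtain ⟨m, k, rfl⟩ := fr_surj z
    rw [smul_fr, fr_eq_zero, hX] at hz
    obtain ⟨j, hj⟩ := hz
    rw [fr_eq_zero]
    refine ⟨j + 1, ?_⟩
    have h1 : D.fJ J ^ (j + 1) • m = D.fJ (J.erase a) • D.fJ J ^ j • D.f a • m := by
      rw [smul_smul, smul_smul, pow_succ]
      congr 1
      rw [← D.fJ_erase ha]
      ring
    rw [h1, hj, smul_zero]
  · intro J a ha z
    obtain ⟨m, k, rfl⟩ := fr_surj z
    refine ⟨fr _ (D.fJ (J.erase a) • m) (k + 1), ?_⟩
    rw [smul_fr, hX, smul_smul, D.fJ_erase ha]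
    have := fr_raise (D.fJ J) m k 1
    rw [pow_one] at this
    exact this
  · intro J J' h0 h z hz
    have ha : J'.min' (h0.mono h) ∈ J' := Finset.min'_mem _ _
    have hb : J.min' h0 ∈ J' := h (Finset.min'_mem _ _)
    have h1 : D.res M h z = 0 := by
      have h2 := hok.U_U D hb ha hb (D.res M h z)
      rw [hok.U_self D hb] at h2
      rw [← h2]
      have h3 : D.U M J' (J'.min' (h0.mono h)) (J.min' h0) (D.res M h z) = 0 := hz
      rw [h3, map_zero]
    obtain ⟨m, k, rfl⟩ := fr_surj z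
    unfold Dat.res at h1
    rw [locRes_fr, fr_eq_zero] at h1
    obtain ⟨j, hj⟩ := h1
    refine ⟨j + k, ?_⟩
    rw [smul_fr, fr_eq_zero, hP]
    refine ⟨j, ?_⟩
    rw [← hj, ← D.fJ_sdiff h, smul_smul, smul_smul, mul_pow, pow_add]
    congr 1
    ring
  · intro J J' h0 h z
    have ha : J'.min' (h0.mono h) ∈ J' := Finset.min'_mem _ _
    have hb : J.min' h0 ∈ J' := h (Finset.min'_mem _ _)
    obtain ⟨m, k, hmk⟩ := fr_surj (D.U M J' (J.min' h0) (J'.min' (h0.mono h)) z)
    refine ⟨k, fr _ m k, ?_⟩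
    have h2 := hok.U_U D ha hb ha z
    rw [hok.U_self D ha] at h2
    have h3 : D.res M h (fr (D.fJ J) m k) =
        (∏ a ∈ J' \ J, (X a : MvPolynomial α A)) ^ k •
          D.U M J' (J.min' h0) (J'.min' (h0.mono h)) z := by
      rw [hmk, smul_fr, hP]
      rfl
    change D.U M J' _ _ (D.res M h (fr (D.fJ J) m k)) = _
    rw [h3, p3a_U_smul, h2]
  · intro a
    classical
    obtain ⟨s, hs⟩ := fg_over_f (M := M) hw hI hD hM
    refine ⟨s.image fun m => fr (D.fJ {a}) m 0, fun z => ?_⟩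
    obtain ⟨m, k, rfl⟩ := fr_surj z
    refine ⟨k, ?_⟩
    have h1 : (X a : MvPolynomial α A) ^ k • fr (D.fJ {a}) m k = fr (D.fJ {a}) m 0 := by
      rw [smul_fr]
      have h2 := hP {a} k m
      rw [Finset.prod_singleton] at h2
      rw [h2]
      have h3 := fr_raise (D.fJ {a}) m 0 k
      rw [zero_add] at h3
      exact h3
    rw [h1]
    obtain ⟨c, hc, hm⟩ := hs m
    have h4 : fr (D.fJ {a}) m 0 = ∑ x ∈ c.support, c x • fr (D.fJ {a}) x 0 := by
      let F : M →+ Loc (D.fJ {a}) M := AddMonoidHom.mk' (fun m => fr (D.fJ {a}) m 0)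
        (fun a b => (fr_add a b 0).symm)
      have h5 : F m = ∑ x ∈ c.support, F (c x • x) := by
        rw [← map_sum]
        congr 1
        rw [hm, Finsupp.sum]
        exact Finset.sum_congr rfl fun x _ => (hT _ _).symm
      exact h5
    rw [h4]
    refine Submodule.sum_mem _ fun x hx => Submodule.smul_mem _ _ (Submodule.subset_span ?_)
    exact Finset.mem_coe.2 (Finset.mem_image.2 ⟨x, hc hx, rfl⟩)

end Pool.Agent.Lib.MP_0b721b_ag
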