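import Pool.Agent.Lib.MP_0b721b_ag.P3b1

/-!
Part P3b2: the direct sum over `b : ℕ` of the sheaves `F ⊗ N ^ (c + n₀ b) (u b)` is a coherent sheaf
over the base ring `A[T_1, ..., T_r]`.
-/

namespace Pool.Agent.Lib.MP_0b721b_ag

open MvPolynomial

universe u

section sat

variable {R : Type*} [CommRing R] {E : Type*} [AddCommGroup E] [Module R E]

/-- the elements which lie in `W` after multiplication by a power of `x` -/
def satW (x : R) (W : Submodule R E) : Submodule R E where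
  carrier := {z | ∃ k : ℕ, x ^ k • z ∈ W}
  add_mem' := by
    rintro a b ⟨k, hk⟩ ⟨l, hl⟩
    refine ⟨k + l, ?_⟩
    rw [smul_add]
    refine W.add_mem ?_ ?_
    · rw [pow_add, mul_comm, mul_smul]
      exact W.smul_mem _ hk
    · rw [pow_add, mul_smul]
      exact W.smul_mem _ hl
  zero_mem' := ⟨0, by rw [smul_zero]; exact W.zero_mem⟩
  smul_mem' := by
    rintro c z ⟨k, hk⟩
    refine ⟨k, ?_⟩
    rw [smul_comm]
    exact W.smul_mem _ hk

theorem mem_satW {x : R} {W : Submodule R E} {z : E} :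
    z ∈ satW x W ↔ ∃ k : ℕ, x ^ k • z ∈ W := Iff.rfl

theorem satW_of_smul {x : R} {W : Submodule R E} {z : E} {k : ℕ} (h : x ^ k • z ∈ satW x W) :
    z ∈ satW x W := by
  obtain ⟨l, hl⟩ := h
  refine ⟨l + k, ?_⟩
  rw [pow_add, mul_smul]
  exact hl

end sat

variable {A : Type u} [CommRing A] {N : ℕ} {w : Fin N → ℤ}
  {α : Type} [LinearOrder α] [Fintype α]
  {D : Dat (MvPolynomial (Fin N) A) α} {I : Ideal (MvPolynomial (Fin N) A)}
  {M : Type u} [AddCommGroup M] [Module (MvPolynomial (Fin N) A) M] {r : ℕ}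

/-- the grading of the direct sum over `J` -/
noncomputable def gGr {g : Gr M} (hok : D.Ok g) (u : ℤ) (J : Finset α) :
    Gr (ℕ →₀ Loc (D.fJ J) M) :=
  grF fun b => (locGr g (hok.opJ J)).shift (u * b)

/-- the restriction maps of the direct sum -/
noncomputable def gRho (D : Dat (MvPolynomial (Fin N) A) α) (M : Type u) [AddCommGroup M]
    [Module (MvPolynomial (Fin N) A) M] (c n₀ : ℕ) (J J' : Finset α) (h0 : J.Nonempty)
    (hs : J ⊆ J') : (ℕ →₀ Loc (D.fJ J) M) →+ (ℕ →₀ Loc (D.fJ J') M) :=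
  fmap fun b => twq D M (c + n₀ * b) J J' h0 hs

theorem gRho_apply (c n₀ : ℕ) (J J' : Finset α) (h0 : J.Nonempty) (hs : J ⊆ J')
    (z : ℕ →₀ Loc (D.fJ J) M) (b : ℕ) :
    gRho D M c n₀ J J' h0 hs z b = twq D M (c + n₀ * b) J J' h0 hs (z b) := rfl

section sh

variable [∀ J, Module (MvPolynomial α (MvPolynomial (Fin r) A)) (ℕ →₀ Loc (D.fJ J) M)]

/-- the restriction maps are linear -/
theorem gRho_lin {ε : Fin r → α → MvPolynomial (Fin N) A} {T n₀ : ℕ}
    (hε : ∀ j a b, ∃ e : ℕ, ∀ m : M, ((D.f a * D.f b) ^ e *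
      (ε j a * D.f b ^ T * (D.f a * D.f b) ^ (n₀ * D.t))) • m =
        ((D.f a * D.f b) ^ e * (D.v a b ^ n₀ * ε j b * D.f a ^ T)) • m)
    (hX : ∀ (J : Finset α) (a : α) (z : ℕ →₀ Loc (D.fJ J) M),
      (X a : MvPolynomial α (MvPolynomial (Fin r) A)) • z = D.f a • z)
    (hT : ∀ (J : Finset α) (j : Fin r) (z : ℕ →₀ Loc (D.fJ J) M),
      (C (X j) : MvPolynomial α (MvPolynomial (Fin r) A)) • z = tsh (secJ D M ε T J j) z)
    (hC : ∀ (J : Finset α) (c : A) (z : ℕ →₀ Loc (D.fJ J) M),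
      (C (C c) : MvPolynomial α (MvPolynomial (Fin r) A)) • z =
        (C c : MvPolynomial (Fin N) A) • z)
    (c : ℕ) (J J' : Finset α) (h0 : J.Nonempty) (hs : J ⊆ J')
    (t : MvPolynomial α (MvPolynomial (Fin r) A)) :
    ∀ z : ℕ →₀ Loc (D.fJ J) M,
      gRho D M c n₀ J J' h0 hs (t • z) = t • gRho D M c n₀ J J' h0 hs z := by
  refine mv_ind (P := fun t => ∀ z : ℕ →₀ Loc (D.fJ J) M,
    gRho D M c n₀ J J' h0 hs (t • z) = t • gRho D M c n₀ J J' h0 hs z) ?_ ?_ ?_ ?_ ?_ t
  · intro x z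
    rw [hC, hC]
    ext b
    rw [gRho_apply, Finsupp.smul_apply, Finsupp.smul_apply, twq_smul, gRho_apply]
  · intro j z
    rw [hT, hT]
    ext b
    rw [gRho_apply]
    cases b with
    | zero => rw [tsh_zero, tsh_zero, map_zero]
    | succ b =>
      rw [tsh_succ, tsh_succ, gRho_apply]
      exact twq_secJ j (hε j) (by ring) J J' h0 hs (z b)
  · intro a z
    rw [hX, hX]
    ext b
    rw [gRho_apply, Finsupp.smul_apply, Finsupp.smul_apply, twq_smul, gRho_apply]
  · intro x y hx hy z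
    rw [add_smul, add_smul, map_add, hx, hy]
  · intro x y hx hy z
    rw [mul_smul, mul_smul, hx, hy]

/-- the action is graded -/
theorem gGr_gmod {g : Gr M} (hok : D.Ok g) {u : ℤ} {ε : Fin r → α → MvPolynomial (Fin N) A}
    {T : ℕ} (hε : ∀ j a, g.Op (ε j a) (T * D.d a + u))
    (hg : ∀ c : A, g.Op (C c : MvPolynomial (Fin N) A) 0)
    (hX : ∀ (J : Finset α) (a : α) (z : ℕ →₀ Loc (D.fJ J) M),
      (X a : MvPolynomial α (MvPolynomial (Fin r) A)) • z = D.f a • z)
    (hT : ∀ (J : Finset α) (j : Fin r) (z : ℕ →₀ Loc (D.fJ J) M),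
      (C (X j) : MvPolynomial α (MvPolynomial (Fin r) A)) • z = tsh (secJ D M ε T J j) z)
    (hC : ∀ (J : Finset α) (c : A) (z : ℕ →₀ Loc (D.fJ J) M),
      (C (C c) : MvPolynomial α (MvPolynomial (Fin r) A)) • z =
        (C c : MvPolynomial (Fin N) A) • z) (J : Finset α) :
    GMod (A := MvPolynomial (Fin r) A) D.d (gGr hok u J) := by
  have hS : ∀ (s : MvPolynomial (Fin N) A) (e : ℤ), g.Op s e → ∀ (n : ℤ)
      (z : ℕ →₀ Loc (D.fJ J) M), (gGr hok u J).pr (n + e) (s • z) = s • (gGr hok u J).pr n z := by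
    intro s e hs n z
    ext b
    exact ((p3a_locGr_op (hok.opJ J) hs).shift (u * b)) n (z b)
  refine gmod_of (fun b => ?_) (fun a => ?_)
  · induction b using MvPolynomial.induction_on with
    | C c =>
      intro n z
      rw [hC, hC]
      exact hS _ _ (hg c) n z
    | add x y hx hy =>
      rw [C_add]
      exact hx.add hy
    | mul_X x j hx =>
      rw [C_mul]
      have h1 : (gGr hok u J).Op (C (X j) : MvPolynomial α (MvPolynomial (Fin r) A)) 0 := by
        intro n z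
        rw [hT, hT]
        ext b
        cases b with
        | zero =>
          rw [tsh_zero]
          change ((locGr g (hok.opJ J)).shift (u * (0 : ℕ))).pr (n + 0) (tsh _ z 0) = 0
          rw [tsh_zero, map_zero]
        | succ b =>
          rw [tsh_succ]
          change (locGr g (hok.opJ J)).pr (n + 0 + u * ((b + 1 : ℕ) : ℤ)) (tsh _ z (b + 1)) =
            secJ D M ε T J j ((locGr g (hok.opJ J)).pr (n + u * b) (z b))
          rw [tsh_succ, ← pr_secJ hok.opJ (hε j)]
          congr 2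
          push_cast
          ring
      have h2 := hx.mul h1
      rw [add_zero] at h2
      exact h2
  · intro n z
    rw [hX, hX]
    exact hS _ _ (hok.opf a) n z

/-- products of variables act as products of the functions -/
theorem gX_pow
    (hX : ∀ (J : Finset α) (a : α) (z : ℕ →₀ Loc (D.fJ J) M),
      (X a : MvPolynomial α (MvPolynomial (Fin r) A)) • z = D.f a • z) (J K : Finset α) (k : ℕ)
    (z : ℕ →₀ Loc (D.fJ J) M) :
    (∏ a ∈ K, (X a : MvPolynomial α (MvPolynomial (Fin r) A))) ^ k • z = D.fJ K ^ k • z := by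
  have h1 : ∀ z : ℕ →₀ Loc (D.fJ J) M,
      (∏ a ∈ K, (X a : MvPolynomial α (MvPolynomial (Fin r) A))) • z = D.fJ K • z := by
    induction K using Finset.induction_on with
    | empty =>
      intro z
      have h2 : D.fJ ∅ = 1 := Finset.prod_empty
      rw [Finset.prod_empty, h2, one_smul, one_smul]
    | insert a K ha ih =>
      intro z
      have h2 : D.fJ (insert a K) = D.f a * D.fJ K := Finset.prod_insert ha
      rw [Finset.prod_insert ha, h2, mul_smul, mul_smul, ih]
      exact hX J a _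
  induction k generalizing z with
  | zero => rw [pow_zero, pow_zero, one_smul, one_smul]
  | succ k ih => rw [pow_succ, pow_succ, mul_smul, mul_smul, h1, ih]

/-- local injectivity -/
theorem gRho_linj {g : Gr M} {c n₀ : ℕ} (hok : ∀ q, (D.pw q).Ok g)
    {J J' : Finset α} (h0 : J.Nonempty) (hs : J ⊆ J') (z : ℕ →₀ Loc (D.fJ J) M)
    (hz : gRho D M c n₀ J J' h0 hs z = 0) : ∃ k : ℕ, D.fJ (J' \ J) ^ k • z = 0 := by
  have h1 : ∀ b, ∃ k : ℕ, D.fJ (J' \ J) ^ k • z b = 0 := fun b => by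
    have h2 : twq D M (c + n₀ * b) J J' h0 hs (z b) = 0 := by
      rw [← gRho_apply, hz, Finsupp.zero_apply]
    exact tw_zero (hok (c + n₀ * b)) h0 hs h2
  choose k hk using h1
  refine ⟨z.support.sup k, ?_⟩
  ext b
  rw [Finsupp.smul_apply, Finsupp.zero_apply]
  by_cases hb : b ∈ z.support
  · have h3 : k b ≤ z.support.sup k := Finset.le_sup hb
    obtain ⟨l, hl⟩ := Nat.exists_eq_add_of_le' h3
    rw [hl, pow_add, mul_smul, hk, smul_zero]
  · rw [Finsupp.notMem_support_iff.1 hb, smul_zero]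

/-- local surjectivity -/
theorem gRho_lsurj {g : Gr M} {c n₀ : ℕ} (hok : ∀ q, (D.pw q).Ok g)
    {J J' : Finset α} (h0 : J.Nonempty) (hs : J ⊆ J') (z : ℕ →₀ Loc (D.fJ J') M) :
    ∃ (k : ℕ) (z' : ℕ →₀ Loc (D.fJ J) M),
      gRho D M c n₀ J J' h0 hs z' = D.fJ (J' \ J) ^ k • z := by
  have hlin : ∀ (t : MvPolynomial (Fin N) A) (x : ℕ →₀ Loc (D.fJ J) M),
      gRho D M c n₀ J J' h0 hs (t • x) = t • gRho D M c n₀ J J' h0 hs x := by
    intro t x
    ext b
    rw [gRho_apply, Finsupp.smul_apply, Finsupp.smul_apply, twq_smul, gRho_apply]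
  induction z using Finsupp.induction_linear with
  | zero => exact ⟨0, 0, by rw [map_zero, smul_zero]⟩
  | add x y hx hy =>
    obtain ⟨k, x', hx'⟩ := hx
    obtain ⟨l, y', hy'⟩ := hy
    refine ⟨k + l, D.fJ (J' \ J) ^ l • x' + D.fJ (J' \ J) ^ k • y', ?_⟩
    rw [map_add, hlin, hlin, hx', hy', smul_smul, smul_smul, ← pow_add, ← pow_add, add_comm l k,
      smul_add]
  | single b x =>
    obtain ⟨k, x', hx'⟩ : ∃ (k : ℕ) (x' : Loc (D.fJ J) M),
        twq D M (c + n₀ * b) J J' h0 hs x' = D.fJ (J' \ J) ^ k • x :=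
      tw_surj (D := D.pw (c + n₀ * b)) (hok (c + n₀ * b)) h0 hs x
    refine ⟨k, Finsupp.single b x', ?_⟩
    ext e
    rw [gRho_apply, Finsupp.smul_apply, Finsupp.single_apply, Finsupp.single_apply]
    split_ifs with h
    · subst h
      exact hx'
    · rw [map_zero, smul_zero]

/-- finite generation -/
theorem gfin (hw : ∀ i, 0 < w i) (hI : (polyGr A w).Sub I) (hD : D.Lb w I)
    [Module.Finite (MvPolynomial (Fin N) A) M] (hM : ∀ a ∈ I, ∀ m : M, a • m = 0)
    {ε : Fin r → α → MvPolynomial (Fin N) A} {T : ℕ}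
    (hgen : ∀ a, ∃ e : ℕ, D.f a ^ e ∈ Ideal.span (Set.range fun j => ε j a) ⊔ I)
    (hX : ∀ (J : Finset α) (a : α) (z : ℕ →₀ Loc (D.fJ J) M),
      (X a : MvPolynomial α (MvPolynomial (Fin r) A)) • z = D.f a • z)
    (hT : ∀ (J : Finset α) (j : Fin r) (z : ℕ →₀ Loc (D.fJ J) M),
      (C (X j) : MvPolynomial α (MvPolynomial (Fin r) A)) • z = tsh (secJ D M ε T J j) z)
    (hC : ∀ (J : Finset α) (c : A) (z : ℕ →₀ Loc (D.fJ J) M),
      (C (C c) : MvPolynomial α (MvPolynomial (Fin r) A)) • z =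
        (C c : MvPolynomial (Fin N) A) • z) (a : α) :
    ∃ s : Finset (ℕ →₀ Loc (D.fJ {a}) M), ∀ z : ℕ →₀ Loc (D.fJ {a}) M, ∃ k : ℕ,
      (X a : MvPolynomial α (MvPolynomial (Fin r) A)) ^ k • z ∈
        Submodule.span (MvPolynomial α (MvPolynomial (Fin r) A))
          (s : Set (ℕ →₀ Loc (D.fJ {a}) M)) := by
  classical
  obtain ⟨s, hs⟩ := fg_over_f (M := M) hw hI hD hM
  set s' : Finset (ℕ →₀ Loc (D.fJ {a}) M) :=
    s.image fun m => Finsupp.single 0 (fr (D.fJ {a}) m 0) with hs'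
  refine ⟨s', fun z => ?_⟩
  set W := Submodule.span (MvPolynomial α (MvPolynomial (Fin r) A))
    (s' : Set (ℕ →₀ Loc (D.fJ {a}) M)) with hW
  rw [← mem_satW]
  have hf1 : D.fJ {a} = D.f a := Finset.prod_singleton _ _
  have hXk : ∀ (k : ℕ) (z : ℕ →₀ Loc (D.fJ {a}) M),
      (X a : MvPolynomial α (MvPolynomial (Fin r) A)) ^ k • z = D.f a ^ k • z := fun k z => by
    have h1 := gX_pow hX {a} {a} k z
    rw [Finset.prod_singleton] at h1
    rw [h1]
    exact congrArg (fun s : MvPolynomial (Fin N) A => s ^ k • z) hf1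
  -- the polynomials in the `f a` act through the base ring
  have hact : ∀ (t : MvPolynomial α A) (z : ℕ →₀ Loc (D.fJ {a}) M),
      (MvPolynomial.map C t : MvPolynomial α (MvPolynomial (Fin r) A)) • z =
        (aeval D.f t : MvPolynomial (Fin N) A) • z := by
    intro t
    induction t using MvPolynomial.induction_on with
    | C c =>
      intro z
      rw [map_C, hC, aeval_C, algebraMap_eq]
    | add x y hx hy =>
      intro z
      rw [map_add, map_add, add_smul, add_smul, hx, hy]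
    | mul_X x b hx =>
      intro z
      rw [map_mul, map_mul, mul_smul, mul_smul, hx, map_X, aeval_X, hX]
  -- component zero
  have h0 : ∀ x : Loc (D.fJ {a}) M, Finsupp.single 0 x ∈ satW (X a) W := by
    intro x
    obtain ⟨m, k, rfl⟩ := fr_surj x
    refine ⟨k, ?_⟩
    rw [hXk, Finsupp.smul_single]
    have h1 : D.f a ^ k • fr (D.fJ {a}) m k = fr (D.fJ {a}) m 0 := by
      rw [smul_fr]
      have h3 := fr_raise (D.fJ {a}) m 0 k
      rw [zero_add] at h3
      rw [← h3]
      congr 1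
      exact (congrArg (fun s : MvPolynomial (Fin N) A => s ^ k • m) hf1).symm
    rw [h1]
    obtain ⟨c, hc, hm⟩ := hs m
    have h4 : (Finsupp.single 0 (fr (D.fJ {a}) m 0) : ℕ →₀ Loc (D.fJ {a}) M) =
        ∑ x ∈ c.support, (MvPolynomial.map C (c x) : MvPolynomial α (MvPolynomial (Fin r) A)) •
          (Finsupp.single 0 (fr (D.fJ {a}) x 0) : ℕ →₀ Loc (D.fJ {a}) M) := by
      let F : M →+ (ℕ →₀ Loc (D.fJ {a}) M) :=
        (Finsupp.singleAddHom 0).comp (AddMonoidHom.mk' (fun m => fr (D.fJ {a}) m 0)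
          (fun a b => (fr_add a b 0).symm))
      have h5 : F m = ∑ x ∈ c.support, F ((aeval D.f (c x) : MvPolynomial (Fin N) A) • x) := by
        rw [← map_sum]
        congr 1
      have h6 : ∀ x ∈ c.support, F ((aeval D.f (c x) : MvPolynomial (Fin N) A) • x) =
          (MvPolynomial.map C (c x) : MvPolynomial α (MvPolynomial (Fin r) A)) •
            (Finsupp.single 0 (fr (D.fJ {a}) x 0) : ℕ →₀ Loc (D.fJ {a}) M) := by
        intro x _
        rw [hact, Finsupp.smul_single, smul_fr]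
        rfl
      exact h5.trans (Finset.sum_congr rfl h6)
    rw [h4]
    refine Submodule.sum_mem _ fun x hx => Submodule.smul_mem _ _ (Submodule.subset_span ?_)
    exact Finset.mem_coe.2 (Finset.mem_image.2 ⟨x, hc hx, rfl⟩)
  -- all components
  have hb : ∀ (b : ℕ) (x : Loc (D.fJ {a}) M), Finsupp.single b x ∈ satW (X a) W := by
    intro b
    induction b with
    | zero => exact h0
    | succ b ih =>
      intro x
      obtain ⟨e, he⟩ := hgen a
      obtain ⟨y, hy, i, hi, hyi⟩ := Submodule.mem_sup.1 he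
      obtain ⟨cc, hcc⟩ := (Ideal.mem_span_range_iff_exists_fun).1 hy
      refine satW_of_smul (k := e) ?_
      rw [hXk, Finsupp.smul_single, ← hyi, add_smul]
      have h1 : i • x = 0 := by
        obtain ⟨m, k, rfl⟩ := fr_surj x
        rw [smul_fr, hM i hi, fr_zero]
      rw [h1, add_zero, ← hcc, Finset.sum_smul, ← Finsupp.singleAddHom_apply, map_sum]
      refine Submodule.sum_mem _ fun j _ => ?_
      rw [Finsupp.singleAddHom_apply]
      have h2 : ∀ x, secJ D M ε T {a} j (D.f a ^ T • x) = ε j a • x := by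
        intro x
        obtain ⟨m, k, rfl⟩ := fr_surj x
        rw [smul_fr, smul_fr]
        have h3 : epsJ D ε T {a} j = ε j a := by
          unfold epsJ
          rw [dif_pos (Finset.singleton_nonempty a), Finset.min'_singleton, Finset.erase_singleton]
          unfold Dat.fJ
          rw [Finset.prod_empty, one_pow, mul_one]
        change fr _ (epsJ D ε T {a} j • D.f a ^ T • m) (k + T) = _
        rw [h3, smul_comm]
        have h4 := fr_raise (D.fJ {a}) (ε j a • m) k T
        rw [← h4]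
        congr 1
        exact (congrArg (fun s : MvPolynomial (Fin N) A => s ^ T • ε j a • m) hf1).symm
      have h5 : (Finsupp.single (b + 1) ((cc j * ε j a) • x) : ℕ →₀ Loc (D.fJ {a}) M) =
          (C (X j) : MvPolynomial α (MvPolynomial (Fin r) A)) •
            Finsupp.single b (D.f a ^ T • cc j • x) := by
        rw [hT, tsh_single]
        congr 1
        rw [h2, smul_smul, mul_comm]
      rw [h5]
      exact Submodule.smul_mem _ _ (ih _)
  induction z using Finsupp.induction_linear with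
  | zero => exact Submodule.zero_mem _
  | add x y hx hy => exact Submodule.add_mem _ hx hy
  | single b x => exact hb b x

/-- the direct sum is a coherent sheaf over `A[T_1, ..., T_r]` -/
theorem gSh (hw : ∀ i, 0 < w i) (hI : (polyGr A w).Sub I) (hD : D.Lb w I)
    {g : Gr M} (hg : GMod (A := A) w g) (hok : D.Ok g)
    [Module.Finite (MvPolynomial (Fin N) A) M] (hM : ∀ a ∈ I, ∀ m : M, a • m = 0)
    {n₀ : ℕ} {u : ℤ} (c : ℕ) {T : ℕ} {ε : Fin r → α → MvPolynomial (Fin N) A}
    (h1 : ∀ j a, (polyGr A w).Hom (T * D.d a + u) (ε j a))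
    (h2 : ∀ j a b, ∃ e : ℕ, (D.f a * D.f b) ^ e *
      (ε j a * D.f b ^ T * (D.f a * D.f b) ^ (n₀ * D.t) - D.v a b ^ n₀ * ε j b * D.f a ^ T) ∈ I)
    (hgen : ∀ a, ∃ e : ℕ, D.f a ^ e ∈ Ideal.span (Set.range fun j => ε j a) ⊔ I)
    (hX : ∀ (J : Finset α) (a : α) (z : ℕ →₀ Loc (D.fJ J) M),
      (X a : MvPolynomial α (MvPolynomial (Fin r) A)) • z = D.f a • z)
    (hT : ∀ (J : Finset α) (j : Fin r) (z : ℕ →₀ Loc (D.fJ J) M),
      (C (X j) : MvPolynomial α (MvPolynomial (Fin r) A)) • z = tsh (secJ D M ε T J j) z)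
    (hC : ∀ (J : Finset α) (c : A) (z : ℕ →₀ Loc (D.fJ J) M),
      (C (C c) : MvPolynomial α (MvPolynomial (Fin r) A)) • z =
        (C c : MvPolynomial (Fin N) A) • z) :
    Sh (B := MvPolynomial (Fin r) A) D.d (gGr hok u) (gRho D M c n₀) := by
  have hokq : ∀ q, (D.pw q).Ok g := fun q => (hD.pw q).ok hg hM
  have hε : ∀ j a b, ∃ e : ℕ, ∀ m : M, ((D.f a * D.f b) ^ e *
      (ε j a * D.f b ^ T * (D.f a * D.f b) ^ (n₀ * D.t))) • m =
        ((D.f a * D.f b) ^ e * (D.v a b ^ n₀ * ε j b * D.f a ^ T)) • m := by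
    intro j a b
    obtain ⟨e, he⟩ := h2 j a b
    refine ⟨e, fun m => ?_⟩
    have h3 := hM _ he m
    rw [mul_sub, sub_smul, sub_eq_zero] at h3
    exact h3
  refine ⟨?_, fun J J' h0 hs t z => gRho_lin hε hX hT hC c J J' h0 hs t z,
    fun J => gGr_gmod hok (fun j a => hg _ _ (h1 j a)) (fun c => hg _ _ (polyGr_C w c)) hX hT hC J,
    ?_, ?_, ?_, ?_, ?_, fun a => gfin hw hI hD hM hgen hX hT hC a⟩
  · intro J J' J'' h0 h0' hs hs' z
    ext b
    exact (hokq (c + n₀ * b)).fct (D.pw (c + n₀ * b)) J J' J'' h0 h0' hs hs' (z b)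
  · intro J J' h0 hs n z
    ext b
    exact (hokq (c + n₀ * b)).pr_tw (n + u * b) J J' h0 hs (z b)
  · intro J a ha z hz
    rw [hX] at hz
    ext b
    refine loc_inj (a := a) ha ?_
    rw [← Finsupp.smul_apply, hz, Finsupp.zero_apply]
  · intro J a ha z
    refine ⟨fmap (fun _ => opm (D.fJ J) (D.fJ (J.erase a)) 1) z, ?_⟩
    rw [hX]
    ext b
    rw [Finsupp.smul_apply, fmap_apply]
    exact loc_div ha (z b)
  · intro J J' h0 hs z hz
    obtain ⟨k, hk⟩ := gRho_linj hokq h0 hs z hz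
    exact ⟨k, by rw [gX_pow hX, hk]⟩
  · intro J J' h0 hs z
    obtain ⟨k, z', hz'⟩ := gRho_lsurj (c := c) (n₀ := n₀) hokq h0 hs z
    exact ⟨k, z', by rw [gX_pow hX, hz']⟩

end sh

end Pool.Agent.Lib.MP_0b721b_ag
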