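import Pool.Agent.Lib.MP_0b721b_ag.P2d
import Pool.Agent.Lib.MP_0b721b_ag.P3a
import Pool.Agent.Lib.MP_0b721b_ag.P3b2

/-!
Part P3b: Serre vanishing for the powers of an ample line bundle, by the coherent sheaf
`⊕_b F ⊗ N ^ (c + n₀ b) (u b)` over the base ring `A[T_1, ..., T_r]`, where the sections `ε j` of
`N ^ n₀ (u)` act as `T_j`.
-/

namespace Pool.Agent.Lib.MP_0b721b_ag

open MvPolynomial

universe u

variable {A : Type u} [CommRing A] [IsNoetherianRing A] {N : ℕ} {w : Fin N → ℤ}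
  {α : Type} [LinearOrder α] [Fintype α]
  {D : Dat (MvPolynomial (Fin N) A) α} {I : Ideal (MvPolynomial (Fin N) A)}
  {M : Type u} [AddCommGroup M] [Module (MvPolynomial (Fin N) A) M]

/-- the ring over which everything acts -/
private noncomputable def p3bHom (D : Dat (MvPolynomial (Fin N) A) α) (r : ℕ) :
    MvPolynomial α (MvPolynomial (Fin r) A) →+* MvPolynomial (Fin r) (MvPolynomial (Fin N) A) :=
  eval₂Hom (MvPolynomial.map C) (fun a => C (D.f a))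

/-- one degree `a₀` for all powers of the globally generated `G = N ^ n₀ (u)` -/
theorem serre_gg (hw : ∀ i, 0 < w i) (hI : (polyGr A w).Sub I) (hD : D.Lb w I)
    {g : Gr M} (hg : GMod (A := A) w g)
    [Module.Finite (MvPolynomial (Fin N) A) M] (hM : ∀ a ∈ I, ∀ m : M, a • m = 0)
    {n₀ : ℕ} {u : ℤ} (hG : (D.pw n₀).GG w I u) (c : ℕ) {p : ℕ} (hp : 1 ≤ p) :
    ∃ a₀ : ℤ, ∀ a, a₀ ≤ a → ∀ b : ℕ, HV (D.pw (c + n₀ * b)) g (a + u * b) p := by
  obtain ⟨T, r, ε, h1, h2, h3⟩ := hG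
  have hok : D.Ok g := hD.ok hg hM
  letI : ∀ J, Module (MvPolynomial α (MvPolynomial (Fin r) A)) (ℕ →₀ Loc (D.fJ J) M) := fun J =>
    Module.compHom (ℕ →₀ Loc (D.fJ J) M)
      ((opAlg (fun j => tsh (secJ D M ε T J j))
        (fun i j => tsh_comm (fun x => opmL_comm _ _ _ _ _ x))).comp (p3bHom D r))
  have hact : ∀ (J : Finset α) (t : MvPolynomial α (MvPolynomial (Fin r) A))
      (z : ℕ →₀ Loc (D.fJ J) M), t • z = opAlg (fun j => tsh (secJ D M ε T J j))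
        (fun i j => tsh_comm (fun x => opmL_comm _ _ _ _ _ x)) (p3bHom D r t) z :=
    fun J t z => rfl
  have hX : ∀ (J : Finset α) (a : α) (z : ℕ →₀ Loc (D.fJ J) M),
      (X a : MvPolynomial α (MvPolynomial (Fin r) A)) • z = D.f a • z := by
    intro J a z
    rw [hact]
    unfold p3bHom
    rw [eval₂Hom_X', opAlg_C]
  have hT : ∀ (J : Finset α) (j : Fin r) (z : ℕ →₀ Loc (D.fJ J) M),
      (C (X j) : MvPolynomial α (MvPolynomial (Fin r) A)) • z = tsh (secJ D M ε T J j) z := by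
    intro J j z
    rw [hact]
    unfold p3bHom
    rw [eval₂Hom_C, map_X, opAlg_X]
  have hC : ∀ (J : Finset α) (c : A) (z : ℕ →₀ Loc (D.fJ J) M),
      (C (C c) : MvPolynomial α (MvPolynomial (Fin r) A)) • z =
        (C c : MvPolynomial (Fin N) A) • z := by
    intro J c z
    rw [hact]
    unfold p3bHom
    rw [eval₂Hom_C, map_C, opAlg_C]
  obtain ⟨n, hn⟩ := (gSh (n₀ := n₀) (u := u) hw hI hD hg hok hM c h1 h2 h3 hX hT hC).van hD.pos hp
  refine ⟨n, fun a ha b z hz hz' => ?_⟩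
  have ev : ∀ b', Nat' (gRho D M c n₀) ((D.pw (c + n₀ * b')).tw M)
      (fun J => (Finsupp.applyAddHom b' : (ℕ →₀ Loc (D.fJ J) M) →+ Loc (D.fJ J) M)) :=
    fun b' J J' h0 hs x => rfl
  obtain ⟨v, hv, hv'⟩ := hn a ha (fun J => Finsupp.single b (z J : Loc (D.fJ J) M))
    (fun J => grF_hom_single ((locGr_hom_iff (hok.opJ J)).2 (hz J))) (fun J hJ => by
      ext b'
      have h5 := dC_map (ev b') (fun J => Finsupp.single b (z J : Loc (D.fJ J) M)) J
      refine h5.symm.trans ?_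
      by_cases hbb : b' = b
      · subst hbb
        have h6 : (fun J => (Finsupp.applyAddHom b' : (ℕ →₀ Loc (D.fJ J) M) →+ Loc (D.fJ J) M)
            (Finsupp.single b' (z J : Loc (D.fJ J) M))) = z := by
          funext J
          exact Finsupp.single_eq_same
        exact (congrArg (fun y => dC ((D.pw (c + n₀ * b')).tw M) y J) h6).trans (hz' J hJ)
      · refine dC_eq_zero_of fun K _ => ?_
        exact Finsupp.single_eq_of_ne hbb)
  refine ⟨fun J => v J b, fun J => (locGr_hom_iff (hok.opJ J)).1 (grF_hom (hv J) b),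
    fun J hJ => ?_⟩
  have h5 := dC_map (ev b) v J
  refine h5.trans ?_
  have h6 := congrArg (fun x : ℕ →₀ Loc (D.fJ J) M => x b) (hv' J hJ)
  refine h6.trans ?_
  exact Finsupp.single_eq_same

/-- Serre vanishing for the powers of the ample `N (n)` -/
theorem serre_amp (hw : ∀ i, 0 < w i) (hI : (polyGr A w).Sub I) (hD : D.Lb w I)
    {g : Gr M} (hg : GMod (A := A) w g)
    [Module.Finite (MvPolynomial (Fin N) A) M] (hM : ∀ a ∈ I, ∀ m : M, a • m = 0)
    {n : ℤ} (hA : D.Amp w I n) {p : ℕ} (hp : 1 ≤ p) :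
    ∃ q₀ : ℕ, ∀ q : ℕ, q₀ ≤ q → HV (D.pw q) g (q * n) p := by
  obtain ⟨n₀, u, h1, h2, h3⟩ := hA
  have key := fun c => serre_gg hw hI hD hg hM h3 c hp
  choose a₀ ha₀ using key
  -- `q = c + n₀ b`, `a = q n - u b = c n + (n₀ n - u) b`
  refine ⟨n₀ * ((∑ c ∈ Finset.range n₀, (a₀ c - c * n).toNat) + 1), fun q hq => ?_⟩
  have hc : q % n₀ < n₀ := Nat.mod_lt _ (by omega)
  have hb : q / n₀ ≥ (∑ c ∈ Finset.range n₀, (a₀ c - c * n).toNat) + 1 := by
    rw [ge_iff_le, Nat.le_div_iff_mul_le (by omega)]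
    rw [mul_comm]
    exact hq
  have hb' : (a₀ (q % n₀) - ((q % n₀ : ℕ) : ℤ) * n) ≤ ((q / n₀ : ℕ) : ℤ) := by
    have h4 : (a₀ (q % n₀) - ((q % n₀ : ℕ) : ℤ) * n).toNat ≤
        ∑ c ∈ Finset.range n₀, (a₀ c - c * n).toNat :=
      Finset.single_le_sum (f := fun c : ℕ => (a₀ c - (c : ℤ) * n).toNat)
        (fun _ _ => Nat.zero_le _) (Finset.mem_range.2 hc)
    have h5 := Int.self_le_toNat (a₀ (q % n₀) - ((q % n₀ : ℕ) : ℤ) * n)
    have h6 : ((a₀ (q % n₀) - ((q % n₀ : ℕ) : ℤ) * n).toNat : ℤ) ≤ ((q / n₀ : ℕ) : ℤ) := by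
      exact_mod_cast (by omega : (a₀ (q % n₀) - ((q % n₀ : ℕ) : ℤ) * n).toNat ≤ q / n₀)
    exact h5.trans h6
  have hq' : q = q % n₀ + n₀ * (q / n₀) := (Nat.mod_add_div q n₀).symm
  have hqz : (q : ℤ) = ((q % n₀ : ℕ) : ℤ) + n₀ * ((q / n₀ : ℕ) : ℤ) := by exact_mod_cast hq'
  have h7 := ha₀ (q % n₀) (q * n - u * ((q / n₀ : ℕ) : ℤ)) (by
    have h8 : (q : ℤ) * n - u * ((q / n₀ : ℕ) : ℤ) =
        ((q % n₀ : ℕ) : ℤ) * n + (n₀ * n - u) * ((q / n₀ : ℕ) : ℤ) := by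
      conv_lhs => rw [hqz]
      ring
    rw [h8]
    have h9 : ((q / n₀ : ℕ) : ℤ) ≤ (n₀ * n - u) * ((q / n₀ : ℕ) : ℤ) := by
      have h10 : (1 : ℤ) ≤ n₀ * n - u := by omega
      nlinarith [Int.natCast_nonneg (q / n₀)]
    linarith) (q / n₀)
  rw [← hq', sub_add_cancel] at h7
  exact h7

end Pool.Agent.Lib.MP_0b721b_ag
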