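import Pool.Agent.Lib.MP_0b721b_ag.P3a1

/-!
Part P3b0: tools for the direct sum over `b : ℕ` of the powers of a line bundle: commuting operators
as a module over a polynomial ring, finitely supported families, shifting operators.
-/

namespace Pool.Agent.Lib.MP_0b721b_ag

open MvPolynomial

section alg

variable {S : Type*} [CommRing S] {E : Type*} [AddCommGroup E] [Module S E] {r : ℕ}

set_option linter.deprecated false in
/-- commuting operators give an action of the polynomial ring -/
noncomputable def opAlg (T : Fin r → Module.End S E) (h : ∀ i j, T i * T j = T j * T i) :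
    MvPolynomial (Fin r) S →+* Module.End S E :=
  letI : CommRing (Algebra.adjoin S (Set.range T)) :=
    Algebra.adjoinCommRingOfComm S (by
      rintro _ ⟨i, rfl⟩ _ ⟨j, rfl⟩
      exact h i j)
  (Algebra.adjoin S (Set.range T)).val.toRingHom.comp
    (eval₂Hom (algebraMap S (Algebra.adjoin S (Set.range T)))
      (fun j => ⟨T j, Algebra.subset_adjoin ⟨j, rfl⟩⟩))

theorem opAlg_X (T : Fin r → Module.End S E) (h : ∀ i j, T i * T j = T j * T i) (j : Fin r) :
    opAlg T h (X j) = T j := by
  unfold opAlg
  simp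

theorem opAlg_C (T : Fin r → Module.End S E) (h : ∀ i j, T i * T j = T j * T i) (c : S) (x : E) :
    opAlg T h (C c) x = c • x := by
  unfold opAlg
  simp

end alg

section fs

variable {L L' : Type*} [AddCommGroup L] [AddCommGroup L']

/-- a map of the components of finitely supported families -/
noncomputable def fmap (φ : ℕ → L →+ L') : (ℕ →₀ L) →+ (ℕ →₀ L') where
  toFun z := Finsupp.onFinset z.support (fun b => φ b (z b)) (fun b hb => by
    rw [Finsupp.mem_support_iff]
    intro h
    exact hb (by rw [h, map_zero]))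
  map_zero' := by
    ext b
    exact map_zero (φ b)
  map_add' z z' := by
    ext b
    exact map_add (φ b) _ _

theorem fmap_apply (φ : ℕ → L →+ L') (z : ℕ →₀ L) (b : ℕ) : fmap φ z b = φ b (z b) := rfl

/-- the grading of the finitely supported families -/
noncomputable def grF (g : ℕ → Gr L) : Gr (ℕ →₀ L) where
  pr n := fmap fun b => (g b).pr n
  pr_same n m := by
    ext b
    exact (g b).pr_same _ _
  pr_ne i j h m := by
    ext b
    exact (g b).pr_ne _ _ h _
  fin m := by
    refine (Set.Finite.biUnion m.support.finite_toSet (fun b _ => (g b).fin (m b))).subset ?_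
    intro n hn
    obtain ⟨b, hb⟩ := Finsupp.ne_iff.1 hn
    have h1 : (g b).pr n (m b) ≠ 0 := hb
    refine Set.mem_biUnion (x := b) ?_ h1
    rw [Finset.mem_coe, Finsupp.mem_support_iff]
    intro h
    exact h1 (by rw [h, map_zero])
  sum m := by
    ext b
    have hf : {n | (fmap fun b => (g b).pr n) m ≠ 0}.Finite := by
      refine (Set.Finite.biUnion m.support.finite_toSet (fun b _ => (g b).fin (m b))).subset ?_
      intro n hn
      obtain ⟨b, hb⟩ := Finsupp.ne_iff.1 hn
      have h1 : (g b).pr n (m b) ≠ 0 := hb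
      refine Set.mem_biUnion (x := b) ?_ h1
      rw [Finset.mem_coe, Finsupp.mem_support_iff]
      intro h
      exact h1 (by rw [h, map_zero])
    have h1 := AddMonoidHom.map_finsum (Finsupp.applyAddHom b) hf
    exact h1.trans ((g b).sum (m b))

theorem grF_pr (g : ℕ → Gr L) (n : ℤ) (z : ℕ →₀ L) (b : ℕ) :
    (grF g).pr n z b = (g b).pr n (z b) := rfl

theorem grF_hom {g : ℕ → Gr L} {n : ℤ} {z : ℕ →₀ L} (h : (grF g).Hom n z) (b : ℕ) :
    (g b).Hom n (z b) := by
  unfold Gr.Hom at *
  rw [← grF_pr, h]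

theorem grF_hom_single {g : ℕ → Gr L} {n : ℤ} {b : ℕ} {x : L} (h : (g b).Hom n x) :
    (grF g).Hom n (Finsupp.single b x) := by
  unfold Gr.Hom at *
  ext c
  rw [grF_pr, Finsupp.single_apply]
  split_ifs with hc
  · subst hc
    exact h
  · rw [map_zero]

variable {S : Type*} [CommRing S] [Module S L]

/-- the shifting operator -/
noncomputable def tsh (ψ : L →ₗ[S] L) : (ℕ →₀ L) →ₗ[S] (ℕ →₀ L) :=
  (Finsupp.lmapDomain L S Nat.succ).comp (Finsupp.mapRange.linearMap ψ)

theorem tsh_succ (ψ : L →ₗ[S] L) (z : ℕ →₀ L) (b : ℕ) : tsh ψ z (b + 1) = ψ (z b) := by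
  unfold tsh
  rw [LinearMap.comp_apply, Finsupp.lmapDomain_apply]
  exact Finsupp.mapDomain_apply Nat.succ_injective _ _

theorem tsh_zero (ψ : L →ₗ[S] L) (z : ℕ →₀ L) : tsh ψ z 0 = 0 := by
  unfold tsh
  rw [LinearMap.comp_apply, Finsupp.lmapDomain_apply]
  refine Finsupp.mapDomain_of_notMem_range _ _ ?_
  rintro ⟨b, hb⟩
  exact Nat.succ_ne_zero b hb

theorem tsh_single (ψ : L →ₗ[S] L) (b : ℕ) (x : L) :
    tsh ψ (Finsupp.single b x) = Finsupp.single (b + 1) (ψ x) := by
  unfold tsh
  rw [LinearMap.comp_apply, Finsupp.lmapDomain_apply, Finsupp.mapRange.linearMap_apply,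
    Finsupp.mapRange_single, Finsupp.mapDomain_single]

theorem tsh_comm {ψ ψ' : L →ₗ[S] L} (h : ∀ x, ψ (ψ' x) = ψ' (ψ x)) :
    (tsh ψ * tsh ψ' : Module.End S (ℕ →₀ L)) = tsh ψ' * tsh ψ := by
  apply LinearMap.ext
  intro z
  ext b
  change tsh ψ (tsh ψ' z) b = tsh ψ' (tsh ψ z) b
  cases b with
  | zero => rw [tsh_zero, tsh_zero]
  | succ b =>
    rw [tsh_succ, tsh_succ]
    cases b with
    | zero => rw [tsh_zero, tsh_zero, map_zero, map_zero]
    | succ b => rw [tsh_succ, tsh_succ, h]

end fs

section op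

variable {S : Type*} [CommRing S] {M : Type*} [AddCommGroup M] [Module S M]

/-- multiplication by `w / s ^ j` as a linear map -/
def opmL (s w : S) (j : ℕ) : Loc s M →ₗ[S] Loc s M where
  toFun := opm s w j
  map_add' := map_add _
  map_smul' t z := by
    obtain ⟨m, k, rfl⟩ := fr_surj z
    rw [smul_fr, opm_fr, opm_fr, RingHom.id_apply, smul_fr, smul_comm]

theorem opmL_apply (s w : S) (j : ℕ) (z : Loc s M) : opmL s w j z = opm s w j z := rfl

theorem opmL_comm (s w w' : S) (j j' : ℕ) (z : Loc s M) :
    opmL s w j (opmL s w' j' z) = opmL s w' j' (opmL s w j z) := by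
  rw [opmL_apply, opmL_apply, opmL_apply, opmL_apply, opm_opm, opm_opm, mul_comm w w',
    add_comm j' j]

end op

section ind

variable {A : Type*} [CommRing A] {σ α : Type*}

/-- induction on polynomials with polynomial coefficients -/
theorem mv_ind {P : MvPolynomial α (MvPolynomial σ A) → Prop} (hC : ∀ c, P (C (C c)))
    (hT : ∀ j, P (C (X j))) (hX : ∀ a, P (X a)) (hadd : ∀ x y, P x → P y → P (x + y))
    (hmul : ∀ x y, P x → P y → P (x * y)) (t : MvPolynomial α (MvPolynomial σ A)) : P t := by
  induction t using MvPolynomial.induction_on with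
  | C b =>
    induction b using MvPolynomial.induction_on with
    | C c => exact hC c
    | add x y hx hy =>
      rw [C_add]
      exact hadd _ _ hx hy
    | mul_X x j hx =>
      rw [C_mul]
      exact hmul _ _ hx (hT j)
  | add x y hx hy => exact hadd _ _ hx hy
  | mul_X x a hx => exact hmul _ _ hx (hX a)

end ind

section gmod

variable {A : Type*} [CommRing A] {σ : Type*} {M : Type*} [AddCommGroup M]
  [Module (MvPolynomial σ A) M]

theorem Gr.Op.zero' {S : Type*} [CommRing S] {M : Type*} [AddCommGroup M] [Module S M] (g : Gr M)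
    (e : ℤ) : g.Op (0 : S) e := fun n m => by
  rw [zero_smul, zero_smul, map_zero]

theorem Gr.Op.fsum {S : Type*} [CommRing S] {M : Type*} [AddCommGroup M] [Module S M] {g : Gr M}
    {e : ℤ} {ι : Type*} {t : Finset ι} {f : ι → S} (h : ∀ i ∈ t, g.Op (f i) e) :
    g.Op (∑ i ∈ t, f i) e := by
  classical
  induction t using Finset.induction_on with
  | empty => exact Gr.Op.zero' g e
  | insert a t ha ih =>
    rw [Finset.sum_insert ha]
    exact (h a (Finset.mem_insert_self _ _)).add (ih fun i hi => h i (Finset.mem_insert_of_mem hi))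

/-- it is enough to know the degrees of the constants and of the variables -/
theorem gmod_of {d : σ → ℤ} {g : Gr M} (hC : ∀ c : A, g.Op (C c : MvPolynomial σ A) 0)
    (hX : ∀ a, g.Op (X a : MvPolynomial σ A) (d a)) : GMod (A := A) d g := by
  intro e f hf
  rw [f.as_sum]
  refine Gr.Op.fsum fun x hx => ?_
  have h1 := polyGr_hom_iff.1 hf (mem_support_iff.1 hx)
  rw [Finsupp.weight_apply, Finsupp.sum] at h1
  rw [monomial_eq, Finsupp.prod]
  have h2 : g.Op (∏ i ∈ x.support, (X i : MvPolynomial σ A) ^ x i)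
      (∑ i ∈ x.support, (x i : ℤ) * d i) := Gr.Op.prod fun i _ => (hX i).pow (x i)
  have h3 := (hC (coeff x f)).mul h2
  rw [zero_add] at h3
  convert h3 using 1
  rw [← h1]
  exact Finset.sum_congr rfl fun i _ => by rw [nsmul_eq_mul]

end gmod

end Pool.Agent.Lib.MP_0b721b_ag
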