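import Pool.Agent.Lib.MP_0b721b_ag.P3b0

/-!
Part P3b1: the direct sum over `b : ℕ` of the sheaves `F ⊗ N ^ (c + n₀ b) (u b)` is a coherent sheaf
over the base ring `A[T_1, ..., T_r]`, the `T_j` acting as the sections `ε j`.
-/

namespace Pool.Agent.Lib.MP_0b721b_ag

open MvPolynomial

universe u

section gen

variable {S : Type*} [CommRing S] {α : Type*} [LinearOrder α] (D : Dat S α)
  {M : Type*} [AddCommGroup M] [Module S M] {r : ℕ}

/-- the sections: numerators over `J`, in the frame of the smallest element -/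
def epsJ (ε : Fin r → α → S) (T : ℕ) (J : Finset α) (j : Fin r) : S :=
  if h : J.Nonempty then ε j (J.min' h) * D.fJ (J.erase (J.min' h)) ^ T else 0

/-- multiplication by the section `ε j` over `J` -/
def secJ (M : Type*) [AddCommGroup M] [Module S M] (ε : Fin r → α → S) (T : ℕ) (J : Finset α)
    (j : Fin r) : Loc (D.fJ J) M →ₗ[S] Loc (D.fJ J) M :=
  opmL (D.fJ J) (epsJ D ε T J j) T

/-- the twisted restriction of the power `N ^ q` -/
def twq (M : Type*) [AddCommGroup M] [Module S M] (q : ℕ) (J J' : Finset α) (h : J.Nonempty)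
    (hs : J ⊆ J') : Loc (D.fJ J) M →+ Loc (D.fJ J') M :=
  (D.pw q).tw M J J' h hs

variable {D}

theorem twq_smul (q : ℕ) (J J' : Finset α) (h0 : J.Nonempty) (hs : J ⊆ J') (t : S)
    (z : Loc (D.fJ J) M) : twq D M q J J' h0 hs (t • z) = t • twq D M q J J' h0 hs z :=
  p3a_tw_smul (D.pw q) J J' h0 hs t z

/-- multiplication by the sections commutes with the twisted restrictions -/
theorem twq_secJ {ε : Fin r → α → S} {T n₀ : ℕ} (j : Fin r)
    (hε : ∀ a b, ∃ e : ℕ, ∀ m : M, ((D.f a * D.f b) ^ e *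
      (ε j a * D.f b ^ T * (D.f a * D.f b) ^ (n₀ * D.t))) • m =
        ((D.f a * D.f b) ^ e * (D.v a b ^ n₀ * ε j b * D.f a ^ T)) • m)
    {q q' : ℕ} (hq : q' = q + n₀) (J J' : Finset α) (h0 : J.Nonempty) (hs : J ⊆ J')
    (z : Loc (D.fJ J) M) :
    twq D M q' J J' h0 hs (secJ D M ε T J j z) = secJ D M ε T J' j (twq D M q J J' h0 hs z) := by
  subst hq
  have h0' : J'.Nonempty := h0.mono hs
  have hb := Finset.min'_mem J h0
  have ha := Finset.min'_mem J' h0'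
  have hb' : J.min' h0 ∈ J' := hs hb
  have e1 : epsJ D ε T J j = ε j (J.min' h0) * D.fJ (J.erase (J.min' h0)) ^ T := dif_pos h0
  have e2 : epsJ D ε T J' j = ε j (J'.min' h0') * D.fJ (J'.erase (J'.min' h0')) ^ T := dif_pos h0'
  obtain ⟨e, he⟩ := hε (J'.min' h0') (J.min' h0)
  set a := J'.min' h0' with hadef
  set b := J.min' h0 with hbdef
  have hA := D.fJ_erase ha
  have hB := D.fJ_erase hb'
  have hAB := D.fJ_sdiff_erase hs hb
  have lhs : twq D M (q + n₀) J J' h0 hs (secJ D M ε T J j z) =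
      opm (D.fJ J') (D.v a b ^ (q + n₀) *
        (D.fJ (J'.erase a) * D.fJ (J'.erase b)) ^ ((q + n₀) * D.t)) (2 * ((q + n₀) * D.t))
        (locRes (D.fJ J) (D.fJ (J' \ J)) (D.fJ J') (D.fJ_sdiff hs)
          (opm (D.fJ J) (epsJ D ε T J j) T z)) := rfl
  have rhs : secJ D M ε T J' j (twq D M q J J' h0 hs z) =
      opm (D.fJ J') (epsJ D ε T J' j) T (opm (D.fJ J') (D.v a b ^ q *
        (D.fJ (J'.erase a) * D.fJ (J'.erase b)) ^ (q * D.t)) (2 * (q * D.t))
        (locRes (D.fJ J) (D.fJ (J' \ J)) (D.fJ J') (D.fJ_sdiff hs) z)) := rfl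
  rw [lhs, rhs, locRes_opm, opm_opm, opm_opm, e1, e2]
  refine opm_eq _ (fun m => ?_) _
  refine ⟨2 * e, ?_⟩
  have hm := he m
  set F := D.fJ J'
  set P := D.fJ (J'.erase a)
  set Q := D.fJ (J'.erase b)
  have e3 : D.fJ (J' \ J) ^ T * (ε j b * D.fJ (J.erase b) ^ T) = ε j b * Q ^ T := by
    rw [← hAB]
    ring
  have e4 : F ^ (2 * e) = (P * Q) ^ e * (D.f a * D.f b) ^ e := by
    rw [← mul_pow, pow_mul]
    congr 1
    rw [show P * Q * (D.f a * D.f b) = (D.f a * P) * (D.f b * Q) by ring, hA, hB]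
    ring
  have e5 : F ^ (2 * (n₀ * D.t)) = (P * Q) ^ (n₀ * D.t) * (D.f a * D.f b) ^ (n₀ * D.t) := by
    rw [← mul_pow, pow_mul]
    congr 1
    rw [show P * Q * (D.f a * D.f b) = (D.f a * P) * (D.f b * Q) by ring, hA, hB]
    ring
  have l1 : F ^ (2 * e + (2 * (q * D.t) + T)) * (D.v a b ^ (q + n₀) *
      (P * Q) ^ ((q + n₀) * D.t) * (D.fJ (J' \ J) ^ T * (ε j b * D.fJ (J.erase b) ^ T))) =
      ((P * Q) ^ e * F ^ (2 * (q * D.t)) * D.v a b ^ q * (P * Q) ^ (q * D.t) *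
        (P * Q) ^ (n₀ * D.t) * (P * Q) ^ T) *
        ((D.f a * D.f b) ^ e * (D.v a b ^ n₀ * ε j b * D.f a ^ T)) := by
    rw [e3, pow_add, pow_add, e4]
    have : F ^ T = D.f a ^ T * P ^ T := by rw [← mul_pow, hA]
    rw [this]
    ring
  have l2 : F ^ (2 * e + (T + 2 * ((q + n₀) * D.t))) * (ε j a * P ^ T *
      (D.v a b ^ q * (P * Q) ^ (q * D.t))) =
      ((P * Q) ^ e * F ^ (2 * (q * D.t)) * D.v a b ^ q * (P * Q) ^ (q * D.t) *
        (P * Q) ^ (n₀ * D.t) * (P * Q) ^ T) *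
        ((D.f a * D.f b) ^ e * (ε j a * D.f b ^ T * (D.f a * D.f b) ^ (n₀ * D.t))) := by
    have h1 : F ^ (2 * e + (T + 2 * ((q + n₀) * D.t))) =
        F ^ (2 * e) * F ^ T * (F ^ (2 * (q * D.t)) * F ^ (2 * (n₀ * D.t))) := by
      rw [← pow_add, ← pow_add, ← pow_add]
      congr 1
      ring
    have : F ^ T = D.f b ^ T * Q ^ T := by rw [← mul_pow, hB]
    rw [h1, e4, e5, this]
    ring
  rw [smul_smul, smul_smul, l1, l2,
    mul_smul _ ((D.f a * D.f b) ^ e * (D.v a b ^ n₀ * ε j b * D.f a ^ T)),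
    mul_smul _ ((D.f a * D.f b) ^ e * (ε j a * D.f b ^ T * (D.f a * D.f b) ^ (n₀ * D.t))), hm]

/-- a section vanishing after restriction is killed by a power -/
theorem tw_zero {g : Gr M} (hok : D.Ok g) {J J' : Finset α} (h0 : J.Nonempty) (h : J ⊆ J')
    {z : Loc (D.fJ J) M} (hz : D.tw M J J' h0 h z = 0) :
    ∃ k : ℕ, D.fJ (J' \ J) ^ k • z = 0 := by
  have ha : J'.min' (h0.mono h) ∈ J' := Finset.min'_mem _ _
  have hb : J.min' h0 ∈ J' := h (Finset.min'_mem _ _)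
  have h1 : D.res M h z = 0 := by
    have h2 := hok.U_U D hb ha hb (D.res M h z)
    rw [hok.U_self D hb] at h2
    rw [← h2]
    have h3 : D.U M J' (J'.min' (h0.mono h)) (J.min' h0) (D.res M h z) = 0 := hz
    rw [h3, map_zero]
  obtain ⟨m, k, rfl⟩ := fr_surj z
  unfold Dat.res at h1
  rw [locRes_fr, fr_eq_zero] at h1
  obtain ⟨j, hj⟩ := h1
  refine ⟨j + k, ?_⟩
  rw [smul_fr, fr_eq_zero]
  refine ⟨j, ?_⟩
  rw [← hj, ← D.fJ_sdiff h, smul_smul, smul_smul, mul_pow, pow_add]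
  congr 1
  ring

/-- sections extend after multiplication by a power -/
theorem tw_surj {g : Gr M} (hok : D.Ok g) {J J' : Finset α} (h0 : J.Nonempty) (h : J ⊆ J')
    (z : Loc (D.fJ J') M) : ∃ (k : ℕ) (z' : Loc (D.fJ J) M),
      D.tw M J J' h0 h z' = D.fJ (J' \ J) ^ k • z := by
  have ha : J'.min' (h0.mono h) ∈ J' := Finset.min'_mem _ _
  have hb : J.min' h0 ∈ J' := h (Finset.min'_mem _ _)
  obtain ⟨m, k, hmk⟩ := fr_surj (D.U M J' (J.min' h0) (J'.min' (h0.mono h)) z)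
  refine ⟨k, fr _ m k, ?_⟩
  have h2 := hok.U_U D ha hb ha z
  rw [hok.U_self D ha] at h2
  have h3 : D.res M h (fr (D.fJ J) m k) =
      D.fJ (J' \ J) ^ k • D.U M J' (J.min' h0) (J'.min' (h0.mono h)) z := by
    rw [hmk, smul_fr]
    rfl
  change D.U M J' _ _ (D.res M h (fr (D.fJ J) m k)) = _
  rw [h3, p3a_U_smul, h2]

theorem loc_inj {J : Finset α} {a : α} (ha : a ∈ J) {z : Loc (D.fJ J) M} (hz : D.f a • z = 0) :
    z = 0 := by
  obtain ⟨m, k, rfl⟩ := fr_surj z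
  rw [smul_fr, fr_eq_zero] at hz
  obtain ⟨j, hj⟩ := hz
  rw [fr_eq_zero]
  refine ⟨j + 1, ?_⟩
  have h1 : D.fJ J ^ (j + 1) • m = D.fJ (J.erase a) • D.fJ J ^ j • D.f a • m := by
    rw [smul_smul, smul_smul, pow_succ]
    congr 1
    rw [← D.fJ_erase ha]
    ring
  rw [h1, hj, smul_zero]

theorem loc_div {J : Finset α} {a : α} (ha : a ∈ J) (z : Loc (D.fJ J) M) :
    D.f a • opm (D.fJ J) (D.fJ (J.erase a)) 1 z = z := by
  obtain ⟨m, k, rfl⟩ := fr_surj z
  rw [opm_fr, smul_fr, smul_smul, D.fJ_erase ha]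
  have := fr_raise (D.fJ J) m k 1
  rw [pow_one] at this
  exact this

/-- degree of the multiplication by a section -/
theorem pr_secJ {g : Gr M} (hJ : ∀ J, g.Op (D.fJ J) (D.dJ J)) {ε : Fin r → α → S} {T : ℕ} {u : ℤ}
    {j : Fin r} (hε : ∀ a, g.Op (ε j a) (T * D.d a + u)) (J : Finset α) (n : ℤ)
    (z : Loc (D.fJ J) M) : (locGr g (hJ J)).pr (n + u) (secJ D M ε T J j z) =
      secJ D M ε T J j ((locGr g (hJ J)).pr n z) := by
  have hw : g.Op (epsJ D ε T J j) (T * D.dJ J + u) := by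
    unfold epsJ
    split_ifs with h
    · have h1 := (hε (J.min' h)).mul ((hJ (J.erase (J.min' h))).pow T)
      convert h1 using 1
      rw [← D.dJ_erase (Finset.min'_mem J h)]
      ring
    · exact Gr.Op.zero' _ _
  obtain ⟨m, k, rfl⟩ := fr_surj z
  change (locGr g (hJ J)).pr (n + u) (fr _ (epsJ D ε T J j • m) (k + T)) =
    fr _ (epsJ D ε T J j • g.pr (n + k * D.dJ J) m) (k + T)
  rw [locGr_pr, ← hw]
  congr 2
  push_cast
  ring_nf

end gen

end Pool.Agent.Lib.MP_0b721b_ag
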