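import Pool.Agent.Lib.MP_0b721b_ag.Cyc

/-!
Part P4: `c` kills the cohomology of ample line bundles, by the `q`-th power map and the splitting
`σ` up to `c`.
-/

namespace Pool.Agent.Lib.MP_0b721b_ag

open MvPolynomial

universe u

section semi

variable {S : Type*} [CommRing S] {R : Type*} [AddCommGroup R] [Module S R]

/-- exponent bookkeeping for a `q⁻¹`-linear map -/
theorem qinv_pow4 {σ : R →+ R} {q : ℕ} (hσ : ∀ (a : S) (r : R), σ (a ^ q • r) = a • σ r)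
    (s : S) (i x : ℕ) (r : R) : s ^ i • σ (s ^ x • r) = σ (s ^ (q * i + x) • r) := by
  rw [← hσ, smul_smul, ← pow_mul, ← pow_add, mul_comm i q]

/-- the map `r / s ^ k ↦ σ (s ^ ((q - 1) k) r) / s ^ k` induced by a `q⁻¹`-linear map `σ` -/
def qinv (s : S) (σ : R →+ R) (q : ℕ) (hq : 0 < q)
    (hσ : ∀ (a : S) (r : R), σ (a ^ q • r) = a • σ r) : Loc s R →+ Loc s R :=
  AddMonoidHom.mk' (locLift (s := s) (M := R) (fun r k => fr s (σ (s ^ ((q - 1) * k) • r)) k) (by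
    intro a b l l' j hj
    refine fr_eq_of j ?_
    rw [qinv_pow4 hσ, qinv_pow4 hσ]
    congr 1
    obtain ⟨c, rfl⟩ : ∃ c, q = c + 1 := ⟨q - 1, by omega⟩
    rw [Nat.add_sub_cancel]
    refine pow_smul_eq hj (c * (j + l + l')) _ _ ?_ ?_
    · ring
    · ring)) (by
    intro z z'
    obtain ⟨a, b, k, rfl, rfl⟩ := fr_surj₂ z z'
    rw [fr_add, locLift_fr, locLift_fr, locLift_fr, fr_add, smul_add, map_add])

theorem qinv_fr (s : S) (σ : R →+ R) (q : ℕ) (hq : 0 < q)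
    (hσ : ∀ (a : S) (r : R), σ (a ^ q • r) = a • σ r) (r : R) (k : ℕ) :
    qinv s σ q hq hσ (fr s r k) = fr s (σ (s ^ ((q - 1) * k) • r)) k := rfl

/-- cancelling a power of `s` -/
theorem fr_cancel4 {s : S} (m : R) (k j k' : ℕ) (h : k' = k + j) : fr s (s ^ j • m) k' = fr s m k := by
  rw [h, fr_raise]

variable {α : Type*} [LinearOrder α] (D : Dat S α)

omit [LinearOrder α] in
theorem Dat.pw_fJ4 (q : ℕ) (J : Finset α) : (D.pw q).fJ J = D.fJ J := rfl

omit [LinearOrder α] in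
theorem Dat.pw_dJ4 (q : ℕ) (J : Finset α) : (D.pw q).dJ J = D.dJ J := rfl

/-- the `q⁻¹`-linear map on the sections of `N ^ q` -/
def qinvJ (σ : R →+ R) (q : ℕ) (hq : 0 < q)
    (hσ : ∀ (a : S) (r : R), σ (a ^ q • r) = a • σ r) (J : Finset α) :
    Loc ((D.pw q).fJ J) R →+ Loc (D.fJ J) R :=
  qinv (D.fJ J) σ q hq hσ

omit [LinearOrder α] in
theorem qinvJ_fr (σ : R →+ R) (q : ℕ) (hq : 0 < q)
    (hσ : ∀ (a : S) (r : R), σ (a ^ q • r) = a • σ r) (J : Finset α) (r : R) (k : ℕ) :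
    qinvJ D σ q hq hσ J (fr ((D.pw q).fJ J) r k) =
      fr (D.fJ J) (σ (D.fJ J ^ ((q - 1) * k) • r)) k := rfl

/-- the twisted restriction on fractions -/
theorem Dat.tw_fr4 (J J' : Finset α) (h0 : J.Nonempty) (hs : J ⊆ J') (r : R) (k : ℕ) :
    D.tw R J J' h0 hs (fr (D.fJ J) r k) = fr (D.fJ J')
      ((D.v (J'.min' (h0.mono hs)) (J.min' h0) *
        (D.fJ (J'.erase (J'.min' (h0.mono hs))) * D.fJ (J'.erase (J.min' h0))) ^ D.t) •
          D.fJ (J' \ J) ^ k • r) (k + 2 * D.t) := rfl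

theorem Dat.pw_tw_fr4 (q : ℕ) (J J' : Finset α) (h0 : J.Nonempty) (hs : J ⊆ J') (r : R) (k : ℕ) :
    (D.pw q).tw R J J' h0 hs (fr ((D.pw q).fJ J) r k) = fr ((D.pw q).fJ J')
      ((D.v (J'.min' (h0.mono hs)) (J.min' h0) ^ q *
        (D.fJ (J'.erase (J'.min' (h0.mono hs))) * D.fJ (J'.erase (J.min' h0))) ^ (q * D.t)) •
          D.fJ (J' \ J) ^ k • r) (k + 2 * (q * D.t)) := rfl

/-- the `q⁻¹`-linear map goes from the complex of `N ^ q` to the one of `N` -/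
theorem qinvJ_nat (σ : R →+ R) (q : ℕ) (hq : 0 < q)
    (hσ : ∀ (a : S) (r : R), σ (a ^ q • r) = a • σ r) :
    Nat' ((D.pw q).tw R) (D.tw R) (qinvJ D σ q hq hσ) := by
  intro J J' h0 hs z
  obtain ⟨r, k, rfl⟩ := fr_surj z
  rw [D.pw_tw_fr4, qinvJ_fr, qinvJ_fr, D.tw_fr4]
  set v := D.v (J'.min' (h0.mono hs)) (J.min' h0)
  set E := D.fJ (J'.erase (J'.min' (h0.mono hs))) * D.fJ (J'.erase (J.min' h0))
  have hF := D.fJ_sdiff hs
  set f := D.fJ J
  set ρ := D.fJ (J' \ J)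
  set F := D.fJ J'
  obtain ⟨c, rfl⟩ : ∃ c, q = c + 1 := ⟨q - 1, by omega⟩
  rw [Nat.add_sub_cancel]
  have e3 : F ^ (c * (k + 2 * ((c + 1) * D.t))) • (v ^ (c + 1) * E ^ ((c + 1) * D.t)) •
      ρ ^ k • r = (F ^ (c * (2 * D.t)) * (v * E ^ D.t)) ^ (c + 1) • (ρ ^ k) ^ (c + 1) •
        (f ^ (c * k) • r) := by
    rw [smul_smul, smul_smul, smul_smul, smul_smul]
    congr 1
    have : F ^ (c * k) = f ^ (c * k) * ρ ^ (c * k) := by
      rw [← hF, mul_pow]
    calc _ = F ^ (c * k) * F ^ (c * (2 * ((c + 1) * D.t))) *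
          (v ^ (c + 1) * E ^ ((c + 1) * D.t)) * ρ ^ k := by ring
      _ = _ := by
        rw [this]
        ring
  rw [e3, hσ, hσ, mul_smul]
  exact fr_cancel4 _ _ _ _ (by ring)

end semi

section quotient

variable {k : Type u} [Field k] {N : ℕ} {w : Fin N → ℤ} {I : Ideal (MvPolynomial (Fin N) k)}

/-- a homogeneous element of the quotient has a homogeneous representative -/
theorem cyc_lift4 (hI : (polyGr k w).Sub I) {n : ℤ} {m : MvPolynomial (Fin N) k ⧸ I}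
    (h : (cyc w I hI).Hom n m) :
    ∃ m' : MvPolynomial (Fin N) k, (polyGr k w).Hom n m' ∧ Submodule.Quotient.mk m' = m := by
  obtain ⟨m', rfl⟩ := Submodule.Quotient.mk_surjective I m
  exact ⟨(polyGr k w).pr n m', (polyGr k w).hom_pr n m', h⟩

/-- the map on the quotient induced by a map preserving `I` -/
noncomputable def sbar4 (I : Ideal (MvPolynomial (Fin N) k))
    (σ : MvPolynomial (Fin N) k →+ MvPolynomial (Fin N) k) (h2 : ∀ r ∈ I, σ r ∈ I) :
    (MvPolynomial (Fin N) k ⧸ I) →+ (MvPolynomial (Fin N) k ⧸ I) :=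
  QuotientAddGroup.map (Submodule.toAddSubgroup I) (Submodule.toAddSubgroup I) σ
    (fun r hr => h2 r hr)

theorem sbar4_mk (σ : MvPolynomial (Fin N) k →+ MvPolynomial (Fin N) k) (h2 : ∀ r ∈ I, σ r ∈ I)
    (r : MvPolynomial (Fin N) k) :
    sbar4 I σ h2 (Submodule.Quotient.mk r) = Submodule.Quotient.mk (σ r) := rfl

/-- the Frobenius power on the quotient -/
noncomputable def frob4 (I : Ideal (MvPolynomial (Fin N) k)) (q : ℕ) {p₀ : ℕ} [Fact p₀.Prime] [CharP k p₀]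
    {e : ℕ} (hqp : q = p₀ ^ e) :
    (MvPolynomial (Fin N) k ⧸ I) →+ (MvPolynomial (Fin N) k ⧸ I) :=
  AddMonoidHom.mk' (fun r => r ^ q) (by
    intro a b
    obtain ⟨a, rfl⟩ := Ideal.Quotient.mk_surjective a
    obtain ⟨b, rfl⟩ := Ideal.Quotient.mk_surjective b
    subst hqp
    rw [← map_add, ← map_pow, add_pow_char_pow, map_add, map_pow, map_pow])

theorem frob4_mk (q : ℕ) {p₀ : ℕ} [Fact p₀.Prime] [CharP k p₀]
    {e : ℕ} (hqp : q = p₀ ^ e) (r : MvPolynomial (Fin N) k) :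
    frob4 I q hqp (Submodule.Quotient.mk r) = Submodule.Quotient.mk (r ^ q) := rfl

end quotient

/-- `c` kills `H^p (P / I ⊗ N (n))` when `H^p (P / I ⊗ N ^ q (q n)) = 0` -/
theorem ctrick {k : Type u} [Field k] {N : ℕ} {w : Fin N → ℤ} {q : ℕ}
    {p₀ : ℕ} [Fact p₀.Prime] [CharP k p₀] {e : ℕ} (hqp : q = p₀ ^ e)
    {I : Ideal (MvPolynomial (Fin N) k)} (hI : (polyGr k w).Sub I)
    {α : Type} [LinearOrder α] [Fintype α] {D : Dat (MvPolynomial (Fin N) k) α} (hD : D.Lb w I)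
    (σ : MvPolynomial (Fin N) k →+ MvPolynomial (Fin N) k)
    (h1 : ∀ a r, σ (a ^ q * r) = a * σ r) (h2 : ∀ r ∈ I, σ r ∈ I) (δ : ℤ)
    (h3 : ∀ n r, (polyGr k w).Hom (q * n) r → (polyGr k w).Hom (n + δ) (σ r)) {n : ℤ} {p : ℕ}
    (hV : HV (D.pw q) (cyc w I hI) (q * n) p)
    (z : ∀ J : Finset α, Loc (D.fJ J) (MvPolynomial (Fin N) k ⧸ I))
    (hz : ∀ J, LDeg (cyc w I hI) (D.fJ J) (D.dJ J) n (z J))
    (hz' : ∀ J, J.card = p + 2 → dC (D.tw _) z J = 0) :
    ∃ w' : ∀ J : Finset α, Loc (D.fJ J) (MvPolynomial (Fin N) k ⧸ I),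
      (∀ J, LDeg (cyc w I hI) (D.fJ J) (D.dJ J) (n + δ) (w' J)) ∧
      ∀ J, J.card = p + 1 → dC (D.tw _) w' J = opm (D.fJ J) (σ 1) 0 (z J) := by
  classical
  have hq : 0 < q := by
    rw [hqp]
    exact pow_pos (Fact.out : p₀.Prime).pos e
  -- the Frobenius
  let Fr := frob4 I q hqp
  have hFr : ∀ (s : MvPolynomial (Fin N) k) (m : MvPolynomial (Fin N) k ⧸ I),
      Fr (s • m) = s ^ q • Fr m := by
    intro s m
    obtain ⟨m, rfl⟩ := Submodule.Quotient.mk_surjective I m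
    rw [← Submodule.Quotient.mk_smul]
    change Submodule.Quotient.mk ((s • m) ^ q) = Submodule.Quotient.mk (s ^ q • m ^ q)
    rw [smul_eq_mul, smul_eq_mul, mul_pow]
  -- the splitting
  let σ' := sbar4 I σ h2
  have hσ' : ∀ (s : MvPolynomial (Fin N) k) (m : MvPolynomial (Fin N) k ⧸ I),
      σ' (s ^ q • m) = s • σ' m := by
    intro s m
    obtain ⟨m, rfl⟩ := Submodule.Quotient.mk_surjective I m
    change Submodule.Quotient.mk (σ (s ^ q * m)) = Submodule.Quotient.mk (s * σ m)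
    rw [h1]
  let F : ∀ J : Finset α, Loc (D.fJ J) (MvPolynomial (Fin N) k ⧸ I) →+
      Loc ((D.pw q).fJ J) (MvPolynomial (Fin N) k ⧸ I) := fun J =>
    smapq (s := D.fJ J) (s' := (D.pw q).fJ J) Fr q (fun m => hFr _ _)
  have hF : ∀ (J : Finset α) (m : MvPolynomial (Fin N) k ⧸ I) (l : ℕ),
      F J (fr (D.fJ J) m l) = fr ((D.pw q).fJ J) (Fr m) (q * l) := fun _ _ _ => rfl
  have hFnat : Nat' (D.tw (MvPolynomial (Fin N) k ⧸ I))
      ((D.pw q).tw (MvPolynomial (Fin N) k ⧸ I)) F := by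
    intro J J' h0 hs z
    obtain ⟨r, l, rfl⟩ := fr_surj z
    rw [D.tw_fr4, hF, hF, D.pw_tw_fr4, hFr, hFr]
    congr 1
    · rw [mul_pow, ← pow_mul, ← pow_mul, mul_comm q D.t, mul_comm q l]
    · ring
  have hSnat := qinvJ_nat D σ' q hq hσ'
  have hJd : ∀ J : Finset α, (polyGr k w).Hom (D.dJ J) (D.fJ J) := by
    intro J
    unfold Dat.dJ Dat.fJ
    induction J using Finset.induction_on with
    | empty =>
      rw [Finset.prod_empty, Finset.sum_empty]
      exact polyGr_C w (1 : k)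
    | insert a J ha ih =>
      rw [Finset.prod_insert ha, Finset.sum_insert ha]
      exact polyGr_mul (hD.hf a) ih
  -- the image of the cocycle
  obtain ⟨W, hW, hW'⟩ := hV (fun J => F J (z J)) (fun J => by
      obtain ⟨l, m, hm, hzm⟩ := hz J
      obtain ⟨m', hm', rfl⟩ := cyc_lift4 hI hm
      refine ⟨q * l, Fr (Submodule.Quotient.mk m'), ?_, ?_⟩
      · refine (polyGr k w).quot_hom I hI (n := q * n + ((q * l : ℕ) : ℤ) * (D.pw q).dJ J)
          (m := m' ^ q) ?_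
        have := polyGr_pow hm' q
        convert this using 1
        rw [D.pw_dJ4]
        push_cast
        ring
      · rw [hzm, hF])
    (fun J hJ => by
      rw [dC_map hFnat, hz' J hJ, map_zero])
  refine ⟨fun J => qinvJ D σ' q hq hσ' J (W J), fun J => ?_, fun J hJ => ?_⟩
  · obtain ⟨l, m, hm, hWm⟩ := hW J
    obtain ⟨m', hm', rfl⟩ := cyc_lift4 hI hm
    rw [D.pw_dJ4] at hm'
    refine ⟨l, σ' (D.fJ J ^ ((q - 1) * l) • Submodule.Quotient.mk m'), ?_, ?_⟩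
    · refine (polyGr k w).quot_hom I hI (n := n + δ + (l : ℤ) * D.dJ J)
        (m := σ (D.fJ J ^ ((q - 1) * l) * m')) ?_
      have h5 := polyGr_mul (polyGr_pow (hJd J) ((q - 1) * l)) hm'
      have h6 := h3 (n + l * D.dJ J) _ (by
        convert h5 using 1
        obtain ⟨c, hc⟩ : ∃ c, q = c + 1 := ⟨q - 1, by omega⟩
        rw [hc, Nat.add_sub_cancel]
        push_cast
        ring)
      convert h6 using 1
      ring
    · dsimp only
      rw [hWm, qinvJ_fr]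
  · rw [dC_map hSnat, hW' J hJ]
    obtain ⟨m, l, hm⟩ := fr_surj (z J)
    rw [hm, hF, qinvJ_fr, opm_fr, add_zero]
    obtain ⟨m', rfl⟩ := Submodule.Quotient.mk_surjective I m
    have h7 : σ' (D.fJ J ^ ((q - 1) * (q * l)) • Fr (Submodule.Quotient.mk m')) =
        D.fJ J ^ ((q - 1) * l) •
          (σ 1 • (Submodule.Quotient.mk m' : MvPolynomial (Fin N) k ⧸ I)) := by
      change (Submodule.Quotient.mk (σ (D.fJ J ^ ((q - 1) * (q * l)) * m' ^ q)) :
        MvPolynomial (Fin N) k ⧸ I) =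
          Submodule.Quotient.mk (D.fJ J ^ ((q - 1) * l) * (σ 1 * m'))
      have h8 : D.fJ J ^ ((q - 1) * (q * l)) * m' ^ q =
          (D.fJ J ^ ((q - 1) * l) * m') ^ q * 1 := by
        rw [mul_pow, ← pow_mul, mul_one]
        congr 2
        ring
      rw [h8, h1]
      congr 1
      ring
    rw [h7]
    refine fr_cancel4 _ _ _ _ ?_
    obtain ⟨c, hc⟩ : ∃ c, q = c + 1 := ⟨q - 1, by omega⟩
    rw [hc, Nat.add_sub_cancel]
    ring

end Pool.Agent.Lib.MP_0b721b_ag
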