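import Pool.Agent.Lib.MP_0b721b_ag.Cyc

/-!
Part P4a: correcting the degrees of the splitting up to `c`.
-/

namespace Pool.Agent.Lib.MP_0b721b_ag

open MvPolynomial

universe u

/-- the terms of the corrected splitting vanish for almost all degrees -/
theorem sigmaTerm_fin {k : Type u} [CommRing k] {N : ℕ} {w : Fin N → ℤ} {q : ℕ} (hq : 0 < q)
    (σ : MvPolynomial (Fin N) k →+ MvPolynomial (Fin N) k) (δ : ℤ) (r : MvPolynomial (Fin N) k) :
    (Function.support fun n : ℤ =>
      (polyGr k w).pr (n + δ) (σ ((polyGr k w).pr (q * n) r))).Finite := by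
  have h := ((polyGr k w).fin r).preimage (f := fun n : ℤ => (q : ℤ) * n) (by
    intro x _ y _ h
    dsimp only at h
    exact mul_left_cancel₀ (by positivity) h)
  refine h.subset ?_
  intro n hn h'
  have h'' : (polyGr k w).pr (q * n) r = 0 := h'
  exact hn (by simp only [h'', map_zero])

/-- the corrected splitting -/
noncomputable def sigmaCorr {k : Type u} [CommRing k] {N : ℕ} (w : Fin N → ℤ) {q : ℕ} (hq : 0 < q)
    (σ : MvPolynomial (Fin N) k →+ MvPolynomial (Fin N) k) (δ : ℤ) :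
    MvPolynomial (Fin N) k →+ MvPolynomial (Fin N) k where
  toFun r := ∑ᶠ n : ℤ, (polyGr k w).pr (n + δ) (σ ((polyGr k w).pr (q * n) r))
  map_zero' := by simp
  map_add' r s := by
    rw [← finsum_add_distrib (sigmaTerm_fin hq σ δ r) (sigmaTerm_fin hq σ δ s)]
    simp only [map_add]

theorem sigmaCorr_apply {k : Type u} [CommRing k] {N : ℕ} (w : Fin N → ℤ) {q : ℕ} (hq : 0 < q)
    (σ : MvPolynomial (Fin N) k →+ MvPolynomial (Fin N) k) (δ : ℤ) (r : MvPolynomial (Fin N) k) :
    sigmaCorr w hq σ δ r =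
      ∑ᶠ n : ℤ, (polyGr k w).pr (n + δ) (σ ((polyGr k w).pr (q * n) r)) := rfl

/-- the corrected splitting on elements of degree `q n` -/
theorem sigmaCorr_hom {k : Type u} [CommRing k] {N : ℕ} (w : Fin N → ℤ) {q : ℕ} (hq : 0 < q)
    (σ : MvPolynomial (Fin N) k →+ MvPolynomial (Fin N) k) (δ : ℤ) {n : ℤ}
    {r : MvPolynomial (Fin N) k} (hr : (polyGr k w).Hom (q * n) r) :
    sigmaCorr w hq σ δ r = (polyGr k w).pr (n + δ) (σ r) := by
  rw [sigmaCorr_apply, finsum_eq_single _ n]
  · unfold Gr.Hom at hr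
    rw [hr]
  · intro m hm
    have : (polyGr k w).pr (q * m) r = 0 := by
      unfold Gr.Hom at hr
      rw [← hr]
      refine (polyGr k w).pr_ne _ _ (fun h => hm ?_) r
      exact mul_left_cancel₀ (by positivity) h
    rw [this, map_zero, map_zero]

/-- the splitting up to `c`, corrected to respect degrees -/
theorem sigma_deg {k : Type u} [CommRing k] {N : ℕ} {w : Fin N → ℤ} {q : ℕ} (hq : 0 < q)
    {p : ℕ} [Fact p.Prime] [CharP k p] {e : ℕ} (hqp : q = p ^ e)
    {I : Ideal (MvPolynomial (Fin N) k)} (hI : (polyGr k w).Sub I)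
    (σ : MvPolynomial (Fin N) k →+ MvPolynomial (Fin N) k)
    (h1 : ∀ a r, σ (a ^ q * r) = a * σ r) (h2 : ∀ r ∈ I, σ r ∈ I) (δ : ℤ) :
    ∃ σ' : MvPolynomial (Fin N) k →+ MvPolynomial (Fin N) k,
      (∀ a r, σ' (a ^ q * r) = a * σ' r) ∧ (∀ r ∈ I, σ' r ∈ I) ∧
      σ' 1 = (polyGr k w).pr δ (σ 1) ∧
      ∀ n r, (polyGr k w).Hom (q * n) r → (polyGr k w).Hom (n + δ) (σ' r) := by
  refine ⟨sigmaCorr w hq σ δ, ?_, ?_, ?_, ?_⟩
  · have key : ∀ (d : ℤ) (a : MvPolynomial (Fin N) k), (polyGr k w).Hom d a →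
        ∀ r, sigmaCorr w hq σ δ (a ^ q * r) = a * sigmaCorr w hq σ δ r := by
      intro d a ha r
      have hterm : ∀ n : ℤ, (polyGr k w).pr (n + δ) (σ ((polyGr k w).pr (q * n) (a ^ q * r))) =
          a * (polyGr k w).pr (n - d + δ) (σ ((polyGr k w).pr (q * (n - d)) r)) := by
        intro n
        have e1 := polyGr_op (polyGr_pow ha q) (q * (n - d)) r
        rw [smul_eq_mul, smul_eq_mul,
          show (q : ℤ) * (n - d) + q * d = q * n by ring] at e1
        rw [e1, h1]
        have e2 := polyGr_op ha (n - d + δ) (σ ((polyGr k w).pr (q * (n - d)) r))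
        rw [smul_eq_mul, smul_eq_mul, show n - d + δ + d = n + δ by ring] at e2
        exact e2
      rw [sigmaCorr_apply, sigmaCorr_apply]
      simp only [hterm]
      have e3 : a * ∑ᶠ n : ℤ, (polyGr k w).pr (n + δ) (σ ((polyGr k w).pr (q * n) r)) =
          ∑ᶠ n : ℤ, a * (polyGr k w).pr (n + δ) (σ ((polyGr k w).pr (q * n) r)) :=
        AddMonoidHom.map_finsum (AddMonoidHom.mulLeft a) (sigmaTerm_fin hq σ δ r)
      rw [e3]
      exact finsum_eq_of_bijective (fun n : ℤ => n - d) ⟨fun x y h => by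
        dsimp only at h
        omega, fun y => ⟨y + d, by dsimp only; omega⟩⟩ (fun n => rfl)
    intro a r
    have hadd : ∀ a b : MvPolynomial (Fin N) k,
        (∀ r, sigmaCorr w hq σ δ (a ^ q * r) = a * sigmaCorr w hq σ δ r) →
        (∀ r, sigmaCorr w hq σ δ (b ^ q * r) = b * sigmaCorr w hq σ δ r) →
        ∀ r, sigmaCorr w hq σ δ ((a + b) ^ q * r) = (a + b) * sigmaCorr w hq σ δ r := by
      intro a b ha hb r
      have : (a + b) ^ q = a ^ q + b ^ q := by
        rw [hqp]
        exact add_pow_char_pow a b p e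
      rw [this, add_mul, map_add, ha, hb, add_mul]
    have hzero : ∀ r, sigmaCorr w hq σ δ ((0 : MvPolynomial (Fin N) k) ^ q * r) =
        0 * sigmaCorr w hq σ δ r := by
      intro r
      rw [zero_pow hq.ne', zero_mul, zero_mul, map_zero]
    have := finsum_induction (f := fun n : ℤ => (polyGr k w).pr n a)
      (fun a => ∀ r, sigmaCorr w hq σ δ (a ^ q * r) = a * sigmaCorr w hq σ δ r) hzero
      (fun a b ha hb => hadd a b ha hb)
      (fun n => key n _ ((polyGr k w).hom_pr n a))
    rw [(polyGr k w).sum a] at this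
    exact this r
  · intro r hr
    rw [sigmaCorr_apply]
    exact finsum_induction (fun y => y ∈ I) (Submodule.zero_mem _)
      (fun _ _ h h' => Submodule.add_mem _ h h')
      (fun n => hI _ _ (h2 _ (hI _ _ hr)))
  · have h0 : (polyGr k w).Hom (q * 0) (1 : MvPolynomial (Fin N) k) := by
      rw [mul_zero]
      have := polyGr_C (A := k) w 1
      rw [map_one] at this
      exact this
    rw [sigmaCorr_hom w hq σ δ h0, zero_add]
  · intro n r hr
    rw [sigmaCorr_hom w hq σ δ hr]
    exact (polyGr k w).hom_pr _ _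

end Pool.Agent.Lib.MP_0b721b_ag
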