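import Pool.Agent.Lib.MP_0b721b_ag.Car.Exist

/-!
Part P6 (existence of the data `c`): the smooth locus of an irreducible closed subset over a
perfect field, by generators.
-/

namespace Pool.Agent.Lib.MP_0b721b_ag

open MvPolynomial

universe u

theorem cdata {K : Type u} [Field K] [IsAlgClosed K] {N : ℕ}
    (P : Ideal (MvPolynomial (Fin N) K)) [hP : P.IsPrime] :
    ∃ (U : Finset (Fin N)) (g : Fin N → MvPolynomial (Fin N) K) (c : MvPolynomial (Fin N) K),
      (∀ i ∈ U, g i ∈ P) ∧
      (∀ a ∈ P, c * a ∈ Ideal.span (g '' (U : Set (Fin N)))) ∧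
      c * (Fuj.Jac g).det ∉ P :=
  Fuj.exists_data P

end Pool.Agent.Lib.MP_0b721b_ag
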