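import Pool.Agent.Lib.MP_0b721b_ag.P7a

/-!
Part P7 (consequences of the normal forms for the ideals of the fibres).
Every statement holds for all subrings `B` of `K` which contain a suitable finite set, and for all
ring maps from `B` to any commutative ring.
-/

namespace Pool.Agent.Lib.MP_0b721b_ag

open MvPolynomial

universe u

variable {K : Type u} [Field K] {N : ℕ}

theorem p7_inj (B : Subring K) :
    Function.Injective (MvPolynomial.map B.subtype : MvPolynomial (Fin N) B → _) :=
  MvPolynomial.map_injective _ Subtype.val_injective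

theorem p7_comp {A B C : Type*} [CommRing A] [CommRing B] [CommRing C] (f : A →+* B)
    (g : B →+* C) : (MvPolynomial.map g : MvPolynomial (Fin N) B →+* _).comp
      (MvPolynomial.map f) = MvPolynomial.map (g.comp f) :=
  RingHom.ext fun x => MvPolynomial.map_map f g x

/-- `I ∩ B[x]` is the ideal of the fibre of the identity. -/
theorem p7_fib_id (I : Ideal (MvPolynomial (Fin N) K)) (B : Subring K) :
    fib I (RingHom.id B) = IB I B := by
  unfold fib
  rw [show (MvPolynomial.map (RingHom.id B) : MvPolynomial (Fin N) B →+* _) = RingHom.id _ from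
    RingHom.ext MvPolynomial.map_id, Ideal.map_id]

theorem p7_map_incl {B C : Subring K} (hBC : B ≤ C) (f : MvPolynomial (Fin N) B) :
    MvPolynomial.map C.subtype (MvPolynomial.map (Subring.inclusion hBC) f) =
      MvPolynomial.map B.subtype f := by
  rw [MvPolynomial.map_map]
  rfl

theorem p7_incl_le (I : Ideal (MvPolynomial (Fin N) K)) {B C : Subring K} (hBC : B ≤ C) :
    fib I (Subring.inclusion hBC) ≤ IB I C := by
  unfold fib
  rw [Ideal.map_le_iff_le_comap]
  intro f hf
  change MvPolynomial.map C.subtype (MvPolynomial.map (Subring.inclusion hBC) f) ∈ I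
  rw [p7_map_incl]
  exact hf

/-- `I ∩ C[x]` is generated by `I ∩ B[x]`. -/
theorem p7_incl (I : Ideal (MvPolynomial (Fin N) K)) :
    ∃ s : Finset K, ∀ (B C : Subring K) (hBC : B ≤ C), (s : Set K) ⊆ B →
      fib I (Subring.inclusion hBC) = IB I C := by
  obtain ⟨E, s, h⟩ := nf I
  refine ⟨s, fun B C hBC hs => le_antisymm (p7_incl_le I hBC) fun f hf => ?_⟩
  obtain ⟨r, hr1, hr2⟩ := (h B hs C (Subring.inclusion hBC)).1 f
  have h1 : r ∈ fib I (RingHom.id C) := by
    rw [p7_fib_id]
    have := (IB I C).sub_mem hf (p7_incl_le I hBC hr2)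
    rwa [sub_sub_cancel] at this
  have h2 : r = 0 := (h C (hs.trans hBC) C (RingHom.id C)).2 r h1 hr1
  rwa [h2, sub_zero] at hr2

/-- the fibre does not depend on the subring -/
theorem fib_comp (I : Ideal (MvPolynomial (Fin N) K)) :
    ∃ s : Finset K, ∀ (B C : Subring K) (hBC : B ≤ C), (s : Set K) ⊆ B →
      ∀ (k : Type u) [CommRing k] (φ : C →+* k),
      fib I (φ.comp (Subring.inclusion hBC)) = fib I φ := by
  obtain ⟨s, h⟩ := p7_incl I
  refine ⟨s, fun B C hBC hs k _ φ => ?_⟩
  have h1 : fib I (φ.comp (Subring.inclusion hBC)) =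
      (fib I (Subring.inclusion hBC)).map (MvPolynomial.map φ) := by
    unfold fib
    rw [Ideal.map_map, p7_comp]
  rw [h1, h B C hBC hs]
  rfl

/-- finitely many generators of `I ∩ B[x]`, for all large `B` -/
theorem p7_fg (I : Ideal (MvPolynomial (Fin N) K)) :
    ∃ (s : Finset K) (T : Finset (MvPolynomial (Fin N) K)), (∀ t ∈ T, t ∈ I) ∧
      ∀ B : Subring K, (s : Set K) ⊆ B →
      IB I B = Ideal.span (MvPolynomial.map B.subtype ⁻¹' (T : Set (MvPolynomial (Fin N) K))) := by
  classical
  obtain ⟨s, h⟩ := p7_incl I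
  have : IsNoetherianRing (Subring.closure (s : Set K)) :=
    is_noetherian_subring_closure _ s.finite_toSet
  obtain ⟨T0, hT0⟩ := (inferInstance : IsNoetherianRing
    (MvPolynomial (Fin N) (Subring.closure (s : Set K)))).noetherian
      (IB I (Subring.closure (s : Set K)))
  have hTI : ∀ t ∈ T0, MvPolynomial.map (Subring.closure (s : Set K)).subtype t ∈ I := by
    intro t ht
    have : t ∈ IB I (Subring.closure (s : Set K)) := by
      rw [← hT0]
      exact Submodule.subset_span ht
    exact this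
  refine ⟨s, T0.image (MvPolynomial.map (Subring.closure (s : Set K)).subtype), ?_, ?_⟩
  · intro t ht
    obtain ⟨t0, ht0, rfl⟩ := Finset.mem_image.1 ht
    exact hTI t0 ht0
  · intro B hs
    have hle : Subring.closure (s : Set K) ≤ B := Subring.closure_le.2 hs
    apply le_antisymm
    · rw [← h _ B hle Subring.subset_closure]
      unfold fib
      rw [← hT0]
      change Ideal.map _ (Ideal.span _) ≤ _
      rw [Ideal.map_span, Ideal.span_le]
      rintro _ ⟨t, ht, rfl⟩
      refine Ideal.subset_span (Set.mem_preimage.2 ?_)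
      rw [p7_map_incl]
      exact Finset.mem_coe.2 (Finset.mem_image_of_mem _ ht)
    · rw [Ideal.span_le]
      intro t ht
      obtain ⟨t0, ht0, h0⟩ := Finset.mem_image.1 (Finset.mem_coe.1 ht)
      change MvPolynomial.map B.subtype t ∈ I
      rw [← h0]
      exact hTI t0 ht0

/-- lifting a polynomial -/
theorem p7_lift (p : MvPolynomial (Fin N) K) {B : Subring K} (h : (p.coeffs : Set K) ⊆ B) :
    ∃ q : MvPolynomial (Fin N) B, MvPolynomial.map B.subtype q = p := by
  have : p ∈ Set.range (MvPolynomial.map B.subtype : MvPolynomial (Fin N) B → _) := by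
    rw [MvPolynomial.mem_range_map_iff_coeffs_subset]
    intro c hc
    exact ⟨⟨c, h hc⟩, rfl⟩
  exact this

/-- lifting finitely many polynomials -/
theorem p7_lifts {ι : Type*} (S : Finset ι) (p : ι → MvPolynomial (Fin N) K) :
    ∃ s : Finset K, ∀ B : Subring K, (s : Set K) ⊆ B → ∀ i ∈ S,
      ∃ q : MvPolynomial (Fin N) B, MvPolynomial.map B.subtype q = p i := by
  classical
  refine ⟨S.biUnion fun i => (p i).coeffs, fun B hB i hi => p7_lift _ ?_⟩
  refine Set.Subset.trans ?_ hB
  exact Finset.coe_subset.2 (Finset.subset_biUnion_of_mem (fun i => (p i).coeffs) hi)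

/-- a finite set of relations spreads out: `c t ∈ (g i)`. -/
theorem p7_rel {A : Type*} [CommRing A] (j : A →+* K) (I : Ideal (MvPolynomial (Fin N) A))
    (f : MvPolynomial (Fin N) K) (hf : f ∈ I.map (MvPolynomial.map j)) :
    ∃ s : Finset K, ∀ (B : Subring K) (hB : ∀ a, j a ∈ B), (s : Set K) ⊆ B →
      ∀ f' : MvPolynomial (Fin N) B, MvPolynomial.map B.subtype f' = f →
      f' ∈ I.map (MvPolynomial.map (j.codRestrict B hB)) := by
  classical
  induction hf using Submodule.span_induction with
  | mem x hx =>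
    obtain ⟨y, hy, rfl⟩ := hx
    refine ⟨∅, fun B hB _ f' hf' => ?_⟩
    have : f' = MvPolynomial.map (j.codRestrict B hB) y := by
      apply p7_inj B
      rw [hf', MvPolynomial.map_map]
      rfl
    rw [this]
    exact Ideal.mem_map_of_mem _ hy
  | zero =>
    refine ⟨∅, fun B hB _ f' hf' => ?_⟩
    have : f' = 0 := p7_inj B (by rw [hf', map_zero])
    rw [this]
    exact Ideal.zero_mem _
  | add x y _ _ hx hy =>
    obtain ⟨s1, h1⟩ := hx
    obtain ⟨s2, h2⟩ := hy
    refine ⟨s1 ∪ s2 ∪ (x.coeffs ∪ y.coeffs), fun B hB hs f' hf' => ?_⟩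
    rw [Finset.coe_union, Finset.coe_union, Finset.coe_union, Set.union_subset_iff,
      Set.union_subset_iff, Set.union_subset_iff] at hs
    obtain ⟨x', hx'⟩ := p7_lift x hs.2.1
    obtain ⟨y', hy'⟩ := p7_lift y hs.2.2
    have : f' = x' + y' := p7_inj B (by rw [hf', map_add, hx', hy'])
    rw [this]
    exact Ideal.add_mem _ (h1 B hB hs.1.1 x' hx') (h2 B hB hs.1.2 y' hy')
  | smul a x _ hx =>
    obtain ⟨s1, h1⟩ := hx
    refine ⟨s1 ∪ (a.coeffs ∪ x.coeffs), fun B hB hs f' hf' => ?_⟩
    rw [Finset.coe_union, Finset.coe_union, Set.union_subset_iff, Set.union_subset_iff] at hs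
    obtain ⟨a', ha'⟩ := p7_lift a hs.2.1
    obtain ⟨x', hx'⟩ := p7_lift x hs.2.2
    have : f' = a' * x' := p7_inj B (by rw [hf', map_mul, ha', hx', smul_eq_mul])
    rw [this]
    exact Ideal.mul_mem_left _ _ (h1 B hB hs.1 x' hx')

/-- the linear map with given values on the monomials -/
noncomputable def p7_lin {R : Type*} [CommRing R] (h : (Fin N →₀ ℕ) → MvPolynomial (Fin N) R) :
    MvPolynomial (Fin N) R →ₗ[R] MvPolynomial (Fin N) R :=
  (MvPolynomial.basisMonomials (Fin N) R).constr R h

theorem p7_lin_mono {R : Type*} [CommRing R] (h : (Fin N →₀ ℕ) → MvPolynomial (Fin N) R)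
    (u : Fin N →₀ ℕ) (c : R) : p7_lin h (MvPolynomial.monomial u c) = c • h u := by
  have h1 : MvPolynomial.monomial u c = c • MvPolynomial.basisMonomials (Fin N) R u := by
    rw [MvPolynomial.coe_basisMonomials, MvPolynomial.smul_monomial, smul_eq_mul, mul_one]
  rw [h1, map_smul, p7_lin, Module.Basis.constr_basis]

theorem p7_lin_map {R R' : Type*} [CommRing R] [CommRing R'] (φ : R →+* R')
    (h : (Fin N →₀ ℕ) → MvPolynomial (Fin N) R) (g : MvPolynomial (Fin N) R) :
    p7_lin (fun d => MvPolynomial.map φ (h d)) (MvPolynomial.map φ g) =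
      MvPolynomial.map φ (p7_lin h g) := by
  induction g using MvPolynomial.induction_on' with
  | monomial u c =>
    rw [MvPolynomial.map_monomial, p7_lin_mono, p7_lin_mono, MvPolynomial.smul_eq_C_mul,
      MvPolynomial.smul_eq_C_mul, map_mul, MvPolynomial.map_C]
  | add p q hp hq => rw [map_add, map_add, hp, hq, map_add, map_add]

/-- a submodule which contains the values on the monomials contains all values -/
theorem p7_lin_mem {R : Type*} [CommRing R] (L : MvPolynomial (Fin N) R →ₗ[R]
    MvPolynomial (Fin N) R) (S : Submodule R (MvPolynomial (Fin N) R))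
    (h : ∀ u, L (MvPolynomial.monomial u 1) ∈ S) (f : MvPolynomial (Fin N) R) : L f ∈ S := by
  induction f using MvPolynomial.induction_on' with
  | monomial u c =>
    rw [show MvPolynomial.monomial u c = c • MvPolynomial.monomial u (1 : R) by
      rw [MvPolynomial.smul_monomial, smul_eq_mul, mul_one], map_smul]
    exact S.smul_mem _ (h u)
  | add p q hp hq =>
    rw [map_add]
    exact S.add_mem hp hq

/-- polynomials with exponents in `E` -/
def p7_supp (R : Type*) [CommRing R] (E : Set (Fin N →₀ ℕ)) :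
    Submodule R (MvPolynomial (Fin N) R) where
  carrier := {f | ∀ d ∈ f.support, d ∈ E}
  zero_mem' := by simp
  add_mem' := by
    classical
    intro f g hf hg d hd
    rcases Finset.mem_union.1 (MvPolynomial.support_add hd) with h | h
    · exact hf d h
    · exact hg d h
  smul_mem' := fun c f hf d hd => hf d (MvPolynomial.support_smul hd)

/-- the ideals `I + (a)` and `(I : a)` -/
theorem fib_ex (I : Ideal (MvPolynomial (Fin N) K)) (a : MvPolynomial (Fin N) K) :
    ∃ s : Finset K, ∀ B : Subring K, (s : Set K) ⊆ B →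
      ∃ a' : MvPolynomial (Fin N) B, MvPolynomial.map B.subtype a' = a ∧
      ∀ (k : Type u) [CommRing k] (φ : B →+* k),
      fib (I ⊔ Ideal.span {a}) φ = fib I φ ⊔ Ideal.span {MvPolynomial.map φ a'} ∧
      ∀ f, MvPolynomial.map φ a' * f ∈ fib I φ ↔ f ∈ fib (qi I a) φ := by
  classical
  obtain ⟨s1, T, hT, h1⟩ := p7_fg (I ⊔ Ideal.span {a})
  have hT' : ∀ t ∈ T, ∃ h : MvPolynomial (Fin N) K, t - h * a ∈ I := by
    intro t ht
    obtain ⟨y, hy, z, hz, rfl⟩ := Submodule.mem_sup.1 (hT t ht)
    obtain ⟨h, rfl⟩ := Ideal.mem_span_singleton'.1 hz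
    exact ⟨h, by rwa [add_sub_cancel_right]⟩
  choose! hh hhh using hT'
  obtain ⟨s2, hs2⟩ := p7_lifts T hh
  obtain ⟨E, s3, h3⟩ := nf (I ⊔ Ideal.span {a})
  refine ⟨s1 ∪ s2 ∪ (s3 ∪ a.coeffs), fun B hs => ?_⟩
  rw [Finset.coe_union, Finset.coe_union, Finset.coe_union, Set.union_subset_iff,
    Set.union_subset_iff, Set.union_subset_iff] at hs
  obtain ⟨⟨hB1, hB2⟩, hB3, hB4⟩ := hs
  obtain ⟨a', ha'⟩ := p7_lift a hB4
  have hsup : IB (I ⊔ Ideal.span {a}) B = IB I B ⊔ Ideal.span {a'} := by
    apply le_antisymm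
    · rw [h1 B hB1, Ideal.span_le]
      intro t ht
      obtain ⟨h', hh'⟩ := hs2 B hB2 _ ht
      have h4 : t - h' * a' ∈ IB I B := by
        change MvPolynomial.map B.subtype (t - h' * a') ∈ I
        rw [_root_.map_sub, map_mul, hh', ha']
        exact hhh _ ht
      have h5 := Ideal.add_mem _ (Ideal.mem_sup_left h4) (Ideal.mem_sup_right
        (Ideal.mul_mem_left _ h' (Ideal.mem_span_singleton_self a')) :
          h' * a' ∈ IB I B ⊔ Ideal.span {a'})
      rwa [sub_add_cancel] at h5
    · refine sup_le (Ideal.comap_mono le_sup_left) ?_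
      rw [Ideal.span_singleton_le_iff_mem]
      change MvPolynomial.map B.subtype a' ∈ I ⊔ Ideal.span {a}
      rw [ha']
      exact Ideal.mem_sup_right (Ideal.mem_span_singleton_self a)
  have hqi : ∀ f, a' * f ∈ IB I B ↔ f ∈ IB (qi I a) B := by
    intro f
    change MvPolynomial.map B.subtype (a' * f) ∈ I ↔ MvPolynomial.map B.subtype f ∈ qi I a
    rw [map_mul, ha', mem_qi]
  refine ⟨a', ha', fun k _ φ => ⟨?_, fun f => ⟨fun hf => ?_, fun hf => ?_⟩⟩⟩
  · unfold fib
    rw [hsup, Ideal.map_sup, Ideal.map_span, Set.image_singleton]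
  · have h6 : ∀ d : Fin N →₀ ℕ, ∃ r h : MvPolynomial (Fin N) B, (∀ e ∈ r.support, e ∈ E) ∧
        MvPolynomial.monomial d 1 - r - a' * h ∈ IB I B := by
      intro d
      obtain ⟨r, hr1, hr2⟩ := (h3 B hB3 B (RingHom.id B)).1 (MvPolynomial.monomial d 1)
      rw [p7_fib_id, hsup] at hr2
      obtain ⟨y, hy, z, hz, hyz⟩ := Submodule.mem_sup.1 hr2
      obtain ⟨h, rfl⟩ := Ideal.mem_span_singleton'.1 hz
      refine ⟨r, h, hr1, ?_⟩
      rw [← hyz, mul_comm a' h, add_sub_cancel_right]
      exact hy
    choose r h hr hrh using h6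
    have hR : ∀ f, p7_lin r f ∈ p7_supp B E :=
      p7_lin_mem _ _ fun u => by
        rw [p7_lin_mono, one_smul]
        exact hr u
    have hL : ∀ f, f - p7_lin r f - a' * p7_lin h f ∈ IB I B := by
      have := p7_lin_mem (LinearMap.id - p7_lin r - (LinearMap.mulLeft B a').comp (p7_lin h))
        ((IB I B).restrictScalars B) fun u => by
          simp only [LinearMap.sub_apply, LinearMap.id_apply, LinearMap.comp_apply,
            LinearMap.mulLeft_apply, p7_lin_mono, one_smul]
          exact hrh u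
      exact this
    have hR0 : ∀ f, f ∈ IB I B ⊔ Ideal.span {a'} → p7_lin r f = 0 := by
      intro f hf
      refine (h3 B hB3 B (RingHom.id B)).2 _ ?_ (hR f)
      rw [p7_fib_id, hsup]
      have h7 := Ideal.sub_mem _ (Ideal.sub_mem _ hf (Ideal.mem_sup_left (hL f)))
        (Ideal.mem_sup_right (Ideal.mul_mem_right (p7_lin h f) _
          (Ideal.mem_span_singleton_self a')) : a' * p7_lin h f ∈ IB I B ⊔ Ideal.span {a'})
      have e : f - (f - p7_lin r f - a' * p7_lin h f) - a' * p7_lin h f = p7_lin r f := by ring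
      rwa [e] at h7
    have hα : ∀ f ∈ IB I B, p7_lin h f ∈ IB (qi I a) B := by
      intro f hf
      rw [← hqi]
      have h7 := hL f
      rw [hR0 f (Ideal.mem_sup_left hf), sub_zero] at h7
      have h8 := Ideal.sub_mem _ hf h7
      rwa [sub_sub_cancel] at h8
    have hβ : ∀ f, p7_lin h (a' * f) - f ∈ IB (qi I a) B := by
      intro f
      rw [← hqi]
      have h7 := hL (a' * f)
      rw [hR0 (a' * f) (Ideal.mem_sup_right (Ideal.mul_mem_right f _
          (Ideal.mem_span_singleton_self a'))), sub_zero, ← mul_sub] at h7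
      have h8 := (Ideal.neg_mem_iff _).2 h7
      rwa [← mul_neg, neg_sub] at h8
    have hδ : ∀ y ∈ fib I φ, ∀ p : MvPolynomial (Fin N) k,
        p7_lin (fun d => MvPolynomial.map φ (h d)) (p * y) ∈ fib (qi I a) φ := by
      intro y hy
      induction hy using Submodule.span_induction with
      | mem x hx =>
        obtain ⟨g, hg, rfl⟩ := hx
        refine p7_lin_mem ((p7_lin (fun d => MvPolynomial.map φ (h d))).comp
          (LinearMap.mulRight k (MvPolynomial.map φ g))) ((fib (qi I a) φ).restrictScalars k)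
          fun u => ?_
        have e : MvPolynomial.monomial u (1 : k) =
            MvPolynomial.map φ (MvPolynomial.monomial u (1 : B)) := by
          rw [MvPolynomial.map_monomial, φ.map_one]
        rw [LinearMap.comp_apply, LinearMap.mulRight_apply, e, ← map_mul, p7_lin_map]
        exact Ideal.mem_map_of_mem _ (hα _ (Ideal.mul_mem_left _ _ hg))
      | zero =>
        intro p
        rw [mul_zero, map_zero]
        exact Ideal.zero_mem _
      | add x y _ _ hx hy =>
        intro p
        rw [mul_add, map_add]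
        exact Ideal.add_mem _ (hx p) (hy p)
      | smul c x _ hx =>
        intro p
        rw [smul_eq_mul, ← mul_assoc]
        exact hx (p * c)
    have hε : ∀ f, p7_lin (fun d => MvPolynomial.map φ (h d)) (MvPolynomial.map φ a' * f) - f ∈
        fib (qi I a) φ := by
      have := p7_lin_mem ((p7_lin (fun d => MvPolynomial.map φ (h d))).comp
        (LinearMap.mulLeft k (MvPolynomial.map φ a')) - LinearMap.id)
        ((fib (qi I a) φ).restrictScalars k) fun u => by
          have e : MvPolynomial.monomial u (1 : k) =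
              MvPolynomial.map φ (MvPolynomial.monomial u (1 : B)) := by
            rw [MvPolynomial.map_monomial, φ.map_one]
          rw [LinearMap.sub_apply, LinearMap.comp_apply, LinearMap.mulLeft_apply,
            LinearMap.id_apply, e, ← map_mul, p7_lin_map, ← _root_.map_sub]
          exact Ideal.mem_map_of_mem _ (hβ _)
      exact this
    have h7 := hδ _ hf 1
    rw [one_mul] at h7
    have h8 := Ideal.sub_mem _ h7 (hε f)
    rwa [sub_sub_cancel] at h8
  · have h6 : fib (qi I a) φ ≤ qi (fib I φ) (MvPolynomial.map φ a') := by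
      unfold fib
      rw [Ideal.map_le_iff_le_comap]
      intro g hg
      refine Ideal.mem_comap.2 (mem_qi.2 ?_)
      rw [← map_mul]
      exact Ideal.mem_map_of_mem _ ((hqi g).2 hg)
    exact mem_qi.1 (h6 hf)

/-- an ideal which comes from a ring `A` over which `K` lies -/
theorem fib_of_map {A : Type u} [CommRing A] (j : A →+* K) (I : Ideal (MvPolynomial (Fin N) A)) :
    ∃ s : Finset K, ∀ (B : Subring K) (hB : ∀ a, j a ∈ B), (s : Set K) ⊆ B →
      ∀ (k : Type u) [CommRing k] (φ : B →+* k),
      fib (I.map (MvPolynomial.map j)) φ =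
        I.map (MvPolynomial.map (φ.comp (j.codRestrict B hB))) := by
  classical
  obtain ⟨s, T, hT, h⟩ := p7_fg (I.map (MvPolynomial.map j))
  have h1 : ∃ s1 : Finset K, ∀ (B : Subring K) (hB : ∀ a, j a ∈ B), (s1 : Set K) ⊆ B →
      ∀ t ∈ T, ∀ f' : MvPolynomial (Fin N) B, MvPolynomial.map B.subtype f' = t →
      f' ∈ I.map (MvPolynomial.map (j.codRestrict B hB)) := by
    choose! s0 hs0 using fun t (ht : t ∈ T) => p7_rel j I t (hT t ht)
    refine ⟨T.biUnion s0, fun B hB hs t ht f' hf' => hs0 t ht B hB ?_ f' hf'⟩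
    exact Set.Subset.trans (Finset.coe_subset.2 (Finset.subset_biUnion_of_mem s0 ht)) hs
  obtain ⟨s1, hs1⟩ := h1
  refine ⟨s ∪ s1, fun B hB hs k _ φ => ?_⟩
  rw [Finset.coe_union, Set.union_subset_iff] at hs
  have h2 : IB (I.map (MvPolynomial.map j)) B = I.map (MvPolynomial.map (j.codRestrict B hB)) := by
    apply le_antisymm
    · rw [h B hs.1, Ideal.span_le]
      intro f' hf'
      exact hs1 B hB hs.2 _ hf' f' rfl
    · rw [Ideal.map_le_iff_le_comap]
      intro f hf
      change MvPolynomial.map B.subtype (MvPolynomial.map (j.codRestrict B hB) f) ∈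
        I.map (MvPolynomial.map j)
      rw [MvPolynomial.map_map]
      exact Ideal.mem_map_of_mem (MvPolynomial.map j) hf
  unfold fib
  rw [h2, Ideal.map_map, p7_comp]

/-- relations `c I ⊆ (g i, i ∈ U)` spread out -/
theorem fib_rel (I : Ideal (MvPolynomial (Fin N) K)) (g : Fin N → MvPolynomial (Fin N) K)
    (c : MvPolynomial (Fin N) K) (U : Finset (Fin N)) (hU : ∀ i ∈ U, g i ∈ I)
    (hc : ∀ a ∈ I, c * a ∈ Ideal.span (g '' (U : Set (Fin N)))) :
    ∃ s : Finset K, ∀ B : Subring K, (s : Set K) ⊆ B →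
      ∃ (g' : Fin N → MvPolynomial (Fin N) B) (c' : MvPolynomial (Fin N) B),
      (∀ i, MvPolynomial.map B.subtype (g' i) = g i) ∧ MvPolynomial.map B.subtype c' = c ∧
      ∀ (k : Type u) [CommRing k] (φ : B →+* k),
      (∀ i ∈ U, MvPolynomial.map φ (g' i) ∈ fib I φ) ∧
      (∀ a ∈ fib I φ, MvPolynomial.map φ c' * a ∈
        Ideal.span ((fun i => MvPolynomial.map φ (g' i)) '' (U : Set (Fin N)))) := by
  classical
  obtain ⟨s, T, hT, h⟩ := p7_fg I
  obtain ⟨s1, hs1⟩ := p7_lifts (Finset.univ : Finset (Fin N)) g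
  have h2 : ∀ t ∈ T, ∃ e : Fin N → MvPolynomial (Fin N) K, c * t = ∑ i ∈ U, e i * g i := by
    intro t ht
    have h3 := hc t (hT t ht)
    rw [Ideal.span, Submodule.mem_span_image_finset_iff_exists_fun'] at h3
    obtain ⟨e, he⟩ := h3
    exact ⟨e, by rw [← he]; rfl⟩
  choose! e he using h2
  obtain ⟨s2, hs2⟩ := p7_lifts (T ×ˢ (Finset.univ : Finset (Fin N))) fun q => e q.1 q.2
  refine ⟨s ∪ s1 ∪ (s2 ∪ c.coeffs), fun B hs => ?_⟩
  rw [Finset.coe_union, Finset.coe_union, Finset.coe_union, Set.union_subset_iff,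
    Set.union_subset_iff, Set.union_subset_iff] at hs
  obtain ⟨⟨hs, h1⟩, h2, h3⟩ := hs
  choose g' hg' using fun i => hs1 B h1 i (Finset.mem_univ i)
  obtain ⟨c', hc'⟩ := p7_lift c h3
  refine ⟨g', c', hg', hc', fun k _ φ => ⟨fun i hi => ?_, fun a ha => ?_⟩⟩
  · refine Ideal.mem_map_of_mem _ ?_
    change MvPolynomial.map B.subtype (g' i) ∈ I
    rw [hg']
    exact hU i hi
  · have h4 : fib I φ ≤ qi (Ideal.span ((fun i => MvPolynomial.map φ (g' i)) ''
        (U : Set (Fin N)))) (MvPolynomial.map φ c') := by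
      unfold fib
      rw [h B hs, Ideal.map_span, Ideal.span_le]
      rintro _ ⟨t, ht, rfl⟩
      have ht' : MvPolynomial.map B.subtype t ∈ T := ht
      choose e' he' using fun i => hs2 B h2 (MvPolynomial.map B.subtype t, i)
        (Finset.mem_product.2 ⟨ht', Finset.mem_univ i⟩)
      have h5 : c' * t = ∑ i ∈ U, e' i * g' i := by
        apply p7_inj B
        rw [map_mul, hc', he _ ht', map_sum]
        refine Finset.sum_congr rfl fun i _ => ?_
        rw [map_mul, he', hg']
      refine SetLike.mem_coe.2 (mem_qi.2 ?_)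
      rw [← map_mul, h5, map_sum]
      refine Ideal.sum_mem _ fun i hi => ?_
      rw [map_mul]
      exact Ideal.mul_mem_left _ _ (Ideal.subset_span ⟨i, hi, rfl⟩)
    exact h4 ha

end Pool.Agent.Lib.MP_0b721b_ag
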