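import Pool.Agent.Lib.MP_0b721b_ag.Fib
import Pool.Agent.Lib.MP_0b721b_ag.Nf.Fib

/-!
Part P7a (normal forms, generic freeness by Groebner bases).
Every statement holds for all subrings `B` of `K` which contain a suitable finite set, and for all
ring maps from `B` to any commutative ring.
-/

namespace Pool.Agent.Lib.MP_0b721b_ag

open MvPolynomial

universe u

variable {K : Type u} [Field K] {N : ℕ}

/-- normal forms: the standard monomials form a basis of `k[x] / fib I φ` -/
theorem nf (I : Ideal (MvPolynomial (Fin N) K)) :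
    ∃ (E : Set (Fin N →₀ ℕ)) (s : Finset K), ∀ B : Subring K, (s : Set K) ⊆ B →
      ∀ (k : Type u) [CommRing k] (φ : B →+* k),
      (∀ f : MvPolynomial (Fin N) k, ∃ r : MvPolynomial (Fin N) k,
        (∀ d ∈ r.support, d ∈ E) ∧ f - r ∈ fib I φ) ∧
      (∀ r ∈ fib I φ, (∀ d ∈ r.support, d ∈ E) → r = 0) := by
  obtain ⟨S, G, h⟩ := FujNf.exists_std_fib.{0, u, u} I
  refine ⟨S, FujNf.cofs G, fun B hB k _ φ => ⟨fun f => ?_, fun r hr hs => ?_⟩⟩
  · obtain ⟨r, h1, h2⟩ := (h B hB k φ).1 f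
    exact ⟨r, h1, h2⟩
  · exact (h B hB k φ).2 r hr hs

end Pool.Agent.Lib.MP_0b721b_ag
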