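import Pool.Agent.Lib.MP_0b721b_ag.P7
import Pool.Agent.Lib.MP_0b721b_ag.P3b
import Pool.Agent.Lib.MP_0b721b_ag.P4
import Pool.Agent.Lib.MP_0b721b_ag.P4a
import Pool.Agent.Lib.MP_0b721b_ag.P6

/-!
Part P8: uniform vanishing over finite fields, by noetherian induction over the homogeneous ideals
of `K[x]`, `K` algebraically closed.
-/

namespace Pool.Agent.Lib.MP_0b721b_ag

open MvPolynomial

universe u

attribute [local instance] MvPolynomial.weightedGradedAlgebra in
/-- a homogeneous ideal which is not prime has homogeneous zero divisors -/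
theorem exists_zero_div {K : Type u} [Field K] {N : ℕ} {w : Fin N → ℤ}
    {I : Ideal (MvPolynomial (Fin N) K)} (hI : (polyGr K w).Sub I) (ht : I ≠ ⊤)
    (hp : ¬ I.IsPrime) :
    ∃ (a b : MvPolynomial (Fin N) K) (δ : ℤ), (polyGr K w).Hom δ a ∧ a ∉ I ∧ b ∉ I ∧
      a * b ∈ I := by
  by_contra hc
  push Not at hc
  apply hp
  have hI' : I.IsHomogeneous (weightedHomogeneousSubmodule K w) := by
    intro i r hr
    have := hI i r hr
    rw [polyGr_pr, ← weightedDecomposition.decompose'_apply] at this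
    exact this
  refine hI'.isPrime_of_homogeneous_mem_or_mem ht ?_
  rintro x y ⟨i, hx⟩ ⟨j, hy⟩ hxy
  by_contra hn
  push Not at hn
  exact hc x y i (polyGr_hom_iff.2 hx) hn.1 hn.2 hxy

/-- `c` kills the cohomology of ample line bundles over a finite field -/
theorem c_kills {k : Type u} [Field k] [Finite k] {N : ℕ} {w : Fin N → ℤ} (hw : ∀ i, 0 < w i)
    {I : Ideal (MvPolynomial (Fin N) k)} (hI : (polyGr k w).Sub I)
    {α : Type} [LinearOrder α] [Fintype α] {D : Dat (MvPolynomial (Fin N) k) α} (hD : D.Lb w I)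
    {g : Fin N → MvPolynomial (Fin N) k} {c : MvPolynomial (Fin N) k} {U : Finset (Fin N)}
    (hU : ∀ i ∈ U, g i ∈ I) (hc : ∀ a ∈ I, c * a ∈ Ideal.span (g '' (U : Set (Fin N)))) (δ : ℤ)
    {n : ℤ} (hA : D.Amp w I n) {p : ℕ} (hp : 1 ≤ p)
    (z : ∀ J : Finset α, Loc (D.fJ J) (MvPolynomial (Fin N) k ⧸ I))
    (hz : ∀ J, LDeg (cyc w I hI) (D.fJ J) (D.dJ J) n (z J))
    (hz' : ∀ J, J.card = p + 2 → dC (D.tw _) z J = 0) :
    ∃ w' : ∀ J : Finset α, Loc (D.fJ J) (MvPolynomial (Fin N) k ⧸ I),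
      (∀ J, LDeg (cyc w I hI) (D.fJ J) (D.dJ J) (n + δ) (w' J)) ∧
      ∀ J, J.card = p + 1 → dC (D.tw _) w' J =
        opm (D.fJ J) ((polyGr k w).pr δ (c * (Fuj.Jac g).det)) 0 (z J) := by
  classical
  have := Fintype.ofFinite k
  obtain ⟨q₀, hq₀⟩ := serre_amp hw hI hD (cyc_gmod hI) (M := MvPolynomial (Fin N) k ⧸ I)
    (fun a ha m => by
      obtain ⟨m, rfl⟩ := Submodule.Quotient.mk_surjective I m
      rw [← Submodule.Quotient.mk_smul, Submodule.Quotient.mk_eq_zero, smul_eq_mul]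
      exact Ideal.mul_mem_right _ _ ha) hA hp
  obtain ⟨p₀, hchar⟩ := CharP.exists k
  have : Fact p₀.Prime := ⟨CharP.char_is_prime k p₀⟩
  obtain ⟨f, hf⟩ := FiniteField.card k p₀
  have hq : ∀ x : k, x ^ (Fintype.card k ^ q₀) = x := fun x => FiniteField.pow_card_pow q₀ x
  have hqe : Fintype.card k ^ q₀ = p₀ ^ ((f : ℕ) * q₀) := by
    rw [hf.2, ← pow_mul]
  have hqpos : 0 < Fintype.card k ^ q₀ := pow_pos Fintype.card_pos _
  have hqge : q₀ ≤ Fintype.card k ^ q₀ :=
    (Nat.lt_pow_self (Fintype.one_lt_card)).le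
  have h1 := Fuj.sig_pow_mul p₀ ((f : ℕ) * q₀) hqe hq g c
  have h2 := Fuj.sig_mem p₀ ((f : ℕ) * q₀) hqe hq g c I U hU hc
  have h3 := Fuj.sig_one p₀ ((f : ℕ) * q₀) hqe hq g c
  obtain ⟨σ, hσ1, hσ2, hσ3, hσ4⟩ := sigma_deg (w := w) hqpos hqe hI
    (Fuj.sig (Fintype.card k ^ q₀) g c).toAddMonoidHom (fun a r => h1 a r)
    (fun r hr => h2 r hr) δ
  obtain ⟨w', hw1, hw2⟩ := ctrick hqe hI hD σ hσ1 hσ2 δ hσ4 (hq₀ _ hqge) z hz hz'
  refine ⟨w', hw1, fun J hJ => ?_⟩
  rw [hw2 J hJ, hσ3]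
  change opm (D.fJ J) ((polyGr k w).pr δ (Fuj.sig (Fintype.card k ^ q₀) g c 1)) 0 (z J) = _
  rw [h3]

/-- the uniform vanishing over finite fields -/
theorem claim_fin {K : Type u} [Field K] [IsAlgClosed K] {N : ℕ} {w : Fin N → ℤ}
    (hw : ∀ i, 0 < w i) (I : Ideal (MvPolynomial (Fin N) K)) (hI : (polyGr K w).Sub I) :
    Claim true w I := by
  classical
  induction I using WellFoundedGT.induction with
  | ind I ih =>
  by_cases ht : I = ⊤
  · -- the zero module
    refine ⟨∅, 0, fun B _ k _ _ φ α _ _ D _ n _ p _ hIk => HV.top hIk ?_ n p D⟩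
    subst ht
    unfold fib IB
    rw [Ideal.comap_top, Ideal.map_top]
  by_cases hP : I.IsPrime
  · -- the prime case
    obtain ⟨U, g, c, hU, hc, hcJ⟩ := cdata I
    obtain ⟨δ, hδ⟩ : ∃ δ, (polyGr K w).pr δ (c * (Fuj.Jac g).det) ∉ I := by
      by_contra hn
      push Not at hn
      apply hcJ
      rw [← (polyGr K w).sum (c * (Fuj.Jac g).det)]
      exact finsum_induction (fun y => y ∈ I) (Submodule.zero_mem _)
        (fun _ _ h h' => Submodule.add_mem _ h h') hn
    set a := (polyGr K w).pr δ (c * (Fuj.Jac g).det) with ha_def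
    have haδ : (polyGr K w).Hom δ a := Gr.hom_pr _ _ _
    have hqi : qi I a = I := by
      apply le_antisymm _ (le_qi I a)
      intro f hf
      exact (hP.mem_or_mem (mem_qi.1 hf)).resolve_left hδ
    have hI2 : (polyGr K w).Sub (I ⊔ Ideal.span {a} : Ideal _) := sup_span_sub hI haδ
    have hlt : I < I ⊔ Ideal.span {a} := by
      refine lt_of_le_of_ne le_sup_left (fun h => hδ ?_)
      rw [h]
      exact Ideal.mem_sup_right (Ideal.mem_span_singleton_self a)
    obtain ⟨s3, m3, h3⟩ := ih _ hlt hI2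
    obtain ⟨s1, h1⟩ := fib_ex I a
    obtain ⟨s2, h2⟩ := fib_rel I g c U hU hc
    refine ⟨s1 ∪ s2 ∪ s3, max δ m3, fun B hB k _ hfin φ α _ _ D hD n hA p hp hIk => ?_⟩
    have : Finite k := hfin rfl
    rw [Finset.coe_union, Finset.coe_union, Set.union_subset_iff, Set.union_subset_iff] at hB
    obtain ⟨a', ha', h1'⟩ := h1 B hB.1.1
    obtain ⟨g', c', hg', hc', h2'⟩ := h2 B hB.1.2
    obtain ⟨e1, e2⟩ := h1' k φ
    obtain ⟨e3, e4⟩ := h2' k φ
    rw [hqi] at e2
    have hinj : Function.Injective (MvPolynomial.map (σ := Fin N) B.subtype) :=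
      MvPolynomial.map_injective _ Subtype.val_injective
    have ha'eq : a' = (polyGr B w).pr δ (c' * (Fuj.Jac g').det) := by
      apply hinj
      rw [ha', polyGr_map, map_mul, hc', Fuj.map_Jac_det]
      rw [ha_def]
      congr 3
      simp only [hg']
    have hak : MvPolynomial.map φ a' = (polyGr k w).pr δ
        (MvPolynomial.map φ c' * (Fuj.Jac (fun i => MvPolynomial.map φ (g' i))).det) := by
      rw [ha'eq, polyGr_map, map_mul, Fuj.map_Jac_det]
    have hakδ : (polyGr k w).Hom δ (MvPolynomial.map φ a') := by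
      rw [hak]
      exact Gr.hom_pr _ _ _
    have hI2k : (polyGr k w).Sub (fib (I ⊔ Ideal.span {a}) φ) := fib_sub hI2 φ
    obtain ⟨Φ, Ψ, hS, hΦ⟩ := gses_of hIk hIk hI2k hakδ e2 e1
    have hle : fib I φ ≤ fib (I ⊔ Ideal.span {a}) φ := fib_mono le_sup_left φ
    refine hS.hv_of_zero (hD.okc hIk) (hD.okc hIk) ((hD.mono hle).okc hI2k) hp ?_ ?_
    · intro z hz hz'
      obtain ⟨w', -, hw'⟩ := c_kills hw hIk hD e3 e4 δ
        (hA.le (sub_le_sub_left (le_max_left _ _) _)) hp z hz hz'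
      refine ⟨w', fun J hJ => ?_⟩
      rw [hw' J hJ, ← hak]
      obtain ⟨m, l, hm⟩ := fr_surj (z J)
      obtain ⟨m, rfl⟩ := Submodule.Quotient.mk_surjective _ m
      rw [hm, opm_fr, Cmp.lm_fr, add_zero]
      exact congrArg (fun y => fr (D.fJ J) y l) (hΦ m).symm
    · exact h3 B hB.2 k hfin φ α D (hD.mono hle) n
        ((hA.mono hle).le (sub_le_sub_left (le_max_right _ _) _)) p hp hI2k
  · -- a homogeneous ideal which is not prime
    obtain ⟨a, b, δ, haδ, ha, hb, hab⟩ := exists_zero_div hI ht hP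
    have hI1 : (polyGr K w).Sub (qi I a) := qi_sub hI haδ
    have hI2 : (polyGr K w).Sub (I ⊔ Ideal.span {a} : Ideal _) := sup_span_sub hI haδ
    have hlt1 : I < qi I a := by
      refine lt_of_le_of_ne (le_qi I a) (fun h => hb ?_)
      rw [h]
      exact mem_qi.2 hab
    have hlt2 : I < I ⊔ Ideal.span {a} := by
      refine lt_of_le_of_ne le_sup_left (fun h => ha ?_)
      rw [h]
      exact Ideal.mem_sup_right (Ideal.mem_span_singleton_self a)
    obtain ⟨s1, m1, h1⟩ := ih _ hlt1 hI1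
    obtain ⟨s2, m2, h2⟩ := ih _ hlt2 hI2
    obtain ⟨s3, h3⟩ := fib_ex I a
    refine ⟨s1 ∪ s2 ∪ s3, max (m1 + δ) m2, fun B hB k _ hfin φ α _ _ D hD n hA p hp hIk => ?_⟩
    rw [Finset.coe_union, Finset.coe_union, Set.union_subset_iff, Set.union_subset_iff] at hB
    obtain ⟨a', ha', h3'⟩ := h3 B hB.2
    obtain ⟨e1, e2⟩ := h3' k φ
    have hinj : Function.Injective (MvPolynomial.map (σ := Fin N) B.subtype) :=
      MvPolynomial.map_injective _ Subtype.val_injective
    have ha'δ : (polyGr B w).Hom δ a' := by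
      apply hinj
      rw [polyGr_map, ha']
      exact haδ
    have hakδ : (polyGr k w).Hom δ (MvPolynomial.map φ a') := polyGr_map_hom φ ha'δ
    have hI1k : (polyGr k w).Sub (fib (qi I a) φ) := fib_sub hI1 φ
    have hI2k : (polyGr k w).Sub (fib (I ⊔ Ideal.span {a}) φ) := fib_sub hI2 φ
    obtain ⟨Φ, Ψ, hS, -⟩ := gses_of hIk hI1k hI2k hakδ e2 e1
    have hle1 : fib I φ ≤ fib (qi I a) φ := fib_mono (le_qi I a) φ
    have hle2 : fib I φ ≤ fib (I ⊔ Ideal.span {a}) φ := fib_mono le_sup_left φ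
    refine hS.hv_mid ((hD.mono hle1).okc hI1k) (hD.okc hIk) ((hD.mono hle2).okc hI2k) ?_ ?_
    · refine h1 B hB.1.1 k hfin φ α D (hD.mono hle1) (n - δ) ((hA.mono hle1).le ?_) p hp hI1k
      have := le_max_left (m1 + δ) m2
      linarith
    · exact h2 B hB.1.2 k hfin φ α D (hD.mono hle2) n
        ((hA.mono hle2).le (sub_le_sub_left (le_max_right _ _) _)) p hp hI2k

end Pool.Agent.Lib.MP_0b721b_ag
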