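import Pool.Agent.Lib.MP_0b721b_ag.HF
import Pool.Agent.Lib.MP_0b721b_ag.Fib

/-!
Part P9d: the maps `m ↦ c φ(m)` between the modules `P / I` and their twisted Cech complexes.
-/

namespace Pool.Agent.Lib.MP_0b721b_ag

open MvPolynomial

universe u

section qm

variable {A A' : Type*} [CommRing A] [CommRing A'] {σ : Type*} {α : Type*} [LinearOrder α]

/-- the map `m ↦ c φ(m)` from `A[x] / I` to `A'[x] / I A'[x]` -/
noncomputable def qmc (φ : A →+* A') (I : Ideal (MvPolynomial σ A)) (c : A') :
    (MvPolynomial σ A ⧸ I) →+ (MvPolynomial σ A' ⧸ I.map (MvPolynomial.map φ)) :=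
  (DistribSMul.toAddMonoidHom (MvPolynomial σ A' ⧸ I.map (MvPolynomial.map φ))
    (C c : MvPolynomial σ A')).comp
    (Ideal.quotientMap (I.map (MvPolynomial.map φ)) (MvPolynomial.map φ)
      Ideal.le_comap_map).toAddMonoidHom

theorem qmc_mk (φ : A →+* A') (I : Ideal (MvPolynomial σ A)) (c : A') (f : MvPolynomial σ A) :
    qmc φ I c (Submodule.Quotient.mk f) = Submodule.Quotient.mk (C c * MvPolynomial.map φ f) := rfl

omit [LinearOrder α] in
theorem qmc_cmp (φ : A →+* A') (I : Ideal (MvPolynomial σ A)) (c : A')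
    (D : Dat (MvPolynomial σ A) α) : Cmp D (D.bc φ) (qmc φ I c) where
  f a m := by
    obtain ⟨f, rfl⟩ := Submodule.Quotient.mk_surjective I m
    rw [← Submodule.Quotient.mk_smul, qmc_mk, qmc_mk, ← Submodule.Quotient.mk_smul, smul_eq_mul,
      smul_eq_mul, map_mul]
    congr 1
    change C c * (MvPolynomial.map φ (D.f a) * MvPolynomial.map φ f) =
      MvPolynomial.map φ (D.f a) * (C c * MvPolynomial.map φ f)
    ring
  v a b m := by
    obtain ⟨f, rfl⟩ := Submodule.Quotient.mk_surjective I m
    rw [← Submodule.Quotient.mk_smul, qmc_mk, qmc_mk, ← Submodule.Quotient.mk_smul, smul_eq_mul,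
      smul_eq_mul, map_mul]
    congr 1
    change C c * (MvPolynomial.map φ (D.v a b) * MvPolynomial.map φ f) =
      MvPolynomial.map φ (D.v a b) * (C c * MvPolynomial.map φ f)
    ring
  t := rfl
  d := rfl

theorem qmc_pr (φ : A →+* A') {I : Ideal (MvPolynomial σ A)} (c : A') {w : σ → ℤ}
    (hI : (polyGr A w).Sub I) (hI' : (polyGr A' w).Sub (I.map (MvPolynomial.map φ))) (n : ℤ)
    (m : MvPolynomial σ A ⧸ I) :
    qmc φ I c ((cyc w I hI).pr n m) = (cyc w _ hI').pr n (qmc φ I c m) := by
  obtain ⟨f, rfl⟩ := Submodule.Quotient.mk_surjective I m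
  have h1 : (polyGr A' w).pr n (C c * MvPolynomial.map φ f) =
      C c * MvPolynomial.map φ ((polyGr A w).pr n f) := by
    have := polyGr_op (polyGr_C w c) n (MvPolynomial.map φ f)
    rw [add_zero, smul_eq_mul, smul_eq_mul] at this
    rw [this, polyGr_map]
  exact (congrArg (Submodule.Quotient.mk (p := I.map (MvPolynomial.map φ))) h1).symm

theorem qmc_hom (φ : A →+* A') {I : Ideal (MvPolynomial σ A)} (c : A') {w : σ → ℤ}
    (hI : (polyGr A w).Sub I) (hI' : (polyGr A' w).Sub (I.map (MvPolynomial.map φ))) (n : ℤ)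
    (m : MvPolynomial σ A ⧸ I) (h : (cyc w I hI).Hom n m) :
    (cyc w _ hI').Hom (n + 0) (qmc φ I c m) := by
  unfold Gr.Hom at *
  rw [add_zero, ← qmc_pr φ c hI hI', h]

end qm

section sc

variable {A : Type*} [CommRing A] {σ : Type*} {α : Type*} [LinearOrder α]

/-- multiplication by a scalar on `A[x] / I` -/
noncomputable def sc (I : Ideal (MvPolynomial σ A)) (c : A) :
    (MvPolynomial σ A ⧸ I) →ₗ[MvPolynomial σ A] (MvPolynomial σ A ⧸ I) :=
  LinearMap.lsmul (MvPolynomial σ A) (MvPolynomial σ A ⧸ I) (C c)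

theorem sc_mk (I : Ideal (MvPolynomial σ A)) (c : A) (f : MvPolynomial σ A) :
    sc I c (Submodule.Quotient.mk f) = Submodule.Quotient.mk (C c * f) := rfl

theorem sc_sc (I : Ideal (MvPolynomial σ A)) (c c' : A) (m : MvPolynomial σ A ⧸ I) :
    sc I c (sc I c' m) = sc I (c * c') m := by
  obtain ⟨f, rfl⟩ := Submodule.Quotient.mk_surjective I m
  rw [sc_mk, sc_mk, sc_mk, map_mul, mul_assoc]

theorem sc_one (I : Ideal (MvPolynomial σ A)) (m : MvPolynomial σ A ⧸ I) : sc I 1 m = m := by
  obtain ⟨f, rfl⟩ := Submodule.Quotient.mk_surjective I m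
  rw [sc_mk, map_one, one_mul]

theorem sc_hom {I : Ideal (MvPolynomial σ A)} (c : A) {w : σ → ℤ}
    (hI : (polyGr A w).Sub I) (n : ℤ) (m : MvPolynomial σ A ⧸ I) (h : (cyc w I hI).Hom n m) :
    (cyc w I hI).Hom (n + 0) (sc I c m) := by
  have := (cyc_gmod hI 0 (C c) (polyGr_C w c)) n m
  unfold Gr.Hom at *
  rw [h] at this
  exact this

end sc

section ld

variable {S : Type*} [CommRing S] {α : Type*} [LinearOrder α] {M : Type*} [AddCommGroup M]
  [Module S M] {D : Dat S α} {g : Gr M}

omit [LinearOrder α] in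
theorem Dat.Ok.lDeg_sum (h : D.Ok g) {n : ℤ} {J : Finset α} {ι : Type*} (t : Finset ι)
    (z : ι → Loc (D.fJ J) M) (hz : ∀ i ∈ t, LDeg g (D.fJ J) (D.dJ J) n (z i)) :
    LDeg g (D.fJ J) (D.dJ J) n (∑ i ∈ t, z i) := by
  have : ∑ i ∈ t, z i ∈ locDeg g (h.opJ J) n := AddSubgroup.sum_mem _ hz
  exact this

theorem dC_sum {G : Finset α → Type*} [∀ J, AddCommGroup (G J)]
    (ρ : ∀ J J' : Finset α, J.Nonempty → J ⊆ J' → G J →+ G J') {ι : Type*} (t : Finset ι)
    (z : ι → ∀ J, G J) (J : Finset α) :
    dC ρ (fun J => ∑ i ∈ t, z i J) J = ∑ i ∈ t, dC ρ (z i) J := by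
  classical
  induction t using Finset.induction_on with
  | empty =>
    simp only [Finset.sum_empty]
    exact dC_eq_zero_of fun K _ => rfl
  | insert i t hi ih =>
    rw [Finset.sum_insert hi, ← ih, ← dC_add]
    refine dC_congr fun K _ => ?_
    rw [Finset.sum_insert hi]
    rfl

end ld

/-- the elements of a finite set of elements of a field, written with coefficients in a subring and
one denominator over a linearly independent family -/
theorem exists_kappa {k : Type u} [Field k] (R : Subring k) (T : Finset k) :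
    ∃ (r : ℕ) (κ : Fin r → k) (b : R) (a : k → Fin r → R), b ≠ 0 ∧
      (∀ x : Fin r → R, ∑ l, κ l * (x l : k) = 0 → ∀ l, x l = 0) ∧
      ∀ t ∈ T, (b : k) * t = ∑ l, κ l * (a t l : k) := by
  classical
  let F := FractionRing R
  let _ : Algebra F k := FractionRing.liftAlgebra R k
  have : IsScalarTower R F k := FractionRing.isScalarTower_liftAlgebra R k
  let V : Submodule F k := Submodule.span F (T : Set k)
  have : Module.Finite F V := Module.Finite.span_of_finite F T.finite_toSet
  let B := Module.finBasis F V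
  obtain ⟨b, hb⟩ := IsLocalization.exist_integer_multiples_of_finite (nonZeroDivisors R)
    (fun x : T × Fin (Module.finrank F V) =>
      B.repr ⟨x.1.1, Submodule.subset_span x.1.2⟩ x.2)
  choose a ha using hb
  refine ⟨Module.finrank F V, fun l => (B l : k), b, fun t l => if ht : t ∈ T then a (⟨t, ht⟩, l) else 0,
    nonZeroDivisors.coe_ne_zero b, ?_, ?_⟩
  · intro x hx
    have h1 : ∑ l, algebraMap R F (x l) • B l = 0 := by
      apply Subtype.ext
      rw [AddSubmonoidClass.coe_finsetSum]
      refine Eq.trans ?_ hx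
      refine Finset.sum_congr rfl fun l _ => ?_
      rw [Submodule.coe_smul, Algebra.smul_def, ← IsScalarTower.algebraMap_apply R F k, mul_comm]
      rfl
    have h2 := Fintype.linearIndependent_iff.1 B.linearIndependent _ h1
    intro l
    exact (FaithfulSMul.algebraMap_injective R F) ((h2 l).trans (map_zero _).symm)
  · intro t ht
    have h1 := B.sum_repr ⟨t, Submodule.subset_span ht⟩
    have h2 := congrArg (fun y : V => (b : k) * (y : k)) h1
    dsimp only at h2
    rw [← h2, AddSubmonoidClass.coe_finsetSum, Finset.mul_sum]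
    refine Finset.sum_congr rfl fun l _ => ?_
    dsimp only
    rw [dif_pos ht]
    have h3 := ha (⟨t, ht⟩, l)
    have h4 := congrArg (algebraMap F k) h3
    rw [← IsScalarTower.algebraMap_apply R F k, Algebra.smul_def, map_mul,
      ← IsScalarTower.algebraMap_apply R F k] at h4
    rw [Submodule.coe_smul, Algebra.smul_def]
    change _ = (B l : k) * algebraMap R k (a (⟨t, ht⟩, l))
    rw [h4]
    change algebraMap R k b * _ = _
    ring

end Pool.Agent.Lib.MP_0b721b_ag
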