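import Pool.Agent.Lib.MP_0b721b_ag.Deg

/-!
The weighted grading of polynomial rings, the grading of quotients, line bundles on `V(I)`.
-/

namespace Pool.Agent.Lib.MP_0b721b_ag

open MvPolynomial

section poly

variable {A : Type*} [CommRing A] {σ : Type*}

/-- the grading of the polynomial ring in which the variable `X i` has degree `w i` -/
noncomputable def polyGr (A : Type*) [CommRing A] {σ : Type*} (w : σ → ℤ) :
    Gr (MvPolynomial σ A) where
  pr n := (weightedHomogeneousComponent w n).toAddMonoidHom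
  pr_same n m := (weightedHomogeneousComponent_isWeightedHomogeneous n m).weightedHomogeneousComponent_same
  pr_ne i j h m := (weightedHomogeneousComponent_isWeightedHomogeneous j m).weightedHomogeneousComponent_ne
    i h
  fin m := weightedHomogeneousComponent_finsupp m
  sum m := finsum_weightedHomogeneousComponent w m

theorem polyGr_pr (w : σ → ℤ) (n : ℤ) (f : MvPolynomial σ A) :
    (polyGr A w).pr n f = weightedHomogeneousComponent w n f := rfl

theorem polyGr_hom_iff {w : σ → ℤ} {n : ℤ} {f : MvPolynomial σ A} :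
    (polyGr A w).Hom n f ↔ IsWeightedHomogeneous w f n := by
  constructor
  · intro h
    unfold Gr.Hom at h
    rw [← h]
    exact weightedHomogeneousComponent_isWeightedHomogeneous n f
  · intro h
    exact h.weightedHomogeneousComponent_same

theorem polyGr_mul {w : σ → ℤ} {m n : ℤ} {f g : MvPolynomial σ A}
    (hf : (polyGr A w).Hom m f) (hg : (polyGr A w).Hom n g) : (polyGr A w).Hom (m + n) (f * g) :=
  polyGr_hom_iff.2 ((polyGr_hom_iff.1 hf).mul (polyGr_hom_iff.1 hg))

theorem polyGr_pow {w : σ → ℤ} {n : ℤ} {f : MvPolynomial σ A}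
    (hf : (polyGr A w).Hom n f) (k : ℕ) : (polyGr A w).Hom (k * n) (f ^ k) := by
  have := polyGr_hom_iff.2 ((polyGr_hom_iff.1 hf).pow k)
  rw [nsmul_eq_mul] at this
  exact this

theorem polyGr_X (w : σ → ℤ) (i : σ) : (polyGr A w).Hom (w i) (X i) :=
  polyGr_hom_iff.2 (isWeightedHomogeneous_X A w i)

theorem polyGr_C (w : σ → ℤ) (a : A) : (polyGr A w).Hom 0 (C a) :=
  polyGr_hom_iff.2 (isWeightedHomogeneous_C w a)

/-- a homogeneous element acts as an operator of its degree -/
theorem polyGr_op {w : σ → ℤ} {e : ℤ} {f : MvPolynomial σ A} (hf : (polyGr A w).Hom e f) :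
    (polyGr A w).Op f e := by
  intro n m
  have key : ∀ j, (polyGr A w).pr (n + e) (f * (polyGr A w).pr j m) =
      if j = n then f * (polyGr A w).pr n m else 0 := by
    intro j
    have h1 := polyGr_mul hf ((polyGr A w).hom_pr j m)
    split_ifs with h
    · subst h
      rw [add_comm]
      exact h1
    · unfold Gr.Hom at h1
      rw [← h1, Gr.pr_ne]
      omega
  rw [smul_eq_mul, smul_eq_mul]
  conv_lhs => rw [← (polyGr A w).sum m]
  have h2 : f * ∑ᶠ j, (polyGr A w).pr j m = ∑ᶠ j, f * (polyGr A w).pr j m :=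
    AddMonoidHom.map_finsum (AddMonoidHom.mulLeft f) ((polyGr A w).fin m)
  rw [h2, AddMonoidHom.map_finsum _ (((polyGr A w).fin m).subset (by
      intro j hj h'
      exact hj (by simp only [h', mul_zero])))]
  simp only [key]
  rw [finsum_eq_single _ n (fun j hj => by rw [if_neg hj]), if_pos rfl]

/-- the components of a product -/
theorem polyGr_pr_mul (w : σ → ℤ) (n : ℤ) (a x : MvPolynomial σ A) :
    (polyGr A w).pr n (a * x) = ∑ᶠ j, (polyGr A w).pr j a * (polyGr A w).pr (n - j) x := by
  have h1 : ∀ j, (polyGr A w).pr j a * (polyGr A w).pr (n - j) x =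
      (polyGr A w).pr n ((polyGr A w).pr j a * x) := by
    intro j
    have := polyGr_op ((polyGr A w).hom_pr j a) (n - j) x
    rw [sub_add_cancel, smul_eq_mul, smul_eq_mul] at this
    exact this.symm
  simp only [h1]
  have h2 : a * x = ∑ᶠ j, (polyGr A w).pr j a * x := by
    conv_lhs => rw [← (polyGr A w).sum a]
    exact AddMonoidHom.map_finsum (AddMonoidHom.mulRight x) ((polyGr A w).fin a)
  conv_lhs => rw [h2]
  exact AddMonoidHom.map_finsum _ (((polyGr A w).fin a).subset (by
      intro j hj h'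
      exact hj (by simp only [h', zero_mul])))

theorem polyGr_map {A' : Type*} [CommRing A'] (φ : A →+* A') (w : σ → ℤ) (n : ℤ)
    (f : MvPolynomial σ A) :
    MvPolynomial.map φ ((polyGr A w).pr n f) = (polyGr A' w).pr n (MvPolynomial.map φ f) := by
  classical
  apply MvPolynomial.ext
  intro d
  rw [coeff_map, polyGr_pr, polyGr_pr, coeff_weightedHomogeneousComponent,
    coeff_weightedHomogeneousComponent, coeff_map]
  split_ifs
  · rfl
  · exact map_zero φ

theorem polyGr_map_hom {A' : Type*} [CommRing A'] (φ : A →+* A') {w : σ → ℤ} {n : ℤ}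
    {f : MvPolynomial σ A} (h : (polyGr A w).Hom n f) :
    (polyGr A' w).Hom n (MvPolynomial.map φ f) := by
  unfold Gr.Hom at *
  rw [← polyGr_map, h]

end poly

section quot

variable {S : Type*} [CommRing S] {M : Type*} [AddCommGroup M] [Module S M]

/-- a homogeneous submodule -/
def Gr.Sub (g : Gr M) (W : Submodule S M) : Prop := ∀ n m, m ∈ W → g.pr n m ∈ W

/-- the grading of a quotient -/
def Gr.quot (g : Gr M) (W : Submodule S M) (hW : g.Sub W) : Gr (M ⧸ W) where
  pr n := QuotientAddGroup.map W.toAddSubgroup W.toAddSubgroup (g.pr n) (fun m hm => hW n m hm)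
  pr_same n m := by
    obtain ⟨m, rfl⟩ := Submodule.Quotient.mk_surjective W m
    exact congrArg (Submodule.Quotient.mk (p := W)) (g.pr_same n m)
  pr_ne i j h m := by
    obtain ⟨m, rfl⟩ := Submodule.Quotient.mk_surjective W m
    exact congrArg (Submodule.Quotient.mk (p := W)) (g.pr_ne i j h m)
  fin m := by
    obtain ⟨m, rfl⟩ := Submodule.Quotient.mk_surjective W m
    refine (g.fin m).subset ?_
    intro n hn h
    exact hn (congrArg (Submodule.Quotient.mk (p := W)) h)
  sum m := by
    obtain ⟨m, rfl⟩ := Submodule.Quotient.mk_surjective W m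
    have h := AddMonoidHom.map_finsum (W.mkQ.toAddMonoidHom) (g.fin m)
    rw [g.sum m] at h
    exact h.symm

theorem Gr.quot_pr (g : Gr M) (W : Submodule S M) (hW : g.Sub W) (n : ℤ) (m : M) :
    (g.quot W hW).pr n (Submodule.Quotient.mk m) = Submodule.Quotient.mk (g.pr n m) := rfl

theorem Gr.quot_op (g : Gr M) (W : Submodule S M) (hW : g.Sub W) {s : S} {e : ℤ} (h : g.Op s e) :
    (g.quot W hW).Op s e := by
  intro n m
  obtain ⟨m, rfl⟩ := Submodule.Quotient.mk_surjective W m
  exact congrArg (Submodule.Quotient.mk (p := W)) (h n m)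

theorem Gr.quot_hom (g : Gr M) (W : Submodule S M) (hW : g.Sub W) {n : ℤ} {m : M}
    (h : g.Hom n m) : (g.quot W hW).Hom n (Submodule.Quotient.mk m) :=
  congrArg (Submodule.Quotient.mk (p := W)) h

theorem Gr.sub_sup {g : Gr M} {W W' : Submodule S M} (h : g.Sub W) (h' : g.Sub W') :
    g.Sub (W ⊔ W') := by
  intro n m hm
  obtain ⟨a, ha, b, hb, rfl⟩ := Submodule.mem_sup.1 hm
  rw [map_add]
  exact Submodule.mem_sup.2 ⟨_, h n a ha, _, h' n b hb, rfl⟩

end quot

section lb

variable {A : Type*} [CommRing A] {σ : Type*} {α : Type*}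

/-- the span of homogeneous elements is homogeneous -/
theorem polyGr_sub_span {w : σ → ℤ} {X : Set (MvPolynomial σ A)}
    (hX : ∀ x ∈ X, ∃ e, (polyGr A w).Hom e x) :
    (polyGr A w).Sub (Ideal.span X : Ideal (MvPolynomial σ A)) := by
  intro n m hm
  induction hm using Submodule.span_induction generalizing n with
  | mem x hx =>
    obtain ⟨e, he⟩ := hX x hx
    by_cases h : n = e
    · subst h
      unfold Gr.Hom at he
      rw [he]
      exact Submodule.subset_span hx
    · unfold Gr.Hom at he
      rw [← he, Gr.pr_ne _ _ _ h]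
      exact Submodule.zero_mem _
  | zero =>
    rw [map_zero]
    exact Submodule.zero_mem _
  | add x y _ _ hx hy =>
    rw [map_add]
    exact Submodule.add_mem _ (hx n) (hy n)
  | smul a x _ hx =>
    rw [smul_eq_mul, polyGr_pr_mul]
    exact finsum_induction (fun y => y ∈ Ideal.span X) (Submodule.zero_mem _)
      (fun _ _ h h' => Submodule.add_mem _ h h')
      (fun j => Ideal.mul_mem_left _ _ (hx (n - j)))

/-- `D` is a line bundle on the closed subscheme `V(I)` of the weighted projective space (with the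
weights `w`), given on the affine cover by the `f a ≠ 0` : the `f a` are homogeneous of positive
degree and cover `V(I)`, the transition functions `v a b / (f a f b) ^ t` are homogeneous of degree
zero, equal to one for `a = b`, and satisfy the cocycle condition modulo `I`. -/
structure Dat.Lb (D : Dat (MvPolynomial σ A) α) (w : σ → ℤ) (I : Ideal (MvPolynomial σ A)) :
    Prop where
  pos : ∀ a, 0 < D.d a
  hf : ∀ a, (polyGr A w).Hom (D.d a) (D.f a)
  hv : ∀ a b, (polyGr A w).Hom (D.t * (D.d a + D.d b)) (D.v a b)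
  self : ∀ a, ∃ e : ℕ, D.f a ^ e * (D.v a a - D.f a ^ (2 * D.t)) ∈ I
  cocy : ∀ a b c, ∃ e : ℕ, (D.f a * D.f b * D.f c) ^ e *
    (D.v a b * D.v b c - D.v a c * D.f b ^ (2 * D.t)) ∈ I
  cov : ∀ i, ∃ e : ℕ, (X i : MvPolynomial σ A) ^ e ∈ I ⊔ Ideal.span (Set.range D.f)

/-- the power `N ^ b` -/
def Dat.pw {S : Type*} [CommRing S] (D : Dat S α) (b : ℕ) : Dat S α where
  f := D.f
  d := D.d
  t := b * D.t
  v x y := D.v x y ^ b

/-- the twist `N (u)` is generated by its global sections over `V(I)`: there are finitely many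
sections `ε j`, given by the compatible fractions `ε j a / (f a) ^ T` of degree `u`, which generate
over each `f a ≠ 0` -/
def Dat.GG (D : Dat (MvPolynomial σ A) α) (w : σ → ℤ) (I : Ideal (MvPolynomial σ A)) (u : ℤ) :
    Prop :=
  ∃ (T r : ℕ) (ε : Fin r → α → MvPolynomial σ A),
    (∀ j a, (polyGr A w).Hom (T * D.d a + u) (ε j a)) ∧
    (∀ j a b, ∃ e : ℕ, (D.f a * D.f b) ^ e *
      (ε j a * D.f b ^ T * (D.f a * D.f b) ^ D.t - D.v a b * ε j b * D.f a ^ T) ∈ I) ∧
    ∀ a, ∃ e : ℕ, D.f a ^ e ∈ Ideal.span (Set.range fun j => ε j a) ⊔ I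

/-- `N (n)` is ample on `V(I)`: some power `N ^ n₀ (n₀ n)` is `O(e)` with `e > 0`, times a globally
generated line bundle -/
def Dat.Amp (D : Dat (MvPolynomial σ A) α) (w : σ → ℤ) (I : Ideal (MvPolynomial σ A)) (n : ℤ) :
    Prop :=
  ∃ (n₀ : ℕ) (u : ℤ), 1 ≤ n₀ ∧ u < n₀ * n ∧ (D.pw n₀).GG w I u

end lb

end Pool.Agent.Lib.MP_0b721b_ag
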