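import Mathlib

/-!
The statement layer: closed subschemes of projective spaces over a ring, line bundles given by
transition functions, coherent sheaves given by graded modules, Cech cohomology by numerators.
-/

namespace Pool.Agent.Lib.MP_0b721b_ag.St

universe u

/-- A line bundle `N` on a closed subscheme of a projective space, given on the open sets
`f a ≠ 0`, `a` in `α`: the degrees `d a` of the `f a`, and the transition functions
`u a b = v a b / (f a * f b) ^ t` (a section is `z a` over `f a ≠ 0` with `z a = u a b * z b`). -/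
structure Bun (S : Type u) (α : Type) where
  f : α → S
  d : α → ℤ
  t : ℕ
  v : α → α → S

section general

variable {S : Type u} [CommRing S] {α : Type}

/-- the product of the `f a`, `a ∈ J` -/
def fJ (D : Bun S α) (J : Finset α) : S := ∏ a ∈ J, D.f a

/-- its degree -/
def dJ (D : Bun S α) (J : Finset α) : ℤ := ∑ a ∈ J, D.d a

/-- the power `N ^ b` -/
def pow (D : Bun S α) (b : ℕ) : Bun S α where
  f := D.f
  d := D.d
  t := b * D.t
  v x y := D.v x y ^ b

/-- base change -/
def base {S' : Type u} [CommRing S'] (φ : S →+* S') (D : Bun S α) : Bun S' α where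
  f a := φ (D.f a)
  d := D.d
  t := D.t
  v a b := φ (D.v a b)

/-- the tensor product, on the product cover -/
def tensor {β : Type} (D : Bun S α) (E : Bun S β) : Bun S (α ×ₗ β) where
  f x := D.f (ofLex x).1 * E.f (ofLex x).2
  d x := D.d (ofLex x).1 + E.d (ofLex x).2
  t := D.t + E.t
  v x y := D.v (ofLex x).1 (ofLex y).1 * E.v (ofLex x).2 (ofLex y).2 *
    (D.f (ofLex x).1 * D.f (ofLex y).1) ^ E.t * (E.f (ofLex x).2 * E.f (ofLex y).2) ^ D.t

/-- `z a = m a / (f a) ^ T` is a global section of `N (n)` on `V(I)`; `h n m` says that `m` is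
homogeneous of degree `n` -/
def IsSec (h : ℤ → S → Prop) (D : Bun S α) (I : Ideal S) (n : ℤ) (T : ℕ) (m : α → S) : Prop :=
  (∀ a, h (n + T * D.d a) (m a)) ∧ ∀ a b, ∃ e : ℕ, (D.f a * D.f b) ^ e *
    (m a * D.f b ^ T * (D.f a * D.f b) ^ D.t - D.v a b * m b * D.f a ^ T) ∈ I

/-- `N (n)` is generated by finitely many global sections on `V(I)` -/
def IsGen (h : ℤ → S → Prop) (D : Bun S α) (I : Ideal S) (n : ℤ) : Prop :=
  ∃ (T r : ℕ) (m : Fin r → α → S), (∀ i, IsSec h D I n T (m i)) ∧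
    ∀ a, ∃ e : ℕ, D.f a ^ e ∈ Ideal.span (Set.range fun i => m i a) ⊔ I

/-- `N` is ample on `V(I)`: some `N ^ r`, `r ≥ 1`, is `O(1)` times a globally generated bundle -/
def IsAmple (h : ℤ → S → Prop) (D : Bun S α) (I : Ideal S) : Prop :=
  ∃ r : ℕ, 1 ≤ r ∧ IsGen h (pow D r) I (-1)

/-- `N (n)` has at least `r` sections on `V(I)` which are linearly independent over `k` -/
def HasSec (k : Type u) [Field k] [Algebra k S] (h : ℤ → S → Prop) (D : Bun S α) (I : Ideal S)
    (n : ℤ) (r : ℕ) : Prop :=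
  ∃ (T : ℕ) (m : Fin r → α → S), (∀ i, IsSec h D I n T (m i)) ∧
    ∀ c : Fin r → k, (∀ a, ∃ e : ℕ, D.f a ^ e * ∑ i, c i • m i a ∈ I) → c = 0

/-- `D` is a line bundle on `V(I)`: the `f a` are homogeneous of positive degree and cover `V(I)`
(`x i` are the coordinates), `u a a = 1` and `u a b * u b c = u a c` modulo `I` -/
structure IsBun {ι : Type} (h : ℤ → S → Prop) (x : ι → S) (D : Bun S α) (I : Ideal S) : Prop where
  pos : ∀ a, 0 < D.d a
  hf : ∀ a, h (D.d a) (D.f a)
  hv : ∀ a b, h (D.t * (D.d a + D.d b)) (D.v a b)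
  self : ∀ a, ∃ e : ℕ, D.f a ^ e * (D.v a a - D.f a ^ (2 * D.t)) ∈ I
  cocy : ∀ a b c, ∃ e : ℕ, (D.f a * D.f b * D.f c) ^ e *
    (D.v a b * D.v b c - D.v a c * D.f b ^ (2 * D.t)) ∈ I
  cov : ∀ i, ∃ e : ℕ, x i ^ e ∈ I ⊔ Ideal.span (Set.range D.f)

variable {V : Type u} [AddCommGroup V] [Module S V]

/-- `W` is generated by homogeneous elements -/
def IsHom (h : ℤ → V → Prop) (W : Submodule S V) : Prop :=
  W ≤ Submodule.span S {m | m ∈ W ∧ ∃ n, h n m}

/-- the sign of the element `a` of `J` -/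
def sign [LinearOrder α] (a : α) (J : Finset α) : ℤ := (-1) ^ (J.filter (· < a)).card

/-- the numerator `m'` of the Cech differential `m' J / (f J) ^ (k + 2 t)` of the cochain
`m J / (f J) ^ k`; a section over `J` is written in the trivialisation of the smallest element of
`J` -/
def del [LinearOrder α] (D : Bun S α) (k : ℕ) (m : Finset α → V) (J : Finset α) : V :=
  ∑ a ∈ J, if h : (J.erase a).Nonempty then
    sign a J • (D.v (J.min' (h.mono (J.erase_subset a))) ((J.erase a).min' h) *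
      (fJ D (J.erase (J.min' (h.mono (J.erase_subset a)))) *
        fJ D (J.erase ((J.erase a).min' h))) ^ D.t * D.f a ^ k) • m (J.erase a)
  else 0

/-- `H^p (F ⊗ N (n)) = 0`, where `F` is given by the graded module `V / W` -/
def Vanish [LinearOrder α] (h : ℤ → V → Prop) (D : Bun S α) (W : Submodule S V) (n : ℤ) (p : ℕ) :
    Prop :=
  ∀ (k : ℕ) (m : Finset α → V), (∀ J, h (n + k * dJ D J) (m J)) →
    (∀ J, J.card = p + 2 → ∃ e : ℕ, fJ D J ^ e • del D k m J ∈ W) →
    ∃ (l : ℕ) (w : Finset α → V), (∀ J, h (n + l * dJ D J) (w J)) ∧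
      ∀ J, J.card = p + 1 → ∃ e : ℕ,
        fJ D J ^ e • (fJ D J ^ (l + 2 * D.t) • m J - fJ D J ^ k • del D l w J) ∈ W

/-- a homogeneous prime ideal which does not contain all the coordinates `x i` -/
def IsPt {ι : Type} (h : ℤ → S → Prop) (x : ι → S) (Q : Ideal S) : Prop :=
  IsHom h Q ∧ Q.IsPrime ∧ ∃ i, x i ∉ Q

/-- the integral closed subscheme `V(Q)` is a curve, that is, it has dimension one -/
def IsCurve {ι : Type} (h : ℤ → S → Prop) (x : ι → S) (Q : Ideal S) : Prop :=
  IsPt h x Q ∧ (∃ Q', IsPt h x Q' ∧ Q < Q') ∧ ¬ ∃ Q' Q'', IsPt h x Q' ∧ IsPt h x Q'' ∧ Q < Q' ∧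
    Q' < Q''

/-- `N` is nef on `V(I)`: non-negative degree `h^0 (V(Q), N (b)) - h^0 (V(Q), O (b))`, `b` large, on
all integral curves `V(Q)` in `V(I)` -/
def IsNef (k : Type u) [Field k] [Algebra k S] {ι : Type} (h : ℤ → S → Prop) (x : ι → S)
    (D : Bun S α) (I : Ideal S) : Prop :=
  ∀ Q : Ideal S, IsCurve h x Q → I ≤ Q → ∃ b₀ : ℤ, ∀ b, b₀ ≤ b → ∀ r,
    HasSec k h (pow D 0) Q b r → HasSec k h D Q b r

end general


/-- `f` is homogeneous of degree `n` -/
def Hom (A : Type u) [CommRing A] (N : ℕ) (n : ℤ) (f : MvPolynomial (Fin N) A) : Prop :=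
  ∀ d ∈ f.support, (∑ i, (d i : ℤ)) = n

/-- `v` is homogeneous of degree `n` in `A[x] ^ r`, the basis vector `j` having degree `e j` -/
def HomV (A : Type u) [CommRing A] (N : ℕ) {r : ℕ} (e : Fin r → ℤ) (n : ℤ)
    (v : Fin r → MvPolynomial (Fin N) A) : Prop :=
  ∀ j, Hom A N (n - e j) (v j)

/-- base change of a submodule of `A[x] ^ r` -/
noncomputable def baseW {A k : Type u} [CommRing A] [CommRing k] (ψ : A →+* k) {N r : ℕ}
    (W : Submodule (MvPolynomial (Fin N) A) (Fin r → MvPolynomial (Fin N) A)) :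
    Submodule (MvPolynomial (Fin N) k) (Fin r → MvPolynomial (Fin N) k) :=
  Submodule.span _ {y | ∃ v ∈ W, ∀ j, y j = MvPolynomial.map ψ (v j)}

end Pool.Agent.Lib.MP_0b721b_ag.St
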