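import Pool.Agent.Lib.MP_0b721b_ag.Main
import Pool.Agent.Lib.MP_0b721b_ag.St

/-!
The bridge between the statement layer and the library.
-/

namespace Pool.Agent.Lib.MP_0b721b_ag.St

open MvPolynomial

universe u

section basic

variable {A : Type u} [CommRing A] {N : ℕ}

theorem hom_iff {n : ℤ} {f : MvPolynomial (Fin N) A} :
    Hom A N n f ↔ (polyGr A (fun _ : Fin N => (1 : ℤ))).Hom n f := by
  rw [polyGr_hom_iff]
  unfold Hom IsWeightedHomogeneous
  refine forall_congr' fun d => ?_
  rw [mem_support_iff]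
  refine imp_congr_right fun _ => ?_
  rw [Finsupp.weight_apply, Finsupp.sum_fintype _ _ (by intro i; simp)]
  simp

theorem homV_iff {n : ℤ} {r : ℕ} {e : Fin r → ℤ} {v : Fin r → MvPolynomial (Fin N) A} :
    HomV A N e n v ↔ (freeGr A (fun _ : Fin N => (1 : ℤ)) e).Hom n v := by
  unfold HomV
  constructor
  · intro h
    funext j
    exact hom_iff.1 (h j)
  · intro h j
    exact hom_iff.2 (congrFun h j)

/-- homogeneous submodules, in the two forms -/
theorem isHom_of_sub {S : Type u} [CommRing S] {V : Type u} [AddCommGroup V] [Module S V]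
    {h : ℤ → V → Prop} {g : Gr V} (hg : ∀ n m, h n m ↔ g.Hom n m) {W : Submodule S V}
    (hW : g.Sub W) : IsHom h W := by
  intro m hm
  rw [← g.sum m]
  exact finsum_induction (fun y => y ∈ Submodule.span S _) (Submodule.zero_mem _)
    (fun _ _ h h' => Submodule.add_mem _ h h')
    (fun n => Submodule.subset_span ⟨hW n m hm, n, (hg n _).2 (g.hom_pr n m)⟩)

/-- a submodule generated by homogeneous elements is homogeneous -/
theorem sub_of_isHom {V : Type u} [AddCommGroup V] [Module (MvPolynomial (Fin N) A) V]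
    {h : ℤ → V → Prop} {g : Gr V} (hg : ∀ n m, h n m ↔ g.Hom n m)
    (hgm : GMod (A := A) (fun _ : Fin N => (1 : ℤ)) g)
    {W : Submodule (MvPolynomial (Fin N) A) V} (hW : IsHom h W) : g.Sub W := by
  intro n m hm
  have hm' := hW hm
  suffices H : ∀ x ∈ Submodule.span (MvPolynomial (Fin N) A) {m | m ∈ W ∧ ∃ n, h n m},
      ∀ n, g.pr n x ∈ W from H m hm' n
  intro x hx
  induction hx using Submodule.span_induction with
  | mem x hx =>
    obtain ⟨hxW, d, hd⟩ := hx
    intro n
    have hd' := (hg d x).1 hd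
    by_cases hn : n = d
    · subst hn
      unfold Gr.Hom at hd'
      rw [hd']
      exact hxW
    · unfold Gr.Hom at hd'
      rw [← hd', Gr.pr_ne _ _ _ hn]
      exact W.zero_mem
  | zero =>
    intro n
    rw [map_zero]
    exact W.zero_mem
  | add x y _ _ hx hy =>
    intro n
    rw [map_add]
    exact W.add_mem (hx n) (hy n)
  | smul a x _ hx =>
    intro n
    rw [p10c_pr_smul hgm]
    exact finsum_induction (fun y => y ∈ W) W.zero_mem (fun _ _ h h' => W.add_mem h h')
      (fun j => W.smul_mem _ (hx (n - j)))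

end basic

section dat

variable {S : Type u} [CommRing S] {α : Type}

/-- the data of the library -/
def toDat (D : Bun S α) : Dat S α := ⟨D.f, D.d, D.t, D.v⟩

theorem fJ_toDat (D : Bun S α) (J : Finset α) : (toDat D).fJ J = fJ D J := rfl

omit [CommRing S] in
theorem dJ_toDat (D : Bun S α) (J : Finset α) : (toDat D).dJ J = dJ D J := rfl

theorem pw_toDat (D : Bun S α) (b : ℕ) : (toDat D).pw b = toDat (pow D b) := rfl

theorem map_toDat {S' : Type u} [CommRing S'] (φ : S →+* S') (D : Bun S α) :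
    (toDat D).map φ = toDat (base φ D) := rfl

theorem prod_toDat {β : Type} (D : Bun S α) (E : Bun S β) :
    (toDat D).prod (toDat E) = toDat (tensor D E) := rfl

/-- fractions with a fixed exponent -/
def frHom {M : Type u} [AddCommGroup M] [Module S M] (s : S) (k : ℕ) : M →+ Loc s M :=
  AddMonoidHom.mk' (fun m => fr s m k) (fun a b => (fr_add a b k).symm)

variable [LinearOrder α] {V : Type u} [AddCommGroup V] [Module S V]

/-- the Cech differential by numerators -/
theorem dC_fr (D : Bun S α) {V : Type u} [AddCommGroup V] [Module S V] (k : ℕ)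
    (m : Finset α → V) (J : Finset α) :
    dC ((toDat D).tw V) (fun J => fr ((toDat D).fJ J) (m J) k) J =
      fr ((toDat D).fJ J) (del D k m J) (k + 2 * D.t) := by
  change _ = frHom ((toDat D).fJ J) (k + 2 * D.t) (del D k m J)
  unfold del
  rw [map_sum]
  unfold dC
  refine Finset.sum_congr rfl fun a ha => ?_
  by_cases h : (J.erase a).Nonempty
  · rw [dif_pos h, map_zsmul]
    unfold rs
    rw [dif_pos ⟨h, Finset.erase_subset _ _⟩]
    change sgn a J • _ = sgn a J • _
    congr 1
    have h1 : (toDat D).fJ (J \ J.erase a) = D.f a := by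
      unfold Dat.fJ
      have h2 : J \ J.erase a = {a} := by
        ext b
        rw [Finset.mem_sdiff, Finset.mem_erase, Finset.mem_singleton]
        constructor
        · rintro ⟨h3, h4⟩
          by_contra h5
          exact h4 ⟨h5, h3⟩
        · rintro rfl
          exact ⟨ha, fun h3 => h3.1 rfl⟩
      rw [h2, Finset.prod_singleton]
      rfl
    unfold Dat.tw Dat.U Dat.res
    rw [AddMonoidHom.comp_apply, locRes_fr, opm_fr, h1, smul_smul]
    rfl
  · rw [dif_neg h, map_zero]
    unfold rs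
    rw [dif_neg (fun h' => h h'.1), smul_zero]

/-- the differential is compatible with linear maps -/
theorem del_map (D : Bun S α) {V' : Type u} [AddCommGroup V'] [Module S V'] (φ : V →ₗ[S] V')
    (k : ℕ) (m : Finset α → V) (J : Finset α) :
    φ (del D k m J) = del D k (fun J => φ (m J)) J := by
  unfold del
  rw [map_sum]
  refine Finset.sum_congr rfl fun a _ => ?_
  split_ifs with h
  · rw [map_zsmul, map_smul]
  · exact map_zero _

/-- from fractions to numerators -/
theorem vanish_of_hv [Fintype α] {g : Gr V} {h : ℤ → V → Prop} (hg : ∀ n m, h n m ↔ g.Hom n m)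
    {D : Bun S α} {W : Submodule S V} (hW : g.Sub W) (hok : (toDat D).Ok (g.quot W hW)) {n : ℤ}
    {p : ℕ} (H : HV (toDat D) (g.quot W hW) n p) : Vanish h D W n p := by
  intro k m hm hc
  obtain ⟨w', hw1, hw2⟩ := H (fun J => fr ((toDat D).fJ J) (W.mkQ (m J)) k)
    (fun J => ⟨k, W.mkQ (m J), g.quot_hom W hW ((hg _ _).1 (hm J)), rfl⟩) (fun J hJ => by
      rw [dC_fr, fr_eq_zero, ← del_map]
      obtain ⟨e, he⟩ := hc J hJ
      refine ⟨e, ?_⟩
      rw [← map_smul, fJ_toDat]
      exact (Submodule.Quotient.mk_eq_zero W).2 he)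
  choose k' m' hm' hw' using hw1
  have hk : ∀ J, k' J ≤ ∑ J, k' J := fun J =>
    Finset.single_le_sum (f := k') (fun _ _ => Nat.zero_le _) (Finset.mem_univ J)
  have hx : ∀ J, ∃ v : V, h (n + ((∑ J, k' J : ℕ) : ℤ) * dJ D J) v ∧
      w' J = fr ((toDat D).fJ J) (W.mkQ v) (∑ J, k' J) := by
    intro J
    obtain ⟨c, hc'⟩ := Nat.exists_eq_add_of_le (hk J)
    have h2 : w' J = fr ((toDat D).fJ J) ((toDat D).fJ J ^ c • m' J) (∑ J, k' J) := by
      rw [hw' J, hc', fr_raise]
    have h3 : (g.quot W hW).Hom (n + ((∑ J, k' J : ℕ) : ℤ) * dJ D J)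
        ((toDat D).fJ J ^ c • m' J) := by
      have := ((hok.opJ J).pow c).hom (hm' J)
      rw [hc']
      push_cast
      convert this using 1
      rw [dJ_toDat]
      ring
    obtain ⟨v, hv⟩ := W.mkQ_surjective ((toDat D).fJ J ^ c • m' J)
    refine ⟨g.pr (n + ((∑ J, k' J : ℕ) : ℤ) * dJ D J) v, (hg _ _).2 (g.hom_pr _ _), ?_⟩
    rw [h2]
    congr 1
    unfold Gr.Hom at h3
    rw [← h3, ← hv]
    rfl
  choose w hw3 hw4 using hx
  refine ⟨∑ J, k' J, w, hw3, fun J hJ => ?_⟩
  have h5 := hw2 J hJ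
  have h6 : w' = fun J => fr ((toDat D).fJ J) (W.mkQ (w J)) (∑ J, k' J) := funext hw4
  rw [h6, dC_fr, fr_eq, ← del_map] at h5
  obtain ⟨j, hj⟩ := h5
  refine ⟨j, ?_⟩
  rw [← Submodule.Quotient.mk_eq_zero W]
  change W.mkQ _ = 0
  rw [smul_sub, _root_.map_sub, sub_eq_zero, smul_smul, smul_smul, ← pow_add, ← pow_add, map_smul,
    map_smul]
  exact hj.symm

end dat

section lb

variable {A : Type u} [CommRing A] {N : ℕ} {α : Type}

theorem isBun_iff {D : Bun (MvPolynomial (Fin N) A) α} {I : Ideal (MvPolynomial (Fin N) A)} :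
    IsBun (Hom A N) X D I ↔ (toDat D).Lb (fun _ => 1) I :=
  ⟨fun h => ⟨h.pos, fun a => hom_iff.1 (h.hf a), fun a b => hom_iff.1 (h.hv a b), h.self, h.cocy,
    h.cov⟩, fun h => ⟨h.pos, fun a => hom_iff.2 (h.hf a), fun a b => hom_iff.2 (h.hv a b), h.self,
    h.cocy, h.cov⟩⟩

theorem isSec_iff {D : Bun (MvPolynomial (Fin N) A) α} {I : Ideal (MvPolynomial (Fin N) A)}
    {n : ℤ} {T : ℕ} {m : α → MvPolynomial (Fin N) A} :
    IsSec (Hom A N) D I n T m ↔
      Pool.Agent.Lib.MP_0b721b_ag.IsSec (toDat D) (fun _ => 1) I T n m := by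
  constructor
  · rintro ⟨h1, h2⟩
    exact ⟨fun a => by rw [add_comm]; exact hom_iff.1 (h1 a), h2⟩
  · rintro ⟨h1, h2⟩
    exact ⟨fun a => by
      have := hom_iff.2 (h1 a)
      rw [add_comm] at this
      exact this, h2⟩

theorem isGen_iff {D : Bun (MvPolynomial (Fin N) A) α} {I : Ideal (MvPolynomial (Fin N) A)}
    {n : ℤ} : IsGen (Hom A N) D I n ↔ (toDat D).GG (fun _ => 1) I n := by
  constructor
  · rintro ⟨T, r, m, h1, h2⟩
    exact ⟨T, r, m, fun j => (isSec_iff.1 (h1 j)).hom, fun j => (isSec_iff.1 (h1 j)).comp, h2⟩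
  · rintro ⟨T, r, m, h1, h2, h3⟩
    exact ⟨T, r, m, fun j => isSec_iff.2 ⟨h1 j, h2 j⟩, h3⟩

theorem baseW_eq {k : Type u} [CommRing k] (ψ : A →+* k) {r : ℕ}
    (W : Submodule (MvPolynomial (Fin N) A) (Fin r → MvPolynomial (Fin N) A)) :
    baseW ψ W = bcS ψ W := by
  unfold baseW bcS
  congr 1
  ext y
  constructor
  · rintro ⟨v, hv, h⟩
    exact ⟨v, hv, (funext h).symm⟩
  · rintro ⟨v, hv, rfl⟩
    exact ⟨v, hv, fun j => rfl⟩

end lb

end Pool.Agent.Lib.MP_0b721b_ag.St
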