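import Pool.Agent.Lib.MP_0b721b_ag.StN

/-!
The main theorem in terms of the statement layer.
-/

namespace Pool.Agent.Lib.MP_0b721b_ag.St

open MvPolynomial

universe u

theorem polySub {A : Type u} [CommRing A] {N : ℕ} {I : Ideal (MvPolynomial (Fin N) A)}
    (hI : IsHom (Hom A N) I) : (polyGr A (fun _ : Fin N => (1 : ℤ))).Sub I :=
  sub_of_isHom (g := polyGr A (fun _ : Fin N => (1 : ℤ))) (fun _ _ => hom_iff)
    (polyGr_gmod _) hI

theorem freeSub {A : Type u} [CommRing A] {N r : ℕ} {e : Fin r → ℤ}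
    {W : Submodule (MvPolynomial (Fin N) A) (Fin r → MvPolynomial (Fin N) A)}
    (hW : IsHom (HomV A N e) W) : (freeGr A (fun _ : Fin N => (1 : ℤ)) e).Sub W :=
  sub_of_isHom (g := freeGr A (fun _ : Fin N => (1 : ℤ)) e) (fun _ _ => homV_iff)
    freeGr_gmod hW

/-- the fibre part -/
theorem fib {A : Type u} [CommRing A] {N : ℕ}
    {I : Ideal (MvPolynomial (Fin N) A)}
    {α : Type} [LinearOrder α] [Fintype α] {L : Bun (MvPolynomial (Fin N) A) α}
    (hL : (toDat L).Lb (fun _ => 1) I)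
    {r : ℕ} {e : Fin r → ℤ}
    {W : Submodule (MvPolynomial (Fin N) A) (Fin r → MvPolynomial (Fin N) A)}
    (hW : (freeGr A (fun _ : Fin N => (1 : ℤ)) e).Sub W)
    (hIW : ∀ a ∈ I, ∀ v : Fin r → MvPolynomial (Fin N) A, a • v ∈ W)
    {k : Type u} [Field k] (ψ : A →+* k) {β : Type} [LinearOrder β] [Fintype β]
    {M : Bun (MvPolynomial (Fin N) k) β}
    (hM : (toDat M).Lb (fun _ => 1) (I.map (MvPolynomial.map ψ))) {m p : ℕ}
    (hv : HV ((((toDat L).bc ψ).pw m).prod (toDat M))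
        ((freeGr k (fun _ => 1) e).quot (bcS ψ W) (bcS_sub ψ hW)) 0 p) :
    Vanish (HomV k N e) (tensor (pow (base (MvPolynomial.map ψ) L) m) M) (baseW ψ W) 0 p := by
  rw [baseW_eq]
  have hok : (toDat (tensor (pow (base (MvPolynomial.map ψ) L) m) M)).Ok
      ((freeGr k (fun _ => 1) e).quot (bcS ψ W) (bcS_sub ψ hW)) := by
    refine (((hL.map ψ).pw m).prod hM).ok (freeGr_gmod.quot _ _) fun a ha m => ?_
    obtain ⟨m, rfl⟩ := Submodule.Quotient.mk_surjective _ m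
    rw [← Submodule.Quotient.mk_smul, Submodule.Quotient.mk_eq_zero]
    exact p10b_bcS_kill ψ hIW ha m
  exact vanish_of_hv (D := tensor (pow (base (MvPolynomial.map ψ) L) m) M)
    (fun _ _ => homV_iff) (bcS_sub ψ hW) hok hv

theorem amp {A : Type u} [CommRing A] {N : ℕ} {I : Ideal (MvPolynomial (Fin N) A)}
    {α : Type} {L : Bun (MvPolynomial (Fin N) A) α} {B : Type u} [CommRing B] (ψ : A →+* B)
    (h : IsAmple (Hom B N) (base (MvPolynomial.map ψ) L) (I.map (MvPolynomial.map ψ))) :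
    ∃ r : ℕ, 1 ≤ r ∧ (((toDat L).bc ψ).pw r).GG (fun _ => 1)
        (I.map (MvPolynomial.map ψ)) (-1) := by
  obtain ⟨r, hr, hg⟩ := h
  refine ⟨r, hr, ?_⟩
  have h2 := isGen_iff.1 hg
  exact h2

/-- Uniform Fujita vanishing. -/
theorem final {A : Type u} [CommRing A] [IsNoetherianRing A] {N : ℕ}
    (I : Ideal (MvPolynomial (Fin N) A)) (hI : IsHom (Hom A N) I)
    {α : Type} [LinearOrder α] [Fintype α] (L : Bun (MvPolynomial (Fin N) A) α)
    (hL : IsBun (Hom A N) MvPolynomial.X L I)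
    (hample : ∀ s : PrimeSpectrum A, IsAmple (Hom s.asIdeal.ResidueField N)
      (base (MvPolynomial.map (algebraMap A s.asIdeal.ResidueField)) L)
      (I.map (MvPolynomial.map (algebraMap A s.asIdeal.ResidueField))))
    {r : ℕ} (e : Fin r → ℤ)
    (W : Submodule (MvPolynomial (Fin N) A) (Fin r → MvPolynomial (Fin N) A))
    (hW : IsHom (HomV A N e) W)
    (hIW : ∀ a ∈ I, ∀ v : Fin r → MvPolynomial (Fin N) A, a • v ∈ W) :
    ∃ m₀ : ℕ, ∀ (k : Type u) [Field k] (ψ : A →+* k) (β : Type) [LinearOrder β] [Fintype β]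
      (M : Bun (MvPolynomial (Fin N) k) β),
      IsBun (Hom k N) MvPolynomial.X M (I.map (MvPolynomial.map ψ)) →
      IsNef k (Hom k N) MvPolynomial.X M (I.map (MvPolynomial.map ψ)) →
      ∀ m, m₀ ≤ m → ∀ p, 1 ≤ p →
      Vanish (HomV k N e) (tensor (pow (base (MvPolynomial.map ψ) L) m) M) (baseW ψ W) 0 p := by
  have hL' := isBun_iff.1 hL
  obtain ⟨m₀, h⟩ := main I (polySub hI) (toDat L) hL' (fun s => amp _ (hample s)) e W
    (freeSub hW) hIW
  refine ⟨m₀, fun k _ ψ β _ _ M hM hnef m hm p hp => ?_⟩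
  have hM' := isBun_iff.1 hM
  exact fib hL' (freeSub hW) hIW ψ hM' (h k ψ β (toDat M) hM' (nef_of_isNef hM' hnef) m hm p hp)

end Pool.Agent.Lib.MP_0b721b_ag.St
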