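import Pool.Agent.Lib.MP_0b721b_ag.StB
import Pool.Agent.Lib.MP_0b721b_ag.Kl.Sd
import Pool.Agent.Lib.MP_0b721b_ag.Kl.Sc2
import Pool.Agent.Lib.MP_0b721b_ag.Kl.Hf0
import Pool.Agent.Lib.MP_0b721b_ag.Kl.F7

/-!
The bridge between the statement layer and the library: nef line bundles.
-/

namespace Pool.Agent.Lib.MP_0b721b_ag.St

open MvPolynomial Finset

universe u

section secs

variable {k : Type*} [Field k] {S : Type*} [CommRing S] [Algebra k S] {α : Type*} [LinearOrder α]
  {M : Type*} [AddCommGroup M] [Module S M] [Module k M] [IsScalarTower k S M]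
  {D : Dat S α} {g : Gr M}

/-- the space of global sections of degree `n` -/
def secsSub (h : D.Ok g) (hl : Kl.GLin k g) (n : ℤ) :
    Submodule k (∀ a : α, Loc (D.fJ {a}) M) where
  carrier := Kl.secs D g n
  zero_mem' := Kl.secs_iff.2 ⟨fun a => Kl.ldeg_zero _ _ _ _, fun a b _ => by
    rw [Pi.zero_apply, Pi.zero_apply, map_zero, map_zero]⟩
  add_mem' := by
    intro z z' h1 h2
    rw [Kl.secs_iff] at h1 h2 ⊢
    refine ⟨fun a => (locDeg g (h.opJ {a}) n).add_mem (h1.1 a) (h2.1 a), fun a b hab => ?_⟩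
    rw [Pi.add_apply, Pi.add_apply, map_add, map_add, h1.2 a b hab, h2.2 a b hab]
  smul_mem' := by
    intro c z h1
    rw [Kl.secs_iff] at h1 ⊢
    refine ⟨fun a => Kl.ldeg_smul hl (h1.1 a) c, fun a b hab => ?_⟩
    rw [Pi.smul_apply, Pi.smul_apply, Kl.tw_csmul, Kl.tw_csmul, h1.2 a b hab]

theorem span_secs (h : D.Ok g) (hl : Kl.GLin k g) (n : ℤ) :
    Submodule.span k (Kl.secs D g n) = secsSub h hl n := Submodule.span_eq (secsSub h hl n)

theorem secsSub_finite (h : D.Ok g) (hl : Kl.GLin k g) (n : ℤ) (hf : HF k D g n 0) :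
    Module.Finite k (secsSub h hl n) := by
  let : ∀ J, Module k (h.G D n J) := fun J => Kl.modDeg hl (h.opJ J) n
  have := Kl.H0_finite h hl n hf
  let e : H0 k (Kl.lin_rho h hl n) ≃ₗ[k] secsSub h hl n :=
    { toFun := fun z => ⟨fun a => (z.1 a).1, Kl.secs_iff.2 ⟨fun a => (z.1 a).2, fun a b hab =>
        congrArg Subtype.val (z.2 a b hab)⟩⟩
      map_add' := fun z z' => rfl
      map_smul' := fun c z => rfl
      invFun := fun w => ⟨fun a => ⟨w.1 a, (Kl.secs_iff.1 w.2).1 a⟩, fun a b hab =>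
        Subtype.ext ((Kl.secs_iff.1 w.2).2 a b hab)⟩
      left_inv := fun z => rfl
      right_inv := fun w => rfl }
  exact Module.Finite.equiv e

end secs

section nef

variable {k : Type u} [Field k] {N : ℕ} {α : Type} [LinearOrder α]
  {D : Bun (MvPolynomial (Fin N) k) α} {Q : Ideal (MvPolynomial (Fin N) k)}

/-- the family of fractions of a family of numerators -/
noncomputable def fam (D : Bun (MvPolynomial (Fin N) k) α) (Q : Ideal (MvPolynomial (Fin N) k)) (T : ℕ)
    (m : α → MvPolynomial (Fin N) k) (a : α) :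
    Loc ((toDat D).fJ {a}) (MvPolynomial (Fin N) k ⧸ Q) :=
  fr _ (Submodule.Quotient.mk (m a)) T

theorem fam_sum {r : ℕ} (T : ℕ) (m : Fin r → α → MvPolynomial (Fin N) k) (c : Fin r → k) :
    ∑ i, c i • fam D Q T (m i) = fam D Q T (fun a => ∑ i, c i • m i a) := by
  funext a
  rw [Finset.sum_apply]
  change ∑ i, c i • fr _ _ T = fr _ (Submodule.Quotient.mk _) T
  have h1 : (Submodule.Quotient.mk (∑ i, c i • m i a) : MvPolynomial (Fin N) k ⧸ Q) =
      ∑ i, c i • Submodule.Quotient.mk (m i a) := by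
    change Q.mkQ _ = _
    rw [map_sum]
    rfl
  rw [h1]
  change _ = frHom _ T _
  rw [map_sum]
  refine Finset.sum_congr rfl fun i _ => ?_
  rw [smul_fr]
  rfl

theorem fam_zero_iff (T : ℕ) (m : α → MvPolynomial (Fin N) k) :
    fam D Q T m = 0 ↔ ∀ a, ∃ e : ℕ, D.f a ^ e * m a ∈ Q := by
  rw [funext_iff]
  refine forall_congr' fun a => ?_
  change fr _ _ T = 0 ↔ _
  rw [fr_eq_zero]
  refine exists_congr fun e => ?_
  rw [← Submodule.Quotient.mk_smul, Submodule.Quotient.mk_eq_zero, smul_eq_mul, fJ_singleton]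
  rfl

variable [Fintype α]

theorem fam_mem (hD : (toDat D).Lb (fun _ => 1) Q)
    (hQ : (polyGr k (fun _ : Fin N => (1 : ℤ))).Sub Q) {n : ℤ} {T : ℕ}
    {m : α → MvPolynomial (Fin N) k} (h : IsSec (Hom k N) D Q n T m) :
    fam D Q T m ∈ Kl.secs (toDat D) (cyc (fun _ => 1) Q hQ) n := by
  have h1 := isSec_iff.1 h
  rw [Kl.secs_iff]
  refine ⟨fun a => ⟨T, Submodule.Quotient.mk (m a), ?_, rfl⟩, fun a b hab => h1.cpt hD a b hab _ _⟩
  have h2 := h1.hom a
  rw [dJ_singleton, add_comm]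
  exact (polyGr k (fun _ : Fin N => (1 : ℤ))).quot_hom Q hQ h2

/-- linearly independent sections bound `h0` from below -/
theorem le_h0 (hD : (toDat D).Lb (fun _ => 1) Q)
    (hQ : (polyGr k (fun _ : Fin N => (1 : ℤ))).Sub Q) {n : ℤ} {r : ℕ}
    (h : HasSec k (Hom k N) D Q n r) : r ≤ h0 (toDat D) (fun _ => 1) Q hQ n := by
  obtain ⟨T, m, h1, h2⟩ := h
  have hok := hD.okc hQ
  have hl := Kl.cyc_glin hQ
  rw [Kl.h0_eq, span_secs hok hl]
  have hfin : HF k (toDat D) (cyc (fun _ => 1) Q hQ) n 0 :=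
    hf_tw0 (fun _ => one_pos) hQ hD (cyc_gmod hQ) (fun a ha m => by
      obtain ⟨m, rfl⟩ := Submodule.Quotient.mk_surjective Q m
      rw [← Submodule.Quotient.mk_smul, Submodule.Quotient.mk_eq_zero]
      exact Q.mul_mem_right _ ha) n
  have := secsSub_finite hok hl n hfin
  have hli : LinearIndependent k (fun i => (⟨fam D Q T (m i), fam_mem hD hQ (h1 i)⟩ :
      secsSub hok hl n)) := by
    rw [Fintype.linearIndependent_iff]
    intro c hc
    have h3 : ∑ i, c i • fam D Q T (m i) = 0 := by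
      have := congrArg (secsSub hok hl n).subtype hc
      rw [map_sum] at this
      exact this
    rw [fam_sum, fam_zero_iff] at h3
    exact congrFun (h2 c h3)
  have h4 := hli.fintype_card_le_finrank
  rwa [Fintype.card_fin] at h4

/-- there are `h0` linearly independent sections -/
theorem hasSec_h0 (hD : (toDat D).Lb (fun _ => 1) Q)
    (hQ : (polyGr k (fun _ : Fin N => (1 : ℤ))).Sub Q) (n : ℤ) :
    HasSec k (Hom k N) D Q n (h0 (toDat D) (fun _ => 1) Q hQ n) := by
  have hok := hD.okc hQ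
  have hl := Kl.cyc_glin hQ
  rw [Kl.h0_eq, span_secs hok hl]
  have hfin : HF k (toDat D) (cyc (fun _ => 1) Q hQ) n 0 :=
    hf_tw0 (fun _ => one_pos) hQ hD (cyc_gmod hQ) (fun a ha m => by
      obtain ⟨m, rfl⟩ := Submodule.Quotient.mk_surjective Q m
      rw [← Submodule.Quotient.mk_smul, Submodule.Quotient.mk_eq_zero]
      exact Q.mul_mem_right _ ha) n
  have := secsSub_finite hok hl n hfin
  let b := Module.finBasis k (secsSub hok hl n)
  have h1 : ∀ i, ∃ (T : ℕ) (ε : α → MvPolynomial (Fin N) k),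
      Pool.Agent.Lib.MP_0b721b_ag.IsSec (toDat D) (fun _ => 1) Q T n ε ∧ (b i).1 = fam D Q T ε := by
    intro i
    have h2 := Kl.secs_iff.1 (b i).2
    obtain ⟨T, ε, -, h3, h4⟩ := exists_isSec hQ hD (b i).1 h2.1
      (fun a b' hab _ _ => h2.2 a b' hab) 0
    exact ⟨T, ε, h3, funext h4⟩
  choose T ε hε hb using h1
  have hle : ∀ i, ∃ c, ∑ i, T i = T i + c := fun i => Nat.exists_eq_add_of_le
    (Finset.single_le_sum (f := T) (fun _ _ => Nat.zero_le _) (Finset.mem_univ i))
  choose c hc using hle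
  have hb' : ∀ i, (b i).1 = fam D Q (∑ i, T i) (fun a => D.f a ^ c i * ε i a) := by
    intro i
    rw [hb i]
    funext a
    change fr _ (Submodule.Quotient.mk (ε i a)) (T i) =
      fr _ (Submodule.Quotient.mk (D.f a ^ c i * ε i a)) (∑ i, T i)
    rw [hc i, ← smul_eq_mul, Submodule.Quotient.mk_smul,
      show D.f a = (toDat D).fJ {a} from (fJ_singleton (toDat D) a).symm, fr_raise]
  refine ⟨∑ i, T i, fun i a => D.f a ^ c i * ε i a, fun i => isSec_iff.2 ?_, fun x hx => ?_⟩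
  · rw [hc i]
    exact (hε i).raise hD.hf (c i)
  · rw [← fam_zero_iff (D := D) (Q := Q) (∑ i, T i), ← fam_sum] at hx
    have h5 : ∑ i, x i • b i = 0 := by
      apply Subtype.ext
      change (secsSub hok hl n).subtype _ = 0
      rw [map_sum, ← hx]
      refine Finset.sum_congr rfl fun i _ => ?_
      rw [← hb' i]
      rfl
    exact funext (Fintype.linearIndependent_iff.1 b.linearIndependent x h5)

theorem isPt_iff : IsPt (Hom k N) X Q ↔ RelPrime (fun _ => 1) Q :=
  and_congr_left fun _ => ⟨fun h => sub_of_isHom (fun _ _ => hom_iff) (polyGr_gmod _) h,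
    fun h => isHom_of_sub (fun _ _ => hom_iff) h⟩

theorem isCurve_iff : IsCurve (Hom k N) X Q ↔
    Pool.Agent.Lib.MP_0b721b_ag.IsCurve (fun _ => 1) Q := by
  unfold IsCurve Pool.Agent.Lib.MP_0b721b_ag.IsCurve
  simp only [isPt_iff]

/-- nef line bundles -/
theorem nef_of_isNef {I : Ideal (MvPolynomial (Fin N) k)} (hD : (toDat D).Lb (fun _ => 1) I)
    (h : IsNef k (Hom k N) X D I) : Nef (toDat D) (fun _ => 1) I := by
  intro Q hQ hIQ
  obtain ⟨b₀, hb⟩ := h Q (isCurve_iff.2 hQ) hIQ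
  have hD' := hD.mono hIQ
  exact ⟨b₀, fun b hb' => le_h0 hD' hQ.1.1 (hb b hb' _ (hasSec_h0 (D := pow D 0) (hD'.pw 0)
    hQ.1.1 b))⟩

end nef

end Pool.Agent.Lib.MP_0b721b_ag.St
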