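import Pool.Agent.Lib.MP_0b721b_ag.Gr
import Pool.Agent.Lib.MP_0b721b_ag.Fin

/-!
Twisted Cech complexes: a finite cover by the `D(f a)`, and a line bundle given by the transition
functions `u a b = v a b / (f a * f b) ^ t`.
-/

namespace Pool.Agent.Lib.MP_0b721b_ag

open Finset

/-- a cover `f` with degrees `d`, and transition functions `v a b / (f a * f b) ^ t` -/
structure Dat (S : Type*) (α : Type*) where
  /-- the functions of the cover -/
  f : α → S
  /-- their degrees -/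
  d : α → ℤ
  /-- exponent of the denominators of the transition functions -/
  t : ℕ
  /-- numerators of the transition functions -/
  v : α → α → S

section dat

variable {S : Type*} [CommRing S] {α : Type*} [LinearOrder α] (D : Dat S α)

/-- the product of the `f a`, `a ∈ J` -/
def Dat.fJ (J : Finset α) : S := ∏ a ∈ J, D.f a

/-- the degree of `fJ J` -/
def Dat.dJ (J : Finset α) : ℤ := ∑ a ∈ J, D.d a

theorem Dat.fJ_erase {J : Finset α} {a : α} (ha : a ∈ J) : D.f a * D.fJ (J.erase a) = D.fJ J :=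
  Finset.mul_prod_erase J D.f ha

omit [CommRing S] in
theorem Dat.dJ_erase {J : Finset α} {a : α} (ha : a ∈ J) : D.d a + D.dJ (J.erase a) = D.dJ J :=
  Finset.add_sum_erase J D.d ha

theorem Dat.fJ_sdiff {J J' : Finset α} (h : J ⊆ J') : D.fJ J * D.fJ (J' \ J) = D.fJ J' := by
  rw [mul_comm]
  exact Finset.prod_sdiff h

omit [CommRing S] in
theorem Dat.dJ_sdiff {J J' : Finset α} (h : J ⊆ J') : D.dJ J + D.dJ (J' \ J) = D.dJ J' := by
  rw [add_comm]
  exact Finset.sum_sdiff h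

/-- what `D` must satisfy on a graded module for its twisted Cech complex to make sense -/
structure Dat.Ok {M : Type*} [AddCommGroup M] [Module S M] (g : Gr M) : Prop where
  opf : ∀ a, g.Op (D.f a) (D.d a)
  opv : ∀ a b, g.Op (D.v a b) (D.t * (D.d a + D.d b))
  self : ∀ (a : α) (m : M), ∃ e : ℕ, D.f a ^ e • D.v a a • m = D.f a ^ e • D.f a ^ (2 * D.t) • m
  cocy : ∀ (a b c : α) (m : M), ∃ e : ℕ, (D.f a * D.f b * D.f c) ^ e • (D.v a b * D.v b c) • m =
    (D.f a * D.f b * D.f c) ^ e • (D.v a c * D.f b ^ (2 * D.t)) • m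

variable {M : Type*} [AddCommGroup M] [Module S M] {g : Gr M}

variable {D} in
omit [LinearOrder α] in
theorem Dat.Ok.opJ (h : D.Ok g) (J : Finset α) : g.Op (D.fJ J) (D.dJ J) :=
  Gr.Op.prod fun a _ => h.opf a

/-- multiplication by the transition function from the trivialisation `b` to `a`, over `J` -/
def Dat.U (M : Type*) [AddCommGroup M] [Module S M] (J : Finset α) (a b : α) :
    Loc (D.fJ J) M →+ Loc (D.fJ J) M :=
  opm (D.fJ J) (D.v a b * (D.fJ (J.erase a) * D.fJ (J.erase b)) ^ D.t) (2 * D.t)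

/-- the restriction from `J` to `J'` without twist -/
def Dat.res (M : Type*) [AddCommGroup M] [Module S M] {J J' : Finset α} (h : J ⊆ J') :
    Loc (D.fJ J) M →+ Loc (D.fJ J') M :=
  locRes (D.fJ J) (D.fJ (J' \ J)) (D.fJ J') (D.fJ_sdiff h)

/-- the restriction from `J` to `J'` of sections of the twisted sheaf, a section over `J` being
given in the trivialisation of the smallest element of `J` -/
def Dat.tw (M : Type*) [AddCommGroup M] [Module S M] (J J' : Finset α) (h : J.Nonempty)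
    (hs : J ⊆ J') : Loc (D.fJ J) M →+ Loc (D.fJ J') M :=
  (D.U M J' (J'.min' (h.mono hs)) (J.min' h)).comp (D.res M hs)

theorem Dat.fJ_sdiff_mul {J J' J'' : Finset α} (h : J ⊆ J') (h' : J' ⊆ J'') :
    D.fJ (J' \ J) * D.fJ (J'' \ J') = D.fJ (J'' \ J) := by
  unfold Dat.fJ
  rw [← Finset.prod_union]
  · refine Finset.prod_congr ?_ fun _ _ => rfl
    ext x
    simp only [Finset.mem_union, Finset.mem_sdiff]
    constructor
    · rintro (⟨h1, h2⟩ | ⟨h1, h2⟩)
      · exact ⟨h' h1, h2⟩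
      · exact ⟨h1, fun h3 => h2 (h h3)⟩
    · rintro ⟨h1, h2⟩
      by_cases h3 : x ∈ J'
      · exact Or.inl ⟨h3, h2⟩
      · exact Or.inr ⟨h1, h3⟩
  · rw [Finset.disjoint_left]
    intro x hx hx'
    exact (Finset.mem_sdiff.1 hx').2 (Finset.mem_sdiff.1 hx).1

theorem Dat.fJ_sdiff_erase {J J' : Finset α} (h : J ⊆ J') {a : α} (ha : a ∈ J) :
    D.fJ (J' \ J) * D.fJ (J.erase a) = D.fJ (J'.erase a) := by
  unfold Dat.fJ
  rw [← Finset.prod_union]
  · refine Finset.prod_congr ?_ fun _ _ => rfl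
    ext x
    simp only [Finset.mem_union, Finset.mem_sdiff, Finset.mem_erase]
    constructor
    · rintro (⟨h1, h2⟩ | ⟨h1, h2⟩)
      · exact ⟨fun h3 => h2 (h3 ▸ ha), h1⟩
      · exact ⟨h1, h h2⟩
    · rintro ⟨h1, h2⟩
      by_cases h3 : x ∈ J
      · exact Or.inr ⟨h1, h3⟩
      · exact Or.inl ⟨h2, h3⟩
  · rw [Finset.disjoint_left]
    intro x hx hx'
    exact (Finset.mem_sdiff.1 hx).2 (Finset.mem_of_mem_erase hx')

theorem Dat.res_res {J J' J'' : Finset α} (h : J ⊆ J') (h' : J' ⊆ J'') (z : Loc (D.fJ J) M) :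
    D.res M h' (D.res M h z) = D.res M (h.trans h') z := by
  obtain ⟨m, k, rfl⟩ := fr_surj z
  unfold Dat.res
  rw [locRes_locRes, locRes_fr, locRes_fr, D.fJ_sdiff_mul h h']

theorem Dat.res_U {J J' : Finset α} (h : J ⊆ J') {a b : α} (ha : a ∈ J) (hb : b ∈ J)
    (z : Loc (D.fJ J) M) : D.res M h (D.U M J a b z) = D.U M J' a b (D.res M h z) := by
  unfold Dat.U Dat.res
  rw [locRes_opm, ← D.fJ_sdiff_erase h ha, ← D.fJ_sdiff_erase h hb]
  congr 2
  ring

theorem Dat.Ok.U_U (h : D.Ok g) {J : Finset α} {a b c : α} (ha : a ∈ J) (hb : b ∈ J) (hc : c ∈ J)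
    (z : Loc (D.fJ J) M) : D.U M J a b (D.U M J b c z) = D.U M J a c z := by
  unfold Dat.U
  rw [opm_opm]
  refine opm_eq _ (fun m => ?_) z
  obtain ⟨e, he⟩ := h.cocy a b c m
  refine ⟨3 * e, ?_⟩
  have hA := D.fJ_erase ha
  have hB := D.fJ_erase hb
  have hC := D.fJ_erase hc
  set F := D.fJ J
  set A := D.fJ (J.erase a)
  set B := D.fJ (J.erase b)
  set C := D.fJ (J.erase c)
  have e3 : F ^ (3 * e) = (A * B * C) ^ e * (D.f a * D.f b * D.f c) ^ e := by
    rw [← mul_pow, pow_mul]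
    congr 1
    rw [show A * B * C * (D.f a * D.f b * D.f c) = (D.f a * A) * (D.f b * B) * (D.f c * C) by ring,
      hA, hB, hC]
    ring
  have e1 : F ^ (3 * e + 2 * D.t) * (D.v a b * (A * B) ^ D.t * (D.v b c * (B * C) ^ D.t)) =
      ((A * B * C) ^ e * F ^ (2 * D.t) * (A * B) ^ D.t * (B * C) ^ D.t) *
        ((D.f a * D.f b * D.f c) ^ e * (D.v a b * D.v b c)) := by
    rw [pow_add, e3]
    ring
  have e2 : F ^ (3 * e + (2 * D.t + 2 * D.t)) * (D.v a c * (A * C) ^ D.t) =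
      ((A * B * C) ^ e * F ^ (2 * D.t) * (A * B) ^ D.t * (B * C) ^ D.t) *
        ((D.f a * D.f b * D.f c) ^ e * (D.v a c * D.f b ^ (2 * D.t))) := by
    rw [pow_add, e3, pow_add]
    have : F ^ (2 * D.t) * (D.v a c * (A * C) ^ D.t) =
        (A * B) ^ D.t * (B * C) ^ D.t * (D.v a c * D.f b ^ (2 * D.t)) := by
      conv_lhs => rw [← hB]
      ring
    calc _ = (A * B * C) ^ e * (D.f a * D.f b * D.f c) ^ e * F ^ (2 * D.t) *
          (F ^ (2 * D.t) * (D.v a c * (A * C) ^ D.t)) := by ring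
      _ = _ := by
        rw [this]
        ring
  rw [smul_smul, smul_smul, e1, e2,
    mul_smul ((A * B * C) ^ e * F ^ (2 * D.t) * (A * B) ^ D.t * (B * C) ^ D.t),
    mul_smul ((A * B * C) ^ e * F ^ (2 * D.t) * (A * B) ^ D.t * (B * C) ^ D.t)]
  congr 1
  rw [mul_smul, he, ← mul_smul]

theorem Dat.Ok.U_self (h : D.Ok g) {J : Finset α} {a : α} (ha : a ∈ J)
    (z : Loc (D.fJ J) M) : D.U M J a a z = z := by
  unfold Dat.U
  conv_rhs => rw [← opm_one (D.fJ J) z]
  refine opm_eq _ (fun m => ?_) z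
  obtain ⟨e, he⟩ := h.self a m
  refine ⟨e, ?_⟩
  have hA := D.fJ_erase ha
  set F := D.fJ J
  set A := D.fJ (J.erase a)
  have e1 : F ^ (e + 0) * (D.v a a * (A * A) ^ D.t) =
      (A ^ e * (A * A) ^ D.t) * (D.f a ^ e * D.v a a) := by
    rw [← hA]
    ring
  have e2 : F ^ (e + 2 * D.t) * 1 =
      (A ^ e * (A * A) ^ D.t) * (D.f a ^ e * D.f a ^ (2 * D.t)) := by
    rw [← hA]
    ring
  rw [smul_smul, smul_smul, e1, e2, mul_smul (A ^ e * (A * A) ^ D.t),
    mul_smul (A ^ e * (A * A) ^ D.t)]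
  congr 1
  rw [mul_smul, he, ← mul_smul]

theorem Dat.Ok.fct (h : D.Ok g) : Fct (fun J J' h hs => D.tw M J J' h hs) := by
  intro J J' J'' h0 h0' hs hs' z
  have h0'' : J''.Nonempty := h0'.mono hs'
  change D.U M J'' _ _ (D.res M hs' (D.U M J' _ _ (D.res M hs z))) =
    D.U M J'' _ _ (D.res M (hs.trans hs') z)
  rw [D.res_U hs' (Finset.min'_mem _ _) (hs (Finset.min'_mem _ _)), D.res_res]
  exact h.U_U D (Finset.min'_mem _ _) (hs' (Finset.min'_mem _ _))
    (hs' (hs (Finset.min'_mem _ _))) _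

theorem Dat.Ok.lDeg_U (h : D.Ok g) {J : Finset α} {a b : α} (ha : a ∈ J) (hb : b ∈ J) {n : ℤ}
    {z : Loc (D.fJ J) M} (hz : LDeg g (D.fJ J) (D.dJ J) n z) :
    LDeg g (D.fJ J) (D.dJ J) n (D.U M J a b z) := by
  have hw : g.Op (D.v a b * (D.fJ (J.erase a) * D.fJ (J.erase b)) ^ D.t)
      (D.t * (D.d a + D.d b) + D.t * (D.dJ (J.erase a) + D.dJ (J.erase b))) :=
    (h.opv a b).mul (((h.opJ _).mul (h.opJ _)).pow D.t)
  have := LDeg.opm (j := 2 * D.t) (h.opJ J) hw hz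
  have e : n + (D.t * (D.d a + D.d b) + D.t * (D.dJ (J.erase a) + D.dJ (J.erase b)) -
      (2 * D.t : ℕ) * D.dJ J) = n := by
    have h1 := D.dJ_erase ha
    have h2 := D.dJ_erase hb
    have h3 : D.dJ (J.erase b) = D.dJ J - D.d b := by
      rw [← h2]
      ring
    rw [← h1] at h3 ⊢
    rw [h3]
    push_cast
    ring
  rw [e] at this
  exact this

theorem Dat.Ok.lDeg_tw (h : D.Ok g) {J J' : Finset α} (h0 : J.Nonempty) (hs : J ⊆ J') {n : ℤ}
    {z : Loc (D.fJ J) M} (hz : LDeg g (D.fJ J) (D.dJ J) n z) :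
    LDeg g (D.fJ J') (D.dJ J') n (D.tw M J J' h0 hs z) := by
  refine h.lDeg_U D (Finset.min'_mem _ _) (hs (Finset.min'_mem _ _)) ?_
  have := LDeg.locRes (D.fJ_sdiff hs) (h.opJ (J' \ J)) hz
  rw [D.dJ_sdiff hs] at this
  exact this

/-- the sections over `J` of degree `n` -/
abbrev Dat.Ok.G (h : D.Ok g) (n : ℤ) (J : Finset α) : Type _ := ↥(locDeg g (h.opJ J) n)

/-- the twisted restriction in degree `n` -/
def Dat.Ok.ρ (h : D.Ok g) (n : ℤ) (J J' : Finset α) (h0 : J.Nonempty) (hs : J ⊆ J') :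
    h.G D n J →+ h.G D n J' :=
  ((D.tw M J J' h0 hs).comp (AddSubgroup.subtype _)).codRestrict _
    (fun z => h.lDeg_tw D h0 hs z.2)

theorem Dat.Ok.fctn (h : D.Ok g) (n : ℤ) : Fct (h.ρ D n) := by
  intro J J' J'' h0 h0' hs hs' z
  exact Subtype.ext (h.fct D J J' J'' h0 h0' hs hs' z.1)

end dat

end Pool.Agent.Lib.MP_0b721b_ag
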